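import Mathlib

/-! # MP_711652, CG: the abstract last step, counting form -/

set_option autoImplicit false

namespace Pool.Agent.H.MP_711652_nt.CG

open Finset

open Classical in
/-- PROOF. Let `G` be the set of the good points.  For every `ν` the points outside `G` contribute at most `K + (K + 3) C4 + √(C3 ε2)` to `∑ q Nh` (not bad: `Nh ≤ K + (K+3) Ph`; bad:
Cauchy-Schwarz), so `∑_G q Nh ≥ W g`.  The part with `Nh > T₀ = 2 C3 / g` is at most `W C3 / T₀ = W g / 2`, so `∑_G q ≥ W g / (2 T₀) = W g^2 / (4 C3)`; and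
`(∑_G q)^2 ≤ card G * ∑ q^2 ≤ card G * W C5 / N`. -/
theorem abs_cnt (W N K : ℕ) (q Nh Ph : ℕ → ℕ → ℝ) (bad : ℕ → ℕ → Prop)
    (ε2 C3 C4 C5 lam g : ℝ) (hW : 0 < W) (hN : 0 < N) (hC3 : 0 < C3) (hC5 : 0 < C5) (hg : 0 < g)
    (hq : ∀ ν < W, ∀ m < N, 0 ≤ q ν m) (hP : ∀ ν < W, ∀ m < N, 0 ≤ Ph ν m)
    (hNh : ∀ ν < W, ∀ m < N, 0 ≤ Nh ν m)
    (h1 : ∀ ν < W, ∑ m ∈ range N, q ν m ≤ 1)
    (h2 : ∀ ν < W, ∀ S ⊆ range N, (∀ m ∈ S, bad ν m) → ∑ m ∈ S, q ν m ≤ ε2)
    (h3 : ∀ ν < W, ∑ m ∈ range N, q ν m * Nh ν m ^ 2 ≤ C3)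
    (h4 : ∀ ν < W, ∑ m ∈ range N, q ν m * Ph ν m ≤ C4)
    (h5 : W * lam ≤ ∑ ν ∈ range W, ∑ m ∈ range N, q ν m * Nh ν m)
    (h6 : ∀ ν < W, ∑ m ∈ range N, q ν m ^ 2 ≤ C5 / N)
    (h : K + (K + 3) * C4 + Real.sqrt (C3 * ε2) + g ≤ lam) :
    g ^ 4 / (16 * C3 ^ 2 * C5) * (W * N) ≤
      (((range W ×ˢ range N).filter fun x => ¬ bad x.1 x.2 ∧
        K < Nh x.1 x.2 - (K + 3) * Ph x.1 x.2).card : ℝ) := by
  have hK : (0 : ℝ) ≤ K := Nat.cast_nonneg K
  have hWR : (0 : ℝ) < W := by exact_mod_cast hW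
  have hNR : (0 : ℝ) < N := by exact_mod_cast hN
  set P : ℕ → ℕ → Prop := fun ν m => ¬ bad ν m ∧ K < Nh ν m - (K + 3) * Ph ν m with hPdef
  set X : Finset (ℕ × ℕ) := (range W ×ˢ range N).filter fun x => ¬ bad x.1 x.2 ∧
        K < Nh x.1 x.2 - (K + 3) * Ph x.1 x.2 with hX
  have hsum : ∀ f : ℕ → ℕ → ℝ, ∑ x ∈ X, f x.1 x.2 =
      ∑ ν ∈ range W, ∑ m ∈ (range N).filter (P ν), f ν m := by
    intro f
    rw [hX, sum_filter, sum_product]
    refine sum_congr rfl fun ν _ => ?_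
    rw [sum_filter]
  have hXm : ∀ x ∈ X, x.1 < W ∧ x.2 < N := by
    intro x hx
    rw [hX, mem_filter, mem_product, mem_range, mem_range] at hx
    exact hx.1
  have key : ∀ ν < W, ∑ m ∈ range N, q ν m * Nh ν m ≤
      K + (K + 3) * C4 + Real.sqrt (C3 * ε2) + ∑ m ∈ (range N).filter (P ν), q ν m * Nh ν m := by
    intro ν hν
    rw [← sum_filter_add_sum_filter_not (range N) (P ν) (fun m => q ν m * Nh ν m),
      ← sum_filter_add_sum_filter_not ((range N).filter (fun m => ¬ P ν m)) (fun m => ¬ bad ν m)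
      (fun m => q ν m * Nh ν m)]
    have hgd : ∑ m ∈ ((range N).filter (fun m => ¬ P ν m)).filter (fun m => ¬ bad ν m),
        q ν m * Nh ν m ≤ K + (K + 3) * C4 := by
      have e1 : ∑ m ∈ ((range N).filter (fun m => ¬ P ν m)).filter (fun m => ¬ bad ν m),
          q ν m * Nh ν m ≤
          ∑ m ∈ ((range N).filter (fun m => ¬ P ν m)).filter (fun m => ¬ bad ν m),
            q ν m * (K + (K + 3) * Ph ν m) := by
        refine sum_le_sum fun m hm => ?_
        rw [mem_filter, mem_filter, mem_range] at hm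
        refine mul_le_mul_of_nonneg_left ?_ (hq ν hν m hm.1.1)
        have h7 : ¬ (¬ bad ν m ∧ (K : ℝ) < Nh ν m - (K + 3) * Ph ν m) := hm.1.2
        have h8 : ¬ ((K : ℝ) < Nh ν m - (K + 3) * Ph ν m) := fun h9 => h7 ⟨hm.2, h9⟩
        push Not at h8
        linarith
      have e2 : ∑ m ∈ ((range N).filter (fun m => ¬ P ν m)).filter (fun m => ¬ bad ν m),
          q ν m * (K + (K + 3) * Ph ν m) ≤
          ∑ m ∈ range N, q ν m * (K + (K + 3) * Ph ν m) := by
        refine sum_le_sum_of_subset_of_nonneg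
          ((filter_subset _ _).trans (filter_subset _ _)) fun m hm _ => ?_
        rw [mem_range] at hm
        refine mul_nonneg (hq ν hν m hm) ?_
        have := hP ν hν m hm
        positivity
      have e3 : ∑ m ∈ range N, q ν m * (K + (K + 3) * Ph ν m) =
          K * ∑ m ∈ range N, q ν m + (K + 3) * ∑ m ∈ range N, q ν m * Ph ν m := by
        rw [mul_sum, mul_sum, ← sum_add_distrib]
        refine sum_congr rfl fun m _ => ?_
        ring
      have e4 := mul_le_mul_of_nonneg_left (h1 ν hν) hK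
      have e5 := mul_le_mul_of_nonneg_left (h4 ν hν) (by linarith : (0 : ℝ) ≤ K + 3)
      linarith
    have hb : ∑ m ∈ ((range N).filter (fun m => ¬ P ν m)).filter (fun m => ¬ ¬ bad ν m),
        q ν m * Nh ν m ≤ Real.sqrt (C3 * ε2) := by
      refine Real.le_sqrt_of_sq_le ?_
      have hmem : ∀ m ∈ ((range N).filter (fun m => ¬ P ν m)).filter (fun m => ¬ ¬ bad ν m),
          m < N ∧ bad ν m := by
        intro m hm
        rw [mem_filter, mem_filter, mem_range] at hm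
        exact ⟨hm.1.1, not_not.1 hm.2⟩
      have hpos : ∀ m ∈ ((range N).filter (fun m => ¬ P ν m)).filter (fun m => ¬ ¬ bad ν m),
          0 ≤ q ν m := fun m hm => hq ν hν m (hmem m hm).1
      have e1 := sum_sq_le_sum_mul_sum_of_sq_le_mul
        (((range N).filter (fun m => ¬ P ν m)).filter (fun m => ¬ ¬ bad ν m))
        (r := fun m => q ν m * Nh ν m) (f := fun m => q ν m * Nh ν m ^ 2) (g := fun m => q ν m)
        (fun m hm => mul_nonneg (hpos m hm) (sq_nonneg _)) hpos (fun m _ => le_of_eq (by ring))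
      refine e1.trans ?_
      have e2 : ∑ m ∈ ((range N).filter (fun m => ¬ P ν m)).filter (fun m => ¬ ¬ bad ν m),
          q ν m ≤ ε2 := by
        refine h2 ν hν _ ((filter_subset _ _).trans (filter_subset _ _)) fun m hm => ?_
        exact (hmem m hm).2
      have e3 : ∑ m ∈ ((range N).filter (fun m => ¬ P ν m)).filter (fun m => ¬ ¬ bad ν m),
          q ν m * Nh ν m ^ 2 ≤ C3 := by
        refine le_trans ?_ (h3 ν hν)
        refine sum_le_sum_of_subset_of_nonneg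
          ((filter_subset _ _).trans (filter_subset _ _)) fun m hm _ => ?_
        rw [mem_range] at hm
        exact mul_nonneg (hq ν hν m hm) (sq_nonneg _)
      have e4 : 0 ≤ ∑ m ∈ ((range N).filter (fun m => ¬ P ν m)).filter (fun m => ¬ ¬ bad ν m),
          q ν m := sum_nonneg hpos
      have e5 : 0 ≤ ∑ m ∈ ((range N).filter (fun m => ¬ P ν m)).filter (fun m => ¬ ¬ bad ν m),
          q ν m * Nh ν m ^ 2 :=
        sum_nonneg fun m hm => mul_nonneg (hpos m hm) (sq_nonneg _)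
      exact mul_le_mul e3 e2 e4 (e5.trans e3)
    linarith
  -- the good points carry `W g`
  have hG1 : W * g ≤ ∑ x ∈ X, q x.1 x.2 * Nh x.1 x.2 := by
    rw [hsum fun ν m => q ν m * Nh ν m]
    have e1 : ∑ ν ∈ range W, ∑ m ∈ range N, q ν m * Nh ν m ≤
        ∑ ν ∈ range W, (K + (K + 3) * C4 + Real.sqrt (C3 * ε2) +
          ∑ m ∈ (range N).filter (P ν), q ν m * Nh ν m) :=
      sum_le_sum fun ν hν => key ν (mem_range.1 hν)
    rw [sum_add_distrib, sum_const, card_range, nsmul_eq_mul] at e1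
    have e2 := mul_le_mul_of_nonneg_left h hWR.le
    nlinarith
  -- splitting at `T₀`
  have hX3 : ∑ x ∈ X, q x.1 x.2 * Nh x.1 x.2 ^ 2 ≤ W * C3 := by
    rw [hsum fun ν m => q ν m * Nh ν m ^ 2]
    have e1 : ∀ ν ∈ range W, ∑ m ∈ (range N).filter (P ν), q ν m * Nh ν m ^ 2 ≤ C3 := by
      intro ν hν
      rw [mem_range] at hν
      refine le_trans ?_ (h3 ν hν)
      refine sum_le_sum_of_subset_of_nonneg (filter_subset _ _) fun m hm _ => ?_
      rw [mem_range] at hm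
      exact mul_nonneg (hq ν hν m hm) (sq_nonneg _)
    refine (sum_le_sum e1).trans (le_of_eq ?_)
    rw [sum_const, card_range, nsmul_eq_mul]
  have hX5 : ∑ x ∈ X, q x.1 x.2 ^ 2 ≤ W * (C5 / N) := by
    rw [hsum fun ν m => q ν m ^ 2]
    have e1 : ∀ ν ∈ range W, ∑ m ∈ (range N).filter (P ν), q ν m ^ 2 ≤ C5 / N := by
      intro ν hν
      rw [mem_range] at hν
      refine le_trans ?_ (h6 ν hν)
      exact sum_le_sum_of_subset_of_nonneg (filter_subset _ _) fun m _ _ => sq_nonneg _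
    refine (sum_le_sum e1).trans (le_of_eq ?_)
    rw [sum_const, card_range, nsmul_eq_mul]
  have hG2 : W * g ^ 2 / (4 * C3) ≤ ∑ x ∈ X, q x.1 x.2 := by
    have hT : 0 < 2 * C3 / g := by positivity
    have e1 : ∑ x ∈ X, q x.1 x.2 * Nh x.1 x.2 ≤
        ∑ x ∈ X, (2 * C3 / g * q x.1 x.2 + g / (2 * C3) * (q x.1 x.2 * Nh x.1 x.2 ^ 2)) := by
      refine sum_le_sum fun x hx => ?_
      have hx' := hXm x hx
      have q0 := hq x.1 hx'.1 x.2 hx'.2
      have n0 := hNh x.1 hx'.1 x.2 hx'.2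
      have e2 : Nh x.1 x.2 ≤ 2 * C3 / g + g / (2 * C3) * Nh x.1 x.2 ^ 2 := by
        have e3 : 0 ≤ g / (2 * C3) * (Nh x.1 x.2 - 2 * C3 / g) ^ 2 := by positivity
        have e4 : g / (2 * C3) * (Nh x.1 x.2 - 2 * C3 / g) ^ 2 =
            g / (2 * C3) * Nh x.1 x.2 ^ 2 - 2 * Nh x.1 x.2 + 2 * C3 / g := by
          field_simp
          ring
        linarith
      have := mul_le_mul_of_nonneg_left e2 q0
      nlinarith
    rw [sum_add_distrib, ← mul_sum, ← mul_sum] at e1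
    have e2 : g / (2 * C3) * ∑ x ∈ X, q x.1 x.2 * Nh x.1 x.2 ^ 2 ≤ g / (2 * C3) * (W * C3) :=
      mul_le_mul_of_nonneg_left hX3 (by positivity)
    have e3 : g / (2 * C3) * (W * C3) = W * g / 2 := by
      field_simp
    have e4 : W * g / 2 ≤ 2 * C3 / g * ∑ x ∈ X, q x.1 x.2 := by linarith
    have e5 : W * g ^ 2 / (4 * C3) = g / (2 * C3) * (W * g / 2) := by
      field_simp
      ring
    have e6 : g / (2 * C3) * (2 * C3 / g * ∑ x ∈ X, q x.1 x.2) = ∑ x ∈ X, q x.1 x.2 := by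
      field_simp
    rw [e5, ← e6]
    exact mul_le_mul_of_nonneg_left e4 (by positivity)
  have hcs : (∑ x ∈ X, q x.1 x.2) ^ 2 ≤ X.card * ∑ x ∈ X, q x.1 x.2 ^ 2 :=
    sq_sum_le_card_mul_sum_sq
  have h7 : (W * g ^ 2 / (4 * C3)) ^ 2 ≤ X.card * (W * (C5 / N)) := by
    refine (pow_le_pow_left₀ (by positivity) hG2 2).trans (hcs.trans ?_)
    exact mul_le_mul_of_nonneg_left hX5 (Nat.cast_nonneg _)
  have h8 : g ^ 4 / (16 * C3 ^ 2 * C5) * (W * N) =
      (W * g ^ 2 / (4 * C3)) ^ 2 * (N / (W * C5)) := by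
    field_simp
    ring
  have h9 : (X.card : ℝ) * (W * (C5 / N)) * (N / (W * C5)) = X.card := by
    field_simp
  rw [h8, ← h9]
  exact mul_le_mul_of_nonneg_right h7 (by positivity)

end Pool.Agent.H.MP_711652_nt.CG
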