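import Pool.Agent.H.MP_711652_nt.G2.BH0
import Pool.Agent.H.MP_711652_nt.LG.Defs

/-! # MP_711652, CG: the truncated alternating sum of one block as a combination of the local factors `Ef` -/

set_option autoImplicit false

namespace Pool.Agent.H.MP_711652_nt.CG

open Finset Pool.Agent.H.MP_711652_nt.LG Pool.Agent.H.MP_711652_nt.G2

/-- the truncated alternating sum of the elementary symmetric functions of the `1 / p` -/
noncomputable def eb (S : Finset ℕ) (k : ℕ) : ℝ :=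
  ∑ G ∈ S.powerset.filter (fun G => G.card ≤ k), (-1) ^ G.card * ∏ p ∈ G, 1 / (p : ℝ)

/-- the product of the `1 - 1 / p` -/
noncomputable def vS (S : Finset ℕ) : ℝ := ∏ p ∈ S, (1 - 1 / (p : ℝ))

/-- the coefficient of `F` -/
noncomputable def bb (S : Finset ℕ) (n : ℕ) (F : Finset ℕ) : ℝ :=
  if F ⊆ S ∧ F.card ≤ n then (∏ p ∈ F, 1 / (p : ℝ)) * eb (S \ F) (n - F.card) else 0

/-- its majorant -/
noncomputable def bh (S : Finset ℕ) (n : ℕ) (F : Finset ℕ) : ℝ :=
  if F ⊆ S ∧ F.card ≤ n then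
    vS S * (1 + 4 * 2 ^ F.card / 2 ^ n) * ∏ p ∈ F, 1 / ((p : ℝ) - 1) else 0

private theorem BrA_eb_zero (S : Finset ℕ) : eb S 0 = 1 := by
  unfold eb
  have h : S.powerset.filter (fun G => G.card ≤ 0) = {∅} := by
    ext G
    simp only [Finset.mem_filter, Finset.mem_powerset, Nat.le_zero, Finset.card_eq_zero,
      Finset.mem_singleton]
    constructor
    · rintro ⟨-, h⟩
      exact h
    · rintro rfl
      exact ⟨Finset.empty_subset _, rfl⟩
  rw [h, Finset.sum_singleton]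
  simp

private theorem BrA_eb_insert {S : Finset ℕ} {q : ℕ} (hq : q ∉ S) (k : ℕ) :
    eb (insert q S) (k + 1) = eb S (k + 1) - 1 / (q : ℝ) * eb S k := by
  have hdisj : Disjoint (S.powerset.filter fun G => G.card ≤ k + 1)
      ((S.powerset.image (insert q)).filter fun G => G.card ≤ k + 1) := by
    rw [Finset.disjoint_left]
    intro G hG hG'
    rw [Finset.mem_filter, Finset.mem_powerset] at hG
    rw [Finset.mem_filter, Finset.mem_image] at hG'
    obtain ⟨⟨G', -, rfl⟩, -⟩ := hG'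
    exact hq (hG.1 (Finset.mem_insert_self _ _))
  unfold eb
  rw [Finset.powerset_insert, Finset.filter_union, Finset.sum_union hdisj, sub_eq_add_neg]
  congr 1
  rw [← neg_mul, Finset.mul_sum]
  symm
  refine Finset.sum_bij' (fun G _ => insert q G) (fun G _ => G.erase q) ?_ ?_ ?_ ?_ ?_
  · intro G hG
    rw [Finset.mem_filter, Finset.mem_powerset] at hG
    have hqG : q ∉ G := fun h => hq (hG.1 h)
    rw [Finset.mem_filter, Finset.mem_image]
    refine ⟨⟨G, Finset.mem_powerset.2 hG.1, rfl⟩, ?_⟩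
    rw [Finset.card_insert_of_notMem hqG]
    omega
  · intro G hG
    rw [Finset.mem_filter, Finset.mem_image] at hG
    obtain ⟨⟨G', hG', rfl⟩, hc⟩ := hG
    rw [Finset.mem_powerset] at hG'
    have hqG : q ∉ G' := fun h => hq (hG' h)
    rw [Finset.card_insert_of_notMem hqG] at hc
    rw [Finset.erase_insert hqG, Finset.mem_filter, Finset.mem_powerset]
    exact ⟨hG', by omega⟩
  · intro G hG
    rw [Finset.mem_filter, Finset.mem_powerset] at hG
    exact Finset.erase_insert fun h => hq (hG.1 h)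
  · intro G hG
    rw [Finset.mem_filter, Finset.mem_image] at hG
    obtain ⟨⟨G', hG', rfl⟩, hc⟩ := hG
    rw [Finset.mem_powerset] at hG'
    have hqG : q ∉ G' := fun h => hq (hG' h)
    rw [Finset.erase_insert hqG]
  · intro G hG
    rw [Finset.mem_filter, Finset.mem_powerset] at hG
    have hqG : q ∉ G := fun h => hq (hG.1 h)
    rw [Finset.card_insert_of_notMem hqG, Finset.prod_insert hqG, pow_succ]
    ring

private theorem BrA_pow (s x : ℝ) (hs : 0 ≤ s) (hx : 0 ≤ x) (k : ℕ) :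
    s ^ (k + 1) + (k + 1) * (x * s ^ k) ≤ (s + x) ^ (k + 1) := by
  induction k with
  | zero => simp
  | succ k ih =>
    have h1 : 0 ≤ (k + 1) * (x * (x * s ^ k)) := by positivity
    calc s ^ (k + 1 + 1) + ((k + 1 : ℕ) + 1) * (x * s ^ (k + 1))
        ≤ (s + x) * (s ^ (k + 1) + (k + 1) * (x * s ^ k)) := by
          push_cast
          have e : (s + x) * (s ^ (k + 1) + (k + 1) * (x * s ^ k)) =
            s ^ (k + 1 + 1) + ((k + 1) + 1) * (x * s ^ (k + 1)) +
              (k + 1) * (x * (x * s ^ k)) := by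
            ring
          rw [e]
          linarith
      _ ≤ (s + x) * (s + x) ^ (k + 1) := mul_le_mul_of_nonneg_left ih (by linarith)
      _ = (s + x) ^ (k + 1 + 1) := by ring

private theorem BrA_x {p : ℕ} (hp : p.Prime) : 0 ≤ 1 / (p : ℝ) ∧ 1 / (p : ℝ) ≤ 1 / 2 := by
  have h : (2 : ℝ) ≤ p := by exact_mod_cast hp.two_le
  exact ⟨by positivity, one_div_le_one_div_of_le two_pos h⟩

private theorem BrA_v (S : Finset ℕ) (hS : ∀ p ∈ S, p.Prime) : 0 < vS S ∧ vS S ≤ 1 := by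
  unfold vS
  refine ⟨Finset.prod_pos fun p hp => ?_, Finset.prod_le_one (fun p hp => ?_) fun p hp => ?_⟩
  · have := BrA_x (hS p hp)
    linarith
  · have := BrA_x (hS p hp)
    linarith
  · have := BrA_x (hS p hp)
    linarith

private theorem BrA_bonf (S : Finset ℕ) (hS : ∀ p ∈ S, p.Prime) (k : ℕ) :
    |eb S k - vS S| ≤ (∑ p ∈ S, 1 / (p : ℝ)) ^ (k + 1) / (k + 1).factorial := by
  induction S using Finset.induction_on generalizing k with
  | empty =>
    have h : eb ∅ k = 1 := by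
      unfold eb
      rw [Finset.powerset_empty, Finset.filter_singleton]
      simp
    rw [h]
    simp [vS]
  | insert q S hq ih =>
    have hS' : ∀ p ∈ S, p.Prime := fun p hp => hS p (Finset.mem_insert_of_mem hp)
    have hx := BrA_x (hS q (Finset.mem_insert_self _ _))
    have hs : 0 ≤ ∑ p ∈ S, 1 / (p : ℝ) := Finset.sum_nonneg fun p _ => by positivity
    have hv := BrA_v S hS'
    set x : ℝ := 1 / (q : ℝ) with hxd
    set s : ℝ := ∑ p ∈ S, 1 / (p : ℝ) with hsd
    have hvi : vS (insert q S) = (1 - x) * vS S := by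
      unfold vS
      rw [Finset.prod_insert hq]
    have hsi : ∑ p ∈ insert q S, 1 / (p : ℝ) = s + x := by
      rw [Finset.sum_insert hq, add_comm]
    rw [hvi, hsi]
    rcases k with _ | k
    · have h0 := ih hS' 0
      rw [BrA_eb_zero] at h0 ⊢
      simp only [zero_add, pow_one, Nat.factorial_one, Nat.cast_one, div_one] at h0 ⊢
      have e : 1 - (1 - x) * vS S = (1 - vS S) + x * vS S := by ring
      rw [e]
      refine (abs_add_le _ _).trans (add_le_add h0 ?_)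
      rw [abs_of_nonneg (mul_nonneg hx.1 hv.1.le)]
      exact mul_le_of_le_one_right hx.1 hv.2
    · have h1 := ih hS' (k + 1)
      have h2 := ih hS' k
      rw [BrA_eb_insert hq]
      have e : eb S (k + 1) - x * eb S k - (1 - x) * vS S =
          (eb S (k + 1) - vS S) - x * (eb S k - vS S) := by ring
      rw [e]
      refine (abs_sub _ _).trans ?_
      rw [abs_mul, abs_of_nonneg hx.1]
      have h3 := BrA_pow s x hs hx.1 (k + 1)
      have hf : ((k + 1 + 1).factorial : ℝ) = (k + 1 + 1) * (k + 1).factorial := by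
        rw [Nat.factorial_succ]
        push_cast
        ring
      have hf0 : (0 : ℝ) < (k + 1).factorial := by exact_mod_cast Nat.factorial_pos _
      calc |eb S (k + 1) - vS S| + x * |eb S k - vS S|
          ≤ s ^ (k + 1 + 1) / (k + 1 + 1).factorial + x * (s ^ (k + 1) / (k + 1).factorial) :=
            add_le_add h1 (mul_le_mul_of_nonneg_left h2 hx.1)
        _ = (s ^ (k + 1 + 1) + ((k + 1 : ℕ) + 1) * (x * s ^ (k + 1))) /
              (k + 1 + 1).factorial := by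
            rw [hf]
            push_cast
            field_simp
        _ ≤ (s + x) ^ (k + 1 + 1) / (k + 1 + 1).factorial :=
            div_le_div_of_nonneg_right h3 (by positivity)

private theorem BrA_fact (k : ℕ) : (2 : ℝ) ^ k ≤ (k + 1).factorial := by
  induction k with
  | zero => simp
  | succ k ih =>
    rw [Nat.factorial_succ, pow_succ]
    push_cast
    have h0 : (0 : ℝ) ≤ (k + 1).factorial := by positivity
    have h1 : (0 : ℝ) ≤ (k : ℝ) := by positivity
    nlinarith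

private theorem BrA_low (S : Finset ℕ) (hS : ∀ p ∈ S, p.Prime ∧ 34 ≤ p)
    (hσ : ∑ p ∈ S, 1 / (p : ℝ) ≤ 1) : 1 / 4 ≤ vS S := by
  have h1 : ∀ p ∈ S, Real.exp (-(34 / 33 * (1 / (p : ℝ)))) ≤ 1 - 1 / (p : ℝ) := by
    intro p hp
    have h34 : (34 : ℝ) ≤ p := by exact_mod_cast (hS p hp).2
    set x : ℝ := 1 / (p : ℝ) with hx
    have hx0 : 0 ≤ x := by positivity
    have hx1 : x ≤ 1 / 34 := one_div_le_one_div_of_le (by norm_num) h34
    have h2 : 1 / (1 - x) ≤ Real.exp (34 / 33 * x) := by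
      refine le_trans ?_ (Real.add_one_le_exp _)
      rw [div_le_iff₀ (by linarith)]
      nlinarith
    rw [Real.exp_neg]
    have h3 : 0 < 1 - x := by linarith
    calc (Real.exp (34 / 33 * x))⁻¹ ≤ (1 / (1 - x))⁻¹ := inv_anti₀ (by positivity) h2
      _ = 1 - x := by rw [one_div, inv_inv]
  have h2 : Real.exp (-(34 / 33 * ∑ p ∈ S, 1 / (p : ℝ))) ≤ vS S := by
    unfold vS
    rw [Finset.mul_sum, ← Finset.sum_neg_distrib, Real.exp_sum]
    exact Finset.prod_le_prod (fun p _ => (Real.exp_pos _).le) h1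
  refine le_trans ?_ h2
  have h3 : Real.exp (-(34 / 33)) ≤ Real.exp (-(34 / 33 * ∑ p ∈ S, 1 / (p : ℝ))) := by
    apply Real.exp_le_exp.2
    nlinarith
  refine le_trans ?_ h3
  rw [Real.exp_neg]
  have h4 : Real.exp (34 / 33) ≤ 4 := by
    have h5 : Real.exp (34 / 33) ≤ Real.exp 1 * Real.exp (1 / 33) := by
      rw [← Real.exp_add]
      apply Real.exp_le_exp.2
      norm_num
    have h6 := Real.exp_one_lt_d9
    have h7 : Real.exp (1 / 33) ≤ 4 / 3 := by
      have h8 : Real.exp (1 / 33) ≤ 1 / (1 - 1 / 33) := by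
        have h9 := Real.add_one_le_exp (-(1 / 33 : ℝ))
        rw [Real.exp_neg] at h9
        rw [le_div_iff₀ (by norm_num)]
        have h10 : 0 < Real.exp (1 / 33) := Real.exp_pos _
        have h11 : Real.exp (1 / 33) * (Real.exp (1 / 33))⁻¹ = 1 := mul_inv_cancel₀ h10.ne'
        nlinarith
      refine h8.trans (by norm_num)
    have h8 : 0 < Real.exp 1 := Real.exp_pos _
    have h9 : 0 < Real.exp (1 / 33) := Real.exp_pos _
    nlinarith
  rw [one_div]
  exact inv_anti₀ (Real.exp_pos _) h4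

private theorem BrA_eb_le (S : Finset ℕ) (hS : ∀ p ∈ S, p.Prime ∧ 34 ≤ p)
    (hσ : ∑ p ∈ S, 1 / (p : ℝ) ≤ 1) (k : ℕ) : |eb S k| ≤ vS S * (1 + 4 / 2 ^ k) := by
  have h1 := BrA_bonf S (fun p hp => (hS p hp).1) k
  have h2 := BrA_low S hS hσ
  have hs : 0 ≤ ∑ p ∈ S, 1 / (p : ℝ) := Finset.sum_nonneg fun p _ => by positivity
  have hv := BrA_v S fun p hp => (hS p hp).1
  have h3 : (∑ p ∈ S, 1 / (p : ℝ)) ^ (k + 1) / (k + 1).factorial ≤ 1 / 2 ^ k := by
    calc (∑ p ∈ S, 1 / (p : ℝ)) ^ (k + 1) / (k + 1).factorial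
        ≤ 1 / (k + 1).factorial :=
          div_le_div_of_nonneg_right (pow_le_one₀ hs hσ) (by positivity)
      _ ≤ 1 / 2 ^ k := one_div_le_one_div_of_le (by positivity) (BrA_fact k)
  have h4 : |eb S k| ≤ |eb S k - vS S| + vS S := by
    have := abs_add_le (eb S k - vS S) (vS S)
    rw [sub_add_cancel, abs_of_pos hv.1] at this
    exact this
  have h5 : (0 : ℝ) < 1 / 2 ^ k := by positivity
  have h6 : vS S * (1 + 4 / 2 ^ k) = vS S + 4 * vS S * (1 / 2 ^ k) := by ring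
  rw [h6]
  nlinarith

private theorem BrA_split {S F : Finset ℕ} (h : F ⊆ S) : vS S = vS (S \ F) * vS F := by
  unfold vS
  rw [Finset.prod_sdiff h]

private theorem BrA_inv (S : Finset ℕ) (hS : ∀ p ∈ S, p.Prime) :
    (∏ p ∈ S, 1 / (p : ℝ)) = vS S * ∏ p ∈ S, 1 / ((p : ℝ) - 1) := by
  unfold vS
  rw [← Finset.prod_mul_distrib]
  refine Finset.prod_congr rfl fun p hp => ?_
  have h : (2 : ℝ) ≤ p := by exact_mod_cast (hS p hp).two_le
  have h1 : (p : ℝ) ≠ 0 := by linarith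
  have h2 : (p : ℝ) - 1 ≠ 0 := by linarith
  field_simp

private theorem BrA_inv_nonneg (S : Finset ℕ) (hS : ∀ p ∈ S, p.Prime) :
    0 ≤ ∏ p ∈ S, 1 / ((p : ℝ) - 1) :=
  Finset.prod_nonneg fun p hp => by
    have h : (2 : ℝ) ≤ p := by exact_mod_cast (hS p hp).two_le
    have h2 : 0 < (p : ℝ) - 1 := by linarith
    positivity

/-- the sum of the `∏ 1 / (p - 1)` -/
private theorem BrA_total (S : Finset ℕ) (hS : ∀ p ∈ S, p.Prime) :
    vS S * ∑ F ∈ S.powerset, ∏ p ∈ F, 1 / ((p : ℝ) - 1) = 1 := by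
  have h1 : ∑ F ∈ S.powerset, ∏ p ∈ F, 1 / ((p : ℝ) - 1) = ∏ p ∈ S, (1 / ((p : ℝ) - 1) + 1) := by
    rw [Finset.prod_add]
    refine Finset.sum_congr rfl fun F _ => ?_
    rw [Finset.prod_const_one, mul_one]
  rw [h1]
  unfold vS
  rw [← Finset.prod_mul_distrib]
  refine Finset.prod_eq_one fun p hp => ?_
  have h : (2 : ℝ) ≤ p := by exact_mod_cast (hS p hp).two_le
  have h1 : (p : ℝ) ≠ 0 := by linarith
  have h2 : (p : ℝ) - 1 ≠ 0 := by linarith
  field_simp
  ring

private theorem BrA_total2 (S : Finset ℕ) (hS : ∀ p ∈ S, p.Prime) :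
    vS S ^ 2 * ∑ F ∈ S.powerset, 2 ^ F.card * ∏ p ∈ F, 1 / ((p : ℝ) - 1) ≤ 1 := by
  have h1 : ∑ F ∈ S.powerset, 2 ^ F.card * ∏ p ∈ F, 1 / ((p : ℝ) - 1) =
      ∏ p ∈ S, (2 * (1 / ((p : ℝ) - 1)) + 1) := by
    rw [Finset.prod_add]
    refine Finset.sum_congr rfl fun F _ => ?_
    rw [Finset.prod_const_one, mul_one, Finset.prod_mul_distrib, Finset.prod_const]
  rw [h1]
  unfold vS
  rw [← Finset.prod_pow, ← Finset.prod_mul_distrib]
  refine Finset.prod_le_one (fun p hp => ?_) fun p hp => ?_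
  · have h : (2 : ℝ) ≤ p := by exact_mod_cast (hS p hp).two_le
    have h2 : 0 < (p : ℝ) - 1 := by linarith
    positivity
  · have h : (2 : ℝ) ≤ p := by exact_mod_cast (hS p hp).two_le
    have h1 : (p : ℝ) ≠ 0 := by linarith
    have h2 : (p : ℝ) - 1 ≠ 0 := by linarith
    have e : (1 - 1 / (p : ℝ)) ^ 2 * (2 * (1 / ((p : ℝ) - 1)) + 1) = 1 - 1 / (p : ℝ) ^ 2 := by
      field_simp
      ring
    rw [e]
    have : 0 ≤ 1 / (p : ℝ) ^ 2 := by positivity
    linarith

private theorem BrA_ratio {f n : ℕ} (h : f ≤ n) : (2 : ℝ) ^ f / 2 ^ n ≤ 1 := by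
  rw [div_le_one (by positivity)]
  exact pow_le_pow_right₀ (by norm_num) h

/-- PROOF. `lam n (om A S i m) = ∑_{E ⊆ S, |E| ≤ n} (-1)^|E| ∏_{p ∈ E} [A p i m]`, `[A p i m] = (1 - Ef A p (some i) m) / p`, expand the products
and collect the terms with the same set `F` of factors `Ef`. -/
theorem lam_expand {ι : Type*} (A : ℕ → ι → ℕ → Prop) (S : Finset ℕ) (hS : ∀ p ∈ S, p.Prime)
    (n : ℕ) (i : ι) (m : ℕ) :
    (lam n (om A S i m) : ℝ) = ∑ F ∈ S.powerset, bb S n F * ∏ p ∈ F, Ef A p (some i) m := by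
  classical
  have h0 : (lam n (om A S i m) : ℝ) = ∑ T ∈ S.powerset.filter (fun T => T.card ≤ n),
      (-1) ^ T.card * ∏ p ∈ T, (if A p i m then (1 : ℝ) else 0) := by
    have h := lam_om_eq (fun p (_ : Unit) m => A p i m) S () n m
    have e : om (fun p (_ : Unit) m => A p i m) S () m = om A S i m := rfl
    rw [e] at h
    rw [h]
  rw [h0]
  set E : ℕ → ℝ := fun p => Ef A p (some i) m with hE
  have hA : ∀ p ∈ S, (if A p i m then (1 : ℝ) else 0) = 1 / (p : ℝ) * (-E p + 1) := by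
    intro p hp
    have h : (2 : ℝ) ≤ p := by exact_mod_cast (hS p hp).two_le
    have h1 : (p : ℝ) ≠ 0 := by linarith
    simp only [hE, Ef]
    by_cases hA : A p i m
    · rw [if_pos hA, if_pos hA]
      field_simp
      ring
    · rw [if_neg hA, if_neg hA]
      ring
  have h1 : ∀ T ∈ S.powerset.filter (fun T => T.card ≤ n),
      (-1) ^ T.card * ∏ p ∈ T, (if A p i m then (1 : ℝ) else 0) =
        ∑ F ∈ T.powerset, (-1) ^ T.card * (∏ p ∈ T, 1 / (p : ℝ)) *
          ((-1) ^ F.card * ∏ p ∈ F, E p) := by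
    intro T hT
    rw [Finset.mem_filter, Finset.mem_powerset] at hT
    rw [Finset.prod_congr rfl fun p hp => hA p (hT.1 hp), Finset.prod_mul_distrib,
      Finset.prod_add, ← mul_assoc, Finset.mul_sum]
    refine Finset.sum_congr rfl fun F _ => ?_
    rw [Finset.prod_const_one, mul_one, Finset.prod_neg]
  rw [Finset.sum_congr rfl h1]
  rw [Finset.sum_comm' (t' := S.powerset)
    (s' := fun F => (S.powerset.filter (fun T => T.card ≤ n)).filter (fun T => F ⊆ T))]
  · refine Finset.sum_congr rfl fun F hF => ?_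
    rw [Finset.mem_powerset] at hF
    by_cases hc : F.card ≤ n
    · unfold bb eb
      rw [if_pos ⟨hF, hc⟩, Finset.mul_sum, Finset.sum_mul]
      refine Finset.sum_bij' (fun T _ => T \ F) (fun G _ => F ∪ G) ?_ ?_ ?_ ?_ ?_
      · intro T hT
        rw [Finset.mem_filter, Finset.mem_filter, Finset.mem_powerset] at hT
        rw [Finset.mem_filter, Finset.mem_powerset]
        refine ⟨Finset.sdiff_subset_sdiff hT.1.1 (subset_refl _), ?_⟩
        rw [Finset.card_sdiff_of_subset hT.2]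
        omega
      · intro G hG
        rw [Finset.mem_filter, Finset.mem_powerset] at hG
        have hd : Disjoint F G := by
          rw [Finset.disjoint_left]
          intro p hp hp'
          exact (Finset.mem_sdiff.1 (hG.1 hp')).2 hp
        rw [Finset.mem_filter, Finset.mem_filter, Finset.mem_powerset]
        refine ⟨⟨Finset.union_subset hF (hG.1.trans Finset.sdiff_subset), ?_⟩,
          Finset.subset_union_left⟩
        rw [Finset.card_union_of_disjoint hd]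
        omega
      · intro T hT
        rw [Finset.mem_filter, Finset.mem_filter, Finset.mem_powerset] at hT
        exact Finset.union_sdiff_of_subset hT.2
      · intro G hG
        rw [Finset.mem_filter, Finset.mem_powerset] at hG
        ext p
        rw [Finset.mem_sdiff, Finset.mem_union]
        constructor
        · rintro ⟨h1 | h1, h2⟩
          · exact absurd h1 h2
          · exact h1
        · intro hp
          exact ⟨Or.inr hp, (Finset.mem_sdiff.1 (hG.1 hp)).2⟩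
      · intro T hT
        rw [Finset.mem_filter, Finset.mem_filter, Finset.mem_powerset] at hT
        have hcd := Finset.card_sdiff_of_subset hT.2
        have hle := Finset.card_le_card hT.2
        have e1 : T.card = (T \ F).card + F.card := by omega
        have e2 : (∏ p ∈ T, 1 / (p : ℝ)) = (∏ p ∈ T \ F, 1 / (p : ℝ)) * ∏ p ∈ F, 1 / (p : ℝ) :=
          (Finset.prod_sdiff hT.2).symm
        rw [e1, e2, pow_add]
        have e3 : ((-1 : ℝ)) ^ F.card * (-1) ^ F.card = 1 := by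
          rw [← mul_pow]
          norm_num
        linear_combination ((-1 : ℝ) ^ (T \ F).card * (∏ p ∈ T \ F, 1 / (p : ℝ)) *
          (∏ p ∈ F, 1 / (p : ℝ)) * ∏ p ∈ F, E p) * e3
    · have h2 : (S.powerset.filter (fun T => T.card ≤ n)).filter (fun T => F ⊆ T) = ∅ := by
        rw [Finset.filter_eq_empty_iff]
        intro T hT hFT
        rw [Finset.mem_filter] at hT
        exact hc ((Finset.card_le_card hFT).trans hT.2)
      rw [h2, Finset.sum_empty]
      unfold bb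
      rw [if_neg fun h => hc h.2, zero_mul]
  · intro T F
    simp only [Finset.mem_powerset, Finset.mem_filter]
    constructor
    · rintro ⟨⟨h2, h3⟩, h4⟩
      exact ⟨⟨⟨h2, h3⟩, h4⟩, h4.trans h2⟩
    · rintro ⟨⟨⟨h2, h3⟩, h4⟩, -⟩
      exact ⟨⟨h2, h3⟩, h4⟩

/-- PROOF. Bonferroni: `|eb S' k - vS S'| ≤ e_{k+1}(1/p) ≤ (∑ 1/p)^(k+1) / (k+1)! ≤ 1 / 2^k` with `S' = S \ F`, `vS S' ≥ vS S ≥ exp (-(34/33) ∑ 1/p) ≥ 1/3`, so `|eb S' k| ≤ vS S' (1 + 4 / 2^k)`;
`(∏_F 1/p) vS (S \ F) = vS S ∏_F 1/(p-1)`. -/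
theorem abs_bb_le (S : Finset ℕ) (hS : ∀ p ∈ S, p.Prime ∧ 34 ≤ p)
    (hσ : ∑ p ∈ S, 1 / (p : ℝ) ≤ 1) (n : ℕ) (F : Finset ℕ) : |bb S n F| ≤ bh S n F := by
  unfold bb bh
  by_cases h : F ⊆ S ∧ F.card ≤ n
  · rw [if_pos h, if_pos h]
    have hF : ∀ p ∈ F, p.Prime := fun p hp => (hS p (h.1 hp)).1
    have hS' : ∀ p ∈ S \ F, p.Prime ∧ 34 ≤ p := fun p hp => hS p (Finset.mem_sdiff.1 hp).1
    have hσ' : ∑ p ∈ S \ F, 1 / (p : ℝ) ≤ 1 :=
      (Finset.sum_le_sum_of_subset_of_nonneg Finset.sdiff_subset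
        fun p _ _ => by positivity).trans hσ
    have h1 := BrA_eb_le (S \ F) hS' hσ' (n - F.card)
    have h2 : 0 ≤ ∏ p ∈ F, 1 / (p : ℝ) := Finset.prod_nonneg fun p _ => by positivity
    rw [abs_mul, abs_of_nonneg h2]
    calc (∏ p ∈ F, 1 / (p : ℝ)) * |eb (S \ F) (n - F.card)|
        ≤ (∏ p ∈ F, 1 / (p : ℝ)) * (vS (S \ F) * (1 + 4 / 2 ^ (n - F.card))) :=
          mul_le_mul_of_nonneg_left h1 h2
      _ = vS S * (1 + 4 * 2 ^ F.card / 2 ^ n) * ∏ p ∈ F, 1 / ((p : ℝ) - 1) := by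
          rw [BrA_inv F hF, BrA_split h.1]
          have e : (4 : ℝ) / 2 ^ (n - F.card) = 4 * 2 ^ F.card / 2 ^ n := by
            have e1 : (2 : ℝ) ^ n = 2 ^ (n - F.card) * 2 ^ F.card := by
              rw [← pow_add]
              congr 1
              omega
            rw [e1]
            field_simp
          rw [e]
          ring
  · rw [if_neg h, if_neg h, abs_zero]

theorem bh_nonneg (S : Finset ℕ) (hS : ∀ p ∈ S, p.Prime) (n : ℕ) (F : Finset ℕ) :
    0 ≤ bh S n F := by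
  unfold bh
  by_cases h : F ⊆ S ∧ F.card ≤ n
  · rw [if_pos h]
    have h1 := (BrA_v S hS).1
    have h2 := BrA_inv_nonneg F fun p hp => hS p (h.1 hp)
    positivity
  · rw [if_neg h]

theorem bh_sub (S : Finset ℕ) (hS : ∀ p ∈ S, p.Prime) (n : ℕ) (F : Finset ℕ) (q : ℕ)
    (hq : q.Prime) (hqF : q ∉ F) : bh S n (insert q F) ≤ bh S n F * (2 / ((q : ℝ) - 1)) := by
  have hq2 : (2 : ℝ) ≤ q := by exact_mod_cast hq.two_le
  have hq1 : 0 < (q : ℝ) - 1 := by linarith
  by_cases h : insert q F ⊆ S ∧ (insert q F).card ≤ n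
  · have hF : F ⊆ S ∧ F.card ≤ n :=
      ⟨(Finset.subset_insert q F).trans h.1, (Finset.card_le_card (Finset.subset_insert q F)).trans h.2⟩
    unfold bh
    rw [if_pos h, if_pos hF, Finset.prod_insert hqF, Finset.card_insert_of_notMem hqF]
    have h1 := (BrA_v S hS).1
    have h2 := BrA_inv_nonneg F fun p hp => hS p (hF.1 hp)
    have h3 : 0 ≤ vS S * (∏ p ∈ F, 1 / ((p : ℝ) - 1)) * (1 / ((q : ℝ) - 1)) := by positivity
    have e1 : vS S * (1 + 4 * 2 ^ (F.card + 1) / 2 ^ n) * (1 / ((q : ℝ) - 1) *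
        ∏ p ∈ F, 1 / ((p : ℝ) - 1)) = (1 + 2 * (4 * 2 ^ F.card / 2 ^ n)) *
          (vS S * (∏ p ∈ F, 1 / ((p : ℝ) - 1)) * (1 / ((q : ℝ) - 1))) := by
      rw [pow_succ]
      ring
    have e2 : vS S * (1 + 4 * 2 ^ F.card / 2 ^ n) * (∏ p ∈ F, 1 / ((p : ℝ) - 1)) *
        (2 / ((q : ℝ) - 1)) = (2 + 2 * (4 * 2 ^ F.card / 2 ^ n)) *
          (vS S * (∏ p ∈ F, 1 / ((p : ℝ) - 1)) * (1 / ((q : ℝ) - 1))) := by
      ring
    rw [e1, e2]
    exact mul_le_mul_of_nonneg_right (by linarith) h3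
  · have h1 : bh S n (insert q F) = 0 := by
      unfold bh
      rw [if_neg h]
    rw [h1]
    exact mul_nonneg (bh_nonneg S hS n F) (by positivity)

/-- PROOF. `(1 + 4 * 2^f / 2^n)^2 ≤ 1 + 24 * 2^f / 2^n` for `f ≤ n`; `∑_F ∏ 1/(p-1) = 1 / vS S`, `∑_F 2^|F| ∏ 1/(p-1) ≤ exp (2 (34/33) ∑ 1/p) ≤ 8`. -/
theorem bh_mass (S : Finset ℕ) (hS : ∀ p ∈ S, p.Prime ∧ 34 ≤ p)
    (hσ : ∑ p ∈ S, 1 / (p : ℝ) ≤ 1) (n : ℕ) :
    ∑ F ∈ S.powerset, bh S n F ^ 2 * ∏ p ∈ F, ((p : ℝ) - 1) ≤ vS S * (1 + 200 / 2 ^ n) := by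
  have hP : ∀ p ∈ S, p.Prime := fun p hp => (hS p hp).1
  have hv := BrA_v S hP
  have hlow := BrA_low S hS hσ
  have h1 : ∀ F ∈ S.powerset, bh S n F ^ 2 * ∏ p ∈ F, ((p : ℝ) - 1) ≤
      vS S ^ 2 * (∏ p ∈ F, 1 / ((p : ℝ) - 1)) +
        24 / 2 ^ n * (vS S ^ 2 * (2 ^ F.card * ∏ p ∈ F, 1 / ((p : ℝ) - 1))) := by
    intro F hF
    rw [Finset.mem_powerset] at hF
    have hFp : ∀ p ∈ F, p.Prime := fun p hp => hP p (hF hp)
    have hI := BrA_inv_nonneg F hFp
    by_cases h : F ⊆ S ∧ F.card ≤ n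
    · unfold bh
      rw [if_pos h]
      have e1 : (∏ p ∈ F, 1 / ((p : ℝ) - 1)) * ∏ p ∈ F, ((p : ℝ) - 1) = 1 := by
        rw [← Finset.prod_mul_distrib]
        refine Finset.prod_eq_one fun p hp => ?_
        have h2 : (2 : ℝ) ≤ p := by exact_mod_cast (hFp p hp).two_le
        have h3 : (p : ℝ) - 1 ≠ 0 := by linarith
        field_simp
      set I : ℝ := ∏ p ∈ F, 1 / ((p : ℝ) - 1) with hId
      set u : ℝ := 2 ^ F.card / 2 ^ n with hu
      have hu0 : 0 ≤ u := by positivity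
      have hu1 : u ≤ 1 := BrA_ratio h.2
      have e2 : (vS S * (1 + 4 * 2 ^ F.card / 2 ^ n) * I) ^ 2 * ∏ p ∈ F, ((p : ℝ) - 1) =
          vS S ^ 2 * (1 + 4 * u) ^ 2 * I := by
        have e3 : (4 : ℝ) * 2 ^ F.card / 2 ^ n = 4 * u := by rw [hu]; ring
        rw [e3]
        linear_combination (vS S ^ 2 * (1 + 4 * u) ^ 2 * I) * e1
      have e4 : vS S ^ 2 * I + 24 / 2 ^ n * (vS S ^ 2 * (2 ^ F.card * I)) =
          vS S ^ 2 * (1 + 24 * u) * I := by
        rw [hu]; ring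
      rw [e2, e4]
      have h5 : (1 + 4 * u) ^ 2 ≤ 1 + 24 * u := by nlinarith
      exact mul_le_mul_of_nonneg_right (mul_le_mul_of_nonneg_left h5 (by positivity)) hI
    · have h2 : bh S n F = 0 := by
        unfold bh
        rw [if_neg h]
      rw [h2]
      have : 0 ≤ vS S ^ 2 * (∏ p ∈ F, 1 / ((p : ℝ) - 1)) +
        24 / 2 ^ n * (vS S ^ 2 * (2 ^ F.card * ∏ p ∈ F, 1 / ((p : ℝ) - 1))) := by positivity
      simpa using this
  refine (Finset.sum_le_sum h1).trans ?_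
  rw [Finset.sum_add_distrib, ← Finset.mul_sum, ← Finset.mul_sum, ← Finset.mul_sum]
  have h2 := BrA_total S hP
  have h3 := BrA_total2 S hP
  have h4 : vS S ^ 2 * ∑ F ∈ S.powerset, ∏ p ∈ F, 1 / ((p : ℝ) - 1) = vS S := by
    rw [pow_two, mul_assoc, h2, mul_one]
  rw [h4]
  have h5 : (0 : ℝ) < 1 / 2 ^ n := by positivity
  have h6 : (24 : ℝ) / 2 ^ n = 24 * (1 / 2 ^ n) := by ring
  have h7 : vS S * (1 + 200 / 2 ^ n) = vS S + 200 * vS S * (1 / 2 ^ n) := by ring
  rw [h6, h7]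
  have h8 : 24 * (1 / (2 : ℝ) ^ n) * (vS S ^ 2 * ∑ F ∈ S.powerset,
      2 ^ F.card * ∏ p ∈ F, 1 / ((p : ℝ) - 1)) ≤ 24 * (1 / 2 ^ n) * 1 :=
    mul_le_mul_of_nonneg_left h3 (by positivity)
  nlinarith

/-- PROOF. `bh ≤ 5 vS ∏ 1/(p-1)` and `∑_F ∏ 1/(p-1) = 1 / vS S`. -/
theorem bh_tot (S : Finset ℕ) (hS : ∀ p ∈ S, p.Prime) (n : ℕ) :
    ∑ F ∈ S.powerset, bh S n F ≤ 5 := by
  have hv := BrA_v S hS
  have h1 : ∀ F ∈ S.powerset, bh S n F ≤ 5 * (vS S * ∏ p ∈ F, 1 / ((p : ℝ) - 1)) := by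
    intro F hF
    rw [Finset.mem_powerset] at hF
    have hI := BrA_inv_nonneg F fun p hp => hS p (hF hp)
    by_cases h : F ⊆ S ∧ F.card ≤ n
    · unfold bh
      rw [if_pos h]
      have hu : (4 : ℝ) * 2 ^ F.card / 2 ^ n = 4 * (2 ^ F.card / 2 ^ n) := by ring
      have hu1 := BrA_ratio h.2
      rw [hu]
      have e : 5 * (vS S * ∏ p ∈ F, 1 / ((p : ℝ) - 1)) =
          vS S * 5 * ∏ p ∈ F, 1 / ((p : ℝ) - 1) := by ring
      rw [e]
      exact mul_le_mul_of_nonneg_right (mul_le_mul_of_nonneg_left (by linarith) hv.1.le) hI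
    · have h2 : bh S n F = 0 := by
        unfold bh
        rw [if_neg h]
      rw [h2]
      have := hv.1
      positivity
  refine (Finset.sum_le_sum h1).trans ?_
  rw [← Finset.mul_sum, ← Finset.mul_sum, BrA_total S hS, mul_one]

theorem bh_empty (S : Finset ℕ) (hS : ∀ p ∈ S, p.Prime) (n : ℕ) :
    bh S n ∅ ≤ 1 + 4 / 2 ^ n := by
  unfold bh
  rw [if_pos ⟨Finset.empty_subset _, by simp⟩]
  have hv := BrA_v S hS
  simp only [Finset.card_empty, pow_zero, mul_one, Finset.prod_empty]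
  exact mul_le_of_le_one_left (by positivity) hv.2

end Pool.Agent.H.MP_711652_nt.CG
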