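import Pool.Agent.H.MP_711652_nt.CG.BrA
import Pool.Agent.H.MP_711652_nt.G2.Small2

/-! # MP_711652, CG: `LamF` as a combination of the local factors `Ef` -/

set_option autoImplicit false

namespace Pool.Agent.H.MP_711652_nt.CG

open Finset Pool.Agent.H.MP_711652_nt.LG Pool.Agent.H.MP_711652_nt.G2

/-- the small primes -/
def Psm (D z : ℕ) : Finset ℕ := (Ioc D z).filter Nat.Prime

/-- the coefficient of `U` in `LamF D z` -/
noncomputable def bF (D z : ℕ) (U : Finset ℕ) : ℝ :=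
  ∏ j ∈ range (lv D z), bb (SN.blk D z j) (60 + (lv D z - 1 - j)) (U ∩ SN.blk D z j)

/-- its majorant -/
noncomputable def bH (D z : ℕ) (U : Finset ℕ) : ℝ :=
  ∏ j ∈ range (lv D z), bh (SN.blk D z j) (60 + (lv D z - 1 - j)) (U ∩ SN.blk D z j)

section gen

variable {B PU : ℕ → Finset ℕ}

private theorem brB_sub (hs : ∀ l, PU (l + 1) = PU l ∪ B l) {l j : ℕ} (h : j < l) :
    B j ⊆ PU l := by
  induction l with
  | zero => omega
  | succ l ih =>
    rw [hs]
    rcases Nat.lt_succ_iff_lt_or_eq.1 h with h1 | h1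
    · exact (ih h1).trans subset_union_left
    · rw [h1]
      exact subset_union_right

private theorem brB_mem (h0 : PU 0 = ∅) (hs : ∀ l, PU (l + 1) = PU l ∪ B l) {l q : ℕ}
    (h : q ∈ PU l) : ∃ j, j < l ∧ q ∈ B j := by
  induction l with
  | zero =>
    rw [h0] at h
    exact absurd h (notMem_empty q)
  | succ l ih =>
    rw [hs, mem_union] at h
    rcases h with h | h
    · obtain ⟨j, hj, hq⟩ := ih h
      exact ⟨j, by omega, hq⟩
    · exact ⟨l, by omega, h⟩

private theorem brB_disj (hs : ∀ l, PU (l + 1) = PU l ∪ B l) (hd : ∀ l, Disjoint (PU l) (B l))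
    {i j q : ℕ} (hi : q ∈ B i) (hj : q ∈ B j) : i = j := by
  by_contra hij
  rcases lt_or_gt_of_ne hij with h | h
  · exact disjoint_left.1 (hd j) (brB_sub hs h hi) hj
  · exact disjoint_left.1 (hd i) (brB_sub hs h hj) hi

/-- Sums over the subsets of the union of the blocks. -/
private theorem brB_sum (h0 : PU 0 = ∅) (hs : ∀ l, PU (l + 1) = PU l ∪ B l)
    (hd : ∀ l, Disjoint (PU l) (B l)) (f : ℕ → Finset ℕ → ℝ) (l : ℕ) :
    ∑ U ∈ (PU l).powerset, ∏ j ∈ range l, f j (U ∩ B j) =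
      ∏ j ∈ range l, ∑ F ∈ (B j).powerset, f j F := by
  induction l with
  | zero => simp [h0]
  | succ l ih =>
    rw [prod_range_succ, ← ih, sum_mul_sum, ← sum_product']
    have hdl := disjoint_left.1 (hd l)
    refine sum_nbij' (fun U => (U ∩ PU l, U ∩ B l)) (fun q => q.1 ∪ q.2) ?_ ?_ ?_ ?_ ?_
    · intro U _
      rw [mem_product, mem_powerset, mem_powerset]
      exact ⟨inter_subset_right, inter_subset_right⟩
    · rintro ⟨U, V⟩ h
      rw [mem_product, mem_powerset, mem_powerset] at h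
      rw [mem_powerset, hs]
      exact union_subset_union h.1 h.2
    · intro U hU
      rw [mem_powerset, hs] at hU
      show U ∩ PU l ∪ U ∩ B l = U
      rw [← inter_union_distrib_left]
      exact inter_eq_left.2 hU
    · rintro ⟨U, V⟩ h
      rw [mem_product, mem_powerset, mem_powerset] at h
      have h1 : (U ∪ V) ∩ PU l = U := by
        ext x
        rw [mem_inter, mem_union]
        constructor
        · rintro ⟨hx | hx, hx2⟩
          · exact hx
          · exact absurd (h.2 hx) (hdl hx2)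
        · intro hx
          exact ⟨Or.inl hx, h.1 hx⟩
      have h2 : (U ∪ V) ∩ B l = V := by
        ext x
        rw [mem_inter, mem_union]
        constructor
        · rintro ⟨hx | hx, hx2⟩
          · exact absurd hx2 (hdl (h.1 hx))
          · exact hx
        · intro hx
          exact ⟨Or.inr hx, h.2 hx⟩
      show ((U ∪ V) ∩ PU l, (U ∪ V) ∩ B l) = (U, V)
      rw [h1, h2]
    · intro U _
      rw [prod_range_succ]
      show _ = (∏ j ∈ range l, f j (U ∩ PU l ∩ B j)) * f l (U ∩ B l)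
      congr 1
      refine prod_congr rfl fun j hj => ?_
      rw [inter_assoc, inter_eq_right.2 (brB_sub hs (mem_range.1 hj))]

/-- Products over a subset of the union of the blocks. -/
private theorem brB_prod {M : Type*} [CommMonoid M] (h0 : PU 0 = ∅)
    (hs : ∀ l, PU (l + 1) = PU l ∪ B l) (hd : ∀ l, Disjoint (PU l) (B l)) (g : ℕ → M) (l : ℕ) :
    ∀ U : Finset ℕ, U ⊆ PU l → ∏ p ∈ U, g p = ∏ j ∈ range l, ∏ p ∈ U ∩ B j, g p := by
  induction l with
  | zero =>
    intro U hU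
    rw [h0, subset_empty] at hU
    simp [hU]
  | succ l ih =>
    intro U hU
    rw [hs] at hU
    have h1 : U = U ∩ PU l ∪ U ∩ B l := by
      rw [← inter_union_distrib_left]
      exact (inter_eq_left.2 hU).symm
    have h2 : Disjoint (U ∩ PU l) (U ∩ B l) :=
      (hd l).mono inter_subset_right inter_subset_right
    rw [prod_range_succ]
    conv_lhs => rw [h1]
    rw [prod_union h2, ih _ inter_subset_right]
    congr 1
    refine prod_congr rfl fun j hj => ?_
    rw [inter_assoc, inter_eq_right.2 (brB_sub hs (mem_range.1 hj))]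

end gen

variable {D z : ℕ}

/-- the union of the first blocks -/
private def brU (D z l : ℕ) : Finset ℕ := (Ioc D (min (D ^ 2 ^ l) z)).filter Nat.Prime

private theorem brU_zero : brU D z 0 = ∅ := by
  unfold brU
  rw [pow_zero, pow_one, Ioc_eq_empty (by simp), filter_empty]

private theorem brU_disj (l : ℕ) : Disjoint (brU D z l) (SN.blk D z l) := by
  rw [disjoint_left]
  intro p hp hq
  rw [SN.mem_blk] at hq
  unfold brU at hp
  rw [mem_filter, mem_Ioc, le_min_iff] at hp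
  omega

private theorem brU_succ (hD : 1 ≤ D) (l : ℕ) : brU D z (l + 1) = brU D z l ∪ SN.blk D z l := by
  have h1 := SN.pow_le_pow_two hD (Nat.le_succ l)
  have h2 := SN.le_pow_two hD l
  unfold brU
  ext p
  rw [mem_union, SN.mem_blk, mem_filter, mem_filter, mem_Ioc, mem_Ioc, le_min_iff, le_min_iff]
  constructor
  · rintro ⟨⟨a, b, c⟩, d⟩
    rcases le_or_gt p (D ^ 2 ^ l) with h | h
    · exact Or.inl ⟨⟨a, h, c⟩, d⟩
    · exact Or.inr ⟨⟨h, b, c⟩, d⟩
  · rintro (⟨⟨a, b, c⟩, d⟩ | ⟨⟨a, b, c⟩, d⟩)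
    · exact ⟨⟨a, b.trans h1, c⟩, d⟩
    · exact ⟨⟨lt_of_le_of_lt h2 a, b, c⟩, d⟩

private theorem brU_lv (hD : 2 ≤ D) (hz : D ≤ z) : brU D z (lv D z) = Psm D z := by
  unfold brU Psm
  rw [min_eq_right (lv_spec hD hz).1]

private theorem brB_prime (j : ℕ) : ∀ p ∈ SN.blk D z j, p.Prime := fun _ hp =>
  (SN.mem_blk.1 hp).2

private theorem brB_big (hD : Real.exp 40 ≤ D) (j : ℕ) :
    ∀ p ∈ SN.blk D z j, p.Prime ∧ 34 ≤ p := by
  intro p hp
  have h1 : (41 : ℝ) ≤ D := by
    have := Real.add_one_le_exp (40 : ℝ)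
    linarith
  have h2 : 41 ≤ D := by exact_mod_cast h1
  rw [SN.mem_blk] at hp
  have := SN.le_pow_two (by omega : 1 ≤ D) j
  exact ⟨hp.2, by omega⟩

private theorem brB_two (hD : Real.exp 40 ≤ D) : 2 ≤ D := by
  have h1 : (41 : ℝ) ≤ D := by
    have := Real.add_one_le_exp (40 : ℝ)
    linarith
  have h2 : 41 ≤ D := by exact_mod_cast h1
  omega

/-- PROOF. `lam_expand` for each block; the blocks are disjoint with union `Psm D z` (`lv_spec`), `U ↦ (U ∩ blk j)_j` is a bijection. -/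
theorem LamF_expand {ι : Type*} (A : ℕ → ι → ℕ → Prop) (hD : 2 ≤ D) (hz : D ≤ z) (i : ι) (m : ℕ) :
    LamF D z A i m = ∑ U ∈ (Psm D z).powerset, bF D z U * ∏ p ∈ U, Ef A p (some i) m := by
  have h1 : LamF D z A i m = ∏ j ∈ range (lv D z),
      ∑ F ∈ (SN.blk D z j).powerset, bb (SN.blk D z j) (60 + (lv D z - 1 - j)) F *
        ∏ p ∈ F, Ef A p (some i) m := by
    unfold LamF LamB
    refine prod_congr rfl fun j _ => ?_
    exact lam_expand A (SN.blk D z j) (brB_prime j) _ i m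
  rw [h1, ← brB_sum (PU := brU D z) brU_zero (brU_succ (by omega)) brU_disj
    (fun j F => bb (SN.blk D z j) (60 + (lv D z - 1 - j)) F * ∏ p ∈ F, Ef A p (some i) m),
    brU_lv hD hz]
  refine sum_congr rfl fun U hU => ?_
  rw [mem_powerset] at hU
  rw [prod_mul_distrib, ← brB_prod (PU := brU D z) brU_zero (brU_succ (by omega)) brU_disj
    (fun p => Ef A p (some i) m) (lv D z) U (by rwa [brU_lv hD hz])]
  rfl

/-- PROOF. `abs_bb_le`; `∑_{blk} 1/p ≤ 1` as in the proof of `small_num2` (`G2/Small2.lean`). -/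
theorem abs_bF_le (hD : Real.exp 40 ≤ D) (hz : D ≤ z) (U : Finset ℕ) : |bF D z U| ≤ bH D z U := by
  unfold bF bH
  rw [abs_prod]
  exact prod_le_prod (fun _ _ => abs_nonneg _) fun j _ =>
    abs_bb_le _ (brB_big hD j) (SN.sum_blk hD j) _ _

theorem bH_nonneg (U : Finset ℕ) : 0 ≤ bH D z U :=
  prod_nonneg fun j _ => bh_nonneg _ (brB_prime j) _ _

theorem bH_sub (hD : 2 ≤ D) (hz : D ≤ z) (U : Finset ℕ) (q : ℕ) (hq : q ∈ Psm D z) (hqU : q ∉ U) :
    bH D z (insert q U) ≤ bH D z U * (2 / ((q : ℝ) - 1)) := by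
  have hqp : q.Prime := (mem_filter.1 hq).2
  rw [← brU_lv hD hz] at hq
  obtain ⟨j₀, hj₀, hqj⟩ := brB_mem brU_zero (brU_succ (by omega)) hq
  have h1 : ∀ j, j ≠ j₀ → insert q U ∩ SN.blk D z j = U ∩ SN.blk D z j := by
    intro j hj
    ext x
    rw [mem_inter, mem_inter, mem_insert]
    constructor
    · rintro ⟨rfl | hx, hx2⟩
      · exact absurd (brB_disj (brU_succ (by omega)) brU_disj hx2 hqj) hj
      · exact ⟨hx, hx2⟩
    · rintro ⟨hx, hx2⟩
      exact ⟨Or.inr hx, hx2⟩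
  have h2 : insert q U ∩ SN.blk D z j₀ = insert q (U ∩ SN.blk D z j₀) := by
    rw [insert_inter_of_mem hqj]
  have hmem : j₀ ∈ range (lv D z) := mem_range.2 hj₀
  unfold bH
  rw [← mul_prod_erase _ _ hmem, ← mul_prod_erase _ _ hmem, h2]
  have h3 : ∏ j ∈ (range (lv D z)).erase j₀, bh (SN.blk D z j) (60 + (lv D z - 1 - j))
      (insert q U ∩ SN.blk D z j) = ∏ j ∈ (range (lv D z)).erase j₀,
      bh (SN.blk D z j) (60 + (lv D z - 1 - j)) (U ∩ SN.blk D z j) :=
    prod_congr rfl fun j hj => by rw [h1 j (ne_of_mem_erase hj)]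
  rw [h3]
  have h4 : 0 ≤ ∏ j ∈ (range (lv D z)).erase j₀,
      bh (SN.blk D z j) (60 + (lv D z - 1 - j)) (U ∩ SN.blk D z j) :=
    prod_nonneg fun j _ => bh_nonneg _ (brB_prime j) _ _
  have h5 := bh_sub (SN.blk D z j₀) (brB_prime j₀) (60 + (lv D z - 1 - j₀))
    (U ∩ SN.blk D z j₀) q hqp (fun h => hqU (mem_inter.1 h).1)
  refine (mul_le_mul_of_nonneg_right h5 h4).trans (le_of_eq ?_)
  ring

/-- The factors close to one. -/
private theorem brB_near {c : ℝ} (hc : 0 ≤ c) (hc1 : c ≤ 2 ^ 50) (l : ℕ) :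
    ∏ j ∈ range l, (1 + c / 2 ^ (60 + (l - 1 - j))) ≤ 2 := by
  have e : ∏ j ∈ range l, (1 + c / 2 ^ (60 + (l - 1 - j))) =
      ∏ j ∈ range l, (1 + c / 2 ^ (60 + j)) :=
    prod_range_reflect (fun j => 1 + c / 2 ^ (60 + j)) l
  rw [e]
  refine (SN.prod_one_add_le fun j _ => by positivity).trans ?_
  have h1 : ∀ j ∈ range l, c / 2 ^ (60 + j) ≤ (1 / 4) * (1 / 2 : ℝ) ^ j := by
    intro j _
    have h3 : (1 / 4) * (1 / 2 : ℝ) ^ j = 2 ^ 58 / (2 ^ (60 + j)) := by
      rw [one_div_pow, pow_add]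
      field_simp
      norm_num
    rw [h3]
    refine div_le_div_of_nonneg_right (hc1.trans ?_) (by positivity)
    norm_num
  have h4 : ∑ j ∈ range l, c / 2 ^ (60 + j) ≤ 1 / 2 := by
    refine (sum_le_sum h1).trans ?_
    rw [← mul_sum]
    have := sum_geometric_two_le l
    have h5 : ∑ j ∈ range l, (1 / 2 : ℝ) ^ j ≤ 2 := by simpa using this
    linarith
  have h6 := Real.exp_le_exp.2 h4
  have h7 : Real.exp (1 / 2) ≤ 2 := by
    have h8 : Real.exp (1 / 2) * Real.exp (1 / 2) = Real.exp 1 := by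
      rw [← Real.exp_add]
      norm_num
    have h9 := Real.exp_one_lt_d9
    have h10 := Real.exp_pos (1 / 2)
    nlinarith
  linarith

theorem bH_empty : bH D z ∅ ≤ 2 := by
  refine le_trans ?_ (brB_near (c := 4) (by norm_num) (by norm_num) (lv D z))
  unfold bH
  refine prod_le_prod (fun j _ => bh_nonneg _ (brB_prime j) _ _) fun j _ => ?_
  rw [empty_inter]
  exact bh_empty _ (brB_prime j) _

/-- PROOF. `bh_mass` and `∏_{D < p ≤ z} (1 - 1/p) ≤ 12 log D / log z` (as in `small_num2`); the factors `1 + 200 / 2^(60 + ..)` have product at most 2. -/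
theorem bH_mass (hD : Real.exp 40 ≤ D) (hz : D ≤ z) :
    ∑ U ∈ (Psm D z).powerset, bH D z U ^ 2 * ∏ p ∈ U, ((p : ℝ) - 1) ≤
      24 * (Real.log D / Real.log z) := by
  have hD2 := brB_two hD
  have h1 : ∑ U ∈ (Psm D z).powerset, bH D z U ^ 2 * ∏ p ∈ U, ((p : ℝ) - 1) =
      ∏ j ∈ range (lv D z), ∑ F ∈ (SN.blk D z j).powerset,
        bh (SN.blk D z j) (60 + (lv D z - 1 - j)) F ^ 2 * ∏ p ∈ F, ((p : ℝ) - 1) := by
    rw [← brB_sum (PU := brU D z) brU_zero (brU_succ (by omega)) brU_disj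
      (fun j F => bh (SN.blk D z j) (60 + (lv D z - 1 - j)) F ^ 2 * ∏ p ∈ F, ((p : ℝ) - 1)),
      brU_lv hD2 hz]
    refine sum_congr rfl fun U hU => ?_
    rw [mem_powerset] at hU
    rw [prod_mul_distrib, ← brB_prod (PU := brU D z) brU_zero (brU_succ (by omega)) brU_disj
      (fun p => (p : ℝ) - 1) (lv D z) U (by rwa [brU_lv hD2 hz]), prod_pow]
    rfl
  rw [h1]
  have h2 : ∏ j ∈ range (lv D z), ∑ F ∈ (SN.blk D z j).powerset,
        bh (SN.blk D z j) (60 + (lv D z - 1 - j)) F ^ 2 * ∏ p ∈ F, ((p : ℝ) - 1) ≤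
      ∏ j ∈ range (lv D z), (vS (SN.blk D z j) * (1 + 200 / 2 ^ (60 + (lv D z - 1 - j)))) := by
    refine prod_le_prod (fun j _ => sum_nonneg fun F hF => ?_) fun j _ =>
      bh_mass _ (brB_big hD j) (SN.sum_blk hD j) _
    refine mul_nonneg (sq_nonneg _) (prod_nonneg fun p hp => ?_)
    have hp1 : p.Prime := brB_prime j p (mem_powerset.1 hF hp)
    have : (1 : ℝ) ≤ p := by exact_mod_cast hp1.one_lt.le
    linarith
  refine h2.trans ?_
  rw [prod_mul_distrib]
  have h3 : ∏ j ∈ range (lv D z), vS (SN.blk D z j) =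
      ∏ p ∈ (Ioc D z).filter Nat.Prime, (1 - 1 / (p : ℝ)) :=
    SN.prod_blk' (fun p => 1 - 1 / (p : ℝ)) (by omega) (lv_spec hD2 hz).1
  rw [h3]
  have h4 := SN.prod_small hD hz
  have h5 := brB_near (c := 200) (by norm_num) (by norm_num) (lv D z)
  have h6 : 0 ≤ ∏ j ∈ range (lv D z), (1 + 200 / 2 ^ (60 + (lv D z - 1 - j)) : ℝ) :=
    prod_nonneg fun j _ => by positivity
  have h7 : 0 ≤ Real.log D / Real.log z := by
    have hD1 : (1 : ℝ) ≤ D := by exact_mod_cast (by omega : 1 ≤ D)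
    have hz1 : (D : ℝ) ≤ z := by exact_mod_cast hz
    exact div_nonneg (Real.log_nonneg hD1) (Real.log_nonneg (hD1.trans hz1))
  calc _ ≤ (2 * (Real.log D / Real.log z)) * 2 := mul_le_mul h4 h5 h6 (by linarith)
    _ ≤ 24 * (Real.log D / Real.log z) := by linarith

/-- PROOF. `bh_tot`: at most `5^lv`, and `2^lv ≤ 1 + 2 log z / log D` by `lv_spec`, `5 ≤ 2^3`. -/
theorem bH_tot (hD : 3 ≤ D) (hz : D ≤ z) :
    ∑ U ∈ (Psm D z).powerset, bH D z U ≤ (1 + 2 * Real.log z) ^ 3 := by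
  have hD2 : 2 ≤ D := by omega
  have h1 : ∑ U ∈ (Psm D z).powerset, bH D z U =
      ∏ j ∈ range (lv D z), ∑ F ∈ (SN.blk D z j).powerset,
        bh (SN.blk D z j) (60 + (lv D z - 1 - j)) F := by
    rw [← brB_sum (PU := brU D z) brU_zero (brU_succ (by omega)) brU_disj
      (fun j F => bh (SN.blk D z j) (60 + (lv D z - 1 - j)) F), brU_lv hD2 hz]
    rfl
  rw [h1]
  have h2 : ∏ j ∈ range (lv D z), ∑ F ∈ (SN.blk D z j).powerset,
        bh (SN.blk D z j) (60 + (lv D z - 1 - j)) F ≤ ∏ j ∈ range (lv D z), (5 : ℝ) :=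
    prod_le_prod (fun j _ => sum_nonneg fun F _ => bh_nonneg _ (brB_prime j) _ _)
      fun j _ => bh_tot _ (brB_prime j) _
  refine h2.trans ?_
  rw [prod_const, card_range]
  obtain ⟨l, hl⟩ : ∃ l, l = lv D z := ⟨_, rfl⟩
  have hsp := (lv_spec hD2 hz).2
  rw [← hl] at hsp ⊢
  have hD3 : (3 : ℝ) ≤ D := by exact_mod_cast hD
  have hz3 : (D : ℝ) ≤ z := by exact_mod_cast hz
  have hz0 : (0 : ℝ) < z := by linarith
  have hlD : 1 ≤ Real.log D := by
    rw [Real.le_log_iff_exp_le (by linarith)]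
    have := Real.exp_one_lt_d9
    linarith
  have hlz : Real.log D ≤ Real.log z := Real.log_le_log (by linarith) hz3
  have h3 : ((D : ℝ) ^ (122 * 2 ^ l)) ≤ (D : ℝ) ^ 122 * (z : ℝ) ^ 244 := by exact_mod_cast hsp
  have h4 := Real.log_le_log (by positivity) h3
  rw [Real.log_pow, Real.log_mul (by positivity) (by positivity), Real.log_pow,
    Real.log_pow] at h4
  push_cast at h4
  have h5 : (2 : ℝ) ^ l ≤ 1 + 2 * Real.log z := by
    have h6 : 122 * Real.log D * (2 ^ l - 1) ≤ 244 * Real.log z := by linarith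
    by_contra hcon
    rw [not_le] at hcon
    have h7 : 2 * Real.log z < 2 ^ l - 1 := by linarith
    have h8 : 0 ≤ Real.log z := by linarith
    nlinarith
  calc (5 : ℝ) ^ l ≤ 8 ^ l := pow_le_pow_left₀ (by norm_num) (by norm_num) l
    _ = (2 ^ l) ^ 3 := by
        rw [← pow_mul, mul_comm l 3, pow_mul]
        norm_num
    _ ≤ (1 + 2 * Real.log z) ^ 3 := pow_le_pow_left₀ (by positivity) h5 3

/-- PROOF. At most `60 + (l-1-j)` primes of each block `j`, all `≤ D^(2^(j+1))`: see `SN.expo`, `SN.level` in `G2/SmallN.lean`. -/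
theorem bH_level (hD : 2 ≤ D) (hz : D ≤ z) (U : Finset ℕ) (hU : U ⊆ Psm D z) (h : bH D z U ≠ 0) :
    ∏ p ∈ U, p ≤ z ^ 248 := by
  obtain ⟨l, hl⟩ : ∃ l, l = lv D z := ⟨_, rfl⟩
  have hcard : ∀ j ∈ range l, (U ∩ SN.blk D z j).card ≤ 60 + (l - 1 - j) := by
    intro j hj
    by_contra hcon
    apply h
    unfold bH
    rw [← hl]
    refine prod_eq_zero hj ?_
    unfold bh
    exact if_neg fun h' => hcon h'.2
  have hsp := (lv_spec hD hz).2
  rw [← hl] at hsp
  rw [brB_prod (PU := brU D z) brU_zero (brU_succ (by omega)) brU_disj (fun p => p) l U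
    (by rwa [hl, brU_lv hD hz])]
  calc ∏ j ∈ range l, ∏ p ∈ U ∩ SN.blk D z j, p ≤
        ∏ j ∈ range l, D ^ (2 ^ (j + 1) * (60 + (l - 1 - j))) := by
        refine prod_le_prod' fun j hj => ?_
        calc ∏ p ∈ U ∩ SN.blk D z j, p ≤ ∏ p ∈ U ∩ SN.blk D z j, D ^ 2 ^ (j + 1) :=
              prod_le_prod' fun p hp => (SN.mem_blk.1 (mem_inter.1 hp).2).1.2.1
          _ = (D ^ 2 ^ (j + 1)) ^ (U ∩ SN.blk D z j).card := prod_const _
          _ ≤ (D ^ 2 ^ (j + 1)) ^ (60 + (l - 1 - j)) :=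
              Nat.pow_le_pow_right (Nat.pow_pos (by omega)) (hcard j hj)
          _ = D ^ (2 ^ (j + 1) * (60 + (l - 1 - j))) := (pow_mul _ _ _).symm
    _ = D ^ ∑ j ∈ range l, 2 ^ (j + 1) * (60 + (l - 1 - j)) := by
        rw [prod_pow_eq_pow_sum]
    _ ≤ z ^ 248 := by
        have h2 := SN.expo l
        obtain ⟨s, hs⟩ : ∃ s, s = ∑ j ∈ range l, 2 ^ (j + 1) * (60 + (l - 1 - j)) := ⟨_, rfl⟩
        rw [← hs] at h2 ⊢
        have h3 : D ^ 122 * D ^ s ≤ D ^ 122 * z ^ 244 := by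
          refine le_trans ?_ hsp
          rw [← pow_add]
          exact Nat.pow_le_pow_right (by omega) (by omega)
        have h4 : D ^ s ≤ z ^ 244 := Nat.le_of_mul_le_mul_left h3 (by positivity)
        exact h4.trans (Nat.pow_le_pow_right (by omega) (by norm_num))

end Pool.Agent.H.MP_711652_nt.CG
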