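import Pool.Agent.H.MP_711652_nt.CG.Mlt

/-! # MP_711652, CG: disjoint families -/

set_option autoImplicit false

namespace Pool.Agent.H.MP_711652_nt.CG

open Finset Pool.Agent.H.MP_711652_nt.LG Pool.Agent.H.MP_711652_nt.CH

variable {ι : Type*} [Fintype ι] [DecidableEq ι]

/-- `b` at the positions of `S`, nothing elsewhere -/
noncomputable def wS (S : Finset ι) (b : Finset ℕ → ℝ) (i : ι) (U : Finset ℕ) : ℝ :=
  if i ∈ S then b U else if U = ∅ then 1 else 0

/-- `∑ b^2 φ` -/
noncomputable def mb (P : Finset ℕ) (b : Finset ℕ → ℝ) : ℝ :=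
  ∑ U ∈ P.powerset, b U ^ 2 * ∏ p ∈ U, ((p : ℝ) - 1)

private theorem Dj_mempts {P : Finset ℕ} {τ : P → Option ι} {i : ι} {q : ℕ} :
    q ∈ pts P τ i ↔ ∃ h : q ∈ P, τ ⟨q, h⟩ = some i := by
  unfold pts
  rw [mem_image]
  constructor
  · rintro ⟨p, hp, rfl⟩
    exact ⟨p.2, (mem_filter.1 hp).2⟩
  · rintro ⟨h, h1⟩
    exact ⟨⟨q, h⟩, mem_filter.2 ⟨mem_univ _, h1⟩, rfl⟩

private theorem Dj_inj (P : Finset ℕ) :
    Function.Injective (fun (τ : P → Option ι) (i : ι) => pts P τ i) := by
  intro τ τ' h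
  have h1 : ∀ (p : P) (i : ι), τ p = some i ↔ τ' p = some i := by
    intro p i
    have h2 : pts P τ i = pts P τ' i := congrFun h i
    constructor
    · intro h3
      have h4 : (p : ℕ) ∈ pts P τ' i := h2 ▸ Dj_mempts.2 ⟨p.2, h3⟩
      exact (Dj_mempts.1 h4).2
    · intro h3
      have h4 : (p : ℕ) ∈ pts P τ i := h2 ▸ Dj_mempts.2 ⟨p.2, h3⟩
      exact (Dj_mempts.1 h4).2
  funext p
  exact Option.ext (h1 p)

private theorem Dj_surj (P : Finset ℕ) {V : ι → Finset ℕ} (hV : ∀ i, V i ⊆ P)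
    (hd : ∀ i j p, i ≠ j → p ∈ V i → p ∉ V j) : ∃ τ : P → Option ι, (fun i => pts P τ i) = V := by
  classical
  refine ⟨fun p => if h : ∃ i, (p : ℕ) ∈ V i then some h.choose else none, ?_⟩
  funext i
  ext q
  rw [Dj_mempts]
  constructor
  · rintro ⟨hq, h1⟩
    by_cases h : ∃ i, q ∈ V i
    · rw [dif_pos h] at h1
      have h2 : h.choose = i := Option.some.inj h1
      exact h2 ▸ h.choose_spec
    · rw [dif_neg h] at h1
      exact absurd h1 (by simp)
  · intro hq
    refine ⟨hV i hq, ?_⟩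
    have h : ∃ i, q ∈ V i := ⟨i, hq⟩
    rw [dif_pos h]
    congr 1
    by_contra hne
    exact hd _ _ q hne h.choose_spec hq

private theorem Dj_phi (P : Finset ℕ) (τ : P → Option ι) :
    ∏ i, ∏ p ∈ pts P τ i, ((p : ℝ) - 1) = ph P τ := by
  have h1 : ∀ i, ∏ p ∈ pts P τ i, ((p : ℝ) - 1) =
      ∏ p : P, if τ p = some i then (((p : ℕ) : ℝ) - 1) else 1 := by
    intro i
    unfold pts
    rw [prod_image (by intro a _ b _ h; exact Subtype.ext h), prod_filter]
  rw [Finset.prod_congr rfl fun i _ => h1 i, Finset.prod_comm]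
  unfold ph
  apply Finset.prod_congr rfl
  intro p _
  rcases h : τ p with _ | j
  · simp
  · simp

private theorem Dj_phi_nonneg {P : Finset ℕ} (hP : ∀ p ∈ P, p.Prime) {U : Finset ℕ} (hU : U ⊆ P) :
    0 ≤ ∏ p ∈ U, ((p : ℝ) - 1) := by
  apply Finset.prod_nonneg
  intro p hp
  have h : (1 : ℝ) < (p : ℝ) := by exact_mod_cast (hP p (hU hp)).one_lt
  linarith

/-- The product over the positions. -/
private theorem Dj_G (P : Finset ℕ) (b : Finset ℕ → ℝ) (S : Finset ι) (τ : P → Option ι) :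
    (∏ i, wS S b i (pts P τ i)) ^ 2 * ph P τ =
      ∏ i, (wS S b i (pts P τ i) ^ 2 * ∏ p ∈ pts P τ i, ((p : ℝ) - 1)) := by
  rw [Finset.prod_mul_distrib, Dj_phi, Finset.prod_pow]

private theorem Dj_all (P : Finset ℕ) (b : Finset ℕ → ℝ) (S : Finset ι) :
    mb P b ^ S.card = ∑ V ∈ Fintype.piFinset fun _ : ι => P.powerset,
      ∏ i, (wS S b i (V i) ^ 2 * ∏ p ∈ V i, ((p : ℝ) - 1)) := by
  rw [← Finset.prod_univ_sum (fun _ : ι => P.powerset)
    (fun i U => wS S b i U ^ 2 * ∏ p ∈ U, ((p : ℝ) - 1))]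
  have h1 : ∀ i : ι, ∑ U ∈ P.powerset, wS S b i U ^ 2 * ∏ p ∈ U, ((p : ℝ) - 1) =
      if i ∈ S then mb P b else 1 := by
    intro i
    by_cases hi : i ∈ S
    · simp [wS, hi, mb]
    · rw [if_neg hi, Finset.sum_eq_single ∅]
      · simp [wS, hi]
      · intro U _ hU
        simp [wS, hi, hU]
      · intro h
        exact absurd (Finset.empty_mem_powerset P) h
  rw [Finset.prod_congr rfl fun i _ => h1 i, Finset.prod_ite_mem, Finset.univ_inter,
    Finset.prod_const]

/-- PROOF. `τ ↦ (pts P τ i)_i` is injective. -/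
theorem dj_upper (P : Finset ℕ) (hP : ∀ p ∈ P, p.Prime) (b : Finset ℕ → ℝ) (S : Finset ι) :
    ∑ τ : P → Option ι, (∏ i, wS S b i (pts P τ i)) ^ 2 * ph P τ ≤ mb P b ^ S.card := by
  classical
  rw [Dj_all, Finset.sum_congr rfl fun τ _ => Dj_G P b S τ]
  rw [← Finset.sum_image (f := fun V : ι → Finset ℕ =>
    ∏ i, (wS S b i (V i) ^ 2 * ∏ p ∈ V i, ((p : ℝ) - 1)))
    (g := fun (τ : P → Option ι) (i : ι) => pts P τ i) (s := univ) (fun x _ y _ h => Dj_inj P h)]
  apply Finset.sum_le_sum_of_subset_of_nonneg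
  · intro V hV
    rw [mem_image] at hV
    obtain ⟨τ, -, rfl⟩ := hV
    rw [Fintype.mem_piFinset]
    intro i
    rw [mem_powerset]
    intro q hq
    exact (Dj_mempts.1 hq).1
  · intro V hV _
    rw [Fintype.mem_piFinset] at hV
    exact Finset.prod_nonneg fun i _ =>
      mul_nonneg (sq_nonneg _) (Dj_phi_nonneg hP (mem_powerset.1 (hV i)))

/-- The sets with a given prime. -/
private theorem Dj_local {P : Finset ℕ} (hP : ∀ p ∈ P, p.Prime) {h : Finset ℕ → ℝ} {κ : ℝ}
    (h0 : ∀ U, 0 ≤ h U)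
    (hs : ∀ U q, q ∈ P → q ∉ U → h (insert q U) ≤ h U * (κ / ((q : ℝ) - 1))) {p : ℕ}
    (hp : p ∈ P) :
    ∑ U ∈ P.powerset, h U ^ 2 * (∏ p ∈ U, ((p : ℝ) - 1)) * (if p ∈ U then 1 else 0) ≤
      κ ^ 2 / ((p : ℝ) - 1) * mb P h := by
  classical
  have hp1 : (0 : ℝ) < (p : ℝ) - 1 := by
    have : (1 : ℝ) < (p : ℝ) := by exact_mod_cast (hP p hp).one_lt
    linarith
  have hins : P = insert p (P.erase p) := (Finset.insert_erase hp).symm
  have hnot : p ∉ P.erase p := Finset.notMem_erase p P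
  have hsplit := Finset.sum_powerset_insert hnot
    (fun U => h U ^ 2 * (∏ p ∈ U, ((p : ℝ) - 1)) * (if p ∈ U then (1 : ℝ) else 0))
  rw [← hins] at hsplit
  rw [hsplit]
  have hz : ∑ t ∈ (P.erase p).powerset,
      h t ^ 2 * (∏ p ∈ t, ((p : ℝ) - 1)) * (if p ∈ t then (1 : ℝ) else 0) = 0 := by
    apply Finset.sum_eq_zero
    intro t ht
    have : p ∉ t := fun h => hnot (mem_powerset.1 ht h)
    rw [if_neg this, mul_zero]
  rw [hz, zero_add]
  calc ∑ t ∈ (P.erase p).powerset, h (insert p t) ^ 2 * (∏ q ∈ insert p t, ((q : ℝ) - 1)) *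
        (if p ∈ insert p t then (1 : ℝ) else 0)
      ≤ ∑ t ∈ (P.erase p).powerset,
          κ ^ 2 / ((p : ℝ) - 1) * (h t ^ 2 * ∏ q ∈ t, ((q : ℝ) - 1)) := by
        apply Finset.sum_le_sum
        intro t ht
        have hpt : p ∉ t := fun h => hnot (mem_powerset.1 ht h)
        have ht' : t ⊆ P := (mem_powerset.1 ht).trans (Finset.erase_subset p P)
        rw [if_pos (Finset.mem_insert_self p t), mul_one, Finset.prod_insert hpt]
        have h1 : h (insert p t) ^ 2 ≤ (h t * (κ / ((p : ℝ) - 1))) ^ 2 :=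
          pow_le_pow_left₀ (h0 _) (hs t p hp hpt) 2
        have h2 := Dj_phi_nonneg hP ht'
        calc h (insert p t) ^ 2 * (((p : ℝ) - 1) * ∏ q ∈ t, ((q : ℝ) - 1))
            ≤ (h t * (κ / ((p : ℝ) - 1))) ^ 2 * (((p : ℝ) - 1) * ∏ q ∈ t, ((q : ℝ) - 1)) :=
              mul_le_mul_of_nonneg_right h1 (mul_nonneg hp1.le h2)
          _ = κ ^ 2 / ((p : ℝ) - 1) * (h t ^ 2 * ∏ q ∈ t, ((q : ℝ) - 1)) := by
              field_simp
    _ = κ ^ 2 / ((p : ℝ) - 1) *
          ∑ t ∈ (P.erase p).powerset, h t ^ 2 * ∏ q ∈ t, ((q : ℝ) - 1) := by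
        rw [Finset.mul_sum]
    _ ≤ κ ^ 2 / ((p : ℝ) - 1) * mb P h := by
        apply mul_le_mul_of_nonneg_left _ (by positivity)
        unfold mb
        apply Finset.sum_le_sum_of_subset_of_nonneg
        · exact Finset.powerset_mono.2 (Finset.erase_subset p P)
        · intro t ht _
          exact mul_nonneg (sq_nonneg _) (Dj_phi_nonneg hP (mem_powerset.1 ht))

private theorem Dj_mb_nonneg {P : Finset ℕ} (hP : ∀ p ∈ P, p.Prime) (h : Finset ℕ → ℝ) :
    0 ≤ mb P h := by
  unfold mb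
  exact Finset.sum_nonneg fun t ht =>
    mul_nonneg (sq_nonneg _) (Dj_phi_nonneg hP (mem_powerset.1 ht))

/-- The families with a common prime at two positions. -/
private theorem Dj_pair {P : Finset ℕ} (hP : ∀ p ∈ P, p.Prime) {h : Finset ℕ → ℝ} {κ : ℝ}
    (h0 : ∀ U, 0 ≤ h U)
    (hs : ∀ U q, q ∈ P → q ∉ U → h (insert q U) ≤ h U * (κ / ((q : ℝ) - 1))) {p : ℕ}
    (hp : p ∈ P) (S : Finset ι) {i j : ι} (hi : i ∈ S) (hj : j ∈ S) (hij : i ≠ j) :
    ∑ V ∈ Fintype.piFinset fun _ : ι => P.powerset,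
      ∏ k, (wS S h k (V k) ^ 2 * (∏ p ∈ V k, ((p : ℝ) - 1)) *
        (if k = i ∨ k = j then (if p ∈ V k then 1 else 0) else 1)) ≤
      κ ^ 4 / ((p : ℝ) - 1) ^ 2 * mb P h ^ S.card := by
  classical
  have hp1 : (0 : ℝ) < (p : ℝ) - 1 := by
    have : (1 : ℝ) < (p : ℝ) := by exact_mod_cast (hP p hp).one_lt
    linarith
  rw [← Finset.prod_univ_sum (fun _ : ι => P.powerset)
    (fun k U => wS S h k U ^ 2 * (∏ p ∈ U, ((p : ℝ) - 1)) *
        (if k = i ∨ k = j then (if p ∈ U then 1 else 0) else 1))]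
  have h1 : ∀ k : ι, ∑ U ∈ P.powerset, wS S h k U ^ 2 * (∏ p ∈ U, ((p : ℝ) - 1)) *
        (if k = i ∨ k = j then (if p ∈ U then 1 else 0) else 1) ≤
      (if k ∈ S then mb P h else 1) *
        ((if k = i then κ ^ 2 / ((p : ℝ) - 1) else 1) *
          (if k = j then κ ^ 2 / ((p : ℝ) - 1) else 1)) := by
    intro k
    by_cases hk : k = i ∨ k = j
    · have hkS : k ∈ S := by
        rcases hk with rfl | rfl
        · exact hi
        · exact hj
      have hc : ((if k = i then κ ^ 2 / ((p : ℝ) - 1) else 1) *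
          (if k = j then κ ^ 2 / ((p : ℝ) - 1) else 1)) = κ ^ 2 / ((p : ℝ) - 1) := by
        rcases hk with rfl | rfl
        · rw [if_pos rfl, if_neg hij, mul_one]
        · rw [if_pos rfl, if_neg (Ne.symm hij), one_mul]
      rw [hc, if_pos hkS, mul_comm (mb P h)]
      refine le_trans (le_of_eq ?_) (Dj_local hP h0 hs hp)
      apply Finset.sum_congr rfl
      intro U _
      rw [if_pos hk]
      simp [wS, hkS]
    · have hki : k ≠ i := fun e => hk (Or.inl e)
      have hkj : k ≠ j := fun e => hk (Or.inr e)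
      rw [if_neg hki, if_neg hkj, mul_one, mul_one]
      apply le_of_eq
      by_cases hkS : k ∈ S
      · rw [if_pos hkS]
        unfold mb
        apply Finset.sum_congr rfl
        intro U _
        rw [if_neg hk, mul_one]
        simp [wS, hkS]
      · rw [if_neg hkS, Finset.sum_eq_single ∅]
        · simp [wS, hkS, hk]
        · intro U _ hU
          simp [wS, hkS, hU]
        · intro h
          exact absurd (Finset.empty_mem_powerset P) h
  refine (Finset.prod_le_prod (fun k _ => ?_) fun k _ => h1 k).trans (le_of_eq ?_)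
  · apply Finset.sum_nonneg
    intro U hU
    apply mul_nonneg (mul_nonneg (sq_nonneg _) (Dj_phi_nonneg hP (mem_powerset.1 hU)))
    split_ifs <;> norm_num
  · rw [Finset.prod_mul_distrib, Finset.prod_mul_distrib, Finset.prod_ite_mem,
      Finset.univ_inter, Finset.prod_const, Fintype.prod_ite_eq' i, Fintype.prod_ite_eq' j]
    field_simp

/-- PROOF. The image of `τ ↦ (pts P τ i)_i` is the set of the disjoint families.  The families `(U i)_{i ∈ S}` with a common prime `p ∈ U i ∩ U j` contribute at most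
`∑_{i,j} ∑_p (κ^2/(p-1))^2 (mb h)^|S|`, since `∑_{U ∋ p} h U^2 φ(U) ≤ κ^2/(p-1) mb h`. -/
theorem dj_lower (P : Finset ℕ) (hP : ∀ p ∈ P, p.Prime) (b h : Finset ℕ → ℝ) {κ : ℝ}
    (hκ : 0 ≤ κ) (hb : ∀ U, |b U| ≤ h U)
    (hs : ∀ U q, q ∈ P → q ∉ U → h (insert q U) ≤ h U * (κ / ((q : ℝ) - 1))) (S : Finset ι) :
    mb P b ^ S.card - (S.card : ℝ) ^ 2 * (∑ p ∈ P, κ ^ 4 / ((p : ℝ) - 1) ^ 2) *
      mb P h ^ S.card ≤
      ∑ τ : P → Option ι, (∏ i, wS S b i (pts P τ i)) ^ 2 * ph P τ := by
  classical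
  have h0 : ∀ U, 0 ≤ h U := fun U => (abs_nonneg _).trans (hb U)
  set G : (Finset ℕ → ℝ) → (ι → Finset ℕ) → ℝ := fun b V =>
    ∏ i, (wS S b i (V i) ^ 2 * ∏ p ∈ V i, ((p : ℝ) - 1)) with hG
  set A : Finset (ι → Finset ℕ) := Fintype.piFinset fun _ : ι => P.powerset with hA
  have hAsub : ∀ V ∈ A, ∀ i, V i ⊆ P := by
    intro V hV i
    rw [hA, Fintype.mem_piFinset] at hV
    exact mem_powerset.1 (hV i)
  have hGnn : ∀ c : Finset ℕ → ℝ, ∀ V ∈ A, 0 ≤ G c V := fun c V hV =>
    Finset.prod_nonneg fun i _ => mul_nonneg (sq_nonneg _) (Dj_phi_nonneg hP (hAsub V hV i))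
  have hGle : ∀ V ∈ A, G b V ≤ G h V := by
    intro V hV
    apply Finset.prod_le_prod
    · intro i _
      exact mul_nonneg (sq_nonneg _) (Dj_phi_nonneg hP (hAsub V hV i))
    · intro i _
      apply mul_le_mul_of_nonneg_right _ (Dj_phi_nonneg hP (hAsub V hV i))
      unfold wS
      split_ifs
      · rw [← sq_abs (b (V i))]
        exact pow_le_pow_left₀ (abs_nonneg _) (hb _) 2
      · exact le_rfl
      · exact le_rfl
  have hall : mb P b ^ S.card = ∑ V ∈ A, G b V := Dj_all P b S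
  -- the sum over the assignments
  have hsum : ∑ τ : P → Option ι, (∏ i, wS S b i (pts P τ i)) ^ 2 * ph P τ =
      ∑ V ∈ (univ : Finset (P → Option ι)).image (fun τ i => pts P τ i), G b V := by
    rw [Finset.sum_image fun x _ y _ h => Dj_inj P h]
    exact Finset.sum_congr rfl fun τ _ => Dj_G P b S τ
  have himA : ∀ V ∈ (univ : Finset (P → Option ι)).image (fun τ i => pts P τ i), V ∈ A := by
    intro V hV
    rw [mem_image] at hV
    obtain ⟨τ, -, rfl⟩ := hV
    rw [hA, Fintype.mem_piFinset]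
    intro i
    rw [mem_powerset]
    intro q hq
    exact (Dj_mempts.1 hq).1
  set D : (ι → Finset ℕ) → Prop := fun V => ∀ i j p, i ≠ j → p ∈ V i → p ∉ V j with hD
  have hdis : ∑ V ∈ A.filter D, G b V ≤
      ∑ V ∈ (univ : Finset (P → Option ι)).image (fun τ i => pts P τ i), G b V := by
    apply Finset.sum_le_sum_of_subset_of_nonneg
    · intro V hV
      rw [mem_filter] at hV
      obtain ⟨τ, hτ⟩ := Dj_surj P (hAsub V hV.1) hV.2
      rw [mem_image]
      exact ⟨τ, mem_univ _, hτ⟩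
    · intro V hV _
      exact hGnn b V (himA V hV)
  have hnd : ∑ V ∈ A.filter (fun V => ¬ D V), G b V ≤
      (S.card : ℝ) ^ 2 * (∑ p ∈ P, κ ^ 4 / ((p : ℝ) - 1) ^ 2) * mb P h ^ S.card := by
    set T : ι × ι → ℕ → (ι → Finset ℕ) → ℝ := fun x p V =>
      ∏ k, (wS S h k (V k) ^ 2 * (∏ p ∈ V k, ((p : ℝ) - 1)) *
        (if k = x.1 ∨ k = x.2 then (if p ∈ V k then 1 else 0) else 1)) with hT
    have hTnn : ∀ x p, ∀ V ∈ A, 0 ≤ T x p V := by
      intro x p V hV
      apply Finset.prod_nonneg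
      intro k _
      apply mul_nonneg (mul_nonneg (sq_nonneg _) (Dj_phi_nonneg hP (hAsub V hV k)))
      split_ifs <;> norm_num
    calc ∑ V ∈ A.filter (fun V => ¬ D V), G b V
        ≤ ∑ V ∈ A.filter (fun V => ¬ D V), ∑ x ∈ S.offDiag, ∑ p ∈ P, T x p V := by
          apply Finset.sum_le_sum
          intro V hV
          rw [mem_filter] at hV
          have hV1 := hV.1
          have hV2 := hV.2
          rw [hD] at hV2
          push Not at hV2
          obtain ⟨i, j, p, hij, hpi, hpj⟩ := hV2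
          have hnn2 : ∀ x ∈ S.offDiag, 0 ≤ ∑ p ∈ P, T x p V := fun x _ =>
            Finset.sum_nonneg fun p _ => hTnn x p V hV1
          by_cases hi : i ∈ S
          · by_cases hj : j ∈ S
            · refine (hGle V hV1).trans ?_
              have e : G h V = T (i, j) p V := by
                rw [hG, hT]
                apply Finset.prod_congr rfl
                intro k _
                have : (if k = i ∨ k = j then (if p ∈ V k then (1 : ℝ) else 0) else 1) = 1 := by
                  split_ifs with h1 h2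
                  · rfl
                  · exfalso
                    rcases h1 with rfl | rfl
                    · exact h2 hpi
                    · exact h2 hpj
                  · rfl
                rw [this, mul_one]
              rw [e]
              have hmem : (i, j) ∈ S.offDiag := Finset.mem_offDiag.2 ⟨hi, hj, hij⟩
              refine le_trans ?_ (Finset.single_le_sum hnn2 hmem)
              exact Finset.single_le_sum (f := fun p => T (i, j) p V)
                (fun p _ => hTnn (i, j) p V hV1) (hAsub V hV1 i hpi)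
            · have : G b V = 0 := by
                rw [hG]
                apply Finset.prod_eq_zero (mem_univ j)
                have hne : V j ≠ ∅ := Finset.ne_empty_of_mem hpj
                simp [wS, hj, hne]
              rw [this]
              exact Finset.sum_nonneg hnn2
          · have : G b V = 0 := by
              rw [hG]
              apply Finset.prod_eq_zero (mem_univ i)
              have hne : V i ≠ ∅ := Finset.ne_empty_of_mem hpi
              simp [wS, hi, hne]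
            rw [this]
            exact Finset.sum_nonneg hnn2
      _ ≤ ∑ V ∈ A, ∑ x ∈ S.offDiag, ∑ p ∈ P, T x p V := by
          apply Finset.sum_le_sum_of_subset_of_nonneg (Finset.filter_subset _ _)
          intro V hV _
          exact Finset.sum_nonneg fun x _ => Finset.sum_nonneg fun p _ => hTnn x p V hV
      _ = ∑ x ∈ S.offDiag, ∑ p ∈ P, ∑ V ∈ A, T x p V := by
          rw [Finset.sum_comm]
          exact Finset.sum_congr rfl fun x _ => Finset.sum_comm
      _ ≤ ∑ x ∈ S.offDiag, ∑ p ∈ P, κ ^ 4 / ((p : ℝ) - 1) ^ 2 * mb P h ^ S.card := by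
          apply Finset.sum_le_sum
          intro x hx
          rw [Finset.mem_offDiag] at hx
          apply Finset.sum_le_sum
          intro p hp
          exact Dj_pair hP h0 hs hp S hx.1 hx.2.1 hx.2.2
      _ = (S.offDiag.card : ℝ) *
            ((∑ p ∈ P, κ ^ 4 / ((p : ℝ) - 1) ^ 2) * mb P h ^ S.card) := by
          rw [Finset.sum_const, nsmul_eq_mul, Finset.sum_mul]
      _ ≤ (S.card : ℝ) ^ 2 * ((∑ p ∈ P, κ ^ 4 / ((p : ℝ) - 1) ^ 2) * mb P h ^ S.card) := by
          apply mul_le_mul_of_nonneg_right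
          · have h1 : S.offDiag.card ≤ S.card ^ 2 := by
              rw [Finset.offDiag_card, sq]
              exact Nat.sub_le _ _
            exact_mod_cast h1
          · apply mul_nonneg
            · exact Finset.sum_nonneg fun p _ => by positivity
            · exact pow_nonneg (Dj_mb_nonneg hP h) _
      _ = _ := by ring
  rw [hall, hsum]
  have hfs := Finset.sum_filter_add_sum_filter_not A D (G b)
  linarith

end Pool.Agent.H.MP_711652_nt.CG
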