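import Pool.Agent.H.MP_711652_nt.CG.BrB
import Pool.Agent.H.MP_711652_nt.CG.Dj
import Pool.Agent.H.MP_711652_nt.LG.Sums

/-! # MP_711652, CG: the majorant `|bF| + bH / Λ` -/

set_option autoImplicit false

namespace Pool.Agent.H.MP_711652_nt.CG

open Finset Pool.Agent.H.MP_711652_nt.LG Pool.Agent.H.MP_711652_nt.G2

/-- the majorant -/
noncomputable def bT (D z : ℕ) (Λ : ℝ) (U : Finset ℕ) : ℝ := |bF D z U| + bH D z U / Λ

variable {D z : ℕ} {Λ : ℝ}

private theorem brC_two (hD : Real.exp 40 ≤ D) : 41 ≤ D := by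
  have h1 : (41 : ℝ) ≤ D := by
    have := Real.add_one_le_exp (40 : ℝ)
    linarith
  exact_mod_cast h1

private theorem brC_div (hΛ : 1 ≤ Λ) (U : Finset ℕ) : bH D z U / Λ ≤ bH D z U :=
  div_le_self (bH_nonneg U) hΛ

theorem bT_nonneg (hΛ : 1 ≤ Λ) (U : Finset ℕ) : 0 ≤ bT D z Λ U := by
  have h1 : 0 ≤ bH D z U := bH_nonneg U
  unfold bT
  positivity

private theorem brC_le (hΛ : 1 ≤ Λ) (hD : Real.exp 40 ≤ D) (hz : D ≤ z) (U : Finset ℕ) :
    bT D z Λ U ≤ 2 * bH D z U := by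
  have h1 := abs_bF_le hD hz U
  have h2 := brC_div (D := D) (z := z) hΛ U
  unfold bT
  linarith

private theorem brC_pos {q : ℕ} (hq : q ∈ Psm D z) : (1 : ℝ) ≤ (q : ℝ) - 1 := by
  have h1 : q.Prime := (mem_filter.1 hq).2
  have h2 : (2 : ℝ) ≤ q := by exact_mod_cast h1.two_le
  linarith

/-- PROOF. `bT (insert q U) ≤ 2 bH (insert q U) ≤ 4 / (q - 1) bH U ≤ 4 Λ / (q - 1) bT U`. -/
theorem bT_sub (hΛ : 1 ≤ Λ) (hD : Real.exp 40 ≤ D) (hz : D ≤ z) (U : Finset ℕ) (q : ℕ)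
    (hq : q ∈ Psm D z) (hqU : q ∉ U) :
    bT D z Λ (insert q U) ≤ bT D z Λ U * (4 * Λ / ((q : ℝ) - 1)) := by
  have hD2 : 2 ≤ D := by
    have := brC_two hD
    omega
  have h1 := brC_le hΛ hD hz (insert q U)
  have h2 := bH_sub hD2 hz U q hq hqU
  have h3 := brC_pos hq
  have h4 : bH D z U ≤ Λ * bT D z Λ U := by
    have h5 : bH D z U / Λ ≤ bT D z Λ U := by
      unfold bT
      linarith [abs_nonneg (bF D z U)]
    have h6 : 0 < Λ := by linarith
    rw [div_le_iff₀ h6] at h5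
    linarith
  have h7 : 0 < 4 / ((q : ℝ) - 1) := by positivity
  calc bT D z Λ (insert q U) ≤ 2 * (bH D z U * (2 / ((q : ℝ) - 1))) := by linarith
    _ = bH D z U * (4 / ((q : ℝ) - 1)) := by ring
    _ ≤ (Λ * bT D z Λ U) * (4 / ((q : ℝ) - 1)) := mul_le_mul_of_nonneg_right h4 h7.le
    _ = bT D z Λ U * (4 * Λ / ((q : ℝ) - 1)) := by ring

theorem bT_empty (hΛ : 1 ≤ Λ) (hD : Real.exp 40 ≤ D) (hz : D ≤ z) : bT D z Λ ∅ ≤ 4 := by
  have h1 := brC_le hΛ hD hz ∅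
  have h2 : bH D z ∅ ≤ 2 := bH_empty
  linarith

theorem bT_tot (hΛ : 1 ≤ Λ) (hD : Real.exp 40 ≤ D) (hz : D ≤ z) :
    ∑ U ∈ (Psm D z).powerset, bT D z Λ U ≤ 2 * (1 + 2 * Real.log z) ^ 3 := by
  have hD3 : 3 ≤ D := by
    have := brC_two hD
    omega
  refine (sum_le_sum fun U _ => brC_le hΛ hD hz U).trans ?_
  rw [← mul_sum]
  have := bH_tot hD3 hz
  linarith

theorem bT_level (hD : Real.exp 40 ≤ D) (hz : D ≤ z) (U : Finset ℕ) (hU : U ⊆ Psm D z)
    (h : bT D z Λ U ≠ 0) : ∏ p ∈ U, p ≤ z ^ 248 := by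
  have hD2 : 2 ≤ D := by
    have := brC_two hD
    omega
  refine bH_level hD2 hz U hU fun h0 => h ?_
  have h1 := abs_bF_le hD hz U
  rw [h0] at h1
  have h2 : |bF D z U| = 0 := le_antisymm h1 (abs_nonneg _)
  unfold bT
  rw [h2, h0, zero_div, add_zero]

/-- The coefficients sum to one. -/
private theorem brC_sum (hD : 2 ≤ D) (hz : D ≤ z) :
    ∑ U ∈ (Psm D z).powerset, bF D z U = 1 := by
  have h1 := LamF_expand (fun _ (_ : Unit) _ => False) hD hz () 0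
  have h2 : LamF D z (fun _ (_ : Unit) _ => False) () 0 = 1 :=
    LamF_eq_one (by omega) fun p _ h => h
  rw [h2] at h1
  rw [h1]
  refine sum_congr rfl fun U _ => ?_
  have h3 : ∏ p ∈ U, Ef (fun _ (_ : Unit) _ => False) p (some ()) 0 = 1 :=
    prod_eq_one fun p _ => by
      unfold Ef
      simp
  rw [h3, mul_one]

private theorem brC_sdiff {s t : Finset ℕ} {f : ℕ → ℝ} (h : s ⊆ t)
    (hf : ∀ p ∈ t, 0 ≤ f p ∧ f p ≤ 1) : ∏ p ∈ t, f p ≤ ∏ p ∈ s, f p := by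
  rw [← prod_sdiff h]
  refine mul_le_of_le_one_left (prod_nonneg fun p hp => (hf p (h hp)).1) ?_
  exact prod_le_one (fun p hp => (hf p (mem_sdiff.1 hp).1).1)
    fun p hp => (hf p (mem_sdiff.1 hp).1).2

/-- PROOF. `∑_U bF U = 1` (`LamF_expand` with `A = fun _ _ _ => False`, `LamF_eq_one`), Cauchy-Schwarz: `1 ≤ mb bF * ∑_U 1/φ(U) = mb bF / ∏ (1 - 1/p)`, and
`∏_{D < p ≤ z} (1 - 1/p) ≥ ∏_{p ≤ z} (1 - 1/p) ≥ exp(-21) / log z` (`VV_ge` in `LG/Sums`). -/
theorem mF_ge (hD : 2 ≤ D) (hz : D ≤ z) :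
    Real.exp (-21) / Real.log z ≤ mb (Psm D z) (bF D z) := by
  have hφ : ∀ U ∈ (Psm D z).powerset, 0 < ∏ p ∈ U, ((p : ℝ) - 1) := fun U hU =>
    prod_pos fun p hp => by
      have := brC_pos (mem_powerset.1 hU hp)
      linarith
  have hcs := sum_sq_le_sum_mul_sum_of_sq_le_mul (Psm D z).powerset
    (r := fun U => bF D z U) (f := fun U => bF D z U ^ 2 * ∏ p ∈ U, ((p : ℝ) - 1))
    (g := fun U => ∏ p ∈ U, 1 / ((p : ℝ) - 1))
    (fun U hU => mul_nonneg (sq_nonneg _) (hφ U hU).le)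
    (fun U hU => by
      rw [prod_div_distrib, prod_const_one]
      exact (div_pos one_pos (hφ U hU)).le)
    (fun U hU => by
      have h1 := (hφ U hU).ne'
      refine le_of_eq ?_
      rw [prod_div_distrib, prod_const_one, mul_assoc, mul_one_div_cancel h1, mul_one])
  have hs := brC_sum hD hz
  rw [hs, one_pow] at hcs
  have hprod : ∑ U ∈ (Psm D z).powerset, ∏ p ∈ U, 1 / ((p : ℝ) - 1) =
      (vS (Psm D z))⁻¹ := by
    rw [← prod_one_add]
    unfold vS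
    rw [← prod_inv_distrib]
    refine prod_congr rfl fun p hp => ?_
    have h1 := brC_pos hp
    have h2 : (p : ℝ) ≠ 0 := by linarith
    have h3 : (p : ℝ) - 1 ≠ 0 := by linarith
    have h4 : 1 - 1 / (p : ℝ) = ((p : ℝ) - 1) / p := by field_simp
    rw [h4, inv_div]
    field_simp
    ring
  have hVV := _root_.LG.VV_ge (hD.trans hz)
  have hle : _root_.LG.VV z ≤ vS (Psm D z) := by
    unfold _root_.LG.VV vS
    have hfac : ∀ p ∈ Pool.Agent.H.MP_3e6494_nt.prm z, 0 ≤ 1 - 1 / (p : ℝ) ∧ 1 - 1 / (p : ℝ) ≤ 1 := by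
      intro p hp
      have h1 : (2 : ℝ) ≤ p := by exact_mod_cast (Pool.Agent.H.MP_3e6494_nt.mem_prm.1 hp).1.two_le
      have h2 : 1 / (p : ℝ) ≤ 1 / 2 := one_div_le_one_div_of_le (by norm_num) h1
      have h3 : 0 ≤ 1 / (p : ℝ) := by positivity
      constructor <;> linarith
    have hsub : Psm D z ⊆ Pool.Agent.H.MP_3e6494_nt.prm z := by
      intro p hp
      have hp1 := (mem_filter.1 hp).2
      have hp2 := mem_Ioc.1 (mem_filter.1 hp).1
      exact Pool.Agent.H.MP_3e6494_nt.mem_prm.2 ⟨hp1, hp2.2⟩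
    exact brC_sdiff hsub hfac
  have hvpos : 0 < vS (Psm D z) := (_root_.LG.VV_pos z).trans_le hle
  have hmb : vS (Psm D z) ≤ mb (Psm D z) (bF D z) := by
    have h1 : 1 ≤ mb (Psm D z) (bF D z) * (vS (Psm D z))⁻¹ := by
      rw [← hprod]
      exact hcs
    have h2 := mul_le_mul_of_nonneg_right h1 hvpos.le
    rwa [one_mul, mul_assoc, inv_mul_cancel₀ hvpos.ne', mul_one] at h2
  exact (hVV.trans hle).trans hmb

private theorem brC_mbH (hD : Real.exp 40 ≤ D) (hz : D ≤ z) :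
    mb (Psm D z) (bH D z) ≤ 24 * (Real.log D / Real.log z) := bH_mass hD hz

private theorem brC_phi {U : Finset ℕ} (hU : U ∈ (Psm D z).powerset) :
    0 ≤ ∏ p ∈ U, ((p : ℝ) - 1) :=
  prod_nonneg fun p hp => by
    have := brC_pos (mem_powerset.1 hU hp)
    linarith

/-- PROOF. `(|x| + y/Λ)^2 ≤ (1 + 1/Λ) x^2 + (2/Λ) y^2` for `Λ ≥ 1`; `bH_mass`, `mF_ge`. -/
theorem mT_le (hΛ : 1 ≤ Λ) (hD : Real.exp 40 ≤ D) (hz : D ≤ z) :
    mb (Psm D z) (bT D z Λ) ≤
      (1 + 50 * Real.exp 21 * Real.log D / Λ) * mb (Psm D z) (bF D z) := by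
  have hΛ0 : 0 < Λ := by linarith
  have hD41 := brC_two hD
  have hpt : ∀ x y : ℝ, (|x| + y / Λ) ^ 2 ≤ (1 + 1 / Λ) * x ^ 2 + 2 / Λ * y ^ 2 := by
    intro x y
    obtain ⟨l, hl⟩ : ∃ l, l = 1 / Λ := ⟨_, rfl⟩
    have hl0 : 0 < l := by rw [hl]; positivity
    have hl1 : l ≤ 1 := by
      rw [hl, div_le_one hΛ0]
      exact hΛ
    have e1 : y / Λ = l * y := by rw [hl]; ring
    have e2 : 2 / Λ = 2 * l := by rw [hl]; ring
    rw [e1, e2, ← hl, ← sq_abs x]
    have h1 : 0 ≤ l * (|x| - y) ^ 2 := mul_nonneg hl0.le (sq_nonneg _)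
    have h2 : l ^ 2 * y ^ 2 ≤ l * y ^ 2 := by
      refine mul_le_mul_of_nonneg_right ?_ (sq_nonneg _)
      nlinarith
    nlinarith
  have h1 : mb (Psm D z) (bT D z Λ) ≤
      (1 + 1 / Λ) * mb (Psm D z) (bF D z) + 2 / Λ * mb (Psm D z) (bH D z) := by
    unfold mb
    rw [mul_sum, mul_sum, ← sum_add_distrib]
    refine sum_le_sum fun U hU => ?_
    have h2 := mul_le_mul_of_nonneg_right (hpt (bF D z U) (bH D z U)) (brC_phi hU)
    unfold bT
    linarith
  have h2 := brC_mbH hD hz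
  have h3 := mF_ge (by omega : 2 ≤ D) hz
  have hlD : 40 ≤ Real.log D := by
    rw [Real.le_log_iff_exp_le (by exact_mod_cast (by omega : 0 < D))]
    exact hD
  have hlz : 0 < Real.log z := Real.log_pos (by exact_mod_cast (by omega : 1 < z))
  obtain ⟨m, hm⟩ : ∃ m, m = mb (Psm D z) (bF D z) := ⟨_, rfl⟩
  rw [← hm] at h1 h3 ⊢
  have h4 : 1 / Real.log z ≤ Real.exp 21 * m := by
    have h5 := mul_le_mul_of_nonneg_left h3 (Real.exp_pos 21).le
    have h6 : Real.exp 21 * (Real.exp (-21) / Real.log z) = 1 / Real.log z := by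
      rw [← mul_div_assoc, ← Real.exp_add]
      norm_num
    rwa [h6] at h5
  have h5 : 24 * (Real.log D / Real.log z) ≤ 24 * Real.log D * (Real.exp 21 * m) := by
    have h6 : 24 * (Real.log D / Real.log z) = 24 * Real.log D * (1 / Real.log z) := by ring
    rw [h6]
    exact mul_le_mul_of_nonneg_left h4 (by linarith)
  have hm0 : 0 ≤ m := by
    have : 0 ≤ Real.exp 21 * m := le_trans (by positivity) h4
    have h7 := Real.exp_pos 21
    by_contra hcon
    rw [not_le] at hcon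
    have := mul_neg_of_pos_of_neg h7 hcon
    linarith
  have h6 : 1 ≤ Real.exp 21 := Real.one_le_exp (by norm_num)
  have h7 : m ≤ 2 * Real.exp 21 * Real.log D * m := by
    have h8 : 1 ≤ 2 * Real.exp 21 * Real.log D := by nlinarith
    have := mul_le_mul_of_nonneg_right h8 hm0
    linarith
  have hi : 0 ≤ 1 / Λ := by positivity
  calc mb (Psm D z) (bT D z Λ)
      ≤ (1 + 1 / Λ) * m + 2 / Λ * (24 * Real.log D * (Real.exp 21 * m)) := by
        have h8 : 0 ≤ 2 / Λ := by positivity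
        have := mul_le_mul_of_nonneg_left (h2.trans h5) h8
        linarith
    _ = m + 1 / Λ * (m + 48 * Real.exp 21 * Real.log D * m) := by ring
    _ ≤ m + 1 / Λ * (50 * Real.exp 21 * Real.log D * m) := by
        have := mul_le_mul_of_nonneg_left (show m + 48 * Real.exp 21 * Real.log D * m ≤
          50 * Real.exp 21 * Real.log D * m by linarith) hi
        linarith
    _ = (1 + 50 * Real.exp 21 * Real.log D / Λ) * m := by ring

theorem mF_le (hD : Real.exp 40 ≤ D) (hz : D ≤ z) :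
    mb (Psm D z) (bF D z) ≤ 24 * (Real.log D / Real.log z) := by
  refine le_trans ?_ (brC_mbH hD hz)
  unfold mb
  refine sum_le_sum fun U hU => mul_le_mul_of_nonneg_right ?_ (brC_phi hU)
  have h1 := abs_bF_le hD hz U
  rw [← sq_abs]
  exact pow_le_pow_left₀ (abs_nonneg _) h1 2

end Pool.Agent.H.MP_711652_nt.CG
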