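import Pool.Agent.H.MP_711652_nt.CG.KMul
import Pool.Agent.H.MP_711652_nt.CH.Up2

/-! # MP_711652, CG: mean squares, two-level form

See `CH/Up2.lean`. -/

set_option autoImplicit false

namespace Pool.Agent.H.MP_711652_nt.CG

open Finset Pool.Agent.H.MP_711652_nt.LG Pool.Agent.H.MP_711652_nt.CH

section Aux

variable {ι : Type*} [Fintype ι] [DecidableEq ι]

omit [Fintype ι] in
private theorem kUp_ph_nonneg {P : Finset ℕ} (hP : ∀ p ∈ P, p.Prime) (σ : P → Option ι) :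
    0 ≤ ph P σ := by
  unfold ph
  refine Finset.prod_nonneg fun p _ => ?_
  split_ifs
  · exact zero_le_one
  · have : (1 : ℝ) ≤ ((p : ℕ) : ℝ) := by exact_mod_cast (hP p p.2).one_le
    linarith

private theorem kUp_mass_nonneg {P : Finset ℕ} (hP : ∀ p ∈ P, p.Prime)
    (a : (P → Option ι) → ℝ) : 0 ≤ mass P a :=
  Finset.sum_nonneg fun σ _ => mul_nonneg (sq_nonneg _) (kUp_ph_nonneg hP σ)

private theorem kUp_mass_mono {P : Finset ℕ} (hP : ∀ p ∈ P, p.Prime)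
    {v a : (P → Option ι) → ℝ} (h : ∀ σ, |v σ| ≤ a σ) : mass P v ≤ mass P a := by
  unfold mass
  refine Finset.sum_le_sum fun σ _ => mul_le_mul_of_nonneg_right ?_ (kUp_ph_nonneg hP σ)
  rw [← sq_abs (v σ)]
  exact pow_le_pow_left₀ (abs_nonneg _) (h σ) 2

private theorem kUp_small {κ : ℝ} {P : Finset ℕ} {Y K R : ℕ} {D ε : ℝ} (hN : NumK κ P Y K R D ε) :
    10000 * (κ ^ 2 * ((K : ℝ) * R + (R : ℝ) ^ 2)) ≤ ε ^ 2 * D := by
  have hD : 0 < D := lt_of_lt_of_le (by norm_num) hN.hD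
  have h1 := hN.small
  have hR : (0 : ℝ) ≤ R := Nat.cast_nonneg R
  rw [div_le_iff₀ hD] at h1
  have h2 : 0 ≤ κ ^ 2 * R := by positivity
  nlinarith

/-- the Gram factor -/
private theorem kUp_gram {κ : ℝ} {P : Finset ℕ} {a : (P → Option ι) → ℝ} {Y K R : ℕ} {D ε : ℝ}
    (ha : CoefK κ P a Y) (hN : NumK κ P Y K R D ε) (hR : Fintype.card ι ≤ R) (σ : P → Option ι)
    (haσ : a σ ≠ 0) :
    (∏ p : P, if σ p = none then (1 : ℝ)
      else 1 + ((Fintype.card ι : ℝ) - 1) / (((p : ℕ) : ℝ) - 1)) ≤ 1 + ε ^ 2 / 1000 := by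
  have hsm := kUp_small hN
  have hD : 0 < D := lt_of_lt_of_le (by norm_num) hN.hD
  have hK0 : (0 : ℝ) ≤ K := Nat.cast_nonneg K
  have hR0 : (0 : ℝ) ≤ R := Nat.cast_nonneg R
  have hκ2 : 1 ≤ κ ^ 2 := one_le_pow₀ hN.κ1
  have hKR : 10000 * ((K : ℝ) * R) ≤ ε ^ 2 * D := by
    have h1 : (K : ℝ) * R ≤ (K : ℝ) * R + (R : ℝ) ^ 2 := by
      have := sq_nonneg (R : ℝ)
      linarith
    have h2 : 1 * ((K : ℝ) * R + (R : ℝ) ^ 2) ≤ κ ^ 2 * ((K : ℝ) * R + (R : ℝ) ^ 2) :=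
      mul_le_mul_of_nonneg_right hκ2 (by positivity)
    linarith
  have hKR' : (K : ℝ) * (2 * R / D) ≤ ε ^ 2 / 5000 := by
    rw [show (K : ℝ) * (2 * R / D) = (2 * (K * R)) / D by ring, div_le_iff₀ hD]
    linarith
  have hcard : ((abs_supp P σ).card : ℝ) ≤ K := by
    exact_mod_cast hN.level _ (abs_supp_sub P σ) (by rw [abs_DD_supp]; exact ha.level σ haσ)
  have hRr : (Fintype.card ι : ℝ) ≤ R := by exact_mod_cast hR
  have hc0 : (0 : ℝ) ≤ Fintype.card ι := Nat.cast_nonneg _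
  have h1 : (K : ℝ) * (2 * (Fintype.card ι : ℝ) / D) ≤ K * (2 * R / D) := by gcongr
  have hε2 : ε ^ 2 ≤ 1 := pow_le_one₀ hN.ε0.le hN.ε1
  have h2 := gram_factor_le (T := abs_supp P σ) (D := D) (R := (Fintype.card ι : ℝ))
    (n := K) (by linarith [hN.hD]) hc0
    (fun p hp => hN.ge p (abs_supp_sub P σ hp)) hcard (by linarith)
  rw [abs_prod_supp P σ (fun p => 1 + ((Fintype.card ι : ℝ) - 1) / ((p : ℝ) - 1))] at h2
  refine h2.trans ?_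
  have hε0 : 0 ≤ ε ^ 2 := sq_nonneg ε
  linarith

private theorem kUp_tot {κ : ℝ} {P : Finset ℕ} {a : (P → Option ι) → ℝ} {Y : ℕ}
    (ha : CoefK κ P a Y) (v : (P → Option ι) → ℝ) (hv : ∀ σ, |v σ| ≤ a σ) :
    (∑ σ : P → Option ι, |v σ| * ((DD P σ : ℝ) ^ 2 * 1)) ^ 2 ≤ (tot P a * (Y : ℝ) ^ 2) ^ 2 := by
  refine pow_le_pow_left₀ (Finset.sum_nonneg fun σ _ => by positivity) ?_ 2
  rw [tot, Finset.sum_mul]
  refine Finset.sum_le_sum fun σ _ => ?_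
  rw [mul_one]
  by_cases h0 : a σ = 0
  · have h1 := hv σ
    rw [h0] at h1
    rw [le_antisymm h1 (abs_nonneg _), h0]
    simp
  · have h2 : (DD P σ : ℝ) ≤ Y := by exact_mod_cast ha.level σ h0
    have h3 : (DD P σ : ℝ) ^ 2 ≤ (Y : ℝ) ^ 2 := by gcongr
    exact mul_le_mul (hv σ) h3 (by positivity) (ha.nonneg σ)

/-- The core estimate. -/
private theorem kUp_core {P : Finset ℕ} {A : ℕ → ι → ℕ → Prop}
    (hF : Forms P A) {κ : ℝ} {a : (P → Option ι) → ℝ} {Y K R : ℕ} {D ε : ℝ} (ha : CoefK κ P a Y)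
    (hN : NumK κ P Y K R D ε) (hR : Fintype.card ι ≤ R) (v : (P → Option ι) → ℝ)
    (hv : ∀ σ, |v σ| ≤ a σ) (N : ℕ) :
    ∑ m ∈ range N, (∑ σ : P → Option ι, v σ * Phi P A σ m) ^ 2 ≤
      N * (mass P v + ε ^ 2 / 1000 * mass P a) + (tot P a * (Y : ℝ) ^ 2) ^ 2 := by
  have hq := G2.quad_upper hF (Q0 := 1) one_pos
    (fun p hp h => (hF.prime p hp).one_lt.ne' (Nat.dvd_one.1 h)) v a hv (fun _ _ => 1)
    (fun _ => 1) (fun σ _ => by simpa using G2.Tame.const 1 (1 : ℝ)) N (ε ^ 2 / 1000)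
    (fun σ h => kUp_gram ha hN hR σ h)
  have hE : G2.E 1 (fun _ => (1 : ℝ) ^ 2) = 1 := by
    rw [G2.E_const one_pos]
    norm_num
  have ht := kUp_tot ha v hv
  simp only [hE, mul_one] at hq ht
  refine hq.trans ?_
  unfold mass
  linarith

end Aux

/-- PROOF. `G2.quad_upper` with `Q0 = 1`, `W = 1`, exact `v`, majorant `a` (compare `up2_core` in `CH/Up2.lean`). -/
theorem upK1 {ι : Type*} [Fintype ι] [DecidableEq ι] {P : Finset ℕ} {A : ℕ → ι → ℕ → Prop}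
    (hF : Forms P A) {κ : ℝ} {a : (P → Option ι) → ℝ} {Y K R : ℕ} {D ε : ℝ} (ha : CoefK κ P a Y)
    (hN : NumK κ P Y K R D ε) (hR : Fintype.card ι ≤ R) (v : (P → Option ι) → ℝ)
    (hv : ∀ σ, |v σ| ≤ a σ) (N : ℕ) :
    ∑ m ∈ range N, (∑ σ : P → Option ι, v σ * Phi P A σ m) ^ 2 ≤
      N * (mass P v + ε * mass P a) + (tot P a * (Y : ℝ) ^ 2) ^ 2 := by
  refine (kUp_core hF ha hN hR v hv N).trans ?_
  have h1 := kUp_mass_nonneg hF.prime a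
  have h2 : ε ^ 2 / 1000 ≤ ε := by nlinarith [hN.ε0, hN.ε1]
  have h3 := mul_le_mul_of_nonneg_right h2 h1
  have h4 := mul_le_mul_of_nonneg_left h3 (Nat.cast_nonneg (α := ℝ) N)
  linarith

/-- PROOF. `G2.quad_lower` (or `G2.quad_tame` with `gram_lower_c`), the off-diagonal terms are bounded by those of `a`. -/
theorem lowK1 {ι : Type*} [Fintype ι] [DecidableEq ι] {P : Finset ℕ} {A : ℕ → ι → ℕ → Prop}
    (hF : Forms P A) {κ : ℝ} {a : (P → Option ι) → ℝ} {Y K R : ℕ} {D ε : ℝ} (ha : CoefK κ P a Y)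
    (hN : NumK κ P Y K R D ε) (hR : Fintype.card ι ≤ R) (v : (P → Option ι) → ℝ)
    (hv : ∀ σ, |v σ| ≤ a σ) (N : ℕ) :
    N * (mass P v - ε * mass P a) - (tot P a * (Y : ℝ) ^ 2) ^ 2 ≤
      ∑ m ∈ range N, (∑ σ : P → Option ι, v σ * Phi P A σ m) ^ 2 := by
  have hva : ∀ σ, v σ ≠ 0 → a σ ≠ 0 := by
    intro σ h0 h1
    have h2 := hv σ
    rw [h1] at h2
    exact h0 (abs_eq_zero.1 (le_antisymm h2 (abs_nonneg _)))
  have hq := G2.quad_lower hF (Q0 := 1) one_pos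
    (fun p hp h => (hF.prime p hp).one_lt.ne' (Nat.dvd_one.1 h)) v (fun _ _ => 1)
    (fun _ => 1) (fun σ _ => by simpa using G2.Tame.const 1 (1 : ℝ)) N (ε ^ 2 / 1000)
    (fun σ h => kUp_gram ha hN hR σ (hva σ h))
  have hE : G2.E 1 (fun _ => (1 : ℝ) ^ 2) = 1 := by
    rw [G2.E_const one_pos]
    norm_num
  have ht := kUp_tot ha v hv
  simp only [hE, mul_one] at hq ht
  refine le_trans ?_ hq
  have h1 := kUp_mass_nonneg hF.prime v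
  have h2 := kUp_mass_mono hF.prime hv
  have h3 : ε ^ 2 / 1000 ≤ ε := by nlinarith [hN.ε0, hN.ε1]
  have h4 : ε ^ 2 / 1000 * mass P v ≤ ε * mass P a :=
    mul_le_mul h3 h2 h1 hN.ε0.le
  have h5 : mass P v - ε * mass P a ≤ (1 - ε ^ 2 / 1000) * mass P v := by linarith
  have h6 := mul_le_mul_of_nonneg_left h5 (Nat.cast_nonneg (α := ℝ) N)
  unfold mass at h6 ⊢
  linarith

/-- Coefficients close to given ones. -/
private theorem kUp_dev {ι : Type*} [Fintype ι] [DecidableEq ι] {P : Finset ℕ}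
    {A : ℕ → ι → ℕ → Prop} (hF : Forms P A) {κ : ℝ} {b : (P → Option ι) → ℝ} {Y K R : ℕ}
    {D ε : ℝ} (hb : CoefK κ P b Y) (hN : NumK κ P Y K R D ε) (hR : Fintype.card ι ≤ R)
    (v w : (P → Option ι) → ℝ) (hw : ∀ σ, |w σ| ≤ b σ)
    (hv : ∀ σ, |v σ - w σ| ≤ 3 * ε ^ 2 / 1000 * b σ) (N : ℕ) :
    ∑ m ∈ range N, (∑ σ : P → Option ι, v σ * Phi P A σ m) ^ 2 ≤
      N * ((1 + ε) * mass P w + ε * mass P b) + (2 * tot P b * (Y : ℝ) ^ 2) ^ 2 := by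
  have hε0 := hN.ε0
  have hε1 := hN.ε1
  have hε2 : ε ^ 2 ≤ 1 := pow_le_one₀ hε0.le hε1
  have hv2 : ∀ σ, |v σ| ≤ 2 * b σ := by
    intro σ
    have h1 := hv σ
    have h2 := hw σ
    have h3 := hb.nonneg σ
    have h4 : |v σ| ≤ |v σ - w σ| + |w σ| := by
      have := abs_add_le (v σ - w σ) (w σ)
      rwa [sub_add_cancel] at this
    have h5 : 3 * ε ^ 2 / 1000 * b σ ≤ 1 * b σ :=
      mul_le_mul_of_nonneg_right (by linarith) h3
    linarith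
  have hc := kUp_core hF (hb.smul (G := 2) (by norm_num)) hN hR v hv2 N
  refine hc.trans ?_
  have hm2 : mass P (fun σ => 2 * b σ) = 4 * mass P b := by
    unfold mass
    rw [Finset.mul_sum]
    exact Finset.sum_congr rfl fun σ _ => by ring
  have ht2 : tot P (fun σ => 2 * b σ) = 2 * tot P b := by
    unfold tot
    rw [Finset.mul_sum]
  rw [hm2, ht2]
  have hmv : mass P v ≤ (1 + ε / 4) * mass P w +
      (1 + 4 / ε) * (3 * ε ^ 2 / 1000) ^ 2 * mass P b := by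
    unfold mass
    rw [Finset.mul_sum, Finset.mul_sum, ← Finset.sum_add_distrib]
    refine Finset.sum_le_sum fun σ _ => ?_
    rw [← mul_assoc, ← mul_assoc, ← add_mul]
    refine mul_le_mul_of_nonneg_right ?_ (kUp_ph_nonneg hF.prime σ)
    have h1 : (v σ - w σ) ^ 2 ≤ (3 * ε ^ 2 / 1000 * b σ) ^ 2 := by
      rw [← sq_abs (v σ - w σ)]
      exact pow_le_pow_left₀ (abs_nonneg _) (hv σ) 2
    have h2 : v σ ^ 2 ≤ (1 + ε / 4) * w σ ^ 2 + (1 + 4 / ε) * (v σ - w σ) ^ 2 := by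
      have h3 : (1 + ε / 4) * w σ ^ 2 + (1 + 4 / ε) * (v σ - w σ) ^ 2 - v σ ^ 2 =
          (ε * w σ - 4 * (v σ - w σ)) ^ 2 / (4 * ε) := by
        field_simp
        ring
      have h4 : 0 ≤ (ε * w σ - 4 * (v σ - w σ)) ^ 2 / (4 * ε) := by positivity
      linarith
    have h5 : (1 + 4 / ε) * (v σ - w σ) ^ 2 ≤ (1 + 4 / ε) * (3 * ε ^ 2 / 1000 * b σ) ^ 2 :=
      mul_le_mul_of_nonneg_left h1 (by positivity)
    calc v σ ^ 2 ≤ _ := h2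
      _ ≤ (1 + ε / 4) * w σ ^ 2 + (1 + 4 / ε) * (3 * ε ^ 2 / 1000 * b σ) ^ 2 := by linarith
      _ = _ := by ring
  have hmw := kUp_mass_nonneg hF.prime w
  have hmb := kUp_mass_nonneg hF.prime b
  have hcoef : (1 + 4 / ε) * (3 * ε ^ 2 / 1000) ^ 2 + ε ^ 2 / 1000 * 4 ≤ ε := by
    have h1 : (1 + 4 / ε) * (3 * ε ^ 2 / 1000) ^ 2 = (ε + 4) * ε ^ 3 * (9 / 1000000) := by
      field_simp
      ring
    rw [h1]
    have h3 : ε ^ 3 ≤ ε := by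
      have := mul_le_mul_of_nonneg_left hε2 hε0.le
      calc ε ^ 3 = ε * ε ^ 2 := by ring
        _ ≤ ε * 1 := this
        _ = ε := mul_one _
    have h4 : (ε + 4) * ε ^ 3 ≤ 5 * ε :=
      mul_le_mul (by linarith) h3 (by positivity) (by norm_num)
    have h5 : ε ^ 2 ≤ ε := by nlinarith
    linarith
  have h7 : mass P v + ε ^ 2 / 1000 * (4 * mass P b) ≤ (1 + ε) * mass P w + ε * mass P b := by
    have h8 := mul_le_mul_of_nonneg_right hcoef hmb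
    have h9 : (1 + ε / 4) * mass P w ≤ (1 + ε) * mass P w :=
      mul_le_mul_of_nonneg_right (by linarith) hmw
    linarith
  have h10 := mul_le_mul_of_nonneg_left h7 (Nat.cast_nonneg (α := ℝ) N)
  linarith

section Gam

/-- Telescoping. -/
private theorem kUp_sum_sq (n0 : ℕ) (hn0 : 3 ≤ n0) (k : ℕ) :
    ∑ n ∈ Ico n0 (n0 + k), 1 / ((n : ℝ) - 1) ^ 2 ≤ 1 / ((n0 : ℝ) - 2) - 1 / ((n0 + k : ℝ) - 2) := by
  have h0 : (3 : ℝ) ≤ n0 := by exact_mod_cast hn0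
  induction k with
  | zero => simp
  | succ k ih =>
    rw [← add_assoc, Finset.sum_Ico_succ_top (by omega)]
    have hk : (0 : ℝ) ≤ k := Nat.cast_nonneg k
    have h1 : 1 / (((n0 + k : ℕ) : ℝ) - 1) ^ 2 ≤
        1 / ((n0 + k : ℝ) - 2) - 1 / ((n0 + (k + 1 : ℕ) : ℝ) - 2) := by
      push_cast
      have hx : (0 : ℝ) < (n0 : ℝ) + k - 2 := by linarith
      have hy : (0 : ℝ) < (n0 : ℝ) + k - 1 := by linarith
      have e : 1 / ((n0 : ℝ) + k - 2) - 1 / ((n0 : ℝ) + (k + 1) - 2) =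
          1 / (((n0 : ℝ) + k - 2) * ((n0 : ℝ) + k - 1)) := by
        have hz : (n0 : ℝ) + (k + 1) - 2 = (n0 : ℝ) + k - 1 := by ring
        rw [hz, div_sub_div _ _ hx.ne' hy.ne']
        congr 1
        ring
      rw [e]
      apply one_div_le_one_div_of_le (mul_pos hx hy)
      nlinarith
    linarith

private theorem kUp_sum_sq_le {P : Finset ℕ} {D : ℝ} (hD : 100 ≤ D)
    (hP : ∀ p ∈ P, D ≤ (p : ℝ)) : ∑ p ∈ P, 1 / ((p : ℝ) - 1) ^ 2 ≤ 1 / (D - 2) := by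
  set n0 : ℕ := ⌈D⌉₊ with hn0
  have h1 : D ≤ n0 := Nat.le_ceil D
  have h3 : 3 ≤ n0 := by
    have : (3 : ℝ) ≤ n0 := by linarith
    exact_mod_cast this
  have hsub : P ⊆ Ico n0 (n0 + (P.sup id + 1)) := by
    intro p hp
    rw [Finset.mem_Ico]
    refine ⟨Nat.ceil_le.2 (hP p hp), ?_⟩
    have : p ≤ P.sup id := Finset.le_sup (f := id) hp
    omega
  refine (Finset.sum_le_sum_of_subset_of_nonneg hsub fun n _ _ => by positivity).trans ?_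
  refine (kUp_sum_sq n0 h3 _).trans ?_
  have h4 : 0 ≤ 1 / (((n0 : ℝ) + ((P.sup id + 1 : ℕ) : ℝ)) - 2) := by
    apply div_nonneg zero_le_one
    have : (0 : ℝ) ≤ ((P.sup id + 1 : ℕ) : ℝ) := Nat.cast_nonneg _
    linarith
  have h5 : 1 / ((n0 : ℝ) - 2) ≤ 1 / (D - 2) :=
    one_div_le_one_div_of_le (by linarith) (by linarith)
  linarith

variable {ι₁ ι₂ : Type*} [Fintype ι₁] [DecidableEq ι₁] [Fintype ι₂] [DecidableEq ι₂]

/-- The product of the costs of shared primes. -/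
private theorem kUp_gam {κ : ℝ} {P : Finset ℕ} {Y K R : ℕ} {D ε : ℝ} (hN : NumK κ P Y K R D ε)
    (hR : Fintype.card ι₁ + Fintype.card ι₂ ≤ R) (ρ : P → Option (ι₁ ⊕ ι₂))
    (hρ : DD P ρ ≤ Y) :
    (∏ p : P, gamK κ (Fintype.card ι₁ : ℝ) (Fintype.card ι₂ : ℝ) (p : ℕ) (ρ p)) - 1 ≤
      ε ^ 2 / 1000 := by
  classical
  have hsm := kUp_small hN
  have hD : 0 < D := lt_of_lt_of_le (by norm_num) hN.hD
  have hD100 := hN.hD
  have hκ1 := hN.κ1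
  have hκ0 : 0 ≤ κ := by linarith
  set r₁ : ℝ := (Fintype.card ι₁ : ℝ) with hr₁
  set r₂ : ℝ := (Fintype.card ι₂ : ℝ) with hr₂
  have h10 : 0 ≤ r₁ := Nat.cast_nonneg _
  have h20 : 0 ≤ r₂ := Nat.cast_nonneg _
  have h12 : r₁ + r₂ ≤ R := by
    rw [hr₁, hr₂]
    exact_mod_cast hR
  have hR0 : (0 : ℝ) ≤ R := Nat.cast_nonneg R
  have hp1 : ∀ p : P, D - 1 ≤ ((p : ℕ) : ℝ) - 1 := fun p => by linarith [hN.ge p p.2]
  -- local bounds
  have hloc : ∀ p : P, gamK κ r₁ r₂ (p : ℕ) (ρ p) ≤ (if ρ p = none then (1 : ℝ) else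
      Real.exp (κ * R / (D - 1))) *
        Real.exp (κ ^ 2 * (R : ℝ) ^ 2 * (1 / (((p : ℕ) : ℝ) - 1) ^ 2)) := by
    intro p
    have hpp := hp1 p
    have hpos : 0 < ((p : ℕ) : ℝ) - 1 := by linarith
    have hex : (1 : ℝ) ≤ Real.exp (κ ^ 2 * (R : ℝ) ^ 2 * (1 / (((p : ℕ) : ℝ) - 1) ^ 2)) :=
      Real.one_le_exp (by positivity)
    rcases hρp : ρ p with _ | (i | j)
    · simp only [gamK, if_true, one_mul]
      refine le_trans ?_ (Real.add_one_le_exp _)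
      have h3 : r₁ * r₂ ≤ (R : ℝ) ^ 2 := by nlinarith
      have h4 : κ ^ 2 * (r₁ * r₂) ≤ κ ^ 2 * (R : ℝ) ^ 2 :=
        mul_le_mul_of_nonneg_left h3 (sq_nonneg κ)
      rw [add_comm, mul_one_div]
      have := div_le_div_of_nonneg_right h4 (sq_nonneg (((p : ℕ) : ℝ) - 1))
      linarith
    · simp only [gamK, reduceCtorEq, if_false]
      have h3 : 1 + κ * r₂ / (((p : ℕ) : ℝ) - 1) ≤ Real.exp (κ * R / (D - 1)) := by
        refine le_trans ?_ (Real.add_one_le_exp _)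
        have : κ * r₂ / (((p : ℕ) : ℝ) - 1) ≤ κ * R / (D - 1) :=
          div_le_div₀ (by positivity) (mul_le_mul_of_nonneg_left (by linarith) hκ0)
            (by linarith) hpp
        linarith
      exact h3.trans (le_mul_of_one_le_right (Real.exp_pos _).le hex)
    · simp only [gamK, reduceCtorEq, if_false]
      have h3 : 1 + κ * r₁ / (((p : ℕ) : ℝ) - 1) ≤ Real.exp (κ * R / (D - 1)) := by
        refine le_trans ?_ (Real.add_one_le_exp _)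
        have : κ * r₁ / (((p : ℕ) : ℝ) - 1) ≤ κ * R / (D - 1) :=
          div_le_div₀ (by positivity) (mul_le_mul_of_nonneg_left (by linarith) hκ0)
            (by linarith) hpp
        linarith
      exact h3.trans (le_mul_of_one_le_right (Real.exp_pos _).le hex)
  have hnn : ∀ p : P, 0 ≤ gamK κ r₁ r₂ (p : ℕ) (ρ p) := by
    intro p
    have hpos : 0 < ((p : ℕ) : ℝ) - 1 := by linarith [hp1 p]
    rcases ρ p with _ | (i | j) <;> simp only [gamK] <;> positivity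
  have hprod : ∏ p : P, gamK κ r₁ r₂ (p : ℕ) (ρ p) ≤ Real.exp (ε ^ 2 / 5000) := by
    refine (Finset.prod_le_prod (fun p _ => hnn p) fun p _ => hloc p).trans ?_
    rw [Finset.prod_mul_distrib]
    have h4 : (∏ p : P, if ρ p = none then (1 : ℝ) else Real.exp (κ * R / (D - 1))) ≤
        Real.exp (K * (κ * R / (D - 1))) := by
      have h5 := abs_prod_supp P ρ (fun _ => Real.exp (κ * R / (D - 1)))
      rw [← h5, Finset.prod_const, ← Real.exp_nat_mul]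
      apply Real.exp_le_exp.2
      have hcard : ((abs_supp P ρ).card : ℝ) ≤ K := by
        exact_mod_cast hN.level _ (abs_supp_sub P ρ) (by rw [abs_DD_supp]; exact hρ)
      have : 0 ≤ κ * (R : ℝ) / (D - 1) := div_nonneg (by positivity) (by linarith)
      exact mul_le_mul_of_nonneg_right hcard this
    have h6 : (∏ p : P, Real.exp (κ ^ 2 * (R : ℝ) ^ 2 * (1 / (((p : ℕ) : ℝ) - 1) ^ 2))) ≤
        Real.exp (κ ^ 2 * (R : ℝ) ^ 2 * (1 / (D - 2))) := by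
      rw [← Real.exp_sum, ← Finset.mul_sum]
      apply Real.exp_le_exp.2
      refine mul_le_mul_of_nonneg_left ?_ (by positivity)
      have h7 := kUp_sum_sq_le hD100 hN.ge
      rwa [← Finset.sum_coe_sort P (fun p => 1 / ((p : ℝ) - 1) ^ 2)] at h7
    refine (mul_le_mul h4 h6 (Finset.prod_nonneg fun p _ => (Real.exp_pos _).le)
      (Real.exp_pos _).le).trans ?_
    rw [← Real.exp_add]
    apply Real.exp_le_exp.2
    have hK0 : (0 : ℝ) ≤ K := Nat.cast_nonneg K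
    have hκκ : κ ≤ κ ^ 2 := by nlinarith
    have h8 : (K : ℝ) * (κ * R / (D - 1)) ≤ (κ ^ 2 * (K * R)) / (D - 2) := by
      rw [← mul_div_assoc]
      refine div_le_div₀ (by positivity) ?_ (by linarith) (by linarith)
      have h9 : κ * ((K : ℝ) * R) ≤ κ ^ 2 * (K * R) :=
        mul_le_mul_of_nonneg_right hκκ (by positivity)
      calc (K : ℝ) * (κ * R) = κ * ((K : ℝ) * R) := by ring
        _ ≤ _ := h9
    have h9 : (κ ^ 2 * (K * R) : ℝ) / (D - 2) + κ ^ 2 * (R : ℝ) ^ 2 * (1 / (D - 2)) =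
        (κ ^ 2 * (K * R + (R : ℝ) ^ 2)) / (D - 2) := by
      ring
    have h10' : (κ ^ 2 * (K * R + (R : ℝ) ^ 2)) / (D - 2) ≤ ε ^ 2 / 5000 := by
      rw [div_le_iff₀ (by linarith)]
      have h11 : 0 ≤ ε ^ 2 := sq_nonneg ε
      nlinarith
    linarith
  have hε2 : ε ^ 2 ≤ 1 := pow_le_one₀ hN.ε0.le hN.ε1
  have hε0 : 0 ≤ ε ^ 2 := sq_nonneg ε
  have hx : Real.exp (ε ^ 2 / 5000) ≤ 1 + 2 * (ε ^ 2 / 5000) := by
    have h2 := Real.exp_bound_div_one_sub_of_interval (x := ε ^ 2 / 5000) (by positivity)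
      (by linarith)
    refine h2.trans ?_
    rw [div_le_iff₀ (by linarith)]
    nlinarith
  linarith

end Gam

/-- The bound of the deviation on the support. -/
private theorem kUp_bd {x b g δ : ℝ} (hb : 0 ≤ b) (hx : |x| ≤ b * g) (hg : b ≠ 0 → g ≤ δ) :
    |x| ≤ δ * b := by
  by_cases h0 : b = 0
  · rw [h0, zero_mul] at hx
    rw [h0, mul_zero]
    exact hx
  · refine hx.trans ?_
    rw [mul_comm δ]
    exact mul_le_mul_of_nonneg_left (hg h0) hb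

/-- PROOF. `mul_sumK`; `∏ gamK - 1 ≤ ε^2 / 1000 =: δ` on the support of `a₁ a₂` (as in `CH/Up2.lean`, level `Y₁ Y₂ ≤ Y`); `v ρ^2 ≤ (1 + ε/4) (v₁ v₂)^2 + (1 + 4/ε) (δ a₁ a₂)^2`;
`mass_sum_le` for the signed `v₁`, `v₂` and for `a₁`, `a₂`; then `upK1` for `v` with the majorant `2 a₁ a₂`. -/
theorem upK2 {ι₁ ι₂ : Type*} [Fintype ι₁] [DecidableEq ι₁] [Fintype ι₂] [DecidableEq ι₂]
    {P : Finset ℕ} {A : ℕ → ι₁ ⊕ ι₂ → ℕ → Prop} (hF : Forms P A) {κ : ℝ}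
    {a₁ : (P → Option ι₁) → ℝ} {a₂ : (P → Option ι₂) → ℝ} {Y₁ Y₂ Y K R : ℕ} {D ε : ℝ}
    (h₁ : CoefK κ P a₁ Y₁) (h₂ : CoefK κ P a₂ Y₂) (hY : Y₁ * Y₂ ≤ Y) (hN : NumK κ P Y K R D ε)
    (hR : Fintype.card ι₁ + Fintype.card ι₂ ≤ R) (v₁ : (P → Option ι₁) → ℝ)
    (v₂ : (P → Option ι₂) → ℝ) (hv₁ : ∀ σ, |v₁ σ| ≤ a₁ σ) (hv₂ : ∀ σ, |v₂ σ| ≤ a₂ σ) (N : ℕ) :
    ∑ m ∈ range N, ((∑ σ : P → Option ι₁, v₁ σ * Phi P (fun p i => A p (Sum.inl i)) σ m) *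
        (∑ τ : P → Option ι₂, v₂ τ * Phi P (fun p i => A p (Sum.inr i)) τ m)) ^ 2 ≤
      N * ((1 + ε) * (mass P v₁ * mass P v₂) + ε * (mass P a₁ * mass P a₂)) +
        (2 * (tot P a₁ * tot P a₂) * (Y : ℝ) ^ 2) ^ 2 := by
  classical
  have hκ0 : 0 ≤ κ := by linarith [hN.κ1]
  have hε0 := hN.ε0
  obtain ⟨v, hv, hvb⟩ := mul_sumK hκ0 hF h₁ h₂ v₁ v₂ hv₁ hv₂
  have hC0 := CoefK.sum h₁ h₂
  have hC : CoefK κ P (fun ρ : P → Option (ι₁ ⊕ ι₂) => a₁ (lft ρ) * a₂ (rgt ρ)) Y :=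
    ⟨hC0.prime, hC0.nonneg, hC0.sub, fun ρ h => (hC0.level ρ h).trans hY⟩
  have hdev : ∀ ρ, |v ρ - (fun ρ : P → Option (ι₁ ⊕ ι₂) => v₁ (lft ρ) * v₂ (rgt ρ)) ρ| ≤
      3 * ε ^ 2 / 1000 * (fun ρ : P → Option (ι₁ ⊕ ι₂) => a₁ (lft ρ) * a₂ (rgt ρ)) ρ := by
    intro ρ
    have h1 := kUp_bd (hC.nonneg ρ) (hvb ρ) (δ := ε ^ 2 / 1000)
      (fun h0 => kUp_gam hN hR ρ (hC.level ρ h0))
    refine h1.trans (mul_le_mul_of_nonneg_right ?_ (hC.nonneg ρ))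
    have := sq_nonneg ε
    linarith
  have hw : ∀ ρ, |(fun ρ : P → Option (ι₁ ⊕ ι₂) => v₁ (lft ρ) * v₂ (rgt ρ)) ρ| ≤
      (fun ρ : P → Option (ι₁ ⊕ ι₂) => a₁ (lft ρ) * a₂ (rgt ρ)) ρ := by
    intro ρ
    simp only [abs_mul]
    exact mul_le_mul (hv₁ _) (hv₂ _) (abs_nonneg _) (h₁.nonneg _)
  have h5 := kUp_dev hF hC hN (by rw [Fintype.card_sum]; exact hR) v _ hw hdev N
  have e : ∀ m, ((∑ σ : P → Option ι₁, v₁ σ * Phi P (fun p i => A p (Sum.inl i)) σ m) *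
      (∑ τ : P → Option ι₂, v₂ τ * Phi P (fun p i => A p (Sum.inr i)) τ m)) ^ 2 =
      (∑ ρ : P → Option (ι₁ ⊕ ι₂), v ρ * Phi P A ρ m) ^ 2 := fun m => by rw [hv m]
  rw [Finset.sum_congr rfl fun m _ => e m]
  refine h5.trans ?_
  have hm := mass_sum_le hF.prime a₁ a₂
  have hmv := mass_sum_le hF.prime v₁ v₂
  have ht := tot_sum_le a₁ a₂ h₁.nonneg h₂.nonneg
  have ht0 : 0 ≤ tot P (fun ρ : P → Option (ι₁ ⊕ ι₂) => a₁ (lft ρ) * a₂ (rgt ρ)) :=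
    Finset.sum_nonneg fun ρ _ => hC.nonneg ρ
  refine add_le_add (mul_le_mul_of_nonneg_left ?_ (Nat.cast_nonneg N)) ?_
  · exact add_le_add (mul_le_mul_of_nonneg_left hmv (by linarith))
      (mul_le_mul_of_nonneg_left hm hε0.le)
  · refine pow_le_pow_left₀ (by positivity) ?_ 2
    refine mul_le_mul_of_nonneg_right ?_ (by positivity)
    exact mul_le_mul_of_nonneg_left ht (by norm_num)

/-- Three factors. -/
theorem upK3 {ι₁ ι₂ ι₃ : Type*} [Fintype ι₁] [DecidableEq ι₁] [Fintype ι₂] [DecidableEq ι₂]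
    [Fintype ι₃] [DecidableEq ι₃] {P : Finset ℕ} {A : ℕ → ι₁ ⊕ (ι₂ ⊕ ι₃) → ℕ → Prop}
    (hF : Forms P A) {κ : ℝ} {a₁ : (P → Option ι₁) → ℝ} {a₂ : (P → Option ι₂) → ℝ}
    {a₃ : (P → Option ι₃) → ℝ} {Y₁ Y₂ Y₃ Y K R : ℕ} {D ε : ℝ}
    (h₁ : CoefK κ P a₁ Y₁) (h₂ : CoefK κ P a₂ Y₂) (h₃ : CoefK κ P a₃ Y₃)
    (hY : Y₁ * (Y₂ * Y₃) ≤ Y) (hN : NumK κ P Y K R D ε)
    (hR : Fintype.card ι₁ + (Fintype.card ι₂ + Fintype.card ι₃) ≤ R) (v₁ : (P → Option ι₁) → ℝ)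
    (v₂ : (P → Option ι₂) → ℝ) (v₃ : (P → Option ι₃) → ℝ) (hv₁ : ∀ σ, |v₁ σ| ≤ a₁ σ)
    (hv₂ : ∀ σ, |v₂ σ| ≤ a₂ σ) (hv₃ : ∀ σ, |v₃ σ| ≤ a₃ σ) (N : ℕ) :
    ∑ m ∈ range N, ((∑ σ : P → Option ι₁, v₁ σ * Phi P (fun p i => A p (Sum.inl i)) σ m) *
        ((∑ τ : P → Option ι₂, v₂ τ * Phi P (fun p i => A p (Sum.inr (Sum.inl i))) τ m) *
        (∑ τ : P → Option ι₃, v₃ τ * Phi P (fun p i => A p (Sum.inr (Sum.inr i))) τ m))) ^ 2 ≤
      N * ((1 + ε) * (mass P v₁ * (mass P v₂ * mass P v₃)) +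
        ε * (mass P a₁ * (mass P a₂ * mass P a₃))) +
        (4 * (tot P a₁ * (tot P a₂ * tot P a₃)) * (Y : ℝ) ^ 2) ^ 2 := by
  classical
  have hκ0 : 0 ≤ κ := by linarith [hN.κ1]
  have hε0 := hN.ε0
  have hε2 : ε ^ 2 ≤ 1 := pow_le_one₀ hN.ε0.le hN.ε1
  have hε20 : 0 ≤ ε ^ 2 := sq_nonneg ε
  by_cases hY1 : Y₁ = 0
  · -- the first factor vanishes
    have hz : ∀ σ, v₁ σ = 0 := by
      intro σ
      have h0 : a₁ σ = 0 := by
        by_contra hne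
        have h4 := h₁.level σ hne
        rw [hY1] at h4
        have h5 : 0 < DD P σ := by
          unfold DD
          refine Finset.prod_pos fun p _ => ?_
          split_ifs
          · exact one_pos
          · exact (hF.prime p p.2).pos
        omega
      have h6 := hv₁ σ
      rw [h0] at h6
      exact abs_eq_zero.1 (le_antisymm h6 (abs_nonneg _))
    have e : ∀ m ∈ range N, ((∑ σ : P → Option ι₁, v₁ σ *
        Phi P (fun p i => A p (Sum.inl i)) σ m) *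
        ((∑ τ : P → Option ι₂, v₂ τ * Phi P (fun p i => A p (Sum.inr (Sum.inl i))) τ m) *
        (∑ τ : P → Option ι₃, v₃ τ * Phi P (fun p i => A p (Sum.inr (Sum.inr i))) τ m))) ^ 2 =
        0 := by
      intro m _
      simp only [hz, zero_mul, Finset.sum_const_zero]
      norm_num
    rw [Finset.sum_congr rfl e, Finset.sum_const_zero]
    have g1 := kUp_mass_nonneg hF.prime a₁
    have g2 := kUp_mass_nonneg hF.prime a₂
    have g3 := kUp_mass_nonneg hF.prime a₃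
    have g4 := kUp_mass_nonneg hF.prime v₁
    have g5 := kUp_mass_nonneg hF.prime v₂
    have g6 := kUp_mass_nonneg hF.prime v₃
    positivity
  have hF' : Forms P (fun p (i : ι₂ ⊕ ι₃) m => A p (Sum.inr i) m) :=
    G2.Forms_comp hF Sum.inr Sum.inr_injective
  obtain ⟨v₂₃, hv23, hvb23⟩ := mul_sumK hκ0 hF' h₂ h₃ v₂ v₃ hv₂ hv₃
  have hY23 : Y₂ * Y₃ ≤ Y :=
    (Nat.le_mul_of_pos_left _ (Nat.pos_of_ne_zero hY1)).trans hY
  have hC23 := CoefK.sum h₂ h₃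
  have hdev23 : ∀ τ, |v₂₃ τ - v₂ (lft τ) * v₃ (rgt τ)| ≤
      ε ^ 2 / 1000 * (a₂ (lft τ) * a₃ (rgt τ)) := fun τ =>
    kUp_bd (hC23.nonneg τ) (hvb23 τ) (fun h0 => kUp_gam hN (by omega) τ
      ((hC23.level τ h0).trans hY23))
  have hw23 : ∀ τ : P → Option (ι₂ ⊕ ι₃), |v₂ (lft τ) * v₃ (rgt τ)| ≤ a₂ (lft τ) * a₃ (rgt τ) := by
    intro τ
    rw [abs_mul]
    exact mul_le_mul (hv₂ _) (hv₃ _) (abs_nonneg _) (h₂.nonneg _)
  set G : ℝ := 1 + ε ^ 2 / 1000 with hG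
  have hG0 : 0 ≤ G := by positivity
  have hC23' := hC23.smul hG0
  have hvG23 : ∀ τ, |v₂₃ τ| ≤ (fun τ : P → Option (ι₂ ⊕ ι₃) => G * (a₂ (lft τ) * a₃ (rgt τ))) τ := by
    intro τ
    have h1 := hdev23 τ
    have h2 := hw23 τ
    have h3 := abs_add_le (v₂₃ τ - v₂ (lft τ) * v₃ (rgt τ)) (v₂ (lft τ) * v₃ (rgt τ))
    rw [sub_add_cancel] at h3
    simp only
    rw [hG, add_mul, one_mul]
    linarith
  obtain ⟨v, hv, hvb⟩ := mul_sumK hκ0 hF h₁ hC23' v₁ v₂₃ hv₁ hvG23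
  have hC0 := CoefK.sum h₁ hC23
  have hC : CoefK κ P (fun ρ : P → Option (ι₁ ⊕ (ι₂ ⊕ ι₃)) =>
      a₁ (lft ρ) * (a₂ (lft (rgt ρ)) * a₃ (rgt (rgt ρ)))) Y :=
    ⟨hC0.prime, hC0.nonneg, hC0.sub, fun ρ h => (hC0.level ρ h).trans hY⟩
  have hw : ∀ ρ, |(fun ρ : P → Option (ι₁ ⊕ (ι₂ ⊕ ι₃)) =>
      v₁ (lft ρ) * (v₂ (lft (rgt ρ)) * v₃ (rgt (rgt ρ)))) ρ| ≤
      (fun ρ : P → Option (ι₁ ⊕ (ι₂ ⊕ ι₃)) =>
      a₁ (lft ρ) * (a₂ (lft (rgt ρ)) * a₃ (rgt (rgt ρ)))) ρ := by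
    intro ρ
    simp only
    rw [abs_mul]
    exact mul_le_mul (hv₁ _) (hw23 _) (abs_nonneg _) (h₁.nonneg _)
  have hdev : ∀ ρ, |v ρ - (fun ρ : P → Option (ι₁ ⊕ (ι₂ ⊕ ι₃)) =>
      v₁ (lft ρ) * (v₂ (lft (rgt ρ)) * v₃ (rgt (rgt ρ)))) ρ| ≤
      3 * ε ^ 2 / 1000 * (fun ρ : P → Option (ι₁ ⊕ (ι₂ ⊕ ι₃)) =>
      a₁ (lft ρ) * (a₂ (lft (rgt ρ)) * a₃ (rgt (rgt ρ)))) ρ := by
    intro ρ
    simp only
    set b : ℝ := a₁ (lft ρ) * (a₂ (lft (rgt ρ)) * a₃ (rgt (rgt ρ))) with hb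
    have hb0 : 0 ≤ b := hC.nonneg ρ
    have e1 : a₁ (lft ρ) * (G * (a₂ (lft (rgt ρ)) * a₃ (rgt (rgt ρ)))) = G * b := by
      rw [hb]
      ring
    have h1 : |v ρ - v₁ (lft ρ) * v₂₃ (rgt ρ)| ≤ ε ^ 2 / 1000 * (G * b) := by
      refine kUp_bd (mul_nonneg hG0 hb0) ?_ (fun h0 => kUp_gam hN
        (by rw [Fintype.card_sum]; exact hR) ρ (hC.level ρ ?_))
      · have := hvb ρ
        rwa [e1] at this
      · intro h1
        apply h0
        have : b = 0 := h1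
        rw [this, mul_zero]
    have h2 : |v₁ (lft ρ) * (v₂₃ (rgt ρ) - v₂ (lft (rgt ρ)) * v₃ (rgt (rgt ρ)))| ≤
        ε ^ 2 / 1000 * b := by
      rw [abs_mul]
      have h3 := mul_le_mul (hv₁ (lft ρ)) (hdev23 (rgt ρ)) (abs_nonneg _) (h₁.nonneg _)
      refine h3.trans (le_of_eq ?_)
      rw [hb]
      ring
    have h4 : v ρ - v₁ (lft ρ) * (v₂ (lft (rgt ρ)) * v₃ (rgt (rgt ρ))) =
        (v ρ - v₁ (lft ρ) * v₂₃ (rgt ρ)) +
          v₁ (lft ρ) * (v₂₃ (rgt ρ) - v₂ (lft (rgt ρ)) * v₃ (rgt (rgt ρ))) := by ring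
    rw [h4]
    refine (abs_add_le _ _).trans ?_
    have h5 : ε ^ 2 / 1000 * (G * b) ≤ ε ^ 2 / 1000 * (2 * b) :=
      mul_le_mul_of_nonneg_left (mul_le_mul_of_nonneg_right (by rw [hG]; linarith) hb0)
        (by positivity)
    calc _ ≤ ε ^ 2 / 1000 * (G * b) + ε ^ 2 / 1000 * b := add_le_add h1 h2
      _ ≤ ε ^ 2 / 1000 * (2 * b) + ε ^ 2 / 1000 * b := by linarith
      _ = 3 * ε ^ 2 / 1000 * b := by ring
  have h5 := kUp_dev hF hC hN (by rw [Fintype.card_sum, Fintype.card_sum]; exact hR) v _ hw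
    hdev N
  have e : ∀ m, ((∑ σ : P → Option ι₁, v₁ σ * Phi P (fun p i => A p (Sum.inl i)) σ m) *
      ((∑ τ : P → Option ι₂, v₂ τ * Phi P (fun p i => A p (Sum.inr (Sum.inl i))) τ m) *
      (∑ τ : P → Option ι₃, v₃ τ * Phi P (fun p i => A p (Sum.inr (Sum.inr i))) τ m))) ^ 2 =
      (∑ ρ : P → Option (ι₁ ⊕ (ι₂ ⊕ ι₃)), v ρ * Phi P A ρ m) ^ 2 := fun m => by
    rw [← hv m, ← hv23 m]
  rw [Finset.sum_congr rfl fun m _ => e m]
  refine h5.trans ?_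
  have hm1 := kUp_mass_nonneg hF.prime a₁
  have hmv1 := kUp_mass_nonneg hF.prime v₁
  have hm23 := mass_sum_le hF.prime a₂ a₃
  have hm := (mass_sum_le hF.prime a₁ (fun τ : P → Option (ι₂ ⊕ ι₃) =>
    a₂ (lft τ) * a₃ (rgt τ))).trans (mul_le_mul_of_nonneg_left hm23 hm1)
  have hmv23 := mass_sum_le hF.prime v₂ v₃
  have hmv := (mass_sum_le hF.prime v₁ (fun τ : P → Option (ι₂ ⊕ ι₃) =>
    v₂ (lft τ) * v₃ (rgt τ))).trans (mul_le_mul_of_nonneg_left hmv23 hmv1)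
  have ht1 : 0 ≤ tot P a₁ := Finset.sum_nonneg fun ρ _ => h₁.nonneg ρ
  have ht23 := tot_sum_le a₂ a₃ h₂.nonneg h₃.nonneg
  have ht := (tot_sum_le a₁ (fun τ : P → Option (ι₂ ⊕ ι₃) =>
    a₂ (lft τ) * a₃ (rgt τ)) h₁.nonneg hC23.nonneg).trans (mul_le_mul_of_nonneg_left ht23 ht1)
  have ht0 : 0 ≤ tot P (fun ρ : P → Option (ι₁ ⊕ (ι₂ ⊕ ι₃)) =>
      a₁ (lft ρ) * (a₂ (lft (rgt ρ)) * a₃ (rgt (rgt ρ)))) :=
    Finset.sum_nonneg fun ρ _ => hC.nonneg ρ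
  refine add_le_add (mul_le_mul_of_nonneg_left ?_ (Nat.cast_nonneg N)) ?_
  · exact add_le_add (mul_le_mul_of_nonneg_left hmv (by linarith))
      (mul_le_mul_of_nonneg_left hm hε0.le)
  · refine pow_le_pow_left₀ (by positivity) ?_ 2
    refine mul_le_mul_of_nonneg_right ?_ (by positivity)
    exact mul_le_mul (by norm_num) ht ht0 (by norm_num)

end Pool.Agent.H.MP_711652_nt.CG
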