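import Pool.Agent.H.MP_711652_nt.CG.VT2
import Pool.Agent.H.MP_711652_nt.CG.KUp
import Pool.Agent.H.MP_711652_nt.CH.LD
import Pool.Agent.H.MP_711652_nt.CH.PsiPr
import Pool.Agent.H.MP_711652_nt.G2.NumI

/-!
# MP_711652, CG: the objects for a fixed number `n` of scales
-/

set_option autoImplicit false

namespace Pool.Agent.H.MP_711652_nt.CG

open Finset Pool.Agent.H.MP_711652_nt.LG Pool.Agent.H.MP_711652_nt.G2 Pool.Agent.H.MP_711652_nt.CH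

/-- `C₃ = 8 exp 21` -/
noncomputable def C3 : ℝ := 8 * Real.exp 21

/-- the constant of the weights -/
noncomputable def cg (X n : ℕ) (e : ℝ) : ℝ :=
  1 / S1 (Pbig (dz X n e) (dB X n e)) (dB X n e)

/-- the sifting function -/
noncomputable def FG (X n : ℕ) (e : ℝ) (ν : ℕ) (T : Finset ℕ) (m : ℕ) : ℝ :=
  Pw (Pbig (dz X n e) (dB X n e)) (hit X ν T) (LamF (dD 33 X) (dz X n e) (hit X ν T)) (cg X n e)
    (dB X n e) (dY X) m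

/-- the level of the coefficients -/
noncomputable def Yt (X n : ℕ) (e : ℝ) : ℕ := dY X * (dz X n e ^ 248) ^ dK n e

/-- What is used about the numbers. -/
structure GF (Cr : ℝ) (X n : ℕ) (e : ℝ) : Prop where
  xf : XF Cr X 0
  ctx : ∃ h, Ctx 1 33 X n e h
  n1 : 8 * Real.exp 21 ≤ n
  DP : zz X ≤ dD 33 X
  BP : dB X n e ≤ YY X
  Nbig : (X : ℝ) ^ (4 / 5 : ℝ) ≤ NN X
  num : NumK (4 * Real.log X) (CH.PP X) (Yt X n e * (YY X * YY X)) (kk X) (dR 33 X n C3 + 2)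
    (zz X) (1 / 20000)
  small : ∀ T ⊆ Psm (dD 33 X) (dz X n e), ∏ p ∈ T, p ≤ (dz X n e ^ 248) ^ dK n e → T.card ≤ kk X
  lamK : 1000 * Real.exp 21 * Real.log (dD 33 X) * (dK n e + 1) ≤ Real.log X
  lamR : 1000 * (dR 33 X n C3 : ℝ) ≤ Real.log X ^ 2
  sm : 1000000 * (Real.log X * dR 33 X n C3 * kk X + Real.log X ^ 2 * (dR 33 X n C3 : ℝ) ^ 2 +
    Real.log X ^ 4 * ((dK n e : ℝ) ^ 2 + 1)) ≤ dD 33 X
  tota : 2 * (1 + 4 * dR 33 X n C3 * (1 + 2 * Real.log (dz X n e)) ^ 3) ^ dK n e ≤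
    (X : ℝ) ^ (1 / 1000 : ℝ)
  nrm : 1000 * (4 * (X : ℝ) ^ (1 / 1000 : ℝ) * ((Yt X n e * (YY X * YY X) : ℕ) : ℝ) ^ 2) ^ 2 *
    (YY X : ℝ) ^ 2 ≤ NN X
  rbv : (WW X * (Yt X n e ^ 2) ^ 2) ^ 8 ≤ X
  lam : (320 * Real.log X ^ 2 * (dR 33 X n C3 : ℝ)) ^ 4 ≤ zz X
  err : 4 * Cr * (1 + Real.log X) ^ 5 * (zz X : ℝ) ^ (-(3 / 4 : ℝ)) ≤ 1 / (2 * Real.log X ^ 2)

/-- The mean square. -/
noncomputable def S2 (X : ℕ) (F : ℕ → ℝ) : ℝ := ∑ m ∈ range (NN X), F m ^ 2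

/-- The properties of the sifting function `F` of the set `T` of positions, residue `ν`; `B` bounds the primes. -/
structure PsiOK (δ₂ C4 : ℝ) (X ν : ℕ) (T : Finset ℕ) (H : ℕ) (F : ℕ → ℝ) : Prop where
  low : (NN X : ℝ) / 2 ≤ S2 X F
  four : ∑ m ∈ range (NN X), F m ^ 4 ≤ C4 * NN X
  bad : ∀ S ⊆ range (NN X), (∀ m ∈ S, ∃ t ∈ T, ∀ p : ℕ, p.Prime → Real.log X < p →
    p ≤ YY X → ¬ p ∣ nn X ν m + t) → ∑ m ∈ S, F m ^ 2 ≤ δ₂ * S2 X F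
  one : ∀ t ≤ H, t ∉ T → ∑ m ∈ range (NN X), F m ^ 2 * ip (nn X ν m + t) ≤ 3 / JX X * S2 X F
  two : ∀ t ≤ H, ∀ t' ≤ H, t ∉ T → t' ∉ T → t ≠ t' →
    ∑ m ∈ range (NN X), F m ^ 2 * (ip (nn X ν m + t) * ip (nn X ν m + t')) ≤
      3 / JX X ^ 2 * S2 X F
  pr : ∀ t, 1 ≤ t → t ≤ H → t ∉ T → Nat.Coprime (ν + t) (WW X) →
    S2 X F / NN X * ((1 - 1 / 50) * ∑ m ∈ range (NN X), thn (nn X ν m + t) -
      (X : ℝ) / WW X / Real.log X ^ 2) ≤ ∑ m ∈ range (NN X), F m ^ 2 * thn (nn X ν m + t)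

end Pool.Agent.H.MP_711652_nt.CG
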