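import Pool.Agent.H.MP_711652_nt.CG.GNa

/-! # MP_711652, CG: the choice of the parameters -/

set_option autoImplicit false

namespace Pool.Agent.H.MP_711652_nt.CG

open Finset Filter Pool.Agent.H.MP_711652_nt.LG Pool.Agent.H.MP_711652_nt.G2 Pool.Agent.H.MP_711652_nt.CH

/-- PROOF. `u = k s / L ∈ [4 (K + 1), 4 (K + 1) + 1]`; as in `CH.lay_fin`; `√(Cb δ₂) ≤ 1/100`. -/
theorem fin_g (A : ℝ) (hA : 1 ≤ A) (K : ℕ) (hK : 1 ≤ K) (L k s δ₂ : ℝ) (hL : 0 < L) (hk : 0 ≤ k)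
    (hs : 0 ≤ s) (h1 : 4 * (K + 1) ≤ k * s / L) (h2 : k * s / L ≤ 4 * (K + 1) + 1)
    (h3 : (K + 3) * (s / L) ≤ 1 / (20 * A ^ 2)) (hδ : 0 ≤ δ₂)
    (h4 : 4 * A ^ 2 * (4 * K + 5) ^ 2 * δ₂ ≤ 1 / 10000) :
    2 * (k * (A * (s / L))) + 2 * (k * (A * (s / L))) ^ 2 ≤ 4 * A ^ 2 * (4 * K + 5) ^ 2 ∧
    K + (K + 3) * (k * (A * (s / L)) ^ 2) +
      Real.sqrt (4 * A ^ 2 * (4 * K + 5) ^ 2 * δ₂) + 1 / 2 ≤ 45 / 100 * (k * s / L) := by
  have hA0 : 0 < A := by linarith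
  have hK1 : (1 : ℝ) ≤ K := by exact_mod_cast hK
  obtain ⟨u, hu⟩ : ∃ u : ℝ, u = k * s / L := ⟨_, rfl⟩
  have e1 : k * (A * (s / L)) = A * u := by rw [hu]; ring
  have e2 : k * (A * (s / L)) ^ 2 = A ^ 2 * u * (s / L) := by rw [hu]; ring
  rw [e2, e1, ← hu]
  rw [← hu] at h1 h2
  have hu0 : 0 ≤ u := by linarith
  constructor
  · have h5 : A * u ≤ A * (4 * K + 5) := mul_le_mul_of_nonneg_left (by linarith) hA0.le
    have h6 : 1 ≤ A * (4 * K + 5) := one_le_mul_of_one_le_of_one_le hA (by linarith)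
    have h7 : 0 ≤ A * u := by positivity
    have h8 : (A * u) ^ 2 ≤ (A * (4 * K + 5)) ^ 2 := pow_le_pow_left₀ h7 h5 2
    have h9 : A * (4 * K + 5) ≤ (A * (4 * K + 5)) ^ 2 := by nlinarith
    have h10 : 4 * A ^ 2 * (4 * (K : ℝ) + 5) ^ 2 = 4 * (A * (4 * K + 5)) ^ 2 := by ring
    rw [h10]
    linarith
  · have h5 : (K + 3) * (A ^ 2 * u * (s / L)) ≤ u / 20 := by
      have h6 : A ^ 2 * u * ((K + 3) * (s / L)) ≤ A ^ 2 * u * (1 / (20 * A ^ 2)) :=
        mul_le_mul_of_nonneg_left h3 (by positivity)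
      have h7 : A ^ 2 * u * (1 / (20 * A ^ 2)) = u / 20 := by
        field_simp
      rw [h7] at h6
      linarith
    have h8 : Real.sqrt (4 * A ^ 2 * (4 * K + 5) ^ 2 * δ₂) ≤ 1 / 100 := by
      rw [Real.sqrt_le_left (by norm_num)]
      refine h4.trans ?_
      norm_num
    linarith

/-- PROOF. With `E1 = dE n e * 2 ^ n ≤ (2 n + 1) 2^n ≤ 4^n`: `dK ≤ 17 E1`, `dO ≤ 2400000 E1`, `dV ≤ n E1 ≤ E1^2`, so (compare `ng_C4` in `G2/NumG.lean`) `dC4 ≤ exp (300000000 E1^2)` and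
`300000000 * 16^n ≤ exp (2 n) * exp (3 n)` for `n ≥ 10`. -/
theorem dC4_le (n : ℕ) (e : ℝ) (hn : 10 ≤ n) (he : 0 ≤ e) (hen : e ≤ n) :
    dC4 n e C3 ≤ Real.exp (Real.exp (5 * n)) := by
  have hn10 : (10 : ℝ) ≤ n := by exact_mod_cast hn
  obtain ⟨E1, hE⟩ : ∃ E1 : ℝ, E1 = dE n e * 2 ^ n := ⟨_, rfl⟩
  have hdE : dE n e = n + e + 1 := rfl
  have h2n : (1 : ℝ) ≤ 2 ^ n := one_le_pow₀ (by norm_num)
  have hnE : (n : ℝ) ≤ dE n e := by rw [hdE]; linarith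
  have hdE1 : 1 ≤ dE n e := by rw [hdE]; linarith
  have hE0 : dE n e ≤ E1 := by
    rw [hE]
    exact le_mul_of_one_le_right (by linarith) h2n
  have hE1 : 1 ≤ E1 := hdE1.trans hE0
  have hK : (dK n e : ℝ) ≤ 17 * E1 := by
    unfold dK
    rw [← hE]
    push_cast
    have := Nat.floor_le (show (0 : ℝ) ≤ 16 * E1 by positivity)
    linarith
  have hO : (dO n e : ℝ) ≤ 2400000 * E1 := by
    unfold dO
    rw [← hE]
    exact Nat.floor_le (by positivity)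
  have hC3 : 0 < C3 := by
    unfold C3
    positivity
  have hV : dV n e C3 ≤ E1 ^ 2 := by
    unfold dV
    rw [ng_da, ← hE]
    have h1 : 1 / (800000 * (C3 + 1)) * (n : ℝ) / (1 / (800000 * E1)) = n * E1 / (C3 + 1) := by
      field_simp
    rw [h1]
    have h2 : (n : ℝ) * E1 / (C3 + 1) ≤ n * E1 :=
      div_le_self (by positivity) (by linarith)
    refine h2.trans ?_
    rw [sq]
    exact mul_le_mul_of_nonneg_right (hnE.trans hE0) (by linarith)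
  have hmain : dC4 n e C3 ≤ Real.exp (300000000 * E1 ^ 2) := by
    unfold dC4
    have e1 : (16 : ℝ) * 2 ^ (dO n e + 1) = 2 ^ (dO n e + 5) := by
      ring
    have e2 : (2 : ℝ) * (2 ^ (dO n e + 5)) ^ (4 * dK n e) = 2 ^ (1 + (dO n e + 5) * (4 * dK n e)) := by
      rw [← pow_mul, pow_add, pow_one]
    rw [e1, e2]
    have e3 : (((1 + (dO n e + 5) * (4 * dK n e) : ℕ)) : ℝ) ≤ 1 + 2400005 * E1 * (68 * E1) := by
      push_cast
      have h1 : (dO n e : ℝ) + 5 ≤ 2400005 * E1 := by linarith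
      have h2 : 4 * (dK n e : ℝ) ≤ 68 * E1 := by linarith
      have h3 := mul_le_mul h1 h2 (by positivity) (by linarith)
      linarith
    have e4 := num_two_pow e3
    have e5 := mul_le_mul e4 (Real.exp_le_exp.2 hV) (Real.exp_pos _).le (Real.exp_pos _).le
    refine e5.trans ?_
    rw [← Real.exp_add]
    apply Real.exp_le_exp.2
    have h1 : 1 ≤ E1 ^ 2 := one_le_pow₀ hE1
    have h2 : 2400005 * E1 * (68 * E1) = 163200340 * E1 ^ 2 := by ring
    linarith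
  refine hmain.trans (Real.exp_le_exp.2 ?_)
  have h4n : E1 ≤ 4 ^ n := by
    have h1 : ∀ k : ℕ, 3 ≤ k → 2 * k + 1 ≤ 2 ^ k := by
      intro k hk
      induction k, hk using Nat.le_induction with
      | base => norm_num
      | succ k hk ih =>
        rw [pow_succ]
        omega
    have h2 : (2 * (n : ℝ) + 1) ≤ 2 ^ n := by exact_mod_cast h1 n (by omega)
    have h3 : (4 : ℝ) ^ n = 2 ^ n * 2 ^ n := by
      rw [← mul_pow]
      norm_num
    rw [h3, hE]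
    refine mul_le_mul_of_nonneg_right (le_trans ?_ h2) (by linarith)
    rw [hdE]
    linarith
  have h5 : E1 ^ 2 ≤ 16 ^ n := by
    have h1 := pow_le_pow_left₀ (by linarith) h4n 2
    have h2 : ((4 : ℝ) ^ n) ^ 2 = 16 ^ n := by
      rw [← pow_mul, mul_comm, pow_mul]
      norm_num
    rwa [h2] at h1
  have he1 : (27 / 10 : ℝ) ≤ Real.exp 1 := by
    have := Real.exp_one_gt_d9
    linarith
  have h20 : (300000000 : ℝ) ≤ Real.exp (2 * n) := by
    have h1 : Real.exp 20 ≤ Real.exp (2 * n) := Real.exp_le_exp.2 (by linarith)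
    have h2 : Real.exp 20 = Real.exp 1 ^ 20 := by
      rw [← Real.exp_nat_mul]
      norm_num
    have h3 := pow_le_pow_left₀ (by norm_num) he1 20
    have h4 : (300000000 : ℝ) ≤ (27 / 10) ^ 20 := by norm_num
    linarith
  have h16 : (16 : ℝ) ^ n ≤ Real.exp (3 * n) := by
    have h1 : Real.exp (3 * n) = Real.exp 3 ^ n := by
      rw [← Real.exp_nat_mul]
      congr 1
      ring
    have h2 : Real.exp 3 = Real.exp 1 ^ 3 := by
      rw [← Real.exp_nat_mul]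
      norm_num
    have h3 := pow_le_pow_left₀ (by norm_num) he1 3
    have h4 : (16 : ℝ) ≤ (27 / 10) ^ 3 := by norm_num
    rw [h1]
    exact pow_le_pow_left₀ (by norm_num) (by linarith) n
  have h6 : Real.exp (5 * n) = Real.exp (2 * n) * Real.exp (3 * n) := by
    rw [← Real.exp_add]
    congr 1
    ring
  rw [h6]
  exact mul_le_mul h20 (h5.trans h16) (by positivity) (Real.exp_pos _).le

/-- PROOF. With `Z = K^2 lam ≥ 1`: the inverse of the right side is at most `B Z^2 exp (exp (5 N2 Z))`, `B = 2048 * 16 * 6561 A^4` (`4 K + 5 ≤ 9 K`, `K^4 ≤ Z^2`, `dC4_le`), at most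
`exp (log B + 2 Z + exp (5 N2 Z)) ≤ exp (exp (5 N2 Z) (1 + log B + 2 Z)) ≤ exp (exp ((5 N2 + log B + 2) Z))`. -/
theorem par_exp (A N2 : ℝ) (hA : 1 ≤ A) (hN : 0 < N2) : ∃ C : ℝ, 0 < C ∧
    ∀ (K n : ℕ) (lam e : ℝ), 1 ≤ K → 1 ≤ lam → 10 ≤ n → 0 ≤ e → e ≤ n →
      (n : ℝ) ≤ N2 * (K ^ 2 * lam) →
      Real.exp (-Real.exp (C * (K ^ 2 * lam))) ≤
        (1 / 2) ^ 4 / (16 * (4 * A ^ 2 * (4 * K + 5) ^ 2) ^ 2 * (4 * dC4 n e C3)) * (1 / 2) := by
  have hA4 : 1 ≤ A ^ 4 := one_le_pow₀ hA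
  obtain ⟨B, hB⟩ : ∃ B : ℝ, B = 2048 * 16 * 6561 * A ^ 4 := ⟨_, rfl⟩
  have hB1 : 1 ≤ B := by rw [hB]; linarith
  have hB0 : 0 < B := by linarith
  have hlB : 0 ≤ Real.log B := Real.log_nonneg hB1
  refine ⟨5 * N2 + Real.log B + 2, by linarith, ?_⟩
  intro K n lam e hK hlam hn he hen hnN
  have hK1 : (1 : ℝ) ≤ K := by exact_mod_cast hK
  have hK2 : (1 : ℝ) ≤ (K : ℝ) ^ 2 := one_le_pow₀ hK1
  obtain ⟨Z, hZ⟩ : ∃ Z : ℝ, Z = K ^ 2 * lam := ⟨_, rfl⟩
  rw [← hZ] at hnN ⊢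
  have hKZ : (K : ℝ) ^ 2 ≤ Z := by
    rw [hZ]
    exact le_mul_of_one_le_right (by linarith) hlam
  have hZ1 : 1 ≤ Z := hK2.trans hKZ
  have hd0 : 0 < dC4 n e C3 := dC4_pos n e C3
  have hd : dC4 n e C3 ≤ Real.exp (Real.exp (5 * N2 * Z)) := by
    refine (dC4_le n e hn he hen).trans (Real.exp_le_exp.2 (Real.exp_le_exp.2 ?_))
    linarith
  obtain ⟨D, hD⟩ : ∃ D : ℝ, D = 2048 * 16 * A ^ 4 * (4 * (K : ℝ) + 5) ^ 4 * dC4 n e C3 := ⟨_, rfl⟩
  have hD0 : 0 < D := by rw [hD]; positivity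
  have hrhs : (1 / 2 : ℝ) ^ 4 / (16 * (4 * A ^ 2 * (4 * K + 5) ^ 2) ^ 2 * (4 * dC4 n e C3)) *
      (1 / 2) = 1 / D := by
    rw [hD]
    have h1 : (4 * (K : ℝ) + 5) ≠ 0 := by positivity
    have h2 : A ≠ 0 := by linarith
    have h3 := hd0.ne'
    field_simp
    ring
  have hDB : D ≤ B * Z ^ 2 * Real.exp (Real.exp (5 * N2 * Z)) := by
    have h1 : (4 * (K : ℝ) + 5) ^ 4 ≤ 6561 * Z ^ 2 := by
      have h2 : (4 * (K : ℝ) + 5) ^ 4 ≤ (9 * K) ^ 4 :=
        pow_le_pow_left₀ (by positivity) (by linarith) 4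
      have h3 : (9 * (K : ℝ)) ^ 4 = 6561 * (K ^ 2) ^ 2 := by ring
      have h4 : ((K : ℝ) ^ 2) ^ 2 ≤ Z ^ 2 := pow_le_pow_left₀ (by positivity) hKZ 2
      linarith
    have h5 : 2048 * 16 * A ^ 4 * (4 * (K : ℝ) + 5) ^ 4 ≤ B * Z ^ 2 := by
      have h6 := mul_le_mul_of_nonneg_left h1 (show 0 ≤ 2048 * 16 * A ^ 4 by positivity)
      rw [hB]
      linarith
    rw [hD]
    exact mul_le_mul h5 hd hd0.le (by positivity)
  have hZ2 : Z ^ 2 ≤ Real.exp (2 * Z) := by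
    have h1 : Z ≤ Real.exp Z := by
      have := Real.add_one_le_exp Z
      linarith
    have h2 : Real.exp (2 * Z) = Real.exp Z ^ 2 := by
      rw [← Real.exp_nat_mul]
      norm_num
    rw [h2]
    exact pow_le_pow_left₀ (by linarith) h1 2
  have hfin : D ≤ Real.exp (Real.exp ((5 * N2 + Real.log B + 2) * Z)) := by
    have h1 : B * Z ^ 2 * Real.exp (Real.exp (5 * N2 * Z)) ≤
        Real.exp (Real.log B + 2 * Z + Real.exp (5 * N2 * Z)) := by
      rw [Real.exp_add, Real.exp_add, Real.exp_log hB0]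
      exact mul_le_mul_of_nonneg_right (mul_le_mul_of_nonneg_left hZ2 hB0.le) (Real.exp_pos _).le
    refine hDB.trans (h1.trans (Real.exp_le_exp.2 ?_))
    have h2 : 1 ≤ Real.exp (5 * N2 * Z) := Real.one_le_exp (by positivity)
    have h3 : Real.log B + 2 * Z + Real.exp (5 * N2 * Z) ≤
        Real.exp (5 * N2 * Z) * (1 + (Real.log B + 2 * Z)) := by
      have h4 : Real.log B + 2 * Z ≤ Real.exp (5 * N2 * Z) * (Real.log B + 2 * Z) :=
        le_mul_of_one_le_left (by linarith) h2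
      linarith
    have h5 : 1 + (Real.log B + 2 * Z) ≤ Real.exp (Real.log B + 2 * Z) := by
      have := Real.add_one_le_exp (Real.log B + 2 * Z)
      linarith
    have h6 : Real.exp (5 * N2 * Z) * (1 + (Real.log B + 2 * Z)) ≤
        Real.exp (5 * N2 * Z) * Real.exp (Real.log B + 2 * Z) :=
      mul_le_mul_of_nonneg_left h5 (Real.exp_pos _).le
    refine h3.trans (h6.trans ?_)
    rw [← Real.exp_add]
    apply Real.exp_le_exp.2
    have h7 : Real.log B ≤ Real.log B * Z := le_mul_of_one_le_right hlB hZ1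
    linarith
  rw [hrhs, Real.exp_neg, ← one_div]
  exact one_div_le_one_div_of_le hD0 hfin

end Pool.Agent.H.MP_711652_nt.CG
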