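import Pool.Agent.H.MP_711652_nt.CG.GMc

/-! # MP_711652, CG: the theorem -/

set_option autoImplicit false

namespace Pool.Agent.H.MP_711652_nt.CG

open Finset Filter Pool.Agent.H.MP_711652_nt.LG Pool.Agent.H.MP_711652_nt.G2 Pool.Agent.H.MP_711652_nt.CH

/-- The `K` gaps after the prime number `n` are at least `lam` times `log` of this prime, and their sum is at most `C K^2 lam` times this logarithm. -/
def Chain (C : ℝ) (K : ℕ) (lam : ℝ) (n : ℕ) : Prop :=
  (∀ i < K, (Nat.nth Nat.Prime (n + i) : ℝ) + lam * Real.log (Nat.nth Nat.Prime n) ≤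
    Nat.nth Nat.Prime (n + i + 1)) ∧
  (Nat.nth Nat.Prime (n + K) : ℝ) ≤
    Nat.nth Nat.Prime n + C * (K ^ 2 * lam) * Real.log (Nat.nth Nat.Prime n)

open Classical in
/-- PROOF. Map `n` to the index `i` of `ChainAt`; each `i` has at most `H` preimages `n ∈ [p_i - H, p_i)`. -/
theorem idx_of_n (X H v K : ℕ) :
    ((Ioc X (2 * X)).filter fun n => n + H ≤ 2 * X ∧ ChainAt K v H n).card ≤
      H * {i : ℕ | X < Nat.nth Nat.Prime i ∧ Nat.nth Nat.Prime i ≤ 2 * X ∧
        (∀ l < K, Nat.nth Nat.Prime (i + l) + v < Nat.nth Nat.Prime (i + l + 1)) ∧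
        Nat.nth Nat.Prime (i + K) ≤ Nat.nth Nat.Prime i + H}.ncard := by
  classical
  have hmono : StrictMono (Nat.nth Nat.Prime) := Nat.nth_strictMono Nat.infinite_setOf_prime
  obtain ⟨f, hf⟩ : ∃ f : ℕ → ℕ, ∀ n, ChainAt K v H n → n < Nat.nth Nat.Prime (f n) ∧
      Nat.nth Nat.Prime (f n + K) ≤ n + H ∧
      ∀ l < K, Nat.nth Nat.Prime (f n + l) + v < Nat.nth Nat.Prime (f n + l + 1) := by
    refine ⟨fun n => if h : ChainAt K v H n then h.choose else 0, fun n hn => ?_⟩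
    simp only [dif_pos hn]
    exact hn.choose_spec
  obtain ⟨A, hA⟩ : ∃ A : Finset ℕ, A = (Ioc X (2 * X)).filter fun n => n + H ≤ 2 * X ∧
      ChainAt K v H n := ⟨_, rfl⟩
  have hin : ∀ n ∈ A, X < Nat.nth Nat.Prime (f n) ∧ Nat.nth Nat.Prime (f n) ≤ 2 * X ∧
      n < Nat.nth Nat.Prime (f n) ∧ Nat.nth Nat.Prime (f n) ≤ n + H ∧
      (∀ l < K, Nat.nth Nat.Prime (f n + l) + v < Nat.nth Nat.Prime (f n + l + 1)) ∧
      Nat.nth Nat.Prime (f n + K) ≤ Nat.nth Nat.Prime (f n) + H := by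
    intro n hn
    rw [hA, Finset.mem_filter, Finset.mem_Ioc] at hn
    obtain ⟨⟨h1, h2⟩, h3, h4⟩ := hn
    obtain ⟨h5, h6, h7⟩ := hf n h4
    have h8 : Nat.nth Nat.Prime (f n) ≤ Nat.nth Nat.Prime (f n + K) :=
      hmono.monotone (Nat.le_add_right _ _)
    exact ⟨by omega, by omega, h5, by omega, h7, by omega⟩
  rw [← hA]
  have h1 : A.card ≤ H * (A.image f).card := by
    refine Finset.card_le_mul_card_image A H fun i hi => ?_
    have h2 : (A.filter fun x => f x = i) ⊆ Finset.Ico (Nat.nth Nat.Prime i - H)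
        (Nat.nth Nat.Prime i) := by
      intro n hn
      rw [Finset.mem_filter] at hn
      obtain ⟨-, -, h3, h4, -⟩ := hin n hn.1
      rw [hn.2] at h3 h4
      rw [Finset.mem_Ico]
      omega
    refine (Finset.card_le_card h2).trans ?_
    rw [Nat.card_Ico]
    omega
  refine h1.trans (Nat.mul_le_mul_left H ?_)
  rw [← Set.ncard_coe_finset]
  refine Set.ncard_le_ncard ?_ ?_
  · intro i hi
    rw [Finset.mem_coe, Finset.mem_image] at hi
    obtain ⟨n, hn, rfl⟩ := hi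
    obtain ⟨g1, g2, -, -, g5, g6⟩ := hin n hn
    exact ⟨g1, g2, g5, g6⟩
  · refine (Set.finite_Iic (2 * X)).subset ?_
    rintro i ⟨-, g2, -, -⟩
    exact (hmono.le_apply).trans g2

/-- PROOF. `uni_n` with `2 lam` (constants `c₀`, `C₀`), `idx_of_n`; `c = c₀ / 2`, `log p_n ≤ log (2 X) ≤ 2 log X`, `C = 4 C₀ + 2` or so; `H ≤ 2 C₀ K^2 lam log X` and `1 / (2 C₀ Z) ≥ exp (- 2 C₀ Z)`, `Z = K^2 lam`,
so `exp (- exp (2 C₀ Z)) / (2 C₀ Z) ≥ exp (- exp (2 C₀ Z) - 2 C₀ Z) ≥ exp (- exp (4 C₀ Z))`. -/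
theorem uni_idx : ∃ c C : ℝ, 0 < c ∧ 0 < C ∧ ∃ X₀ : ℕ, ∀ X : ℕ, X₀ ≤ X → ∀ K : ℕ, 1 ≤ K →
    ∀ lam : ℝ, 1 ≤ lam → K ^ 2 * lam ≤ c * Real.log (Real.log X) →
    Real.exp (-Real.exp (C * (K ^ 2 * lam))) * (X / Real.log X) ≤
      ({n : ℕ | X < Nat.nth Nat.Prime n ∧ Nat.nth Nat.Prime n ≤ 2 * X ∧
        Chain C K lam n}.ncard : ℝ) := by
  classical
  have hmono : StrictMono (Nat.nth Nat.Prime) := Nat.nth_strictMono Nat.infinite_setOf_prime
  obtain ⟨c₀, C₀, hc0, hC0, X₁, hX₁⟩ := uni_n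
  refine ⟨c₀ / 2, 4 * C₀, by positivity, by positivity, max X₁ 3, fun X hX K hK lam hlam hKl => ?_⟩
  have hX3 : 3 ≤ X := (le_max_right _ _).trans hX
  have hX3R : (3 : ℝ) ≤ X := by exact_mod_cast hX3
  have hlog : 1 ≤ Real.log X := by
    rw [Real.le_log_iff_exp_le (by linarith)]
    have := Real.exp_one_lt_d9
    linarith
  have hlog2 : Real.log (2 * X) ≤ 2 * Real.log X := by
    rw [Real.log_mul (by norm_num) (by linarith)]
    have := Real.log_two_lt_d9
    linarith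
  have hK1 : (1 : ℝ) ≤ K := by exact_mod_cast hK
  have hlam0 : 0 < lam := by linarith
  obtain ⟨Z, hZ⟩ : ∃ Z : ℝ, Z = K ^ 2 * lam := ⟨_, rfl⟩
  have hZ0 : 0 < Z := by
    rw [hZ]
    positivity
  obtain ⟨v, H, hv, hH, hcard⟩ := hX₁ X ((le_max_left _ _).trans hX) K hK (2 * lam) (by linarith)
    (by linarith)
  have hH' : (H : ℝ) ≤ 2 * C₀ * Z * Real.log X := by
    refine hH.trans (le_of_eq ?_)
    rw [hZ]
    ring
  have hidx := idx_of_n X H v K
  obtain ⟨S, hS⟩ : ∃ S : Set ℕ, S = {i : ℕ | X < Nat.nth Nat.Prime i ∧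
    Nat.nth Nat.Prime i ≤ 2 * X ∧
    (∀ l < K, Nat.nth Nat.Prime (i + l) + v < Nat.nth Nat.Prime (i + l + 1)) ∧
    Nat.nth Nat.Prime (i + K) ≤ Nat.nth Nat.Prime i + H} := ⟨_, rfl⟩
  rw [← hS] at hidx
  have hsub : S ⊆ {n : ℕ | X < Nat.nth Nat.Prime n ∧ Nat.nth Nat.Prime n ≤ 2 * X ∧
      Chain (4 * C₀) K lam n} := by
    intro i hi
    rw [hS] at hi
    obtain ⟨h1, h2, h3, h4⟩ := hi
    have h1R : (X : ℝ) < Nat.nth Nat.Prime i := by exact_mod_cast h1
    have h2R : (Nat.nth Nat.Prime i : ℝ) ≤ 2 * X := by exact_mod_cast h2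
    have h5 : Real.log (Nat.nth Nat.Prime i) ≤ 2 * Real.log X :=
      (Real.log_le_log (by linarith) h2R).trans hlog2
    have h6 : Real.log X ≤ Real.log (Nat.nth Nat.Prime i) :=
      Real.log_le_log (by linarith) h1R.le
    refine ⟨h1, h2, fun l hl => ?_, ?_⟩
    · have h7 : (Nat.nth Nat.Prime (i + l) : ℝ) + v < Nat.nth Nat.Prime (i + l + 1) := by
        exact_mod_cast h3 l hl
      have h8 : lam * Real.log (Nat.nth Nat.Prime i) ≤ 2 * lam * Real.log X := by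
        calc lam * Real.log (Nat.nth Nat.Prime i) ≤ lam * (2 * Real.log X) := by gcongr
          _ = 2 * lam * Real.log X := by ring
      linarith
    · have h7 : (Nat.nth Nat.Prime (i + K) : ℝ) ≤ Nat.nth Nat.Prime i + H := by
        exact_mod_cast h4
      have h8 : 2 * C₀ * Z * Real.log X ≤ 4 * C₀ * Z * Real.log (Nat.nth Nat.Prime i) := by
        have h9 : 0 ≤ C₀ * Z := by positivity
        have h10 := mul_le_mul_of_nonneg_left h6 h9
        have h11 : 0 ≤ C₀ * Z * Real.log X := by positivity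
        linarith
      rw [← hZ]
      linarith
  have hfin : {n : ℕ | X < Nat.nth Nat.Prime n ∧ Nat.nth Nat.Prime n ≤ 2 * X ∧
      Chain (4 * C₀) K lam n}.Finite := by
    refine (Set.finite_Iic (2 * X)).subset ?_
    rintro i ⟨-, g2, -⟩
    exact (hmono.le_apply).trans g2
  have hnc := Set.ncard_le_ncard hsub hfin
  have hncR : (S.ncard : ℝ) ≤ ({n : ℕ | X < Nat.nth Nat.Prime n ∧
      Nat.nth Nat.Prime n ≤ 2 * X ∧ Chain (4 * C₀) K lam n}.ncard : ℝ) := by exact_mod_cast hnc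
  refine le_trans ?_ hncR
  have hidxR : (((Ioc X (2 * X)).filter fun n => n + H ≤ 2 * X ∧ ChainAt K v H n).card : ℝ) ≤
      H * S.ncard := by exact_mod_cast hidx
  have hmain : Real.exp (-Real.exp (2 * C₀ * Z)) * X ≤ 2 * C₀ * Z * Real.log X * S.ncard := by
    have h1 : Real.exp (-Real.exp (C₀ * (K ^ 2 * (2 * lam)))) * X ≤ H * S.ncard :=
      hcard.trans hidxR
    have h2 : C₀ * (K ^ 2 * (2 * lam)) = 2 * C₀ * Z := by
      rw [hZ]
      ring
    rw [h2] at h1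
    refine h1.trans ?_
    exact mul_le_mul_of_nonneg_right hH' (Nat.cast_nonneg _)
  obtain ⟨a, ha⟩ : ∃ a : ℝ, a = 2 * C₀ * Z := ⟨_, rfl⟩
  have ha0 : 0 < a := by
    rw [ha]
    positivity
  have hCZ : 4 * C₀ * (K ^ 2 * lam) = 2 * a := by
    rw [ha, ← hZ]
    ring
  rw [hCZ]
  rw [← ha] at hmain
  have hexp : Real.exp (-Real.exp (2 * a)) * a ≤ Real.exp (-Real.exp a) := by
    have h1 : a ≤ Real.exp a := by
      have := Real.add_one_le_exp a
      linarith
    have h2 : Real.exp a + a ≤ Real.exp (2 * a) := by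
      have h3 : Real.exp (2 * a) = Real.exp a * Real.exp a := by
        rw [← Real.exp_add]
        congr 1
        ring
      have h4 := Real.add_one_le_exp a
      rw [h3]
      nlinarith [Real.exp_pos a]
    calc Real.exp (-Real.exp (2 * a)) * a ≤ Real.exp (-Real.exp (2 * a)) * Real.exp a := by gcongr
      _ = Real.exp (-Real.exp (2 * a) + a) := by rw [Real.exp_add]
      _ ≤ Real.exp (-Real.exp a) := by
        apply Real.exp_le_exp.2
        linarith
  rw [← mul_div_assoc, div_le_iff₀ (by linarith)]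
  have h1 : a * (Real.exp (-Real.exp (2 * a)) * X) ≤ a * (S.ncard * Real.log X) := by
    calc a * (Real.exp (-Real.exp (2 * a)) * X) = Real.exp (-Real.exp (2 * a)) * a * X := by ring
      _ ≤ Real.exp (-Real.exp a) * X := by gcongr
      _ ≤ a * Real.log X * S.ncard := hmain
      _ = a * (S.ncard * Real.log X) := by ring
  exact le_of_mul_le_mul_left h1 ha0

end Pool.Agent.H.MP_711652_nt.CG
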