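import Pool.Agent.H.MP_711652_nt.CG.GNa

/-! # MP_711652, CG: the parameters `n` and `e` -/

set_option autoImplicit false

namespace Pool.Agent.H.MP_711652_nt.CG

open Finset Filter Pool.Agent.H.MP_711652_nt.LG Pool.Agent.H.MP_711652_nt.G2 Pool.Agent.H.MP_711652_nt.CH

/-- PROOF. `N1 = 84 * 2600 A^2 / dc 33 C3 + 8 exp 21 + 10`, `n = ⌈N1 K^2 lam⌉`, `N2 = N1 + 1`, `e = log (40000 A^2 (4 K + 5)^2) ≤ 40000 * 81 A^2 K^2 ≤ N1 K^2 ≤ n` (`dc_le`);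
`c = 1 / (500 N2)`: `n log 2 ≤ (1/500) log log X`; `e ≤ log log X` for large `X`, as `K^2 ≤ log log X`. -/
theorem par (A : ℝ) (hA : 1 ≤ A) : ∃ c N2 : ℝ, 0 < c ∧ c ≤ 1 ∧ 0 < N2 ∧ ∀ᶠ X : ℕ in atTop,
    ∀ K : ℕ, 1 ≤ K → ∀ lam : ℝ, 1 ≤ lam → K ^ 2 * lam ≤ c * Real.log (Real.log X) →
    ∃ (n : ℕ) (e : ℝ), Rng X n e ∧ (n : ℝ) ≤ N2 * (K ^ 2 * lam) ∧ e ≤ n ∧
      4 * A ^ 2 * (4 * K + 5) ^ 2 * Real.exp (-e) ≤ 1 / 10000 ∧
      84 * (2600 * A ^ 2 * K ^ 2 * lam) ≤ dc 33 C3 * n := by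
  have hC3 : 0 < C3 := by unfold C3; positivity
  have hdc : 0 < dc 33 C3 := by
    unfold dc
    positivity
  obtain ⟨d, hd⟩ : ∃ d, d = dc 33 C3 := ⟨_, rfl⟩
  rw [← hd] at hdc ⊢
  have hE : 0 < Real.exp 21 := Real.exp_pos _
  obtain ⟨N1, hN1⟩ : ∃ N1 : ℝ, N1 = 84 * 2600 * A ^ 2 / d + 8 * Real.exp 21 + 10 +
    3240000 * A ^ 2 := ⟨_, rfl⟩
  have hA0 : 0 < A := by linarith
  have hq : 0 < 84 * 2600 * A ^ 2 / d := by positivity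
  have hA2 : 1 ≤ A ^ 2 := by nlinarith
  have hN10 : 10 ≤ N1 := by rw [hN1]; nlinarith
  have hN1e : 8 * Real.exp 21 ≤ N1 := by rw [hN1]; nlinarith
  have hN1A : 3240000 * A ^ 2 ≤ N1 := by rw [hN1]; nlinarith
  have hN1d : 84 * 2600 * A ^ 2 ≤ d * N1 := by
    have h1 : 84 * 2600 * A ^ 2 / d ≤ N1 := by rw [hN1]; nlinarith
    rw [div_le_iff₀ hdc] at h1
    linarith
  have hN2 : 0 < N1 + 1 := by linarith
  refine ⟨1 / (500 * (N1 + 1)), N1 + 1, by positivity, ?_, hN2, ?_⟩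
  · rw [div_le_one (by positivity)]
    nlinarith
  have hLL : Tendsto (fun X : ℕ => Real.log (Real.log X)) atTop atTop :=
    Real.tendsto_log_atTop.comp (Real.tendsto_log_atTop.comp tendsto_natCast_atTop_atTop)
  have hexp : ∀ᶠ y : ℝ in atTop, 3240000 * A ^ 2 * y ≤ Real.exp y := by
    have h1 := (Real.isLittleO_pow_exp_atTop (n := 1)).def
      (show (0 : ℝ) < 1 / (3240000 * A ^ 2) by positivity)
    filter_upwards [h1, eventually_ge_atTop 0] with y hy hy0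
    rw [pow_one, Real.norm_of_nonneg hy0, Real.norm_of_nonneg (Real.exp_pos _).le,
      div_mul_eq_mul_div, one_mul, le_div_iff₀ (by positivity)] at hy
    linarith
  have hlog : ∀ᶠ X : ℕ in atTop, 1 < Real.log X := by
    have h4 : Tendsto (fun X : ℕ => Real.log X) atTop atTop :=
      Real.tendsto_log_atTop.comp tendsto_natCast_atTop_atTop
    exact h4.eventually_gt_atTop 1
  filter_upwards [hLL.eventually hexp, hLL.eventually_ge_atTop 1, hlog] with X h1 h2 h3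
  intro K hK lam hlam hx
  obtain ⟨LL, hLLd⟩ : ∃ LL, LL = Real.log (Real.log X) := ⟨_, rfl⟩
  rw [← hLLd] at h1 h2 hx
  have hK1 : (1 : ℝ) ≤ K := by exact_mod_cast hK
  have hK2 : (1 : ℝ) ≤ (K : ℝ) ^ 2 := by nlinarith
  obtain ⟨x, hxd⟩ : ∃ x : ℝ, x = (K : ℝ) ^ 2 * lam := ⟨_, rfl⟩
  have hKx : (K : ℝ) ^ 2 ≤ x := by rw [hxd]; nlinarith
  have hx1 : 1 ≤ x := hK2.trans hKx
  rw [← hxd] at hx ⊢
  have hx2 : (N1 + 1) * x ≤ LL / 500 := by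
    have : (N1 + 1) * (1 / (500 * (N1 + 1)) * LL) = LL / 500 := by field_simp
    rw [← this]
    exact mul_le_mul_of_nonneg_left hx hN2.le
  have hn1 : N1 * x ≤ (⌈N1 * x⌉₊ : ℝ) := Nat.le_ceil _
  have hn2 : (⌈N1 * x⌉₊ : ℝ) ≤ (N1 + 1) * x := by
    have h5 := Nat.ceil_lt_add_one (show 0 ≤ N1 * x by positivity)
    nlinarith
  have hn3 : N1 ≤ (⌈N1 * x⌉₊ : ℝ) := le_trans (by nlinarith) hn1
  obtain ⟨Q, hQ⟩ : ∃ Q : ℝ, Q = 40000 * A ^ 2 * (4 * K + 5) ^ 2 := ⟨_, rfl⟩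
  have hK5 : 1 ≤ (4 * (K : ℝ) + 5) ^ 2 := one_le_pow₀ (by linarith)
  have hQ1 : 1 ≤ Q := by
    have h5 : 1 ≤ A ^ 2 * (4 * (K : ℝ) + 5) ^ 2 := one_le_mul_of_one_le_of_one_le hA2 hK5
    have h6 : Q = 40000 * (A ^ 2 * (4 * (K : ℝ) + 5) ^ 2) := by rw [hQ]; ring
    rw [h6]
    linarith
  have hQ2 : Q ≤ 3240000 * A ^ 2 * (K : ℝ) ^ 2 := by
    have h5 : (4 * (K : ℝ) + 5) ^ 2 ≤ 81 * (K : ℝ) ^ 2 := by nlinarith
    rw [hQ]
    calc 40000 * A ^ 2 * (4 * (K : ℝ) + 5) ^ 2 ≤ 40000 * A ^ 2 * (81 * (K : ℝ) ^ 2) := by gcongr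
      _ = 3240000 * A ^ 2 * (K : ℝ) ^ 2 := by ring
  have hKLL : (K : ℝ) ^ 2 ≤ LL := by
    have h5 : x ≤ (N1 + 1) * x := by nlinarith
    linarith
  refine ⟨⌈N1 * x⌉₊, Real.log Q, ⟨?_, ?_, Real.log_nonneg hQ1, ?_, ?_⟩, hn2, ?_, ?_, ?_⟩
  · have : (10 : ℝ) ≤ (⌈N1 * x⌉₊ : ℝ) := hN10.trans hn3
    exact_mod_cast this
  · exact hN1e.trans hn3
  · rw [← hLLd, Real.log_le_iff_le_exp (by linarith)]
    calc Q ≤ 3240000 * A ^ 2 * (K : ℝ) ^ 2 := hQ2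
      _ ≤ 3240000 * A ^ 2 * LL := by gcongr
      _ ≤ Real.exp LL := h1
  · rw [Real.rpow_def_of_pos (by linarith), ← hLLd]
    have h5 : (2 : ℝ) ^ ⌈N1 * x⌉₊ ≤ Real.exp (⌈N1 * x⌉₊ : ℝ) := by
      rw [← Real.exp_one_rpow, Real.rpow_natCast]
      apply pow_le_pow_left₀ (by norm_num)
      have := Real.add_one_le_exp (1 : ℝ)
      linarith
    refine h5.trans (Real.exp_le_exp.2 ?_)
    linarith
  · have h5 : Real.log Q ≤ Q := (Real.log_le_sub_one_of_pos (by linarith)).trans (by linarith)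
    calc Real.log Q ≤ 3240000 * A ^ 2 * (K : ℝ) ^ 2 := h5.trans hQ2
      _ ≤ N1 * x := by gcongr
      _ ≤ _ := hn1
  · rw [Real.exp_neg, Real.exp_log (by linarith)]
    have h5 : 4 * A ^ 2 * (4 * (K : ℝ) + 5) ^ 2 = Q / 10000 := by rw [hQ]; ring
    rw [h5]
    field_simp
    exact le_rfl
  · calc 84 * (2600 * A ^ 2 * (K : ℝ) ^ 2 * lam) = 84 * 2600 * A ^ 2 * x := by rw [hxd]; ring
      _ ≤ d * N1 * x := by gcongr
      _ = d * (N1 * x) := by ring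
      _ ≤ d * (⌈N1 * x⌉₊ : ℝ) := by gcongr

end Pool.Agent.H.MP_711652_nt.CG
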