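import Pool.Agent.H.MP_711652_nt.CG.GNa

/-! # MP_711652, CG: the numbers, uniformly in `n` and `e`, second part -/

set_option autoImplicit false

namespace Pool.Agent.H.MP_711652_nt.CG

open Finset Filter Pool.Agent.H.MP_711652_nt.LG Pool.Agent.H.MP_711652_nt.G2 Pool.Agent.H.MP_711652_nt.CH

private theorem gnb_zK {X n : ℕ} {e h : ℝ} (H : Ctx 1 33 X n e h) :
    (((dz X n e ^ 248) ^ dK n e : ℕ) : ℝ) ≤ Real.exp (744 / 100000 * Real.log X) := by
  have h1 : (dz X n e : ℝ) ≤ Real.exp (da n e * Real.log X) := by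
    rw [← num_rpow_eq H.X0]
    exact H.z.2.1
  push_cast
  rw [← pow_mul]
  calc (dz X n e : ℝ) ^ (248 * dK n e) ≤ Real.exp (da n e * Real.log X) ^ (248 * dK n e) :=
        pow_le_pow_left₀ (Nat.cast_nonneg _) h1 _
    _ = Real.exp (((248 * dK n e : ℕ) : ℝ) * (da n e * Real.log X)) :=
        (Real.exp_nat_mul _ _).symm
    _ ≤ _ := by
      apply Real.exp_le_exp.2
      push_cast
      have h2 := H.aK.1
      have h3 := mul_le_mul_of_nonneg_right h2 H.L0.le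
      have h4 : 248 * (dK n e : ℝ) * (da n e * Real.log X) =
          248 * (da n e * dK n e * Real.log X) := by ring
      rw [h4]
      linarith

private theorem gnb_YY {X : ℕ} (hX : 0 < X) : (YY X : ℝ) ≤ Real.exp (1 / 100 * Real.log X) := by
  unfold YY
  refine (Nat.floor_le (Real.rpow_nonneg (Nat.cast_nonneg X) _)).trans ?_
  rw [num_rpow_eq hX]

private theorem gnb_Yt {X n : ℕ} {e h : ℝ} (H : Ctx 1 33 X n e h) :
    (Yt X n e : ℝ) ≤ Real.exp (745 / 100000 * Real.log X) := by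
  have h1 := H.Y.2.1
  rw [num_rpow_eq H.X0] at h1
  unfold Yt
  rw [Nat.cast_mul]
  calc (dY X : ℝ) * (((dz X n e ^ 248) ^ dK n e : ℕ) : ℝ)
      ≤ Real.exp (1 / 100000 * Real.log X) * Real.exp (744 / 100000 * Real.log X) :=
        mul_le_mul h1 (gnb_zK H) (Nat.cast_nonneg _) (Real.exp_pos _).le
    _ = _ := by
      rw [← Real.exp_add]
      congr 1
      ring

private theorem gnb_YYY {X n : ℕ} {e h : ℝ} (H : Ctx 1 33 X n e h) :
    ((Yt X n e * (YY X * YY X) : ℕ) : ℝ) ≤ Real.exp (2745 / 100000 * Real.log X) := by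
  have h1 := gnb_Yt H
  have h2 := gnb_YY H.X0
  have h3 : (0 : ℝ) ≤ YY X := Nat.cast_nonneg _
  push_cast
  calc (Yt X n e : ℝ) * ((YY X : ℝ) * YY X)
      ≤ Real.exp (745 / 100000 * Real.log X) *
        (Real.exp (1 / 100 * Real.log X) * Real.exp (1 / 100 * Real.log X)) :=
        mul_le_mul h1 (mul_le_mul h2 h2 h3 (Real.exp_pos _).le) (by positivity) (Real.exp_pos _).le
    _ = _ := by
      rw [← Real.exp_add, ← Real.exp_add]
      congr 1
      ring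

private theorem gnb_card {X : ℕ} {T : Finset ℕ} {Q : ℕ} (hT : ∀ p ∈ T, 2 ≤ p)
    (h1 : ∏ p ∈ T, p ≤ Q) (h2 : (Q : ℝ) ≤ Real.exp (2745 / 100000 * Real.log X))
    (hL : 0 ≤ Real.log X) : T.card ≤ kk X := by
  unfold kk
  apply Nat.le_floor
  have h3 : (2 : ℝ) ^ T.card ≤ (Q : ℝ) := by
    have h4 : 2 ^ T.card ≤ ∏ p ∈ T, p := Finset.pow_card_le_prod T _ _ hT
    exact_mod_cast h4.trans h1
  have h5 := Real.log_le_log (by positivity) (h3.trans h2)
  rw [Real.log_exp, Real.log_pow] at h5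
  have h6 := Real.log_two_gt_d9
  have h7 : (T.card : ℝ) * (3 / 100) ≤ T.card * Real.log 2 :=
    mul_le_mul_of_nonneg_left (by linarith) (Nat.cast_nonneg _)
  linarith

private theorem gnb_zz {X : ℕ} (hL : 2 ≤ Real.log X) : Real.log X ^ 20 / 2 ≤ (zz X : ℝ) := by
  have h2 := Nat.lt_floor_add_one (Real.log X ^ 20)
  have h3 : (2 : ℝ) ≤ Real.log X ^ 20 := by
    calc (2 : ℝ) ≤ Real.log X := hL
      _ = Real.log X ^ 1 := (pow_one _).symm
      _ ≤ Real.log X ^ 20 := pow_le_pow_right₀ (by linarith) (by norm_num)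
  unfold zz
  linarith

/-- PROOF. `Ctx.Y`, `Ctx.z`, `Ctx.aK` (`a K ≤ 3/100000`): `1/100000 + 248 * 3/100000 = 745/100000`. -/
theorem yt_le : ∀ᶠ X : ℕ in atTop, ∀ (n : ℕ) (e : ℝ), Rng X n e →
    (Yt X n e : ℝ) ≤ (X : ℝ) ^ (745 / 100000 : ℝ) := by
  filter_upwards [ctx_ev] with X h n e hr
  have H := h n e hr
  rw [num_rpow_eq H.X0]
  exact gnb_Yt H

/-- PROOF. `yt_le`, `YY^2 ≤ X^(1/50)`: a product of `j` primes `> zz X ≥ 3` which is `≤ X^(3/100)` has `j ≤ ⌊log X⌋`, the same for `z^(248 K) ≤ Yt`;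
`16 10000 L^2 ((kk + 1) (dR + 2) + (dR + 2)^2) / zz ≤ (1/20000)^2`, as `dR 33 X n C3 ≤ L`, `zz X ≥ L^20/2`. -/
theorem gn_num : ∀ᶠ X : ℕ in atTop, ∀ (n : ℕ) (e : ℝ), Rng X n e →
    NumK (4 * Real.log X) (CH.PP X) (Yt X n e * (YY X * YY X)) (kk X) (dR 33 X n C3 + 2)
      (zz X) (1 / 20000) ∧
    (∀ T ⊆ Psm (dD 33 X) (dz X n e), ∏ p ∈ T, p ≤ (dz X n e ^ 248) ^ dK n e →
      T.card ≤ kk X) := by
  filter_upwards [ctx_ev] with X hc n e hr
  have H := hc n e hr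
  have hL16 := H.ev.L1
  set L := Real.log X with hLdef
  have hL0 : 0 < L := by linarith
  have hz := gnb_zz (X := X) (by rw [← hLdef]; linarith)
  rw [← hLdef] at hz
  have hR : (dR 33 X n C3 : ℝ) ≤ L / 1000 := H.RL (by unfold C3; positivity)
  have hR0 : (0 : ℝ) ≤ dR 33 X n C3 := Nat.cast_nonneg _
  have hk : ((kk X : ℕ) : ℝ) ≤ L := by
    unfold kk
    exact Nat.floor_le hL0.le
  have hk0 : (0 : ℝ) ≤ (kk X : ℕ) := Nat.cast_nonneg _
  have hL20 : (10 : ℝ) ^ 20 * L ^ 4 ≤ L ^ 20 := by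
    have h16 : ((10 : ℝ) ^ 16) ^ 16 ≤ L ^ 16 :=
      pow_le_pow_left₀ (by norm_num) (by linarith) 16
    have h6 : (10 : ℝ) ^ 20 ≤ L ^ 16 := le_trans (by norm_num) h16
    calc (10 : ℝ) ^ 20 * L ^ 4 ≤ L ^ 16 * L ^ 4 := mul_le_mul_of_nonneg_right h6 (by positivity)
      _ = L ^ 20 := by ring
  have hL4 : (1 : ℝ) ≤ L ^ 4 := one_le_pow₀ (by linarith)
  have hzpos : (0 : ℝ) < zz X := by linarith
  refine ⟨⟨by linarith, ?_, ?_, by omega, by linarith, by norm_num, by norm_num, ?_⟩, ?_⟩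
  · intro p hp
    have := (mem_Pbig.1 hp).1
    exact_mod_cast this.le
  · intro T hT hprod
    exact gnb_card (fun p hp => (mem_Pbig.1 (hT hp)).2.2.two_le) hprod (gnb_YYY H) hL0.le
  · rw [div_le_iff₀ hzpos]
    push_cast
    have h1 : ((kk X : ℝ) + 1) * ((dR 33 X n C3 : ℝ) + 2) ≤ (2 * L) * (2 * L) := by
      apply mul_le_mul <;> linarith
    have h2 : ((dR 33 X n C3 : ℝ) + 2) ^ 2 ≤ (2 * L) ^ 2 :=
      pow_le_pow_left₀ (by linarith) (by linarith) 2
    have h3 : ((kk X : ℝ) + 1) * ((dR 33 X n C3 : ℝ) + 2) + ((dR 33 X n C3 : ℝ) + 2) ^ 2 ≤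
        8 * L ^ 2 := by
      nlinarith
    have h4 : 10000 * (4 * L) ^ 2 * (((kk X : ℝ) + 1) * ((dR 33 X n C3 : ℝ) + 2) +
        ((dR 33 X n C3 : ℝ) + 2) ^ 2) ≤ 10000 * (4 * L) ^ 2 * (8 * L ^ 2) :=
      mul_le_mul_of_nonneg_left h3 (by positivity)
    have h5 : 10000 * (4 * L) ^ 2 * (8 * L ^ 2) = 1280000 * L ^ 4 := by ring
    rw [h5] at h4
    linarith
  · intro T hT hprod
    refine gnb_card (fun p hp => ?_) hprod ((gnb_zK H).trans ?_) hL0.le
    · have h1 := hT hp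
      unfold Psm at h1
      rw [mem_filter] at h1
      exact h1.2.two_le
    · apply Real.exp_le_exp.2
      rw [← hLdef]
      linarith

/-- PROOF. First: `dK ≤ 34 L^(11/500)`, `1 + 4 dR (1 + 2 log z)^3 ≤ L^5`, so the left side is at most `2 exp (170 L^(11/500) log L)`.  Second and third: `yt_le`, `YY ≤ X^(1/100)`,
`WW X ≤ 4^(L/100) ≤ X^(1/70)`, `NN X ≥ X^(4/5)`. -/
theorem gn_pow : ∀ᶠ X : ℕ in atTop, ∀ (n : ℕ) (e : ℝ), Rng X n e →
    2 * (1 + 4 * dR 33 X n C3 * (1 + 2 * Real.log (dz X n e)) ^ 3) ^ dK n e ≤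
        (X : ℝ) ^ (1 / 1000 : ℝ) ∧
    1000 * (4 * (X : ℝ) ^ (1 / 1000 : ℝ) * ((Yt X n e * (YY X * YY X) : ℕ) : ℝ) ^ 2) ^ 2 *
        (YY X : ℝ) ^ 2 ≤ NN X ∧
    (WW X * (Yt X n e ^ 2) ^ 2) ^ 8 ≤ X := by
  filter_upwards [ctx_ev, gn_basic, WW_le] with X hc hb hW n e hr
  have H := hc n e hr
  have hL16 := H.ev.L1
  have hX0 : (0 : ℝ) < X := H.XR
  have hN := hb.2.1
  rw [num_rpow_eq H.X0] at hN hW ⊢
  set L := Real.log X with hLdef
  have hL0 : 0 < L := by linarith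
  refine ⟨?_, ?_, ?_⟩
  · have hR : (dR 33 X n C3 : ℝ) ≤ L / 1000 := H.RL (by unfold C3; positivity)
    have hR0 : (0 : ℝ) ≤ dR 33 X n C3 := Nat.cast_nonneg _
    have hz1 : Real.log (dz X n e) ≤ L / 800000 := by
      refine H.z.2.2.2.1.trans ?_
      rw [← hLdef]
      have := mul_le_mul_of_nonneg_right H.a1 hL0.le
      linarith
    have hz0 : 0 ≤ Real.log (dz X n e) := Real.log_natCast_nonneg _
    have h1 : (1 + 2 * Real.log (dz X n e)) ^ 3 ≤ L ^ 3 :=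
      pow_le_pow_left₀ (by linarith) (by linarith) 3
    have h2 : 1 + 4 * (dR 33 X n C3 : ℝ) * (1 + 2 * Real.log (dz X n e)) ^ 3 ≤ L ^ 5 := by
      have h3 : 4 * (dR 33 X n C3 : ℝ) * (1 + 2 * Real.log (dz X n e)) ^ 3 ≤ L * L ^ 3 :=
        mul_le_mul (by linarith) h1 (by positivity) hL0.le
      have h4 : L * L ^ 3 = L ^ 4 := by ring
      have h5 : (1 : ℝ) ≤ L ^ 4 := one_le_pow₀ (by linarith)
      have h6 : 2 * L ^ 4 ≤ L * L ^ 4 := mul_le_mul_of_nonneg_right (by linarith) (by positivity)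
      have h7 : L * L ^ 4 = L ^ 5 := by ring
      linarith
    have h3 : (1 + 4 * (dR 33 X n C3 : ℝ) * (1 + 2 * Real.log (dz X n e)) ^ 3) ^ dK n e ≤
        Real.exp (5 * (dK n e * Real.log L)) := by
      refine (pow_le_pow_left₀ (by positivity) h2 _).trans (le_of_eq ?_)
      rw [← pow_mul, ← Real.rpow_natCast, Real.rpow_def_of_pos hL0]
      congr 1
      push_cast
      ring
    have h4 : (dK n e : ℝ) * Real.log L ≤ L / 100000 := by
      have h5 := H.K17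
      have h6 := H.E1L
      rw [← hLdef] at h6
      have h7 : (dK n e : ℝ) ≤ 34 * L ^ (11 / 500 : ℝ) := by linarith
      have h8 : Real.log L ≤ L ^ (9 / 10 : ℝ) / (9 / 10) :=
        Real.log_le_rpow_div hL0.le (by norm_num)
      have h9 : 0 ≤ Real.log L := Real.log_nonneg (by linarith)
      have h10 := H.ev.sz
      rw [← hLdef] at h10
      calc (dK n e : ℝ) * Real.log L
          ≤ 34 * L ^ (11 / 500 : ℝ) * (L ^ (9 / 10 : ℝ) / (9 / 10)) :=
            mul_le_mul h7 h8 h9 (by positivity)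
        _ = (34 / (9 / 10) / 6400000) * (6400000 * L ^ (11 / 500 : ℝ) * L ^ (9 / 10 : ℝ)) := by
            ring
        _ ≤ (34 / (9 / 10) / 6400000) * L := mul_le_mul_of_nonneg_left h10 (by norm_num)
        _ ≤ L / 100000 := by linarith
    have h5 : (2 : ℝ) ≤ Real.exp 1 := by
      have := Real.add_one_le_exp (1 : ℝ)
      linarith
    calc 2 * (1 + 4 * (dR 33 X n C3 : ℝ) * (1 + 2 * Real.log (dz X n e)) ^ 3) ^ dK n e
        ≤ Real.exp 1 * Real.exp (5 * (dK n e * Real.log L)) :=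
          mul_le_mul h5 h3 (by positivity) (Real.exp_pos _).le
      _ = Real.exp (1 + 5 * (dK n e * Real.log L)) := (Real.exp_add _ _).symm
      _ ≤ Real.exp (1 / 1000 * L) := Real.exp_le_exp.2 (by linarith)
  · have h1 := gnb_YYY H
    have h2 := gnb_YY H.X0
    rw [← hLdef] at h1 h2
    have h3 : (0 : ℝ) ≤ YY X := Nat.cast_nonneg _
    have h4 : (0 : ℝ) ≤ ((Yt X n e * (YY X * YY X) : ℕ) : ℝ) := Nat.cast_nonneg _
    have h5 : (16000 : ℝ) ≤ Real.exp (1 / 100 * L) := by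
      have := Real.add_one_le_exp (1 / 100 * L)
      linarith
    refine le_trans ?_ hN
    have h6 : (4 * Real.exp (1 / 1000 * L) * ((Yt X n e * (YY X * YY X) : ℕ) : ℝ) ^ 2) ^ 2 ≤
        (4 * Real.exp (1 / 1000 * L) * Real.exp (2745 / 100000 * L) ^ 2) ^ 2 := by
      gcongr
    have h7 : (YY X : ℝ) ^ 2 ≤ Real.exp (1 / 100 * L) ^ 2 := pow_le_pow_left₀ h3 h2 2
    calc 1000 * (4 * Real.exp (1 / 1000 * L) * ((Yt X n e * (YY X * YY X) : ℕ) : ℝ) ^ 2) ^ 2 *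
          (YY X : ℝ) ^ 2
        ≤ 1000 * (4 * Real.exp (1 / 1000 * L) * Real.exp (2745 / 100000 * L) ^ 2) ^ 2 *
          Real.exp (1 / 100 * L) ^ 2 :=
          mul_le_mul (mul_le_mul_of_nonneg_left h6 (by norm_num)) h7 (by positivity) (by positivity)
      _ = 16000 * (Real.exp (1 / 1000 * L) ^ 2 * Real.exp (2745 / 100000 * L) ^ 4 *
          Real.exp (1 / 100 * L) ^ 2) := by ring
      _ = 16000 * Real.exp (1318 / 10000 * L) := by
          rw [← Real.exp_nat_mul, ← Real.exp_nat_mul, ← Real.exp_nat_mul, ← Real.exp_add,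
            ← Real.exp_add]
          congr 2
          push_cast
          ring
      _ ≤ Real.exp (1 / 100 * L) * Real.exp (1318 / 10000 * L) :=
          mul_le_mul_of_nonneg_right h5 (Real.exp_pos _).le
      _ = Real.exp (1 / 100 * L + 1318 / 10000 * L) := (Real.exp_add _ _).symm
      _ ≤ Real.exp (4 / 5 * L) := Real.exp_le_exp.2 (by linarith)
  · have h1 := gnb_Yt H
    rw [← hLdef] at h1
    have h2 : ((WW X : ℝ) * ((Yt X n e : ℝ) ^ 2) ^ 2) ^ 8 ≤ X := by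
      calc ((WW X : ℝ) * ((Yt X n e : ℝ) ^ 2) ^ 2) ^ 8
          ≤ (Real.exp (1 / 70 * L) * (Real.exp (745 / 100000 * L) ^ 2) ^ 2) ^ 8 := by
            gcongr
        _ = Real.exp (1 / 70 * L) ^ 8 * Real.exp (745 / 100000 * L) ^ 32 := by ring
        _ = Real.exp ((8 / 70 + 32 * (745 / 100000)) * L) := by
            rw [← Real.exp_nat_mul, ← Real.exp_nat_mul, ← Real.exp_add]
            congr 1
            push_cast
            ring
        _ ≤ Real.exp L := Real.exp_le_exp.2 (by linarith)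
        _ = X := by rw [hLdef, Real.exp_log hX0]
    exact_mod_cast h2

/-- PROOF. `zz X ≥ L^20 / 2`, so `zz^(-3/4) ≤ 2 L^(-15)`. -/
theorem gn_err (Cr : ℝ) : ∀ᶠ X : ℕ in atTop,
    4 * Cr * (1 + Real.log X) ^ 5 * (zz X : ℝ) ^ (-(3 / 4 : ℝ)) ≤ 1 / (2 * Real.log X ^ 2) := by
  filter_upwards [xf_err4 (8 * Cr)] with X h1
  have hp : 0 ≤ 1 / (2 * Real.log X ^ 2) := by positivity
  have h2 : (1 + 1 / 1000) * (8 * Cr) * (1 + Real.log X) ^ 5 * (zz X : ℝ) ^ (-(3 / 4 : ℝ)) =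
      2 * (1 + 1 / 1000) * (4 * Cr * (1 + Real.log X) ^ 5 * (zz X : ℝ) ^ (-(3 / 4 : ℝ))) := by
    ring
  have h3 : 1 / Real.log X ^ 2 = 2 * (1 / (2 * Real.log X ^ 2)) := by
    rw [one_div, one_div, mul_inv]
    ring
  rw [h2, h3] at h1
  by_contra hcon
  push Not at hcon
  linarith

theorem gf_ev (Cr : ℝ) : ∀ᶠ X : ℕ in atTop, ∀ (n : ℕ) (e : ℝ), Rng X n e → GF Cr X n e := by
  filter_upwards [xf_ev Cr, ctx_ev, gn_basic, gn_lam, gn_num, gn_pow, gn_err Cr] with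
    X h1 h2 h3 h4 h5 h6 h7 n e hr
  have hL : 0 ≤ Real.log X := Real.log_natCast_nonneg X
  exact
    { xf := h1 0 (by rw [Nat.cast_zero]; positivity)
      ctx := ⟨_, h2 n e hr⟩
      n1 := hr.n1
      DP := h3.1
      BP := h3.2.2 n e hr
      Nbig := h3.2.1
      num := (h5 n e hr).1
      small := (h5 n e hr).2
      lamK := (h4 n e hr).1
      lamR := (h4 n e hr).2.1
      sm := (h4 n e hr).2.2.1
      tota := (h6 n e hr).1
      nrm := (h6 n e hr).2.1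
      rbv := (h6 n e hr).2.2
      lam := (h4 n e hr).2.2.2
      err := h7 }

end Pool.Agent.H.MP_711652_nt.CG
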