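import Pool.Agent.H.MP_711652_nt.CG.GMom
import Pool.Agent.H.MP_711652_nt.CG.AC
import Pool.Agent.H.MP_711652_nt.CH.OneSc

/-! # MP_711652, CG: many good points -/

set_option autoImplicit false

namespace Pool.Agent.H.MP_711652_nt.CG

open Finset Pool.Agent.H.MP_711652_nt.LG Pool.Agent.H.MP_711652_nt.G2 Pool.Agent.H.MP_711652_nt.CH

variable {Cr δ₂ C4 : ℝ} {X : ℕ}

/-- `K` gaps larger than `v` between consecutive primes in `(n, n + H]` -/
def ChainAt (K v H n : ℕ) : Prop :=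
  ∃ i : ℕ, n < Nat.nth Nat.Prime i ∧ Nat.nth Nat.Prime (i + K) ≤ n + H ∧
    ∀ l < K, Nat.nth Nat.Prime (i + l) + v < Nat.nth Nat.Prime (i + l + 1)

private theorem gone_void (h : XF Cr X 0) (ν m k s v : ℕ)
    (hh : ∀ t ∈ vs X ν k s v, ∃ p : ℕ, p.Prime ∧ p ≤ YY X ∧ p ∣ nn X ν m + t) :
    ∀ j < k, ∀ t, j * (s + v) + s < t → t ≤ (j + 1) * (s + v) → ¬ (nn X ν m + t).Prime := by
  intro j hj t h1 h2 hp
  have hc := coprime_of_prime h hp
  have ht : t ∈ vs X ν k s v := by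
    unfold vs
    rw [mem_biUnion]
    exact ⟨j, mem_range.2 hj, mem_filter.2 ⟨mem_Ioc.2 ⟨h1, h2⟩, hc⟩⟩
  obtain ⟨p, hpp, hpY, hpd⟩ := hh t ht
  have h3 : p = nn X ν m + t := (Nat.prime_dvd_prime_iff_eq hpp hp).1 hpd
  have h4 := Holes_lt X ν m
  have h5 := h.YX
  omega

private theorem gone_inj {ν ν' m m' : ℕ} (hν : ν < WW X) (hν' : ν' < WW X)
    (h : nn X ν m = nn X ν' m') : ν = ν' ∧ m = m' := by
  unfold nn at h
  have hW : 0 < WW X := Holes_pos X
  have h1 : (WW X * (X / WW X + 1 + m) + ν) % WW X = ν := by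
    rw [Nat.mul_add_mod, Nat.mod_eq_of_lt hν]
  have h2 : (WW X * (X / WW X + 1 + m') + ν') % WW X = ν' := by
    rw [Nat.mul_add_mod, Nat.mod_eq_of_lt hν']
  have h3 : ν = ν' := by rw [← h1, ← h2, h]
  refine ⟨h3, ?_⟩
  subst h3
  have h4 : WW X * (X / WW X + 1 + m) = WW X * (X / WW X + 1 + m') := Nat.add_right_cancel h
  have h5 := Nat.eq_of_mul_eq_mul_left hW h4
  omega

open Classical in
/-- PROOF. `abs_cnt` with `q = G^2 / S2`, `C3 = 2 u A + 2 (u A)^2 =: Cb`, `u = k s / L`, `A = 2 AA0` (`3 x ≤ 2 (2 x)`, `3 x^2 ≤ 2 (2 x)^2`), `C4 = k (A s / L)^2`, `C5 = 4 C4`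
(`∑ q^2 = ∑ G^4 / S2^2 ≤ C4 N / (N/2)^2`), `g = 1/2`; then `void_of_hit`-argument (a prime `p`, `log X < p ≤ YY X`, divides `n + t` for every `t ∈ vs`), `chain_of_counts`; the numbers `nn X ν m` are different
for different `(ν, m)` and lie in `(X, 2X]` (`nn_range`). -/
theorem good_many (h : XF Cr X 0) (hL : 10 ^ 9 ≤ Real.log X) (k s v K : ℕ)
    (hH : k * (s + v) < zz X)
    (hX : ∀ x₁ x₂ : ℕ, (x₁ : ℝ) ≤ (1 + 1 / 100) * X →
      (2 - 1 / 100) * X ≤ (x₂ : ℝ) → (X : ℝ) / 2 ≤ ∑ x ∈ Ioc x₁ x₂, thn x)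
    (hW : 1000 * (WW X : ℝ) ≤ X) (G : ℕ → ℕ → ℝ)
    (hG : ∀ ν < WW X, PsiOK δ₂ C4 X ν (vs X ν k s v) (k * (s + v)) (G ν))
    (hs' : Real.log X ^ (2 / 3 : ℝ) ≤ s) (hδ : 0 ≤ δ₂) (hC4 : 0 < C4) (Cb : ℝ) (hCb0 : 0 < Cb)
    (hCb : 2 * (k * (2 * AA0 * (s / Real.log X))) + 2 * (k * (2 * AA0 * (s / Real.log X))) ^ 2 ≤ Cb)
    (hfin : K + (K + 3) * (k * (2 * AA0 * (s / Real.log X)) ^ 2) +
      Real.sqrt (Cb * δ₂) + 1 / 2 ≤ 45 / 100 * (k * s / Real.log X)) :
    (1 / 2) ^ 4 / (16 * Cb ^ 2 * (4 * C4)) * (WW X * NN X) ≤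
      (((Ioc X (2 * X)).filter fun n => n + k * (s + v) ≤ 2 * X ∧
        ChainAt K v (k * (s + v)) n).card : ℝ) := by
  have _ := hδ
  have hL0 : 0 < Real.log X := by linarith [h.L1]
  have hLL0 : 0 < Real.log (Real.log X) := by linarith [h.LL1]
  have hN : (0 : ℝ) < NN X := by
    have := h.N0
    exact_mod_cast this
  have hS : ∀ ν < WW X, 0 < S2 X (G ν) := fun ν hν => by
    have := (hG ν hν).low
    linarith
  have he : 0 < Real.exp 21 := Real.exp_pos _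
  have hA0 : 0 < AA0 := by
    unfold AA0
    positivity
  have hs0 : (0 : ℝ) ≤ s := Nat.cast_nonneg s
  have hk0 : (0 : ℝ) ≤ k := Nat.cast_nonneg k
  have hW0 : 0 < WW X := lt_of_lt_of_le (by omega) h.zW
  -- positions
  have hhs : ∀ ν, ∀ j ∈ range k, ∀ t ∈ hs X ν s v j, t ≤ k * (s + v) := fun ν j hj t ht =>
    (hs_le (mem_range.1 hj) ht).2.1
  have hhu : ∀ ν, ∀ t ∈ hu X ν k s v, t ≤ k * (s + v) := by
    intro ν t ht
    unfold hu at ht
    rw [mem_biUnion] at ht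
    obtain ⟨j, hj, ht⟩ := ht
    exact hhs ν j hj t ht
  have hdu : ∀ ν, Disjoint (vs X ν k s v) (hu X ν k s v) := by
    intro ν
    unfold hu
    rw [disjoint_biUnion_right]
    intro j _
    exact vs_hs_disj ν k s v j
  -- the numbers of positions
  have hJ := JX_ge h
  have hJ0 : 0 < JX X := by
    refine lt_of_lt_of_le ?_ hJ
    have : 0 < Real.exp (-21) := Real.exp_pos _
    positivity
  have hcj : ∀ ν j, ((hs X ν s v j).card : ℝ) / JX X ≤ AA0 * (s / Real.log X) := by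
    intro ν j
    rw [div_le_iff₀ hJ0]
    have h1 := hs_card hL ν s v j hs'
    have h2 : AA0 * (s / Real.log X) *
        (Real.exp (-21) / 4000 * (Real.log X / Real.log (Real.log X))) ≤
        AA0 * (s / Real.log X) * JX X :=
      mul_le_mul_of_nonneg_left hJ (by positivity)
    have h3 : AA0 * (s / Real.log X) *
        (Real.exp (-21) / 4000 * (Real.log X / Real.log (Real.log X))) =
        84 * (s / Real.log (Real.log X)) := by
      unfold AA0
      rw [Real.exp_neg]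
      field_simp
      ring
    linarith
  have hcu : ∀ ν, ((hu X ν k s v).card : ℝ) / JX X ≤ k * (AA0 * (s / Real.log X)) := by
    intro ν
    have h1 : ((hu X ν k s v).card : ℝ) ≤ ∑ j ∈ range k, ((hs X ν s v j).card : ℝ) := by
      unfold hu
      exact_mod_cast card_biUnion_le
    calc ((hu X ν k s v).card : ℝ) / JX X ≤ (∑ j ∈ range k, ((hs X ν s v j).card : ℝ)) / JX X :=
          div_le_div_of_nonneg_right h1 hJ0.le
      _ = ∑ j ∈ range k, ((hs X ν s v j).card : ℝ) / JX X := by rw [sum_div]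
      _ ≤ ∑ j ∈ range k, AA0 * (s / Real.log X) := sum_le_sum fun j _ => hcj ν j
      _ = k * (AA0 * (s / Real.log X)) := by rw [sum_const, card_range, nsmul_eq_mul]
  have hNh : ∀ ν m, ∑ j ∈ range k, (cnt (nn X ν m) s v j : ℝ) =
      ∑ t ∈ hu X ν k s v, ip (nn X ν m + t) := by
    intro ν m
    unfold hu
    rw [sum_biUnion]
    · exact sum_congr rfl fun j _ => cnt_eq_sum h ν m s v j
    · intro i _ j _ hij
      exact hs_disj ν s v hij
  obtain ⟨bad, hbad⟩ : ∃ bad : ℕ → ℕ → Prop, ∀ ν m, bad ν m ↔ ∃ t ∈ vs X ν k s v,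
      ∀ p : ℕ, p.Prime → Real.log X < p → p ≤ YY X → ¬ p ∣ nn X ν m + t :=
    ⟨_, fun _ _ => Iff.rfl⟩
  have key := abs_cnt (WW X) (NN X) K
    (fun ν m => G ν m ^ 2 / S2 X (G ν))
    (fun ν m => ∑ j ∈ range k, (cnt (nn X ν m) s v j : ℝ))
    (fun ν m => ∑ j ∈ range k, (((cnt (nn X ν m) s v j).choose 2 : ℕ) : ℝ))
    bad
    δ₂ Cb (k * (2 * AA0 * (s / Real.log X)) ^ 2) (4 * C4) (45 / 100 * (k * s / Real.log X)) (1 / 2)
    hW0 (by exact_mod_cast hN) hCb0 (by linarith) (by norm_num) ?_ ?_ ?_ ?_ ?_ ?_ ?_ ?_ ?_ hfin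
  · refine key.trans ?_
    rw [Nat.cast_le]
    refine card_le_card_of_injOn (fun x : ℕ × ℕ => nn X x.1 x.2) ?_ ?_
    · rintro ⟨ν, m⟩ hx
      rw [mem_coe, mem_filter, mem_product, mem_range, mem_range] at hx
      obtain ⟨⟨hν, hm⟩, hgood, hK⟩ := hx
      rw [mem_coe, mem_filter, mem_Ioc]
      simp only at hν hm hgood hK ⊢
      have hgood' : ∀ t ∈ vs X ν k s v, ∃ p : ℕ, p.Prime ∧ p ≤ YY X ∧ p ∣ nn X ν m + t := by
        intro t ht
        by_contra hcon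
        refine hgood ((hbad ν m).2 ⟨t, ht, fun p hp _ hpY hd => hcon ⟨p, hp, hpY, hd⟩⟩)
      have hK' : K + (K + 3) * ∑ j ∈ range k, (cnt (nn X ν m) s v j).choose 2 <
          ∑ j ∈ range k, cnt (nn X ν m) s v j := by
        have h1 : ((K + (K + 3) * ∑ j ∈ range k, (cnt (nn X ν m) s v j).choose 2 : ℕ) : ℝ) <
            ((∑ j ∈ range k, cnt (nn X ν m) s v j : ℕ) : ℝ) := by
          push_cast
          linarith
        exact_mod_cast h1
      have h2 := chain_of_counts (nn X ν m) s v k K (gone_void h ν m k s v hgood') hK'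
      have h4 := nn_range h hν hm (t := k * (s + v)) (hH.le.trans h.zW)
      exact ⟨⟨h4.1, by omega⟩, h4.2, h2⟩
    · rintro ⟨ν, m⟩ hx ⟨ν', m'⟩ hx' hxx
      rw [mem_coe, mem_filter, mem_product, mem_range, mem_range] at hx hx'
      simp only at hx hx' hxx
      obtain ⟨h1, h2⟩ := gone_inj hx.1.1 hx'.1.1 hxx
      rw [h1, h2]
  · intro ν hν m _
    exact div_nonneg (sq_nonneg _) (hS ν hν).le
  · intro ν _ m _
    exact sum_nonneg fun j _ => Nat.cast_nonneg _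
  · intro ν _ m _
    exact sum_nonneg fun j _ => Nat.cast_nonneg _
  · intro ν hν
    rw [← sum_div, div_le_iff₀ (hS ν hν), one_mul]
    exact le_of_eq rfl
  · intro ν hν S hSr hb
    rw [← sum_div, div_le_iff₀ (hS ν hν)]
    exact (hG ν hν).bad S hSr fun m hm => (hbad ν m).1 (hb m hm)
  · intro ν hν
    have h1 := momG_sq (hG ν hν) hJ0 _ (hhu ν) (hdu ν)
    have h2 : ∑ m ∈ range (NN X), G ν m ^ 2 / S2 X (G ν) *
        (∑ j ∈ range k, (cnt (nn X ν m) s v j : ℝ)) ^ 2 =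
        (∑ m ∈ range (NN X), G ν m ^ 2 *
          (∑ t ∈ hu X ν k s v, ip (nn X ν m + t)) ^ 2) / S2 X (G ν) := by
      rw [sum_div]
      refine sum_congr rfl fun m _ => ?_
      rw [hNh]
      ring
    rw [h2, div_le_iff₀ (hS ν hν)]
    refine h1.trans (mul_le_mul_of_nonneg_right ?_ (hS ν hν).le)
    have h3 := hcu ν
    have h4 : (0 : ℝ) ≤ (hu X ν k s v).card / JX X := div_nonneg (Nat.cast_nonneg _) hJ0.le
    have h5 : ((hu X ν k s v).card / JX X) ^ 2 ≤ (k * (AA0 * (s / Real.log X))) ^ 2 :=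
      pow_le_pow_left₀ h4 h3 2
    have h6 : (0 : ℝ) ≤ k * (AA0 * (s / Real.log X)) := by positivity
    have h7 : (k : ℝ) * (2 * AA0 * (s / Real.log X)) = 2 * (k * (AA0 * (s / Real.log X))) := by
      ring
    rw [h7] at hCb
    nlinarith [sq_nonneg ((k : ℝ) * (AA0 * (s / Real.log X)))]
  · intro ν hν
    have h2 : ∑ m ∈ range (NN X), G ν m ^ 2 / S2 X (G ν) *
        (∑ j ∈ range k, (((cnt (nn X ν m) s v j).choose 2 : ℕ) : ℝ)) =
        ∑ j ∈ range k, (∑ m ∈ range (NN X), G ν m ^ 2 *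
          (((cnt (nn X ν m) s v j).choose 2 : ℕ) : ℝ)) / S2 X (G ν) := by
      calc ∑ m ∈ range (NN X), G ν m ^ 2 / S2 X (G ν) *
              (∑ j ∈ range k, (((cnt (nn X ν m) s v j).choose 2 : ℕ) : ℝ))
          = ∑ m ∈ range (NN X), ∑ j ∈ range k, G ν m ^ 2 / S2 X (G ν) *
              (((cnt (nn X ν m) s v j).choose 2 : ℕ) : ℝ) :=
            sum_congr rfl fun m _ => Finset.mul_sum _ _ _
        _ = ∑ j ∈ range k, ∑ m ∈ range (NN X), G ν m ^ 2 / S2 X (G ν) *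
              (((cnt (nn X ν m) s v j).choose 2 : ℕ) : ℝ) := Finset.sum_comm
        _ = _ := by
            refine sum_congr rfl fun j _ => ?_
            rw [Finset.sum_div]
            refine sum_congr rfl fun m _ => ?_
            ring
    rw [h2]
    have h6 : ∀ j ∈ range k, (∑ m ∈ range (NN X), G ν m ^ 2 *
          (((cnt (nn X ν m) s v j).choose 2 : ℕ) : ℝ)) / S2 X (G ν) ≤
          (2 * AA0 * (s / Real.log X)) ^ 2 := by
      intro j hj
      rw [div_le_iff₀ (hS ν hν)]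
      have h1 := momG_pair (hG ν hν) hJ0 _ (hhs ν j hj) (vs_hs_disj ν k s v j)
      have h7 : ∀ m, cnt (nn X ν m) s v j =
          ((hs X ν s v j).filter (fun t => (nn X ν m + t).Prime)).card := fun m =>
        cnt_eq h ν m s v j
      rw [sum_congr rfl fun m _ => by rw [h7 m]]
      refine h1.trans (mul_le_mul_of_nonneg_right ?_ (hS ν hν).le)
      have h8 := pow_le_pow_left₀ (div_nonneg (Nat.cast_nonneg _) hJ0.le) (hcj ν j) 2
      have h9 : (2 * AA0 * (s / Real.log X)) ^ 2 = 4 * (AA0 * (s / Real.log X)) ^ 2 := by ring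
      rw [h9]
      nlinarith [sq_nonneg (AA0 * (s / Real.log X))]
    refine (sum_le_sum h6).trans (le_of_eq ?_)
    rw [sum_const, card_range, nsmul_eq_mul]
  · exact lowG h (by linarith) k s v hH hX hW G hG
  · intro ν hν
    have h1 := (hG ν hν).four
    have h2 := (hG ν hν).low
    have h3 := hS ν hν
    have h4 : ∑ m ∈ range (NN X), (G ν m ^ 2 / S2 X (G ν)) ^ 2 =
        (∑ m ∈ range (NN X), G ν m ^ 4) / S2 X (G ν) ^ 2 := by
      rw [sum_div]
      refine sum_congr rfl fun m _ => ?_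
      rw [div_pow, ← pow_mul]
    rw [h4, div_le_div_iff₀ (by positivity) hN]
    have h5 : ((NN X : ℝ) / 2) ^ 2 ≤ S2 X (G ν) ^ 2 := pow_le_pow_left₀ (by positivity) h2 2
    calc (∑ m ∈ range (NN X), G ν m ^ 4) * NN X ≤ C4 * NN X * NN X :=
          mul_le_mul_of_nonneg_right h1 hN.le
      _ = 4 * C4 * ((NN X : ℝ) / 2) ^ 2 := by ring
      _ ≤ 4 * C4 * S2 X (G ν) ^ 2 := mul_le_mul_of_nonneg_left h5 (by positivity)

end Pool.Agent.H.MP_711652_nt.CG
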