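import Pool.Agent.H.MP_711652_nt.CG.KMul
import Pool.Agent.H.MP_711652_nt.CH.WSum

/-! # MP_711652, CG: the lower bound for `∑ θ(x) Ψ(x)^2`, two-level form

See `CH/Coeff.lean`, `CH/GramZ.lean`, `CH/WSum.lean`. -/

set_option autoImplicit false

namespace Pool.Agent.H.MP_711652_nt.CG

open Finset Pool.Agent.H.MP_711652_nt.LG Pool.Agent.H.MP_711652_nt.CH

variable {ι : Type*} [Fintype ι] [DecidableEq ι]

private theorem kws_avg {α β : Type*} [Fintype α] [DecidableEq α] [Fintype β]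
    [DecidableEq β] (q : α) (f : (α → β) → ℝ) :
    ∑ σ : α → β, ∑ s : β, f (Function.update σ q s) =
      (Fintype.card β : ℝ) * ∑ σ : α → β, f σ := by
  have h1 : ∑ z : (α → β) × β, f (Function.update z.1 q z.2) = ∑ z : (α → β) × β, f z.1 := by
    refine Fintype.sum_equiv (⟨fun z => (Function.update z.1 q z.2, z.1 q),
      fun z => (Function.update z.1 q z.2, z.1 q), ?_, ?_⟩) _ _ (fun z => rfl)
    · intro z
      simp
    · intro z
      simp
  rw [Fintype.sum_prod_type, Fintype.sum_prod_type] at h1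
  rw [h1, mul_sum]
  refine sum_congr rfl fun σ _ => ?_
  simp

private theorem kws_avg2 {α β : Type*} [Fintype α] [DecidableEq α] [Fintype β]
    [DecidableEq β] (q : α) (f : (α → β) → (α → β) → ℝ) :
    ∑ σ : α → β, ∑ τ : α → β, ∑ s : β, ∑ t : β,
        f (Function.update σ q s) (Function.update τ q t) =
      (Fintype.card β : ℝ) ^ 2 * ∑ σ : α → β, ∑ τ : α → β, f σ τ := by
  have h1 : ∀ σ : α → β, ∑ τ : α → β, ∑ s : β, ∑ t : β,
      f (Function.update σ q s) (Function.update τ q t) =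
      (Fintype.card β : ℝ) * ∑ s : β, ∑ τ : α → β, f (Function.update σ q s) τ := by
    intro σ
    rw [sum_comm, mul_sum]
    exact sum_congr rfl fun s _ => kws_avg q (fun τ => f (Function.update σ q s) τ)
  rw [sum_congr rfl fun σ _ => h1 σ, ← mul_sum,
    kws_avg q (fun σ => ∑ τ : α → β, f σ τ)]
  ring

/-- The inequality for one prime. -/
private theorem kws_local {κ : ℝ} (hκ : 1 ≤ κ) {q : ℕ} (hq : 6 * Fintype.card ι + 5 ≤ q)
    (α β : Option ι → ℝ)
    (hα0 : ∀ s, 0 ≤ α s) (hβ0 : ∀ s, 0 ≤ β s)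
    (hα : ∀ i, α (some i) ≤ α none * (κ / ((q : ℝ) - 1)))
    (hβ : ∀ i, β (some i) ≤ β none * (κ / ((q : ℝ) - 1))) :
    ∑ s : Option ι, ∑ t : Option ι, α s * β t * lz q s t ≤
      20 * κ ^ 2 * (Fintype.card ι : ℝ) / q *
        ∑ s : Option ι, ∑ t : Option ι, α s * β t * |kz q s t| := by
  obtain ⟨R, hR⟩ : ∃ R : ℝ, R = Fintype.card ι := ⟨_, rfl⟩
  have hR0 : 0 ≤ R := by rw [hR]; positivity
  have hκ0 : 0 < κ := by linarith
  have hqR : 6 * R + 5 ≤ (q : ℝ) := by
    rw [hR]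
    exact_mod_cast hq
  have hq1 : (0 : ℝ) < (q : ℝ) - 1 := by linarith
  have hq0 : (0 : ℝ) < (q : ℝ) := by linarith
  obtain ⟨a, ha⟩ : ∃ a : ℝ, a = α none := ⟨_, rfl⟩
  obtain ⟨b, hb⟩ : ∃ b : ℝ, b = β none := ⟨_, rfl⟩
  have ha0 : 0 ≤ a := by rw [ha]; exact hα0 _
  have hb0 : 0 ≤ b := by rw [hb]; exact hβ0 _
  rw [← ha] at hα
  rw [← hb] at hβ
  obtain ⟨A, hAe⟩ : ∃ A : ℝ, A = a * (κ / ((q : ℝ) - 1)) := ⟨_, rfl⟩
  obtain ⟨B, hBe⟩ : ∃ B : ℝ, B = b * (κ / ((q : ℝ) - 1)) := ⟨_, rfl⟩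
  have hk0 : 0 ≤ κ / ((q : ℝ) - 1) := div_nonneg hκ0.le hq1.le
  have hA : 0 ≤ A := by rw [hAe]; exact mul_nonneg ha0 hk0
  have hB : 0 ≤ B := by rw [hBe]; exact mul_nonneg hb0 hk0
  rw [← hAe] at hα
  rw [← hBe] at hβ
  have hup : ∑ s : Option ι, ∑ t : Option ι, α s * β t * lz q s t ≤
      a * b * R * (11 * κ ^ 2 / ((q : ℝ) - 1)) := by
    have e1 : ∀ t : Option ι, lz q (none : Option ι) t = if t = none then 0 else 4 := by
      intro t
      unfold lz
      rcases t with _ | j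
      · simp
      · simp
    have h1 : ∑ t : Option ι, α none * β t * lz q none t ≤ a * B * 4 * R := by
      rw [Fintype.sum_option, e1, ← ha]
      have h2 : ∀ j : ι, a * β (some j) * lz q none (some j) ≤ a * B * 4 := by
        intro j
        rw [e1]
        simp only [reduceCtorEq, if_false]
        have := hβ j
        gcongr
      refine (add_le_add le_rfl (sum_le_sum fun j _ => h2 j)).trans ?_
      rw [sum_const, card_univ, nsmul_eq_mul, ← hR]
      simp only [if_true, mul_zero, zero_add]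
      exact le_of_eq (by ring)
    have h3 : ∀ i : ι, ∑ t : Option ι, α (some i) * β t * lz q (some i) t ≤
        A * b * 4 + A * B * (2 * (q : ℝ) + 6 * R) := by
      intro i
      rw [Fintype.sum_option]
      refine add_le_add ?_ ?_
      · have e2 : lz q (some i) none = 4 := by
          unfold lz
          simp
        rw [e2, ← hb]
        have := hα i
        gcongr
      · have h4 : ∀ j : ι, α (some i) * β (some j) * lz q (some i) (some j) ≤
            A * B * ((if i = j then 2 * (q : ℝ) else 0) + 6) := by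
          intro j
          have h5 : lz q (some i) (some j) ≤ (if i = j then 2 * (q : ℝ) else 0) + 6 := by
            unfold lz
            by_cases hij : i = j
            · subst hij
              simp
            · simp [hij]
          have h6 : 0 ≤ lz q (some i) (some j) := by
            unfold lz
            by_cases hij : i = j
            · subst hij
              simp
            · simp [hij]
          have h7 : α (some i) * β (some j) ≤ A * B :=
            mul_le_mul (hα i) (hβ j) (hβ0 _) hA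
          exact mul_le_mul h7 h5 h6 (mul_nonneg hA hB)
        refine (sum_le_sum fun j _ => h4 j).trans ?_
        rw [← mul_sum, sum_add_distrib, sum_ite_eq, sum_const, card_univ, nsmul_eq_mul, ← hR]
        simp only [mem_univ, if_true]
        exact le_of_eq (by ring)
    rw [Fintype.sum_option]
    refine (add_le_add h1 (sum_le_sum fun i _ => h3 i)).trans ?_
    rw [sum_const, card_univ, nsmul_eq_mul, ← hR]
    have h8 : 2 * (q : ℝ) + 6 * R ≤ 3 * ((q : ℝ) - 1) := by linarith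
    have h9 : A * B * (2 * (q : ℝ) + 6 * R) ≤ A * B * (3 * ((q : ℝ) - 1)) :=
      mul_le_mul_of_nonneg_left h8 (mul_nonneg hA hB)
    have h10 : A * B * (3 * ((q : ℝ) - 1)) = 3 * (a * b) * κ ^ 2 / ((q : ℝ) - 1) := by
      rw [hAe, hBe]
      field_simp
    rw [h10] at h9
    have h11 := mul_le_mul_of_nonneg_left h9 hR0
    have h12 : a * B * 4 * R + R * (A * b * 4 + A * B * (2 * (q : ℝ) + 6 * R)) =
        8 * (a * b * R) * κ / ((q : ℝ) - 1) + R * (A * B * (2 * (q : ℝ) + 6 * R)) := by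
      have e3 : a * B * 4 * R = 4 * (a * b * R) * κ / ((q : ℝ) - 1) := by
        rw [hBe]
        field_simp
      have e4 : R * (A * b * 4) = 4 * (a * b * R) * κ / ((q : ℝ) - 1) := by
        rw [hAe]
        field_simp
      rw [mul_add, e3, e4]
      ring
    rw [h12]
    refine (add_le_add le_rfl h11).trans ?_
    have h13 : κ ≤ κ ^ 2 := by nlinarith
    have h14 : 0 ≤ a * b * R := mul_nonneg (mul_nonneg ha0 hb0) hR0
    have h15 : 8 * (a * b * R) * κ / ((q : ℝ) - 1) ≤ 8 * (a * b * R) * κ ^ 2 / ((q : ℝ) - 1) := by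
      gcongr
    refine (add_le_add h15 le_rfl).trans (le_of_eq ?_)
    field_simp
    ring
  have hlo : a * b ≤ ∑ s : Option ι, ∑ t : Option ι, α s * β t * |kz q s t| := by
    have h1 : ∀ s t : Option ι, 0 ≤ α s * β t * |kz q s t| := fun s t =>
      mul_nonneg (mul_nonneg (hα0 s) (hβ0 t)) (abs_nonneg _)
    have h2 : a * b = α none * β none * |kz q (none : Option ι) none| := by
      unfold kz
      simp [ha, hb]
    rw [h2]
    refine le_trans ?_ (single_le_sum (f := fun s => ∑ t : Option ι, α s * β t * |kz q s t|)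
      (fun s _ => sum_nonneg fun t _ => h1 s t) (mem_univ (none : Option ι)))
    exact single_le_sum (f := fun t => α none * β t * |kz q none t|)
      (fun t _ => h1 none t) (mem_univ (none : Option ι))
  rw [← hR]
  refine hup.trans ?_
  have h1 : a * b * R * (11 * κ ^ 2 / ((q : ℝ) - 1)) ≤ 20 * κ ^ 2 * R / q * (a * b) := by
    have h2 : 11 * κ ^ 2 / ((q : ℝ) - 1) ≤ 20 * κ ^ 2 / q := by
      rw [div_le_div_iff₀ hq1 hq0]
      have h4 : 11 * (q : ℝ) ≤ 20 * ((q : ℝ) - 1) := by linarith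
      have h5 := mul_le_mul_of_nonneg_left h4 (sq_nonneg κ)
      linarith
    have h3 : 0 ≤ a * b * R := mul_nonneg (mul_nonneg ha0 hb0) hR0
    refine (mul_le_mul_of_nonneg_left h2 h3).trans (le_of_eq ?_)
    ring
  exact h1.trans (mul_le_mul_of_nonneg_left hlo (by positivity))

private theorem kws_step {κ : ℝ} (hκ : 1 ≤ κ) {P : Finset ℕ} {a : (P → Option ι) → ℝ} {Y : ℕ}
    (h : CoefK κ P a Y)
    (hR : ∀ p ∈ P, 6 * Fintype.card ι + 5 ≤ p) (T : Finset ℕ) (q : ℕ) (hqP : q ∈ P)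
    (hqT : q ∉ T) :
    ∑ σ : P → Option ι, ∑ τ : P → Option ι, a σ * a τ *
        ∏ p : P, (if (p : ℕ) ∈ insert q T then lz (p : ℕ) (σ p) (τ p)
          else |kz (p : ℕ) (σ p) (τ p)|) ≤
      20 * κ ^ 2 * (Fintype.card ι : ℝ) / q *
        ∑ σ : P → Option ι, ∑ τ : P → Option ι, a σ * a τ *
          ∏ p : P, (if (p : ℕ) ∈ T then lz (p : ℕ) (σ p) (τ p)
            else |kz (p : ℕ) (σ p) (τ p)|) := by
  classical
  obtain ⟨q', hq'⟩ : ∃ q' : P, q' = ⟨q, hqP⟩ := ⟨_, rfl⟩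
  have hqq : (q' : ℕ) = q := by rw [hq']
  obtain ⟨rest, hrest⟩ : ∃ rest : (P → Option ι) → (P → Option ι) → ℝ, rest = fun σ τ =>
      ∏ p ∈ univ.erase q', (if (p : ℕ) ∈ T then lz (p : ℕ) (σ p) (τ p)
        else |kz (p : ℕ) (σ p) (τ p)|) := ⟨_, rfl⟩
  have hlz0 : ∀ (p : ℕ) (s t : Option ι), 0 ≤ lz p s t := by
    intro p s t
    unfold lz
    split_ifs <;> positivity
  have hrest0 : ∀ σ τ, 0 ≤ rest σ τ := by
    intro σ τ
    rw [hrest]
    refine prod_nonneg fun p _ => ?_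
    split_ifs
    · exact hlz0 _ _ _
    · exact abs_nonneg _
  have hru : ∀ σ τ s t, rest (Function.update σ q' s) (Function.update τ q' t) = rest σ τ := by
    intro σ τ s t
    rw [hrest]
    refine prod_congr rfl fun p hp => ?_
    have h1 : p ≠ q' := ne_of_mem_erase hp
    rw [Function.update_of_ne h1, Function.update_of_ne h1]
  have h1 : ∀ σ τ : P → Option ι, ∏ p : P, (if (p : ℕ) ∈ insert q T then lz (p : ℕ) (σ p) (τ p)
      else |kz (p : ℕ) (σ p) (τ p)|) = lz q (σ q') (τ q') * rest σ τ := by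
    intro σ τ
    rw [← mul_prod_erase univ _ (mem_univ q'), hrest]
    congr 1
    · rw [hqq, if_pos (mem_insert_self q T)]
    · refine prod_congr rfl fun p hp => ?_
      have h2 : p ≠ q' := ne_of_mem_erase hp
      have h3 : (p : ℕ) ≠ q := fun e => h2 (Subtype.ext (by rw [hqq]; exact e))
      have h4 : ((p : ℕ) ∈ insert q T) ↔ (p : ℕ) ∈ T := by
        rw [mem_insert]
        exact or_iff_right h3
      simp only [h4]
  have h2 : ∀ σ τ : P → Option ι, ∏ p : P, (if (p : ℕ) ∈ T then lz (p : ℕ) (σ p) (τ p)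
      else |kz (p : ℕ) (σ p) (τ p)|) = |kz q (σ q') (τ q')| * rest σ τ := by
    intro σ τ
    rw [← mul_prod_erase univ _ (mem_univ q'), hrest]
    congr 1
    rw [hqq, if_neg hqT]
  simp only [h1, h2]
  have hcard : (0 : ℝ) < (Fintype.card (Option ι) : ℝ) ^ 2 := by
    have : 0 < Fintype.card (Option ι) := Fintype.card_pos
    positivity
  refine le_of_mul_le_mul_left ?_ hcard
  have hL := kws_avg2 q' (fun σ τ : P → Option ι => a σ * a τ *
    (lz q (σ q') (τ q') * rest σ τ))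
  have hRr := kws_avg2 q' (fun σ τ : P → Option ι => a σ * a τ *
    (|kz q (σ q') (τ q')| * rest σ τ))
  rw [← hL]
  have hc : ∀ x y z : ℝ, x * (y * z) = y * (x * z) := fun x y z => by ring
  rw [hc, ← hRr, mul_sum]
  refine sum_le_sum fun σ _ => ?_
  rw [mul_sum]
  refine sum_le_sum fun τ _ => ?_
  simp only [Function.update_self, hru]
  have h3 := kws_local (ι := ι) hκ (hR q hqP) (fun s => a (Function.update σ q' s))
    (fun s => a (Function.update τ q' s)) (fun s => h.nonneg _) (fun s => h.nonneg _)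
    (fun i => by
      have h4 := h.sub (Function.update σ q' none) q' i (Function.update_self ..)
      rwa [Function.update_idem, hqq] at h4)
    (fun i => by
      have h4 := h.sub (Function.update τ q' none) q' i (Function.update_self ..)
      rwa [Function.update_idem, hqq] at h4)
  have h4 := mul_le_mul_of_nonneg_right h3 (hrest0 σ τ)
  have e1 : ∑ s : Option ι, ∑ t : Option ι, a (Function.update σ q' s) *
      a (Function.update τ q' t) * (lz q s t * rest σ τ) =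
      (∑ s : Option ι, ∑ t : Option ι, a (Function.update σ q' s) *
        a (Function.update τ q' t) * lz q s t) * rest σ τ := by
    rw [sum_mul]
    refine sum_congr rfl fun s _ => ?_
    rw [sum_mul]
    refine sum_congr rfl fun t _ => ?_
    ring
  have e2 : ∑ s : Option ι, ∑ t : Option ι, a (Function.update σ q' s) *
      a (Function.update τ q' t) * (|kz q s t| * rest σ τ) =
      (∑ s : Option ι, ∑ t : Option ι, a (Function.update σ q' s) *
        a (Function.update τ q' t) * |kz q s t|) * rest σ τ := by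
    rw [sum_mul]
    refine sum_congr rfl fun s _ => ?_
    rw [sum_mul]
    refine sum_congr rfl fun t _ => ?_
    ring
  rw [e1, e2, ← mul_assoc]
  exact h4

/-- As `CH.coeff`; the local sum is `∑_{s,t} lz q s t (κ/(q-1))^{[s ≠ none] + [t ≠ none]} ≤ 20 κ^2 R / q`. -/
theorem coeffK {κ : ℝ} (hκ : 1 ≤ κ) {P : Finset ℕ} {a : (P → Option ι) → ℝ} {Y : ℕ}
    (h : CoefK κ P a Y)
    (hR : ∀ p ∈ P, 6 * Fintype.card ι + 5 ≤ p) (T : Finset ℕ) (hT : T ⊆ P) :
    ∑ σ : P → Option ι, ∑ τ : P → Option ι, a σ * a τ *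
        ∏ p : P, (if (p : ℕ) ∈ T then lz (p : ℕ) (σ p) (τ p) else |kz (p : ℕ) (σ p) (τ p)|) ≤
      (∏ p ∈ T, 20 * κ ^ 2 * (Fintype.card ι : ℝ) / p) *
        ∑ σ : P → Option ι, ∑ τ : P → Option ι, a σ * a τ * ∏ p : P, |kz (p : ℕ) (σ p) (τ p)| := by
  induction T using Finset.induction_on with
  | empty => simp
  | insert q T hqT ih =>
    have h1 := ih ((subset_insert q T).trans hT)
    have hqP : q ∈ P := hT (mem_insert_self q T)
    refine (kws_step hκ h hR T q hqP hqT).trans ?_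
    rw [prod_insert hqT, mul_assoc (20 * κ ^ 2 * (Fintype.card ι : ℝ) / q)]
    have hκ0 : 0 < κ := by linarith
    exact mul_le_mul_of_nonneg_left h1 (by positivity)

/-- As `CH.coeff_zero`. -/
theorem coeffK_zero {κ : ℝ} {P : Finset ℕ} {a : (P → Option ι) → ℝ} {Y : ℕ}
    (h : CoefK κ P a Y)
    (T : Finset ℕ) (hT : T ⊆ P) (hY : Y ^ 2 < ∏ p ∈ T, p) (σ τ : P → Option ι) :
    a σ * a τ *
        ∏ p : P, (if (p : ℕ) ∈ T then lz (p : ℕ) (σ p) (τ p) else |kz (p : ℕ) (σ p) (τ p)|) = 0 := by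
  classical
  by_cases hσ : a σ = 0
  · rw [hσ, zero_mul, zero_mul]
  by_cases hτ : a τ = 0
  · rw [hτ, mul_zero, zero_mul]
  have h1 := h.level σ hσ
  have h2 := h.level τ hτ
  by_cases hex : ∃ p : P, (p : ℕ) ∈ T ∧ σ p = none ∧ τ p = none
  · obtain ⟨p, hp, hp1, hp2⟩ := hex
    rw [prod_eq_zero (mem_univ p) (by rw [if_pos hp, hp1, hp2]; simp [lz]), mul_zero]
  · exfalso
    have h3 : ∏ p ∈ T, p ≤ DD P σ * DD P τ := by
      have h4 : ∏ p ∈ T, p = ∏ p : P, (if (p : ℕ) ∈ T then (p : ℕ) else 1) := by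
        rw [prod_coe_sort P (fun p => if p ∈ T then p else 1), prod_ite_mem,
          inter_eq_right.2 hT]
      rw [h4]
      unfold DD
      rw [← prod_mul_distrib]
      refine prod_le_prod' fun p _ => ?_
      have hp1 : 1 ≤ (p : ℕ) := (h.prime p p.2).one_lt.le
      by_cases hp : (p : ℕ) ∈ T
      · rw [if_pos hp]
        by_cases hs : σ p = none
        · have ht : τ p ≠ none := fun ht => hex ⟨p, hp, hs, ht⟩
          rw [if_pos hs, if_neg ht, one_mul]
        · rw [if_neg hs]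
          split_ifs
          · rw [mul_one]
          · exact Nat.le_mul_of_pos_right _ hp1
      · rw [if_neg hp]
        split_ifs
        · simp
        · simpa using hp1
        · simpa using hp1
        · exact Nat.one_le_iff_ne_zero.2 (by positivity)
    have h5 : DD P σ * DD P τ ≤ Y ^ 2 := by
      rw [sq]
      exact Nat.mul_le_mul h1 h2
    omega

omit [Fintype ι] in
private theorem kws_diag {p : ℕ} (h3 : 3 ≤ p) (s : Option ι) :
    (if s = none then (1 : ℝ) else (p : ℝ) - 1) ≤ kz p s s := by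
  have hp : (3 : ℝ) ≤ p := by exact_mod_cast h3
  unfold kz
  rw [if_pos rfl]
  by_cases h : s = none
  · rw [if_pos h, if_pos h]
  · rw [if_neg h, if_neg h]
    have h1 : 1 / ((p : ℝ) - 1) ≤ 1 := by
      rw [div_le_one (by linarith)]
      linarith
    linarith

/-- PROOF. Diagonal: `v σ^2 ∏ kz(s, s) ≥ v σ^2 ph σ`; off the diagonal `|v σ v τ ∏ kz| ≤ a σ a τ ∏ |kz|`, total at most `gramZ_abs` for `a` minus the diagonal `≥ mass a`. -/
theorem gramK_lower (P : Finset ℕ) (hP : ∀ p ∈ P, p.Prime) (h3 : ∀ p ∈ P, 3 ≤ p)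
    (v a : (P → Option ι) → ℝ) (hv : ∀ σ, |v σ| ≤ a σ) (ε : ℝ)
    (hε : ∀ σ, a σ ≠ 0 → (∏ p : P, if σ p = none then
        1 + (Fintype.card ι : ℝ) / (((p : ℕ) : ℝ) - 1) ^ 2
        else 1 + (2 * (Fintype.card ι : ℝ) + 2) / (((p : ℕ) : ℝ) - 1)) ≤ 1 + ε) :
    mass P v - ε * mass P a ≤
      ∑ σ : P → Option ι, ∑ τ : P → Option ι, v σ * v τ * ∏ p : P, kz (p : ℕ) (σ p) (τ p) := by
  have h1 := gramZ_abs P hP h3 a (fun σ => (abs_nonneg _).trans (hv σ)) ε hε
  have hd : ∀ σ : P → Option ι, ph P σ ≤ ∏ p : P, kz (p : ℕ) (σ p) (σ p) := by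
    intro σ
    unfold ph
    refine prod_le_prod (fun p _ => ?_) fun p _ => kws_diag (h3 p p.2) (σ p)
    have hp : (3 : ℝ) ≤ ((p : ℕ) : ℝ) := by exact_mod_cast h3 p p.2
    split_ifs
    · exact zero_le_one
    · linarith
  have hk : ∀ σ : P → Option ι, ∏ p : P, |kz (p : ℕ) (σ p) (σ p)| =
      ∏ p : P, kz (p : ℕ) (σ p) (σ p) := by
    intro σ
    refine prod_congr rfl fun p _ => abs_of_nonneg ?_
    refine le_trans ?_ (kws_diag (h3 p p.2) (σ p))
    have hp : (3 : ℝ) ≤ ((p : ℕ) : ℝ) := by exact_mod_cast h3 p p.2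
    split_ifs
    · exact zero_le_one
    · linarith
  have h2 : ∑ σ : P → Option ι, ∑ τ : P → Option ι,
      ((if σ = τ then (v σ ^ 2 + a σ ^ 2) * ph P σ else 0) -
        a σ * a τ * ∏ p : P, |kz (p : ℕ) (σ p) (τ p)|) ≤
      ∑ σ : P → Option ι, ∑ τ : P → Option ι,
        v σ * v τ * ∏ p : P, kz (p : ℕ) (σ p) (τ p) := by
    refine sum_le_sum fun σ _ => sum_le_sum fun τ _ => ?_
    by_cases h : σ = τ
    · subst h
      rw [if_pos rfl, hk]
      have h4 := mul_le_mul_of_nonneg_left (hd σ) (add_nonneg (sq_nonneg (v σ)) (sq_nonneg (a σ)))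
      nlinarith [h4]
    · rw [if_neg h, zero_sub, ← abs_prod]
      have h4 : |v σ * v τ * ∏ p : P, kz (p : ℕ) (σ p) (τ p)| ≤
          a σ * a τ * |∏ p : P, kz (p : ℕ) (σ p) (τ p)| := by
        rw [abs_mul, abs_mul]
        exact mul_le_mul_of_nonneg_right (mul_le_mul (hv σ) (hv τ) (abs_nonneg _)
          ((abs_nonneg _).trans (hv σ))) (abs_nonneg _)
      exact (neg_le_neg h4).trans (neg_abs_le _)
  simp only [sum_sub_distrib] at h2
  rw [gram2_diag P (fun σ => (v σ ^ 2 + a σ ^ 2) * ph P σ)] at h2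
  have e : ∑ σ : P → Option ι, (v σ ^ 2 + a σ ^ 2) * ph P σ = mass P v + mass P a := by
    unfold mass
    rw [← sum_add_distrib]
    exact sum_congr rfl fun σ _ => by ring
  rw [e] at h2
  have h5 : (1 + ε) * ∑ σ : P → Option ι, a σ ^ 2 * ph P σ = mass P a + ε * mass P a := by
    unfold mass
    ring
  rw [h5] at h1
  linarith

/-- As `CH.wsum`. -/
theorem wsumK {κ : ℝ} (hκ : 1 ≤ κ) {P : Finset ℕ} {κ' : ι → ℤ} (hO : Offs P κ')
    {v a : (P → Option ι) → ℝ} {Y : ℕ}
    (h : CoefK κ P a Y) (hv : ∀ σ, |v σ| ≤ a σ) (hR : ∀ p ∈ P, 6 * Fintype.card ι + 5 ≤ p) (ε : ℝ)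
    (hε0 : 0 ≤ ε)
    (hε : ∀ σ, a σ ≠ 0 → (∏ p : P, if σ p = none then
        1 + (Fintype.card ι : ℝ) / (((p : ℕ) : ℝ) - 1) ^ 2
        else 1 + (2 * (Fintype.card ι : ℝ) + 2) / (((p : ℕ) : ℝ) - 1)) ≤ 1 + ε)
    (S : Finset ℕ) (θ : ℕ → ℝ) (hθ : ∀ x ∈ S, 0 ≤ θ x) (hS : ∀ x ∈ S, ∀ p ∈ P, ¬ p ∣ x) :
    mass P v * ∑ x ∈ S, θ x - mass P a * (ε * ∑ x ∈ S, θ x +
      (1 + ε) * ∑ T ∈ (P.powerset.erase ∅).filter (fun T => ∏ p ∈ T, p ≤ Y ^ 2),
        (∏ p ∈ T, 20 * κ ^ 2 * (Fintype.card ι : ℝ) / p) * Zs S θ (∏ p ∈ T, p)) ≤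
      ∑ x ∈ S, θ x * (∑ σ : P → Option ι, v σ * PhiZ P κ' σ x) ^ 2 := by
  classical
  set Θ : ℝ := ∑ x ∈ S, θ x with hΘ
  have hΘ0 : 0 ≤ Θ := Finset.sum_nonneg hθ
  set M : ℝ := mass P a with hM
  have h3 : ∀ p ∈ P, 3 ≤ p := fun p hp => by
    have := hR p hp
    omega
  set W : (P → Option ι) → (P → Option ι) → ℝ := fun σ τ =>
    ∑ x ∈ S, θ x * ∏ p ∈ P, WSumF κ' σ τ p x with hW
  have hsq : ∑ x ∈ S, θ x * (∑ σ : P → Option ι, v σ * PhiZ P κ' σ x) ^ 2 =
      ∑ σ : P → Option ι, ∑ τ : P → Option ι, v σ * v τ * W σ τ := by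
    have h1 : ∀ x, θ x * (∑ σ : P → Option ι, v σ * PhiZ P κ' σ x) ^ 2 =
        ∑ σ : P → Option ι, ∑ τ : P → Option ι,
          v σ * v τ * (θ x * ∏ p ∈ P, WSumF κ' σ τ p x) := by
      intro x
      rw [sq, Finset.sum_mul_sum, Finset.mul_sum]
      refine Finset.sum_congr rfl fun σ _ => ?_
      rw [Finset.mul_sum]
      refine Finset.sum_congr rfl fun τ _ => ?_
      rw [← WSum_Phi]
      ring
    rw [Finset.sum_congr rfl fun x _ => h1 x, Finset.sum_comm]
    refine Finset.sum_congr rfl fun σ _ => ?_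
    rw [Finset.sum_comm]
    refine Finset.sum_congr rfl fun τ _ => ?_
    rw [hW, ← Finset.mul_sum]
  set K : (P → Option ι) → (P → Option ι) → ℝ := fun σ τ =>
    ∏ p : P, kz (p : ℕ) (σ p) (τ p) with hK
  set G : Finset ℕ → ℝ := fun T => ∑ σ : P → Option ι, ∑ τ : P → Option ι,
    a σ * a τ * WSumE T σ τ with hG
  have hmain := gramK_lower P hO.prime h3 v a hv ε hε
  have hmain' : (mass P v - ε * M) * Θ ≤ (∑ σ : P → Option ι, ∑ τ : P → Option ι,
      v σ * v τ * K σ τ) * Θ := mul_le_mul_of_nonneg_right hmain hΘ0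
  have hdiff : |∑ σ : P → Option ι, ∑ τ : P → Option ι, v σ * v τ * W σ τ -
      (∑ σ : P → Option ι, ∑ τ : P → Option ι, v σ * v τ * K σ τ) * Θ| ≤
      ∑ T ∈ P.powerset.erase ∅, G T * Zs S θ (∏ p ∈ T, p) := by
    have e1 : ∑ σ : P → Option ι, ∑ τ : P → Option ι, v σ * v τ * W σ τ -
        (∑ σ : P → Option ι, ∑ τ : P → Option ι, v σ * v τ * K σ τ) * Θ =
        ∑ σ : P → Option ι, ∑ τ : P → Option ι, v σ * v τ * (W σ τ - K σ τ * Θ) := by
      rw [Finset.sum_mul, ← Finset.sum_sub_distrib]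
      refine Finset.sum_congr rfl fun σ _ => ?_
      rw [Finset.sum_mul, ← Finset.sum_sub_distrib]
      refine Finset.sum_congr rfl fun τ _ => ?_
      ring
    rw [e1]
    calc |∑ σ : P → Option ι, ∑ τ : P → Option ι, v σ * v τ * (W σ τ - K σ τ * Θ)|
        ≤ ∑ σ : P → Option ι, ∑ τ : P → Option ι, |v σ * v τ * (W σ τ - K σ τ * Θ)| :=
          (Finset.abs_sum_le_sum_abs _ _).trans
            (Finset.sum_le_sum fun σ _ => Finset.abs_sum_le_sum_abs _ _)
      _ ≤ ∑ σ : P → Option ι, ∑ τ : P → Option ι, ∑ T ∈ P.powerset.erase ∅,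
          a σ * a τ * WSumE T σ τ * Zs S θ (∏ p ∈ T, p) := by
          refine Finset.sum_le_sum fun σ _ => Finset.sum_le_sum fun τ _ => ?_
          rw [abs_mul, abs_mul]
          refine (mul_le_mul (mul_le_mul (hv σ) (hv τ) (abs_nonneg _) (h.nonneg σ))
            (WSum_exp hO S θ hS σ τ) (abs_nonneg _)
            (mul_nonneg (h.nonneg σ) (h.nonneg τ))).trans (le_of_eq ?_)
          rw [Finset.mul_sum]
          refine Finset.sum_congr rfl fun T _ => ?_
          ring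
      _ = ∑ T ∈ P.powerset.erase ∅, G T * Zs S θ (∏ p ∈ T, p) := by
          rw [Finset.sum_congr rfl fun σ _ => Finset.sum_comm, Finset.sum_comm]
          refine Finset.sum_congr rfl fun T _ => ?_
          rw [hG, Finset.sum_mul]
          refine Finset.sum_congr rfl fun σ _ => ?_
          rw [Finset.sum_mul]
  have habs := gramZ_abs P hO.prime h3 a h.nonneg ε hε
  have hG1 : ∀ T ⊆ P, G T ≤ (∏ p ∈ T, 20 * κ ^ 2 * (Fintype.card ι : ℝ) / p) * ((1 + ε) * M) := by
    intro T hT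
    refine (coeffK hκ h hR T hT).trans (mul_le_mul_of_nonneg_left habs ?_)
    exact Finset.prod_nonneg fun p _ => by positivity
  have hG2 : ∀ T ⊆ P, Y ^ 2 < ∏ p ∈ T, p → G T = 0 := by
    intro T hT hY
    exact Finset.sum_eq_zero fun σ _ => Finset.sum_eq_zero fun τ _ => coeffK_zero h T hT hY σ τ
  have herr : ∑ T ∈ P.powerset.erase ∅, G T * Zs S θ (∏ p ∈ T, p) ≤
      M * ((1 + ε) * ∑ T ∈ (P.powerset.erase ∅).filter (fun T => ∏ p ∈ T, p ≤ Y ^ 2),
        (∏ p ∈ T, 20 * κ ^ 2 * (Fintype.card ι : ℝ) / p) * Zs S θ (∏ p ∈ T, p)) := by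
    rw [← Finset.sum_filter_add_sum_filter_not (P.powerset.erase ∅)
      (fun T => ∏ p ∈ T, p ≤ Y ^ 2)]
    have z1 : ∑ T ∈ (P.powerset.erase ∅).filter (fun T => ¬ ∏ p ∈ T, p ≤ Y ^ 2),
        G T * Zs S θ (∏ p ∈ T, p) = 0 := by
      refine Finset.sum_eq_zero fun T hT => ?_
      obtain ⟨h1, h2⟩ := Finset.mem_filter.1 hT
      rw [hG2 T (Finset.mem_powerset.1 (Finset.mem_erase.1 h1).2) (not_le.1 h2), zero_mul]
    rw [z1, add_zero, Finset.mul_sum, Finset.mul_sum]
    refine Finset.sum_le_sum fun T hT => ?_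
    obtain ⟨h1, _⟩ := Finset.mem_filter.1 hT
    refine (mul_le_mul_of_nonneg_right (hG1 T (Finset.mem_powerset.1 (Finset.mem_erase.1 h1).2))
      (WSum_Zs_nonneg S θ _)).trans (le_of_eq ?_)
    ring
  rw [hsq]
  have h4 := (abs_le.1 hdiff).1
  have h5 : M * (ε * Θ + (1 + ε) *
      ∑ T ∈ (P.powerset.erase ∅).filter (fun T => ∏ p ∈ T, p ≤ Y ^ 2),
        (∏ p ∈ T, 20 * κ ^ 2 * (Fintype.card ι : ℝ) / p) * Zs S θ (∏ p ∈ T, p)) =
      ε * M * Θ + M * ((1 + ε) *
        ∑ T ∈ (P.powerset.erase ∅).filter (fun T => ∏ p ∈ T, p ≤ Y ^ 2),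
        (∏ p ∈ T, 20 * κ ^ 2 * (Fintype.card ι : ℝ) / p) * Zs S θ (∏ p ∈ T, p)) := by ring
  rw [h5]
  linarith


end Pool.Agent.H.MP_711652_nt.CG
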