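import Pool.Agent.H.MP_711652_nt.CG.GPc
import Pool.Agent.H.MP_711652_nt.CG.KWs
import Pool.Agent.H.MP_711652_nt.CH.PsiOne

/-! # MP_711652, CG: the lower bound at the primes -/

set_option autoImplicit false

namespace Pool.Agent.H.MP_711652_nt.CG

open Finset Pool.Agent.H.MP_711652_nt.LG Pool.Agent.H.MP_711652_nt.G2 Pool.Agent.H.MP_711652_nt.CH

variable {Cr : ℝ} {X n : ℕ} {e : ℝ}

private theorem GPd_sum_sq (n0 : ℕ) (hn0 : 3 ≤ n0) (k : ℕ) :
    ∑ n ∈ Ico n0 (n0 + k), 1 / ((n : ℝ) - 1) ^ 2 ≤ 1 / ((n0 : ℝ) - 2) - 1 / ((n0 + k : ℝ) - 2) := by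
  have h0 : (3 : ℝ) ≤ n0 := by exact_mod_cast hn0
  induction k with
  | zero => simp
  | succ k ih =>
    rw [← add_assoc, Finset.sum_Ico_succ_top (by omega)]
    have hk : (0 : ℝ) ≤ k := Nat.cast_nonneg k
    have h1 : 1 / (((n0 + k : ℕ) : ℝ) - 1) ^ 2 ≤
        1 / ((n0 + k : ℝ) - 2) - 1 / ((n0 + (k + 1 : ℕ) : ℝ) - 2) := by
      push_cast
      have hx : (0 : ℝ) < (n0 : ℝ) + k - 2 := by linarith
      have hy : (0 : ℝ) < (n0 : ℝ) + k - 1 := by linarith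
      have e : 1 / ((n0 : ℝ) + k - 2) - 1 / ((n0 : ℝ) + (k + 1) - 2) =
          1 / (((n0 : ℝ) + k - 2) * ((n0 : ℝ) + k - 1)) := by
        have hz : (n0 : ℝ) + (k + 1) - 2 = (n0 : ℝ) + k - 1 := by ring
        rw [hz, div_sub_div _ _ hx.ne' hy.ne']
        congr 1
        ring
      rw [e]
      apply one_div_le_one_div_of_le (mul_pos hx hy)
      nlinarith
    linarith

private theorem GPd_sum_sq_le {P : Finset ℕ} {D : ℝ} (hD : 100 ≤ D)
    (hP : ∀ p ∈ P, D ≤ (p : ℝ)) : ∑ p ∈ P, 1 / ((p : ℝ) - 1) ^ 2 ≤ 1 / (D - 2) := by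
  set n0 : ℕ := ⌈D⌉₊ with hn0
  have h1 : D ≤ n0 := Nat.le_ceil D
  have h3 : 3 ≤ n0 := by
    have : (3 : ℝ) ≤ n0 := by linarith
    exact_mod_cast this
  have hsub : P ⊆ Ico n0 (n0 + (P.sup id + 1)) := by
    intro p hp
    rw [Finset.mem_Ico]
    refine ⟨Nat.ceil_le.2 (hP p hp), ?_⟩
    have : p ≤ P.sup id := Finset.le_sup (f := id) hp
    omega
  refine (Finset.sum_le_sum_of_subset_of_nonneg hsub fun n _ _ => by positivity).trans ?_
  refine (GPd_sum_sq n0 h3 _).trans ?_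
  have h4 : 0 ≤ 1 / (((n0 : ℝ) + ((P.sup id + 1 : ℕ) : ℝ)) - 2) := by
    apply div_nonneg zero_le_one
    have : (0 : ℝ) ≤ ((P.sup id + 1 : ℕ) : ℝ) := Nat.cast_nonneg _
    linarith
  have h5 : 1 / ((n0 : ℝ) - 2) ≤ 1 / (D - 2) :=
    one_div_le_one_div_of_le (by linarith) (by linarith)
  linarith

private theorem GPd_num (h : GF Cr X n e) (T : Finset ℕ) (hR : T.card ≤ dR 33 X n C3)
    (σ : CH.PP X → Option T) (hσ : DD (CH.PP X) σ ≤ Yt X n e) :
    (∏ p : CH.PP X, if σ p = none then 1 + (Fintype.card T : ℝ) / (((p : ℕ) : ℝ) - 1) ^ 2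
      else 1 + (2 * (Fintype.card T : ℝ) + 2) / (((p : ℕ) : ℝ) - 1)) ≤ 1 + 1 / 20000 := by
  classical
  obtain ⟨D, hDdef⟩ : ∃ D : ℝ, D = (zz X : ℝ) := ⟨_, rfl⟩
  obtain ⟨r, hr⟩ : ∃ r : ℝ, r = (Fintype.card T : ℝ) := ⟨_, rfl⟩
  obtain ⟨R, hRdef⟩ : ∃ R : ℕ, R = dR 33 X n C3 := ⟨_, rfl⟩
  have hD100 : 100 ≤ D := by
    rw [hDdef]
    exact h.num.hD
  have hD : 0 < D := by linarith
  have hge : ∀ p ∈ CH.PP X, D ≤ (p : ℝ) := by
    intro p hp
    rw [hDdef]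
    exact h.num.ge p hp
  have hsmall := h.num.small
  have hκ := h.num.κ1
  rw [← hDdef, ← hRdef, div_le_iff₀ hD] at hsmall
  have hr0 : 0 ≤ r := by rw [hr]; exact Nat.cast_nonneg _
  have hrR : r ≤ R := by
    rw [hr, Fintype.card_coe, hRdef]
    exact_mod_cast hR
  have hR0 : (0 : ℝ) ≤ R := Nat.cast_nonneg R
  have hK0 : (0 : ℝ) ≤ kk X := Nat.cast_nonneg _
  push_cast at hsmall
  have hκ2 : 1 ≤ (4 * Real.log X) ^ 2 := one_le_pow₀ hκ
  have hB : 10000 * (((kk X : ℝ) + 1) * (R + 2) + (R + 2) ^ 2) ≤ (1 / 20000) ^ 2 * D := by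
    refine le_trans ?_ hsmall
    have h1 : 0 ≤ 10000 * (((kk X : ℝ) + 1) * (R + 2) + (R + 2) ^ 2) := by positivity
    calc 10000 * (((kk X : ℝ) + 1) * (R + 2) + (R + 2) ^ 2)
        = 1 * (10000 * (((kk X : ℝ) + 1) * (R + 2) + (R + 2) ^ 2)) := by ring
      _ ≤ (4 * Real.log X) ^ 2 * (10000 * (((kk X : ℝ) + 1) * (R + 2) + (R + 2) ^ 2)) :=
          mul_le_mul_of_nonneg_right hκ2 h1
      _ = _ := by ring
  rw [← hr]
  have hcard : ((abs_supp (CH.PP X) σ).card : ℝ) ≤ kk X := by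
    have h0 : 1 ≤ YY X := h.xf.big.hY
    have h1 : DD (CH.PP X) σ ≤ Yt X n e * (YY X * YY X) := by
      refine hσ.trans (Nat.le_mul_of_pos_right _ ?_)
      exact Nat.mul_pos h0 h0
    exact_mod_cast h.num.level _ (abs_supp_sub (CH.PP X) σ) (by rw [abs_DD_supp]; exact h1)
  obtain ⟨a, ha⟩ : ∃ a : ℝ, a = (2 * r + 2) / (D - 1) := ⟨_, rfl⟩
  have ha0 : 0 ≤ a := by
    rw [ha]
    exact div_nonneg (by linarith) (by linarith)
  have hloc : ∀ p : CH.PP X, (if σ p = none then 1 + r / (((p : ℕ) : ℝ) - 1) ^ 2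
      else 1 + (2 * r + 2) / (((p : ℕ) : ℝ) - 1)) ≤ (if σ p = none then (1 : ℝ) else
      Real.exp a) * Real.exp (r * (1 / (((p : ℕ) : ℝ) - 1) ^ 2)) := by
    intro p
    have hpp := hge p p.2
    have hpos : 0 < ((p : ℕ) : ℝ) - 1 := by linarith
    by_cases hp : σ p = none
    · rw [if_pos hp, if_pos hp, one_mul, mul_one_div, add_comm]
      exact Real.add_one_le_exp _
    · rw [if_neg hp, if_neg hp]
      have h3 : 1 + (2 * r + 2) / (((p : ℕ) : ℝ) - 1) ≤ Real.exp a := by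
        refine le_trans ?_ (Real.add_one_le_exp _)
        have : (2 * r + 2) / (((p : ℕ) : ℝ) - 1) ≤ a := by
          rw [ha]
          exact div_le_div_of_nonneg_left (by linarith) (by linarith) (by linarith)
        linarith
      exact h3.trans (le_mul_of_one_le_right (Real.exp_pos _).le
        (Real.one_le_exp (by positivity)))
  have hnn : ∀ p : CH.PP X, 0 ≤ (if σ p = none then 1 + r / (((p : ℕ) : ℝ) - 1) ^ 2
      else 1 + (2 * r + 2) / (((p : ℕ) : ℝ) - 1)) := by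
    intro p
    have hpp := hge p p.2
    have hpos : 0 < ((p : ℕ) : ℝ) - 1 := by linarith
    split_ifs <;> positivity
  refine (Finset.prod_le_prod (fun p _ => hnn p) fun p _ => hloc p).trans ?_
  rw [Finset.prod_mul_distrib]
  have h4 : (∏ p : CH.PP X, if σ p = none then (1 : ℝ) else Real.exp a) ≤
      Real.exp (kk X * a) := by
    have h5 := abs_prod_supp (CH.PP X) σ (fun _ => Real.exp a)
    rw [← h5, Finset.prod_const, ← Real.exp_nat_mul]
    apply Real.exp_le_exp.2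
    exact mul_le_mul_of_nonneg_right hcard ha0
  have h6 : (∏ p : CH.PP X, Real.exp (r * (1 / (((p : ℕ) : ℝ) - 1) ^ 2))) ≤
      Real.exp (r * (1 / (D - 2))) := by
    rw [← Real.exp_sum, ← Finset.mul_sum]
    apply Real.exp_le_exp.2
    refine mul_le_mul_of_nonneg_left ?_ hr0
    have h7 := GPd_sum_sq_le hD100 hge
    rwa [← Finset.sum_coe_sort (CH.PP X) (fun p => 1 / ((p : ℝ) - 1) ^ 2)] at h7
  refine (mul_le_mul h4 h6 (Finset.prod_nonneg fun p _ => (Real.exp_pos _).le)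
    (Real.exp_pos _).le).trans ?_
  rw [← Real.exp_add]
  have h8 : (kk X : ℝ) * a ≤ (kk X * (2 * r + 2)) / (D - 2) := by
    rw [ha, ← mul_div_assoc]
    exact div_le_div_of_nonneg_left (by positivity) (by linarith) (by linarith)
  have h9 : (kk X * (2 * r + 2) : ℝ) / (D - 2) + r * (1 / (D - 2)) =
      (kk X * (2 * r + 2) + r) / (D - 2) := by
    ring
  have h10 : (kk X * (2 * r + 2) + r) / (D - 2) ≤ 1 / 40000 := by
    rw [div_le_iff₀ (by linarith)]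
    have h11 : (kk X : ℝ) * r ≤ kk X * R := mul_le_mul_of_nonneg_left hrR hK0
    nlinarith [mul_nonneg hK0 hR0, sq_nonneg (R : ℝ)]
  have h12 : (kk X : ℝ) * a + r * (1 / (D - 2)) ≤ 1 / 40000 := by linarith
  refine (Real.exp_le_exp.2 h12).trans ?_
  have h13 := Real.exp_bound_div_one_sub_of_interval (x := 1 / 40000) (by norm_num) (by norm_num)
  refine h13.trans ?_
  norm_num

/-- The last inequality. -/
private theorem GPd_fin {S N mv ma Θ E B s : ℝ} (hN : 0 < N) (hmv : 0 ≤ mv) (hma : ma ≤ 2 * mv)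
    (hma2 : 1 / 20000 * ma ≤ 1 / 1000 * mv)
    (hS : S ≤ (1 + 1 / 400) * (N * mv)) (hS0 : 0 ≤ S) (hΘ : 0 ≤ Θ) (hE : 0 ≤ E)
    (hB : B ≤ 1 / 8 * E) (hB0 : 0 ≤ B) (hs0 : 0 ≤ s)
    (hw : mv * Θ - ma * (1 / 20000 * Θ + (1 + 1 / 20000) * B) ≤ s) :
    S / N * ((1 - 1 / 50) * Θ - E) ≤ s := by
  by_cases hneg : (1 - 1 / 50) * Θ - E ≤ 0
  · exact (mul_nonpos_of_nonneg_of_nonpos (by positivity) hneg).trans hs0
  · have hpos : 0 ≤ (1 - 1 / 50) * Θ - E := (not_le.1 hneg).le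
    have h1 : S / N ≤ (1 + 1 / 400) * mv := by
      rw [div_le_iff₀ hN]
      linarith
    refine (mul_le_mul_of_nonneg_right h1 hpos).trans (le_trans ?_ hw)
    have h2 : 1 / 20000 * ma * Θ ≤ 1 / 1000 * mv * Θ := mul_le_mul_of_nonneg_right hma2 hΘ
    have h3 : ma * B ≤ 2 * mv * B := mul_le_mul_of_nonneg_right hma hB0
    have h4 : 2 * mv * B ≤ 2 * mv * (1 / 8 * E) := mul_le_mul_of_nonneg_left hB (by positivity)
    have h5 : 0 ≤ mv * Θ := mul_nonneg hmv hΘ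
    have h6 : 0 ≤ mv * E := mul_nonneg hmv hE
    nlinarith

private theorem GPd_mass0 {P : Finset ℕ} (hP : ∀ p ∈ P, p.Prime) {T : Finset ℕ}
    (v : (P → Option T) → ℝ) : 0 ≤ mass P v := by
  unfold mass
  refine Finset.sum_nonneg fun σ _ => mul_nonneg (sq_nonneg _) ?_
  unfold LG.ph
  refine Finset.prod_nonneg fun p _ => ?_
  split_ifs
  · exact zero_le_one
  · have : (1 : ℝ) ≤ ((p : ℕ) : ℝ) := by exact_mod_cast (hP p p.2).one_le
    linarith

/-- PROOF. As `CH.psi_prime` (`CH/PsiPr.lean`): `coef_g`, `mass_g`, `wsumK` with `κ = 4 log X` (`h.num.κ1`), `ε = 1/20000` (`hε` from `h.num` as in `psiPr_num`; a nonzero `a σ` has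
`DD σ ≤ Yt ≤ Yt * (YY * YY)`), `RbvC` with `Q = Yt ^ 2` (`h.rbv`), `lam = 20 (4 log X)^2 card T` (`h.lam`), `h.err`; `mass a ≤ 2 mass v`, and `S2 ≤ (1 + 1/400) N mass v`
(if `(1 - 1/50) ∑ thn < X/(W L^2)` the left side is negative). -/
theorem prime_g (h : GF Cr X n e) (hC : RbvC Cr) (ν H : ℕ) (hν : ν < WW X) (hH : H < zz X)
    (T : Finset ℕ) (hT : ∀ t ∈ T, t ≤ H) (hR : T.card ≤ dR 33 X n C3) (t : ℕ) (ht1 : 1 ≤ t)
    (ht : t ≤ H) (htT : t ∉ T) (hco : Nat.Coprime (ν + t) (WW X)) :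
    S2 X (FG X n e ν T) / NN X * ((1 - 1 / 50) * ∑ m ∈ range (NN X), thn (nn X ν m + t) -
      (X : ℝ) / WW X / Real.log X ^ 2) ≤
      ∑ m ∈ range (NN X), FG X n e ν T m ^ 2 * thn (nn X ν m + t) := by
  classical
  obtain ⟨hCr, hC⟩ := hC
  have hW : 0 < WW X := primorial_pos _
  have hN := h.xf.N0
  have hzW := h.xf.zW
  have hz100 := h.xf.z100
  have hX10 := h.xf.X3
  obtain ⟨v, a, hv, ha, hva, hm1, ht1'⟩ := coef_g h ν H hH T hT hR
  obtain ⟨hg1, hg2, hg3, hg4⟩ := mass_g h ν H hH T hT hR v a hv ha hva hm1 ht1'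
  -- the primes
  have hPz : ∀ p ∈ CH.PP X, zz X < p := G2.Pbig_lt
  have hPp : ∀ p ∈ CH.PP X, p.Prime := G2.Pbig_prime
  have hsmallint : ∀ p ∈ CH.PP X, ∀ d : ℤ, d ≠ 0 → |d| ≤ H → ¬ (p : ℤ) ∣ d := by
    intro p hp d hd0 hdH hdvd
    have h1 := Int.le_of_dvd (abs_pos.2 hd0) ((dvd_abs _ _).2 hdvd)
    have h2 := hPz p hp
    omega
  have hO : Offs (CH.PP X) (fun i : T => ((i : ℕ) : ℤ) - t) := by
    refine ⟨hPp, fun p hp i => ?_, fun p hp i j hij => ?_⟩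
    · have h1 := hT i i.2
      have h2 : (i : ℕ) ≠ t := fun h3 => htT (h3 ▸ i.2)
      refine hsmallint p hp _ ?_ ?_
      · omega
      · rw [abs_le]
        omega
    · have h1 := hT i i.2
      have h2 := hT j j.2
      have h3 : (i : ℕ) ≠ j := fun h4 => hij (Subtype.ext h4)
      have h5 : ((i : ℕ) : ℤ) - t - (((j : ℕ) : ℤ) - t) = ((i : ℕ) : ℤ) - (j : ℕ) := by ring
      rw [h5]
      refine hsmallint p hp _ ?_ ?_
      · omega
      · rw [abs_le]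
        omega
  -- sizes
  obtain ⟨R, hRdef⟩ : ∃ R : ℕ, R = dR 33 X n C3 := ⟨_, rfl⟩
  have hlamh := h.lam
  rw [← hRdef] at hlamh
  have hL1 := h.xf.L1
  have hL2 : 1 ≤ Real.log X ^ 2 := one_le_pow₀ hL1
  have hcardR : (Fintype.card T : ℝ) ≤ R := by
    rw [Fintype.card_coe, hRdef]
    exact_mod_cast hR
  have hcardN : Fintype.card T ≤ R := by
    rw [Fintype.card_coe, hRdef]
    exact hR
  have hcard0 : (0 : ℝ) ≤ Fintype.card T := Nat.cast_nonneg _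
  have hR0 : (0 : ℝ) ≤ R := Nat.cast_nonneg _
  have hlam : (20 * (4 * Real.log X) ^ 2 * (Fintype.card T : ℝ)) ^ 4 ≤ zz X := by
    refine (pow_le_pow_left₀ (by positivity) ?_ 4).trans hlamh
    have h1 : 20 * (4 * Real.log X) ^ 2 * (Fintype.card T : ℝ) =
        320 * Real.log X ^ 2 * (Fintype.card T : ℝ) := by ring
    rw [h1]
    exact mul_le_mul_of_nonneg_left hcardR (by positivity)
  have h20R : 20 * R ≤ zz X := by
    have h1 : ((20 * R) ^ 4 : ℕ) ≤ zz X := by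
      have h2 : (20 * (R : ℝ)) ^ 4 ≤ zz X := by
        refine (pow_le_pow_left₀ (by positivity) ?_ 4).trans hlamh
        refine mul_le_mul_of_nonneg_right ?_ hR0
        linarith
      exact_mod_cast h2
    exact (Nat.le_self_pow (by norm_num) _).trans h1
  have hR6 : ∀ p ∈ CH.PP X, 6 * Fintype.card T + 5 ≤ p := by
    intro p hp
    have h1 := hPz p hp
    omega
  obtain ⟨X₁, hX₁⟩ : ∃ X₁, X₁ = WW X * (X / WW X + 1) + ν + t - 1 := ⟨_, rfl⟩
  obtain ⟨X₂, hX₂⟩ : ∃ X₂, X₂ = WW X * (X / WW X + NN X) + ν + t := ⟨_, rfl⟩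
  have hXX₁ : X ≤ X₁ := by
    have h1 := Nat.lt_mul_div_succ X hW
    rw [hX₁]
    omega
  have hX₁₂ : X₁ ≤ X₂ := by
    have h1 : WW X * (X / WW X + 1) ≤ WW X * (X / WW X + NN X) := Nat.mul_le_mul_left _ (by omega)
    rw [hX₁, hX₂]
    omega
  have hX₂X : X₂ ≤ 3 * X := by
    have h1 : WW X * (X / WW X) ≤ X := Nat.mul_div_le _ _
    have h2 : WW X * (X / WW X + NN X) + 3 * WW X = 2 * (WW X * (X / WW X)) := by
      have h3 : NN X + 3 = X / WW X := by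
        unfold NN at hN ⊢
        omega
      calc WW X * (X / WW X + NN X) + 3 * WW X = WW X * (X / WW X + (NN X + 3)) := by ring
        _ = 2 * (WW X * (X / WW X)) := by rw [h3]; ring
    rw [hX₂]
    omega
  have hpS : ∀ x ∈ clp X₁ X₂ (WW X) (ν + t), x.Prime ∧ X < x := by
    intro x hx
    unfold clp at hx
    rw [mem_filter, mem_filter, mem_Ioc] at hx
    exact ⟨hx.2, lt_of_le_of_lt hXX₁ hx.1.1.1⟩
  have hθ : ∀ x : ℕ, 0 ≤ thn x := by
    intro x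
    unfold thn
    split_ifs
    · exact Real.log_natCast_nonneg x
    · exact le_refl _
  have hS : ∀ x ∈ clp X₁ X₂ (WW X) (ν + t), ∀ p ∈ CH.PP X, ¬ p ∣ x := by
    intro x hx p hp hdvd
    obtain ⟨h1, h2⟩ := hpS x hx
    have h3 := (Nat.prime_dvd_prime_iff_eq (hPp p hp) h1).1 hdvd
    have h4 : p ≤ YY X := G2.Pbig_le p hp
    have h5 := h.xf.YX
    omega
  have hw := wsumK h.num.κ1 hO ha hva hR6 (1 / 20000) (by norm_num)
    (fun σ hσ => GPd_num h T hR σ (ha.level σ hσ)) (clp X₁ X₂ (WW X) (ν + t)) thn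
    (fun x _ => hθ x) hS
  have hsum1 : ∑ x ∈ clp X₁ X₂ (WW X) (ν + t), thn x =
      ∑ m ∈ range (NN X), thn (nn X ν m + t) := by
    have h1 := sum_clp h.xf ν t ht1 (fun _ => 1)
    simp only [mul_one] at h1
    rw [hX₁, hX₂]
    exact h1
  have hsum2 : ∑ x ∈ clp X₁ X₂ (WW X) (ν + t), thn x * (∑ σ : CH.PP X → Option T, v σ *
      PhiZ (CH.PP X) (fun i : T => ((i : ℕ) : ℤ) - t) σ x) ^ 2 =
      ∑ m ∈ range (NN X), FG X n e ν T m ^ 2 * thn (nn X ν m + t) := by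
    have h1 := sum_clp h.xf ν t ht1 (fun x => (∑ σ : CH.PP X → Option T, v σ *
      PhiZ (CH.PP X) (fun i : T => ((i : ℕ) : ℤ) - t) σ x) ^ 2)
    rw [hX₁, hX₂, h1]
    refine Finset.sum_congr rfl fun m _ => ?_
    rw [mul_comm]
    congr 2
    rw [hv m]
    exact Finset.sum_congr rfl fun σ _ => by rw [PhiZ_eq]
  rw [hsum1, hsum2] at hw
  -- the error
  have hYt1 : 1 ≤ Yt X n e := by
    obtain ⟨h', Hc⟩ := h.ctx
    unfold Yt
    have h1 : 1 ≤ dY X := by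
      have := Hc.Y.2.2.2.2
      omega
    have h2 : 1 ≤ dz X n e := by
      have := Hc.z3
      omega
    exact Nat.mul_pos h1 (Nat.pow_pos (Nat.pow_pos h2))
  have hrbv := hC X X₁ X₂ (WW X) (ν + t) (Yt X n e ^ 2) (CH.PP X) (zz X)
    (20 * (4 * Real.log X) ^ 2 * (Fintype.card T : ℝ)) (by omega) hXX₁ hX₁₂ hX₂X hW hco
    (Nat.one_le_pow _ _ (by omega)) h.rbv (by exact_mod_cast (by omega : 2 ≤ zz X))
    (fun p hp => ⟨hPp p hp, by exact_mod_cast (hPz p hp).le, fun hd => by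
      unfold WW at hd
      have h1 := (hPp p hp).dvd_primorial_iff.1 hd
      have h2 : ((p : ℕ) : ℝ) ≤ Real.log X / 100 := by
        refine le_trans (by exact_mod_cast h1) (Nat.floor_le ?_)
        linarith
      have h3 := h.xf.zD
      have h4 : ((zz X : ℕ) : ℝ) < p := by exact_mod_cast hPz p hp
      linarith⟩) (by positivity) hlam
  have hXW : (0 : ℝ) ≤ (X : ℝ) / WW X := by positivity
  have herr : Cr * ((X : ℝ) / WW X) * (1 + Real.log X) ^ 5 *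
      (zz X : ℝ) ^ (-(3 / 4 : ℝ)) ≤ 1 / 8 * ((X : ℝ) / WW X / Real.log X ^ 2) := by
    have h1 := mul_le_mul_of_nonneg_left h.err hXW
    have h2 : (X : ℝ) / WW X * (1 / (2 * Real.log X ^ 2)) =
        4 * (1 / 8 * ((X : ℝ) / WW X / Real.log X ^ 2)) := by
      field_simp
      norm_num
    rw [h2] at h1
    have h3 : (X : ℝ) / WW X * (4 * Cr * (1 + Real.log X) ^ 5 * (zz X : ℝ) ^ (-(3 / 4 : ℝ))) =
        4 * (Cr * ((X : ℝ) / WW X) * (1 + Real.log X) ^ 5 * (zz X : ℝ) ^ (-(3 / 4 : ℝ))) := by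
      ring
    rw [h3] at h1
    linarith
  have hB0 : 0 ≤ ∑ U ∈ ((CH.PP X).powerset.erase ∅).filter (fun U => ∏ p ∈ U, p ≤ Yt X n e ^ 2),
      (∏ p ∈ U, 20 * (4 * Real.log X) ^ 2 * (Fintype.card T : ℝ) / p) *
        Zs (clp X₁ X₂ (WW X) (ν + t)) thn (∏ p ∈ U, p) := by
    refine Finset.sum_nonneg fun U _ => mul_nonneg (Finset.prod_nonneg fun p _ => by positivity) ?_
    exact WSum_Zs_nonneg _ _ _
  have hNR : (0 : ℝ) < NN X := by exact_mod_cast (by omega : 0 < NN X)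
  exact GPd_fin hNR (GPd_mass0 hPp v) hm1 hg2 hg3 (Finset.sum_nonneg fun m _ => sq_nonneg _)
    (Finset.sum_nonneg fun m _ => hθ _) (by positivity) (hrbv.trans herr) hB0
    (Finset.sum_nonneg fun m _ => mul_nonneg (sq_nonneg _) (hθ _)) hw

/-- All together. -/
theorem psiOK_g (h : GF Cr X n e) (hC : RbvC Cr) (ν H : ℕ) (hν : ν < WW X) (hH : H < zz X)
    (T : Finset ℕ) (hT : ∀ t ∈ T, t ≤ H) (hR : T.card ≤ dR 33 X n C3) :
    PsiOK (Real.exp (-e)) (dC4 n e C3) X ν T H (FG X n e ν T) where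
  low := (low_g h ν H hH T hT hR).2
  four := four_g h ν H hν hH T hT hR
  bad := fun S hS hb => bad_g h ν H hH T hT hR S hS hb
  one := fun t ht htT => one_g h ν H hH T hT hR t ht htT
  two := fun t ht t' ht' htT htT' hne => two_g h ν H hH T hT hR t t' ht ht' htT htT' hne
  pr := fun t ht1 ht htT hco => prime_g h hC ν H hν hH T hT hR t ht1 ht htT hco

end Pool.Agent.H.MP_711652_nt.CG
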