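import Pool.Agent.H.MP_711652_nt.CG.GMa
import Pool.Agent.H.MP_711652_nt.CG.GMe
import Pool.Agent.H.MP_711652_nt.CG.GNb
import Pool.Agent.H.MP_711652_nt.CG.GOne
import Pool.Agent.H.MP_711652_nt.CG.GPd
import Pool.Agent.H.MP_711652_nt.CH.LayP
import Pool.Agent.H.MP_711652_nt.CH.Main

/-! # MP_711652, CG: the number of points with a chain of large gaps -/

set_option autoImplicit false

namespace Pool.Agent.H.MP_711652_nt.CG

open Finset Filter Pool.Agent.H.MP_711652_nt.LG Pool.Agent.H.MP_711652_nt.G2 Pool.Agent.H.MP_711652_nt.CH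

private theorem GMc_NN {X : ℕ} (hX : 1 ≤ X) (hW : 1000 * (WW X : ℝ) ≤ X) :
    (X : ℝ) / 2 ≤ WW X * NN X := by
  have hW0 : 0 < WW X := primorial_pos _
  have hWR : (0 : ℝ) < WW X := by exact_mod_cast hW0
  have h1 : (X : ℝ) < WW X * (((X / WW X : ℕ) : ℝ) + 1) := by
    exact_mod_cast Nat.lt_mul_div_succ X hW0
  have h2 : ((X / WW X : ℕ) : ℝ) ≤ NN X + 3 := by
    have h3 : X / WW X ≤ NN X + 3 := by
      unfold NN
      omega
    exact_mod_cast h3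
  have h4 : (WW X : ℝ) * (((X / WW X : ℕ) : ℝ) + 1) ≤ WW X * (NN X + 3 + 1) :=
    mul_le_mul_of_nonneg_left (by linarith) hWR.le
  have hX0 : (0 : ℝ) ≤ X := Nat.cast_nonneg X
  have h5 : (WW X : ℝ) * (NN X + 3 + 1) = WW X * NN X + 4 * WW X := by ring
  rw [h5] at h4
  linarith

open Classical in
private theorem GMc_use {Cr δ₂ C4 : ℝ} {X : ℕ} (h : XF Cr X 0) (hL : 10 ^ 9 ≤ Real.log X)
    (hX : ∀ x₁ x₂ : ℕ, (x₁ : ℝ) ≤ (1 + 1 / 100) * X →
      (2 - 1 / 100) * X ≤ (x₂ : ℝ) → (X : ℝ) / 2 ≤ ∑ x ∈ Ioc x₁ x₂, thn x)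
    (hW : 1000 * (WW X : ℝ) ≤ X) (K : ℕ) (hK : 1 ≤ K) (k s v : ℕ)
    (hH : k * (s + v) < zz X) (hs' : Real.log X ^ (2 / 3 : ℝ) ≤ s)
    (g5 : 4 * ((K : ℝ) + 1) ≤ k * s / Real.log X) (g6 : (k : ℝ) * s / Real.log X ≤ 4 * (K + 1) + 1)
    (g7 : ((K : ℝ) + 3) * (s / Real.log X) ≤ 1 / (20 * (2 * AA0) ^ 2))
    (hδ : 0 ≤ δ₂) (hC4 : 0 < C4)
    (h4 : 4 * (2 * AA0) ^ 2 * (4 * (K : ℝ) + 5) ^ 2 * δ₂ ≤ 1 / 10000) (G : ℕ → ℕ → ℝ)
    (hG : ∀ ν < WW X, PsiOK δ₂ C4 X ν (vs X ν k s v) (k * (s + v)) (G ν)) :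
    (1 / 2) ^ 4 / (16 * (4 * (2 * AA0) ^ 2 * (4 * (K : ℝ) + 5) ^ 2) ^ 2 * (4 * C4)) * (X / 2) ≤
      (((Ioc X (2 * X)).filter fun n => n + k * (s + v) ≤ 2 * X ∧
        ChainAt K v (k * (s + v)) n).card : ℝ) := by
  have hA1 : (1 : ℝ) ≤ 2 * AA0 := by
    unfold AA0
    have hE : (1 : ℝ) ≤ Real.exp 21 := Real.one_le_exp (by norm_num)
    nlinarith
  have hL0 : 0 < Real.log X := by linarith
  obtain ⟨f1, f2⟩ := fin_g (2 * AA0) hA1 K hK (Real.log X) k s δ₂ hL0 (Nat.cast_nonneg k)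
    (Nat.cast_nonneg s) g5 g6 g7 hδ h4
  have hCb0 : 0 < 4 * (2 * AA0) ^ 2 * (4 * (K : ℝ) + 5) ^ 2 := by positivity
  have h5 := good_many h hL k s v K hH hX hW G hG hs' hδ hC4 _ hCb0 f1 f2
  refine le_trans ?_ h5
  refine mul_le_mul_of_nonneg_left (GMc_NN (by have := h.X3; omega) hW) ?_
  positivity

private theorem GMc_zz {X H : ℕ} (hL : 10 ^ 9 ≤ Real.log X)
    (h : (H : ℝ) ≤ Real.log X * Real.log X) : H < zz X := by
  obtain ⟨L, hLdef⟩ : ∃ L : ℝ, L = Real.log X := ⟨_, rfl⟩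
  unfold zz
  rw [← hLdef] at hL h ⊢
  have hLpos : 0 < L := by linarith
  refine Nat.lt_of_succ_le (Nat.le_floor ?_)
  have h5 : L * L + 1 ≤ L ^ 3 := by nlinarith [mul_pos hLpos hLpos]
  have h6 : L ^ 3 ≤ L ^ 20 := pow_le_pow_right₀ (by linarith) (by norm_num)
  rw [Nat.succ_eq_add_one, Nat.cast_add, Nat.cast_one]
  linarith

open Classical in
/-- PROOF. `A = 2 AA0`; `par`, `par_exp`; `CH.lay` with `y = 2600 A^2 K^2 lam log X` gives `k`, `s`, `v` with `v ≥ y / (2600 A^2 K^2) = lam log X`, `H = k (s + v) ≤ y`; `vs_card` and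
`84 k v / log log X ≤ dc 33 C3 * n * log X / log log X`, so `card vs ≤ dR 33 X n C3` (`Nat.le_floor`); `gf_ev`, `psiOK_g`, `fin_g` with `δ₂ = exp (-e)`, `good_many` with
`G ν = FG X n e ν (vs X ν k s v)`, `C4 = dC4 n e C3`, `Cb = 4 A^2 (4 K + 5)^2`; `WW X * NN X ≥ X / 2` by `1000 WW X ≤ X`. -/
theorem uni_n : ∃ c C : ℝ, 0 < c ∧ 0 < C ∧ ∃ X₀ : ℕ, ∀ X : ℕ, X₀ ≤ X → ∀ K : ℕ, 1 ≤ K →
    ∀ lam : ℝ, 1 ≤ lam → K ^ 2 * lam ≤ c * Real.log (Real.log X) →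
    ∃ v H : ℕ, lam * Real.log X ≤ v ∧ (H : ℝ) ≤ C * (K ^ 2 * lam) * Real.log X ∧
      Real.exp (-Real.exp (C * (K ^ 2 * lam))) * X ≤
        (((Ioc X (2 * X)).filter fun n => n + H ≤ 2 * X ∧ ChainAt K v H n).card : ℝ) := by
  obtain ⟨Cr, hCr⟩ := rbv_rough
  have hE : (1 : ℝ) ≤ Real.exp 21 := Real.one_le_exp (by norm_num)
  have hA1 : (1 : ℝ) ≤ 2 * AA0 := by
    unfold AA0
    nlinarith
  have hA2 : (1 : ℝ) ≤ (2 * AA0) ^ 2 := one_le_pow₀ hA1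
  obtain ⟨L₁, hlay⟩ := lay (2 * AA0) hA1
  obtain ⟨X₁, hth⟩ := theta_diff
  obtain ⟨C, hC⟩ : ∃ C : ℝ, C = 2600 * (2 * AA0) ^ 2 := ⟨_, rfl⟩
  have hC0 : 0 < C := by rw [hC]; positivity
  obtain ⟨c, N2, hc0, hc1, hN2, hpar⟩ := par (2 * AA0) hA1
  obtain ⟨C', hC'0, hpexp⟩ := par_exp (2 * AA0) N2 hA1 hN2
  have hC3 : 0 < C3 := by unfold C3; positivity
  have hloglog : ∀ᶠ X : ℕ in atTop, C * Real.log (Real.log X) ≤ Real.log X := by
    have h1 := (Real.isLittleO_log_id_atTop).bound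
      (show (0 : ℝ) < 1 / C by positivity)
    filter_upwards [num_log_tendsto.eventually h1, num_ev_log 1] with X h2 h3
    simp only [id_eq] at h2
    rw [Real.norm_of_nonneg (show (0 : ℝ) ≤ Real.log X by linarith)] at h2
    have h4 : Real.log (Real.log X) ≤ 1 / C * Real.log X := (le_abs_self _).trans h2
    calc C * Real.log (Real.log X) ≤ C * (1 / C * Real.log X) :=
          mul_le_mul_of_nonneg_left h4 hC0.le
      _ = Real.log X := by field_simp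
  have hev := (gf_ev Cr).and (xf_basic.and ((num_ev_log L₁).and (hloglog.and (hpar.and
    (eventually_ge_atTop X₁)))))
  obtain ⟨X₀, hX₀⟩ := eventually_atTop.1 hev
  refine ⟨c, max C C', hc0, lt_max_of_lt_left hC0, X₀, fun X hX K hK lam hlam hKlam => ?_⟩
  obtain ⟨hgf, ⟨-, hL9, hLL, -, -, -, -, -, hW⟩, hL1, hll, hpar, hX1⟩ := hX₀ X hX
  obtain ⟨n, e, hrng, hnZ, hen, hδ, hndc⟩ := hpar K hK lam hlam hKlam
  have hGF := hgf n e hrng
  have hK1 : (1 : ℝ) ≤ K := by exact_mod_cast hK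
  have hlam0 : 0 < lam := by linarith
  have hL0 : 0 < Real.log X := by linarith
  have hLL0 : 0 < Real.log (Real.log X) := by linarith
  have hKl : (K : ℝ) ^ 2 ≤ K ^ 2 * lam := le_mul_of_one_le_right (by positivity) hlam
  have hKll : (K : ℝ) ^ 2 * lam ≤ Real.log (Real.log X) := by
    have h1 : c * Real.log (Real.log X) ≤ 1 * Real.log (Real.log X) :=
      mul_le_mul_of_nonneg_right hc1 hLL0.le
    linarith
  have hKL : (K : ℝ) ^ 2 ≤ Real.log (Real.log X) := hKl.trans hKll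
  have hZ0 : (0 : ℝ) ≤ K ^ 2 * lam := by positivity
  obtain ⟨y, hy⟩ : ∃ y : ℝ, y = C * (K ^ 2 * lam) * Real.log X := ⟨_, rfl⟩
  have hy1 : 2600 * (2 * AA0) ^ 2 * K ^ 2 * Real.log X ≤ y := by
    rw [hy, ← hC]
    exact mul_le_mul_of_nonneg_right (mul_le_mul_of_nonneg_left hKl hC0.le) hL0.le
  obtain ⟨k, s, v, g1, g2, g3, g4, g5, g6, g7⟩ := hlay (Real.log X) hL1 K hK hKL y hy1
  have hH : k * (s + v) < zz X := by
    refine GMc_zz hL9 (g1.trans ?_)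
    rw [hy]
    refine mul_le_mul_of_nonneg_right ?_ hL0.le
    exact (mul_le_mul_of_nonneg_left hKll hC0.le).trans hll
  have hkv : (k : ℝ) * v ≤ y := by
    refine le_trans ?_ g1
    push_cast
    have h1 : (0 : ℝ) ≤ (k : ℝ) * s := by positivity
    linarith [mul_add (k : ℝ) s v]
  have hcard : ∀ ν, (vs X ν k s v).card ≤ dR 33 X n C3 := by
    intro ν
    unfold dR
    refine Nat.le_floor ?_
    refine (vs_card (X := X) hL9 ν k s v g3).trans ?_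
    rw [← mul_div_assoc, div_le_div_iff_of_pos_right hLL0]
    calc 84 * ((k : ℝ) * v) ≤ 84 * y := mul_le_mul_of_nonneg_left hkv (by norm_num)
      _ = 84 * (2600 * (2 * AA0) ^ 2 * K ^ 2 * lam) * Real.log X := by rw [hy, hC]; ring
      _ ≤ G2.dc 33 C3 * n * Real.log X := mul_le_mul_of_nonneg_right hndc hL0.le
  refine ⟨v, k * (s + v), ?_, ?_, ?_⟩
  · refine le_trans (le_of_eq ?_) g4
    have hAA : AA0 ≠ 0 := by
      unfold AA0
      positivity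
    rw [hy, hC]
    field_simp
  · refine g1.trans ?_
    rw [hy]
    exact mul_le_mul_of_nonneg_right (mul_le_mul_of_nonneg_right (le_max_left _ _) hZ0) hL0.le
  · have h1 := GMc_use (δ₂ := Real.exp (-e)) (C4 := dC4 n e C3) hGF.xf hL9 (hth X hX1) hW K hK
      k s v hH g2 g5 g6 g7 (Real.exp_pos _).le (dC4_pos n e C3) hδ
      (fun ν => FG X n e ν (vs X ν k s v))
      (fun ν hν => psiOK_g hGF hCr ν _ hν hH _ (fun t ht => (vs_le ht).2) (hcard ν))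
    refine le_trans ?_ h1
    have h2 := hpexp K n lam e hK hlam hrng.n10 hrng.e0 hen hnZ
    have h3 : Real.exp (-Real.exp (max C C' * (K ^ 2 * lam))) ≤
        Real.exp (-Real.exp (C' * (K ^ 2 * lam))) := by
      apply Real.exp_le_exp.2
      apply neg_le_neg
      apply Real.exp_le_exp.2
      exact mul_le_mul_of_nonneg_right (le_max_right _ _) hZ0
    have h4 := mul_le_mul_of_nonneg_right (h3.trans h2) (Nat.cast_nonneg (α := ℝ) X)
    refine h4.trans (le_of_eq ?_)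
    ring

end Pool.Agent.H.MP_711652_nt.CG
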