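import Pool.Agent.H.MP_711652_nt.CG.GD
import Pool.Agent.H.MP_711652_nt.CH.Mom
import Pool.Agent.H.MP_711652_nt.CH.Low

/-! # MP_711652, CG: moments and the lower bound for a family of sifting functions -/

set_option autoImplicit false

namespace Pool.Agent.H.MP_711652_nt.CG

open Finset Pool.Agent.H.MP_711652_nt.LG Pool.Agent.H.MP_711652_nt.G2 Pool.Agent.H.MP_711652_nt.CH

variable {Cr δ₂ C4 : ℝ} {X ν H : ℕ} {T : Finset ℕ} {F : ℕ → ℝ}

private theorem gmom_S2_nonneg (X : ℕ) (F : ℕ → ℝ) : 0 ≤ S2 X F :=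
  Finset.sum_nonneg fun _ _ => sq_nonneg _

private theorem gmom_off (h : PsiOK δ₂ C4 X ν T H F) (U : Finset ℕ)
    (hU : ∀ t ∈ U, t ≤ H) (hd : Disjoint T U) :
    ∑ m ∈ range (NN X), F m ^ 2 *
        ∑ z ∈ U.offDiag, ip (nn X ν m + z.1) * ip (nn X ν m + z.2) ≤
      3 * (U.card / JX X) ^ 2 * S2 X F := by
  have hNM := gmom_S2_nonneg X F
  have h1 : ∑ m ∈ range (NN X), F m ^ 2 *
        ∑ z ∈ U.offDiag, ip (nn X ν m + z.1) * ip (nn X ν m + z.2) =
      ∑ z ∈ U.offDiag, ∑ m ∈ range (NN X), F m ^ 2 *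
        (ip (nn X ν m + z.1) * ip (nn X ν m + z.2)) := by
    rw [Finset.sum_comm]
    exact Finset.sum_congr rfl fun m _ => Finset.mul_sum _ _ _
  have hc : 0 ≤ 3 / JX X ^ 2 * S2 X F := mul_nonneg (by positivity) hNM
  rw [h1]
  refine (Finset.sum_le_sum fun z hz => ?_).trans (b := ∑ _z ∈ U.offDiag,
    3 / JX X ^ 2 * S2 X F) ?_
  · obtain ⟨h2, h3, h4⟩ := Finset.mem_offDiag.1 hz
    exact h.two z.1 (hU _ h2) z.2 (hU _ h3)
      (fun h5 => (Finset.disjoint_left.1 hd h5) h2) (fun h5 => (Finset.disjoint_left.1 hd h5) h3) h4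
  · rw [Finset.sum_const, nsmul_eq_mul, Finset.offDiag_card]
    have h2 : ((U.card * U.card - U.card : ℕ) : ℝ) ≤ (U.card : ℝ) ^ 2 := by
      rw [sq]
      exact_mod_cast Nat.sub_le _ _
    calc ((U.card * U.card - U.card : ℕ) : ℝ) * (3 / JX X ^ 2 * S2 X F)
        ≤ (U.card : ℝ) ^ 2 * (3 / JX X ^ 2 * S2 X F) :=
          mul_le_mul_of_nonneg_right h2 hc
      _ = _ := by
          rw [div_pow]
          ring

/-- As `CH.mom_sq`. -/
theorem momG_sq (h : PsiOK δ₂ C4 X ν T H F) (hJ : 0 < JX X) (U : Finset ℕ)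
    (hU : ∀ t ∈ U, t ≤ H) (hd : Disjoint T U) :
    ∑ m ∈ range (NN X), F m ^ 2 * (∑ t ∈ U, ip (nn X ν m + t)) ^ 2 ≤
      (3 * (U.card / JX X) + 3 * (U.card / JX X) ^ 2) * S2 X F := by
  have _ := hJ
  have h1 : ∑ m ∈ range (NN X), F m ^ 2 * (∑ t ∈ U, ip (nn X ν m + t)) ^ 2 =
      ∑ m ∈ range (NN X), F m ^ 2 * ∑ t ∈ U, ip (nn X ν m + t) +
      ∑ m ∈ range (NN X), F m ^ 2 *
        ∑ z ∈ U.offDiag, ip (nn X ν m + z.1) * ip (nn X ν m + z.2) := by
    rw [← Finset.sum_add_distrib]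
    refine Finset.sum_congr rfl fun m _ => ?_
    rw [Mom_sq U (fun t => ip (nn X ν m + t)) fun t => Mom_ip_sq _, mul_add]
  have h2 := gmom_off h U hU hd
  have h3 : ∑ m ∈ range (NN X), F m ^ 2 * ∑ t ∈ U, ip (nn X ν m + t) ≤
      3 * (U.card / JX X) * S2 X F := by
    have h4 : ∑ m ∈ range (NN X), F m ^ 2 * ∑ t ∈ U, ip (nn X ν m + t) =
        ∑ t ∈ U, ∑ m ∈ range (NN X), F m ^ 2 * ip (nn X ν m + t) := by
      rw [Finset.sum_comm]
      exact Finset.sum_congr rfl fun m _ => Finset.mul_sum _ _ _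
    rw [h4]
    refine (Finset.sum_le_sum fun t ht => h.one t (hU t ht)
      (fun h5 => (Finset.disjoint_left.1 hd h5) ht)).trans (le_of_eq ?_)
    rw [Finset.sum_const, nsmul_eq_mul]
    ring
  rw [h1, add_mul]
  exact add_le_add h3 h2

/-- As `CH.mom_pair`. -/
theorem momG_pair (h : PsiOK δ₂ C4 X ν T H F) (hJ : 0 < JX X) (U : Finset ℕ)
    (hU : ∀ t ∈ U, t ≤ H) (hd : Disjoint T U) :
    ∑ m ∈ range (NN X), F m ^ 2 *
        (((U.filter (fun t => (nn X ν m + t).Prime)).card.choose 2 : ℕ) : ℝ) ≤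
      3 / 2 * (U.card / JX X) ^ 2 * S2 X F := by
  have _ := hJ
  have h2 := gmom_off h U hU hd
  have h1 : ∀ m, (((U.filter (fun t => (nn X ν m + t).Prime)).card.choose 2 : ℕ) : ℝ) =
      (∑ z ∈ U.offDiag, ip (nn X ν m + z.1) * ip (nn X ν m + z.2)) / 2 := by
    intro m
    have h3 : (((U.filter (fun t => (nn X ν m + t).Prime)).card : ℕ) : ℝ) =
        ∑ t ∈ U, ip (nn X ν m + t) := by
      rw [Finset.card_filter, Nat.cast_sum]
      refine Finset.sum_congr rfl fun t _ => ?_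
      unfold ip
      split_ifs <;> simp
    rw [Nat.cast_choose_two, h3]
    have h4 := Mom_sq U (fun t => ip (nn X ν m + t)) fun t => Mom_ip_sq _
    linarith
  have h3 : ∑ m ∈ range (NN X), F m ^ 2 *
        (((U.filter (fun t => (nn X ν m + t).Prime)).card.choose 2 : ℕ) : ℝ) =
      (∑ m ∈ range (NN X), F m ^ 2 *
        ∑ z ∈ U.offDiag, ip (nn X ν m + z.1) * ip (nn X ν m + z.2)) / 2 := by
    rw [Finset.sum_div]
    refine Finset.sum_congr rfl fun m _ => ?_
    rw [h1, mul_div_assoc]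
  rw [h3]
  linarith

private theorem gmom_hu (ν k s v : ℕ) (g : ℕ → ℝ) :
    ∑ t ∈ hu X ν k s v, g t = ∑ j ∈ range k, ∑ t ∈ hs X ν s v j, g t := by
  unfold hu
  rw [Finset.sum_biUnion]
  intro i _ j _ hij
  exact hs_disj ν s v hij

private theorem gmom_card (ν k s v : ℕ) : ((hu X ν k s v).card : ℝ) ≤ k * s := by
  have h1 : (hu X ν k s v).card ≤ ∑ j ∈ range k, (hs X ν s v j).card := Finset.card_biUnion_le
  have h2 : ∑ j ∈ range k, (hs X ν s v j).card ≤ ∑ _j ∈ range k, s := by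
    refine Finset.sum_le_sum fun j _ => ?_
    refine (Finset.card_filter_le _ _).trans ?_
    rw [Nat.card_Ioc, Nat.add_sub_cancel_left]
  rw [Finset.sum_const, Finset.card_range, smul_eq_mul] at h2
  exact_mod_cast h1.trans h2

/-- As `CH.low`. -/
theorem lowG (h : XF Cr X 0) (hL : 100 ≤ Real.log X) (k s v : ℕ) (hH : k * (s + v) < zz X)
    (hX : ∀ x₁ x₂ : ℕ, (x₁ : ℝ) ≤ (1 + 1 / 100) * X →
      (2 - 1 / 100) * X ≤ (x₂ : ℝ) → (X : ℝ) / 2 ≤ ∑ x ∈ Ioc x₁ x₂, thn x)
    (hW : 1000 * (WW X : ℝ) ≤ X) (G : ℕ → ℕ → ℝ)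
    (hG : ∀ ν < WW X, PsiOK δ₂ C4 X ν (vs X ν k s v) (k * (s + v)) (G ν)) :
    (WW X : ℝ) * (45 / 100 * (k * s / Real.log X)) ≤ ∑ ν ∈ range (WW X), ∑ m ∈ range (NN X),
      G ν m ^ 2 / S2 X (G ν) * ∑ j ∈ range k, (cnt (nn X ν m) s v j : ℝ) := by
  have hX10 : (10 : ℝ) ≤ X := by exact_mod_cast h.X3
  have hX0 : (0 : ℝ) < X := by linarith
  have hN0 : (0 : ℝ) < NN X := by exact_mod_cast h.N0
  have hW0 : (0 : ℝ) < WW X := by
    have : 0 < WW X := by
      unfold WW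
      exact primorial_pos _
    exact_mod_cast this
  set L := Real.log X with hLdef
  have hL0 : 0 < L := by linarith
  have hl2 : 0 < Real.log (2 * X) := Real.log_pos (by linarith)
  -- one residue
  have hν : ∀ ν ∈ range (WW X), (1 / (NN X * Real.log (2 * X))) *
      ((1 - 1 / 50) * ∑ t ∈ hu X ν k s v, ∑ m ∈ range (NN X), thn (nn X ν m + t) -
        k * s * ((X : ℝ) / WW X / L ^ 2)) ≤
      ∑ m ∈ range (NN X), G ν m ^ 2 / S2 X (G ν) *
        ∑ j ∈ range k, (cnt (nn X ν m) s v j : ℝ) := by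
    intro ν hν
    rw [Finset.mem_range] at hν
    have hPO := hG ν hν
    have hM : 0 < S2 X (G ν) := lt_of_lt_of_le (by linarith) hPO.low
    set M := S2 X (G ν) with hMdef
    -- positions
    have hpos : ∀ t ∈ hu X ν k s v, 1 ≤ t ∧ t ≤ k * (s + v) ∧ Nat.Coprime (ν + t) (WW X) ∧
        t ∉ vs X ν k s v := by
      intro t ht
      unfold hu at ht
      rw [Finset.mem_biUnion] at ht
      obtain ⟨j, hj, hjt⟩ := ht
      rw [Finset.mem_range] at hj
      obtain ⟨h1, h2, h3⟩ := hs_le hj hjt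
      refine ⟨h1, h2, h3, fun h4 => ?_⟩
      exact Finset.disjoint_left.1 (vs_hs_disj ν k s v j) h4 hjt
    have e1 : ∀ m, ∑ j ∈ range k, (cnt (nn X ν m) s v j : ℝ) =
        ∑ t ∈ hu X ν k s v, ip (nn X ν m + t) := by
      intro m
      rw [gmom_hu]
      exact Finset.sum_congr rfl fun j _ => cnt_eq_sum h ν m s v j
    have e2 : ∀ m ∈ range (NN X), ∀ t ∈ hu X ν k s v,
        thn (nn X ν m + t) / Real.log (2 * X) ≤ ip (nn X ν m + t) := by
      intro m hm t ht
      rw [Finset.mem_range] at hm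
      obtain ⟨h1, h2, -, -⟩ := hpos t ht
      have hzW := h.zW
      obtain ⟨h3, h4⟩ := nn_range h (t := t) hν hm (by omega)
      unfold thn ip
      split_ifs with hp
      · rw [div_le_one hl2]
        refine Real.log_le_log ?_ ?_
        · exact_mod_cast hp.pos
        · exact_mod_cast h4
      · simp
    have e3 : ∀ t ∈ hu X ν k s v,
        (1 / (NN X * Real.log (2 * X))) * ((1 - 1 / 50) *
          ∑ m ∈ range (NN X), thn (nn X ν m + t) - (X : ℝ) / WW X / L ^ 2) ≤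
        ∑ m ∈ range (NN X), G ν m ^ 2 / M * ip (nn X ν m + t) := by
      intro t ht
      obtain ⟨h1, h2, h3, h4⟩ := hpos t ht
      have h5 := hPO.pr t h1 h2 h4 h3
      rw [← hMdef, ← hLdef] at h5
      calc (1 / (NN X * Real.log (2 * X))) * ((1 - 1 / 50) *
          ∑ m ∈ range (NN X), thn (nn X ν m + t) - (X : ℝ) / WW X / L ^ 2)
          = (1 / (M * Real.log (2 * X))) * (M / NN X * ((1 - 1 / 50) *
            ∑ m ∈ range (NN X), thn (nn X ν m + t) - (X : ℝ) / WW X / L ^ 2)) := by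
            field_simp
        _ ≤ (1 / (M * Real.log (2 * X))) *
            ∑ m ∈ range (NN X), G ν m ^ 2 * thn (nn X ν m + t) := by
            refine mul_le_mul_of_nonneg_left h5 ?_
            positivity
        _ = ∑ m ∈ range (NN X), G ν m ^ 2 / M *
            (thn (nn X ν m + t) / Real.log (2 * X)) := by
            rw [Finset.mul_sum]
            refine Finset.sum_congr rfl fun m _ => ?_
            field_simp
        _ ≤ _ := by
            refine Finset.sum_le_sum fun m hm => ?_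
            refine mul_le_mul_of_nonneg_left (e2 m hm t ht) ?_
            positivity
    have e4 : ∑ m ∈ range (NN X), G ν m ^ 2 / M *
        ∑ j ∈ range k, (cnt (nn X ν m) s v j : ℝ) =
        ∑ t ∈ hu X ν k s v, ∑ m ∈ range (NN X),
          G ν m ^ 2 / M * ip (nn X ν m + t) := by
      rw [Finset.sum_comm]
      refine Finset.sum_congr rfl fun m _ => ?_
      rw [e1, Finset.mul_sum]
    rw [e4]
    refine le_trans ?_ (Finset.sum_le_sum e3)
    rw [← Finset.mul_sum, Finset.sum_sub_distrib, ← Finset.mul_sum, Finset.sum_const, nsmul_eq_mul]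
    refine mul_le_mul_of_nonneg_left ?_ (by positivity)
    have h6 := gmom_card (X := X) ν k s v
    have h7 : (0 : ℝ) ≤ (X : ℝ) / WW X / L ^ 2 := by positivity
    have h8 := mul_le_mul_of_nonneg_right h6 h7
    linarith
  refine le_trans ?_ (Finset.sum_le_sum hν)
  rw [← Finset.mul_sum, Finset.sum_sub_distrib, ← Finset.mul_sum, Finset.sum_const,
    Finset.card_range, nsmul_eq_mul]
  have h1 := theta_sum h k s v hH hX hW
  have hks : (0 : ℝ) ≤ k * s := by positivity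
  have hNW : (NN X : ℝ) * WW X ≤ X := by
    have h2 : NN X * WW X ≤ X := by
      refine (Nat.mul_le_mul_right _ (Nat.sub_le _ _)).trans ?_
      exact Nat.div_mul_le_self X (WW X)
    exact_mod_cast h2
  have hlog : Real.log (2 * X) ≤ (1 + 7 / 1000) * L := by
    rw [Real.log_mul (by norm_num) hX0.ne']
    have := Real.log_two_lt_d9
    linarith
  have hL2 : 1 / L ^ 2 ≤ 1 / 10000 := by
    refine one_div_le_one_div_of_le (by norm_num) ?_
    nlinarith
  have e5 : (WW X : ℝ) * (k * s * ((X : ℝ) / WW X / L ^ 2)) = k * s * (X * (1 / L ^ 2)) := by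
    field_simp
  rw [e5, one_div_mul_eq_div, le_div_iff₀ (by positivity)]
  have h3 : (k : ℝ) * s * (X * (4899 / 10000)) ≤
      (1 - 1 / 50) * ∑ ν ∈ range (WW X), ∑ t ∈ hu X ν k s v,
        ∑ m ∈ range (NN X), thn (nn X ν m + t) - k * s * (X * (1 / L ^ 2)) := by
    have h4 : (k : ℝ) * s * (X * (1 / L ^ 2)) ≤ k * s * (X * (1 / 10000)) :=
      mul_le_mul_of_nonneg_left (mul_le_mul_of_nonneg_left hL2 hX0.le) hks
    nlinarith
  refine le_trans ?_ h3
  calc (WW X : ℝ) * (45 / 100 * (k * s / L)) * (NN X * Real.log (2 * X))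
      ≤ (WW X : ℝ) * (45 / 100 * (k * s / L)) * (NN X * ((1 + 7 / 1000) * L)) := by
        gcongr
    _ = (k : ℝ) * s * (45 / 100 * (1 + 7 / 1000)) * (NN X * WW X) := by
        field_simp
    _ ≤ (k : ℝ) * s * (45 / 100 * (1 + 7 / 1000)) * X := by
        gcongr
    _ ≤ (k : ℝ) * s * (X * (4899 / 10000)) := by
        have h5 : (0 : ℝ) ≤ k * s * X := by positivity
        nlinarith

end Pool.Agent.H.MP_711652_nt.CG
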