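import Pool.Agent.H.MP_711652_nt.CG.GD
import Pool.Agent.H.MP_711652_nt.CH.Main
import Pool.Agent.H.MP_711652_nt.G2.Num

/-! # MP_711652, CG: the numbers, uniformly in `n` and `e`, first part -/

set_option autoImplicit false

namespace Pool.Agent.H.MP_711652_nt.CG

open Finset Filter Pool.Agent.H.MP_711652_nt.LG Pool.Agent.H.MP_711652_nt.G2 Pool.Agent.H.MP_711652_nt.CH

/-- the range of the parameters -/
structure Rng (X n : ℕ) (e : ℝ) : Prop where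
  n10 : 10 ≤ n
  n1 : 8 * Real.exp 21 ≤ n
  e0 : 0 ≤ e
  eL : e ≤ Real.log (Real.log X)
  nL : (2 : ℝ) ^ n ≤ Real.log X ^ (1 / 500 : ℝ)

private theorem GNa_ll : ∀ᶠ L : ℝ in atTop, Real.log L ≤ L ^ (1 / 50 : ℝ) := by
  have h := (isLittleO_log_rpow_atTop (r := 1 / 50) (by norm_num)).bound
    (show (0 : ℝ) < 1 by norm_num)
  filter_upwards [h, eventually_ge_atTop 1] with L h1 h2
  rw [one_mul, Real.norm_of_nonneg (Real.log_nonneg h2),
    Real.norm_of_nonneg (by positivity)] at h1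
  exact h1

/-- PROOF. `h = (log X)^(1/20)`, `h^(1/25) = (log X)^(1/500)`, `h^(2/5) = (log X)^(1/50) ≥ log log X`; `ev_EvL 1 33`, `nd_ev`. -/
theorem ctx_ev : ∀ᶠ X : ℕ in atTop, ∀ (n : ℕ) (e : ℝ), Rng X n e →
    Ctx 1 33 X n e (Real.log X ^ (1 / 20 : ℝ)) := by
  have h1 : Tendsto (fun L : ℝ => L ^ (1 / 20 : ℝ)) atTop atTop :=
    tendsto_rpow_atTop (by norm_num)
  filter_upwards [nd_ev (ev_EvL 1 33), nd_ev GNa_ll,
    nd_ev (h1.eventually_ge_atTop (3600000000 ^ 9)), eventually_ge_atTop 1] with X hev hll h0 hX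
  intro n e R
  have hL : (0 : ℝ) < Real.log X := by
    have := hev.L1
    linarith
  refine ⟨hX, hev, ⟨R.n10, R.e0, ?_, ?_, ?_, h0, le_refl _⟩⟩
  · rw [Nat.cast_one, one_mul]
    exact R.eL
  · rw [← Real.rpow_mul hL.le]
    refine R.eL.trans (hll.trans (le_of_eq ?_))
    norm_num
  · rw [← Real.rpow_mul hL.le]
    refine R.nL.trans (le_of_eq ?_)
    norm_num

/-- PROOF. `(log X)^20 ≤ (log X)^33`; `dB X n e ≤ X^(1/800000)` (`Ctx.B`, `Ctx.b1`) and `YY X = ⌊X^(1/100)⌋`; `WW X ≤ 4^(log X/100)`, so `NN X ≥ X^(4/5)`. -/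
theorem gn_basic : ∀ᶠ X : ℕ in atTop, zz X ≤ dD 33 X ∧ (X : ℝ) ^ (4 / 5 : ℝ) ≤ NN X ∧
    ∀ (n : ℕ) (e : ℝ), Rng X n e → dB X n e ≤ YY X := by
  filter_upwards [WW_le, ctx_ev, nd_ev (eventually_ge_atTop 1), eventually_ge_atTop 1,
    num_ev_const 5 (13 / 70) (by norm_num)] with X hW hctx hL hX h5
  have hX0 : (0 : ℝ) < X := by exact_mod_cast hX
  have hX1 : (1 : ℝ) ≤ X := by exact_mod_cast hX
  refine ⟨?_, ?_, ?_⟩
  · unfold zz dD
    exact Nat.floor_mono (pow_le_pow_right₀ hL (by norm_num))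
  · have hW0 : 0 < WW X := by
      unfold WW
      exact primorial_pos _
    have hW0' : (0 : ℝ) < WW X := by exact_mod_cast hW0
    have h1 : (X : ℝ) < WW X * ((X / WW X : ℕ) + 1) := by
      exact_mod_cast Nat.lt_mul_div_succ X hW0
    have h2 : (X : ℝ) ^ (69 / 70 : ℝ) * (X : ℝ) ^ (1 / 70 : ℝ) = X := by
      rw [← Real.rpow_add hX0]
      norm_num
    have h3 : (X : ℝ) ^ (69 / 70 : ℝ) < ((X / WW X : ℕ) : ℝ) + 1 := by
      by_contra hcon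
      push Not at hcon
      have h4 : (WW X : ℝ) * (((X / WW X : ℕ) : ℝ) + 1) ≤
          (X : ℝ) ^ (1 / 70 : ℝ) * (X : ℝ) ^ (69 / 70 : ℝ) :=
        mul_le_mul hW hcon (by positivity) (by positivity)
      rw [mul_comm ((X : ℝ) ^ (1 / 70 : ℝ)), h2] at h4
      linarith
    have h4 : (X : ℝ) ^ (69 / 70 : ℝ) = (X : ℝ) ^ (4 / 5 : ℝ) * (X : ℝ) ^ (13 / 70 : ℝ) := by
      rw [← Real.rpow_add hX0]
      norm_num
    have h6 : (1 : ℝ) ≤ (X : ℝ) ^ (4 / 5 : ℝ) := Real.one_le_rpow hX1 (by norm_num)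
    have h7 : (X : ℝ) ^ (4 / 5 : ℝ) * 5 ≤ (X : ℝ) ^ (69 / 70 : ℝ) := by
      rw [h4]
      exact mul_le_mul_of_nonneg_left h5 (by positivity)
    have h8 : (3 : ℝ) ≤ ((X / WW X : ℕ) : ℝ) := by linarith
    have h9 : 3 ≤ X / WW X := by exact_mod_cast h8
    unfold NN
    rw [Nat.cast_sub h9]
    push_cast at h3 h8 ⊢
    linarith
  · intro n e R
    have H := hctx n e R
    unfold dB YY
    refine Nat.floor_mono (Real.rpow_le_rpow_of_exponent_le hX1 ?_)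
    have := H.b1
    linarith

/-- PROOF. With `L = log X`: `dR 33 X n C3 ≤ L/1000` (`Ctx.RL`), `kk X ≤ L`, `dK n e ≤ 17 dE 2^n ≤ 34 L^(11/500)` (`Ctx.K17`, `Ctx.E1L`), `log (dD 33 X) ≤ 34 log L` (`Ctx.logD`),
`dD 33 X ≥ L^33 / 2`, `zz X ≥ L^20 / 2`. -/
theorem gn_lam : ∀ᶠ X : ℕ in atTop, ∀ (n : ℕ) (e : ℝ), Rng X n e →
    1000 * Real.exp 21 * Real.log (dD 33 X) * (dK n e + 1) ≤ Real.log X ∧
    1000 * (dR 33 X n C3 : ℝ) ≤ Real.log X ^ 2 ∧
    1000000 * (Real.log X * dR 33 X n C3 * kk X + Real.log X ^ 2 * (dR 33 X n C3 : ℝ) ^ 2 +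
      Real.log X ^ 4 * ((dK n e : ℝ) ^ 2 + 1)) ≤ dD 33 X ∧
    (320 * Real.log X ^ 2 * (dR 33 X n C3 : ℝ)) ^ 4 ≤ zz X := by
  have hC : 0 < C3 := by
    unfold C3
    positivity
  have h1 : Tendsto (fun L : ℝ => L ^ (479 / 500 : ℝ)) atTop atTop :=
    tendsto_rpow_atTop (by norm_num)
  filter_upwards [ctx_ev, nd_ev GNa_ll,
    nd_ev (h1.eventually_ge_atTop (1000 * Real.exp 21 * 34 * 36))] with X hctx hll hbig
  intro n e R
  have H := hctx n e R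
  have hL := H.L0
  have hL16 := H.ev.L1
  have hD := H.logD
  have hK := H.K17
  have hE := H.E1L
  have hE1 := H.E.2.2.1
  have hR := H.RL hC
  have hR0 : (0 : ℝ) ≤ (dR 33 X n C3 : ℝ) := Nat.cast_nonneg _
  have hl := H.l0
  obtain ⟨L, hLd⟩ : ∃ L, L = Real.log X := ⟨_, rfl⟩
  obtain ⟨r, hrd⟩ : ∃ r, r = (dR 33 X n C3 : ℝ) := ⟨_, rfl⟩
  obtain ⟨t, htd⟩ : ∃ t, t = dE n e * 2 ^ n := ⟨_, rfl⟩
  have hKL := H.KL
  have hDge := H.D_ge
  have hkk : (kk X : ℝ) ≤ Real.log X := Nat.floor_le hL.le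
  have hkk0 : (0 : ℝ) ≤ (kk X : ℝ) := Nat.cast_nonneg _
  have hK0 : (0 : ℝ) ≤ (dK n e : ℝ) := Nat.cast_nonneg _
  rw [← hrd] at hR hR0 ⊢
  rw [← htd] at hK hE hE1
  rw [← hLd] at hL hL16 hD hE hR hl hll hbig hKL hDge hkk ⊢
  have hL1 : 1 ≤ L := by linarith
  refine ⟨?_, ?_, ?_, ?_⟩
  · have e1 : Real.log (dD 33 X) ≤ 34 * L ^ (1 / 50 : ℝ) := by
      push_cast at hD
      linarith
    have e2 : (dK n e : ℝ) + 1 ≤ 36 * L ^ (11 / 500 : ℝ) := by linarith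
    have e3 : Real.log (dD 33 X) * ((dK n e : ℝ) + 1) ≤
        34 * L ^ (1 / 50 : ℝ) * (36 * L ^ (11 / 500 : ℝ)) :=
      mul_le_mul e1 e2 (by positivity) (by positivity)
    have e4 : L ^ (1 / 50 : ℝ) * L ^ (11 / 500 : ℝ) = L ^ (21 / 500 : ℝ) := by
      rw [← Real.rpow_add hL]
      norm_num
    have e5 : L ^ (479 / 500 : ℝ) * L ^ (21 / 500 : ℝ) = L := by
      rw [← Real.rpow_add hL]
      norm_num
    have e6 : 0 ≤ L ^ (21 / 500 : ℝ) := by positivity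
    have e7 := mul_le_mul_of_nonneg_right hbig e6
    rw [e5] at e7
    have e8 : (0 : ℝ) ≤ 1000 * Real.exp 21 := by positivity
    calc 1000 * Real.exp 21 * Real.log (dD 33 X) * ((dK n e : ℝ) + 1) =
          1000 * Real.exp 21 * (Real.log (dD 33 X) * ((dK n e : ℝ) + 1)) := by ring
      _ ≤ 1000 * Real.exp 21 * (34 * L ^ (1 / 50 : ℝ) * (36 * L ^ (11 / 500 : ℝ))) :=
          mul_le_mul_of_nonneg_left e3 e8
      _ = 1000 * Real.exp 21 * 34 * 36 * (L ^ (1 / 50 : ℝ) * L ^ (11 / 500 : ℝ)) := by ring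
      _ ≤ L := by
          rw [e4]
          exact e7
  · nlinarith
  · have e0 : r ≤ L := by linarith
    have e1 : L * r * kk X ≤ L * L * L :=
      mul_le_mul (mul_le_mul_of_nonneg_left e0 hL.le) hkk hkk0 (by positivity)
    have e2 : L ^ 2 * r ^ 2 ≤ L ^ 2 * L ^ 2 :=
      mul_le_mul_of_nonneg_left (pow_le_pow_left₀ hR0 e0 2) (by positivity)
    have e3 : L ^ 4 * ((dK n e : ℝ) ^ 2 + 1) ≤ L ^ 4 * (L ^ 2 + 1) := by
      have := pow_le_pow_left₀ hK0 hKL 2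
      exact mul_le_mul_of_nonneg_left (by linarith) (by positivity)
    have p3 : L * L * L ≤ L ^ 6 := by
      have : L ^ 3 ≤ L ^ 6 := pow_le_pow_right₀ hL1 (by norm_num)
      calc L * L * L = L ^ 3 := by ring
        _ ≤ _ := this
    have p4 : L ^ 2 * L ^ 2 ≤ L ^ 6 := by
      rw [← pow_add]
      exact pow_le_pow_right₀ hL1 (by norm_num)
    have p5 : L ^ 4 ≤ L ^ 6 := pow_le_pow_right₀ hL1 (by norm_num)
    have p6 : L ^ 4 * (L ^ 2 + 1) = L ^ 6 + L ^ 4 := by ring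
    have p7 : L ^ 33 = L ^ 26 * L * L ^ 6 := by ring
    have p8 : (1 : ℝ) ≤ L ^ 26 := one_le_pow₀ hL1
    have p9 : (0 : ℝ) ≤ L ^ 6 := by positivity
    have p10 : 8000000 ≤ L ^ 26 * L := by
      have : 1 * L ≤ L ^ 26 * L := mul_le_mul_of_nonneg_right p8 hL.le
      linarith
    have p11 := mul_le_mul_of_nonneg_right p10 p9
    rw [← p7] at p11
    linarith
  · have e0 : 320 * L ^ 2 * r ≤ L ^ 3 := by
      have : 320 * L ^ 2 * r ≤ 320 * L ^ 2 * (L / 1000) :=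
        mul_le_mul_of_nonneg_left hR (by positivity)
      have h3 : 0 ≤ L ^ 3 := by positivity
      calc 320 * L ^ 2 * r ≤ 320 * L ^ 2 * (L / 1000) := this
        _ = 320 / 1000 * L ^ 3 := by ring
        _ ≤ L ^ 3 := by linarith
    have e1 : (320 * L ^ 2 * r) ^ 4 ≤ (L ^ 3) ^ 4 := pow_le_pow_left₀ (by positivity) e0 4
    have e2 : L ^ 20 < (zz X : ℝ) + 1 := by
      unfold zz
      rw [← hLd]
      exact Nat.lt_floor_add_one _
    have e3 : (L ^ 3) ^ 4 = L ^ 12 := by ring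
    have e4 : L ^ 20 = L ^ 7 * L * L ^ 12 := by ring
    have e5 : (1 : ℝ) ≤ L ^ 7 := one_le_pow₀ hL1
    have e6 : (1 : ℝ) ≤ L ^ 12 := one_le_pow₀ hL1
    have e7 : 2 ≤ L ^ 7 * L := by
      have : 1 * L ≤ L ^ 7 * L := mul_le_mul_of_nonneg_right e5 hL.le
      linarith
    have e8 := mul_le_mul_of_nonneg_right e7 (by linarith : (0 : ℝ) ≤ L ^ 12)
    rw [← e4] at e8
    rw [e3] at e1
    linarith

end Pool.Agent.H.MP_711652_nt.CG
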