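import Pool.Agent.H.MP_711652_nt.CG.GD
import Pool.Agent.H.MP_711652_nt.G2.SmallPair
import Pool.Agent.H.MP_711652_nt.CH.PsiUp

/-! # MP_711652, CG: the sifting function, bad points and fourth moment -/

set_option autoImplicit false

namespace Pool.Agent.H.MP_711652_nt.CG

open Finset Pool.Agent.H.MP_711652_nt.LG Pool.Agent.H.MP_711652_nt.G2 Pool.Agent.H.MP_711652_nt.CH

variable {Cr : ℝ} {X n : ℕ} {e : ℝ}

/-- PROOF. `big_num` with the facts of `Ctx` (`H.z3`, `H.zn`, `H.YK`). -/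
theorem big_g (h : GF Cr X n e) :
    Big (Pbig (dz X n e) (dB X n e)) (dB X n e) (dY X) (dK n e) (cg X n e) (dz X n e) := by
  obtain ⟨h', H⟩ := h.ctx
  exact big_num H.z3 H.zn h.n1 (by have := H.Y.2.2.2.2; omega) H.YK

/-- PROOF. `c_big_le`. -/
theorem cg_le (h : GF Cr X n e) :
    0 ≤ cg X n e ∧ cg X n e ≤ C3 * Real.log (dz X n e) / n := by
  obtain ⟨h', H⟩ := h.ctx
  exact ⟨c_big_nonneg _ _, c_big_le (by have := H.z3; omega) H.zn h.n1⟩

/-- The forms `n + t` for all primes of `CH.PP X` (PROOF: `forms_gen`). -/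
theorem forms_T (h : GF Cr X n e) (ν H : ℕ) (hH : H < zz X) (T : Finset ℕ) (hT : ∀ t ∈ T, t ≤ H) :
    Forms (CH.PP X) (hit X ν T) :=
  forms_gen h.xf ν H hH (fun t : T => (t : ℕ)) Subtype.val_injective fun t => hT _ t.2

private theorem GPa_C3 : 0 < C3 := by
  unfold C3
  positivity

/-- The big primes are primes of `PP X`. -/
theorem GPa_sub (h : GF Cr X n e) : Pbig (dz X n e) (dB X n e) ⊆ CH.PP X := by
  obtain ⟨h', H⟩ := h.ctx
  intro p hp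
  have h1 := mem_Pbig.1 hp
  have h2 := H.Dz
  have h3 := h.DP
  have h4 := h.BP
  exact mem_Pbig.2 ⟨by omega, by omega, h1.2.2⟩

private theorem GPa_forms (h : GF Cr X n e) (ν H : ℕ) (hH : H < zz X) (T : Finset ℕ)
    (hT : ∀ t ∈ T, t ≤ H) : Forms (Pbig (dz X n e) (dB X n e)) (hit X ν T) := by
  have h1 := forms_T h ν H hH T hT
  have h2 := GPa_sub h
  exact ⟨fun p hp => h1.prime p (h2 hp), fun p hp => h1.per p (h2 hp), fun p hp => h1.one p (h2 hp),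
    fun p hp => h1.disj p (h2 hp)⟩

private theorem GPa_W (h : GF Cr X n e) : ∀ p, p.Prime → dD 33 X < p → ¬ p ∣ WW X := by
  intro p hpp hp hd
  have h1 : p ≤ ⌊Real.log X / 100⌋₊ := (Nat.Prime.dvd_primorial_iff hpp).1 hd
  have h2 : (p : ℝ) ≤ Real.log X / 100 := by
    have h3 : 0 ≤ Real.log X / 100 := by
      have := h.xf.L1
      positivity
    exact (Nat.le_floor_iff h3).1 h1
  have h3 : (zz X : ℝ) < p := by
    have := h.DP
    exact_mod_cast (by omega : zz X < p)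
  have h4 := h.xf.zD
  linarith

/-- PROOF. `small_pair` with one window (`α = Unit`), `off t = WW X * (X / WW X + 1) + ν + t`, `D = dD 33 X`, `h = ⌈log X⌉`, `η = dε e / 10` (`Ctx.hD`, `Ctx.far`), transported along
`{i // i ∈ univ ∪ univ} ≃ T` (`Small.comp`). -/
theorem small_T (h : GF Cr X n e) (ν H : ℕ) (hH : H < zz X) (T : Finset ℕ) (hT : ∀ t ∈ T, t ≤ H) :
    Small (∏ p ∈ (Ioc (dD 33 X) (dz X n e)).filter Nat.Prime, p)
      (fun i : T => LamF (dD 33 X) (dz X n e) (hit X ν T) i) (dK n e)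
      (12 * (Real.log (dD 33 X) / Real.log (dz X n e))) (dε e / 10)
      ((dz X n e : ℝ) ^ 248) := by
  obtain ⟨h', Hc⟩ := h.ctx
  have hε := dε_pos e
  have hε1 := Hc.ε1
  have hDP := h.DP
  have hA : hit X ν T = fun (p : ℕ) (i : T) (m : ℕ) =>
      p ∣ WW X * m + (WW X * (X / WW X + 1) + ν + (i : ℕ)) := by
    funext p i m
    unfold hit nn
    rw [show WW X * (X / WW X + 1 + m) + ν + (i : ℕ) =
      WW X * m + (WW X * (X / WW X + 1) + ν + (i : ℕ)) by ring]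
  have hce : 1 ≤ ⌈Real.log X⌉₊ := Nat.ceil_pos.2 Hc.L0
  have h1 := small_pair (ι := T) (α := Unit) (fun _ => (univ : Finset T))
    (fun t : T => WW X * (X / WW X + 1) + ν + (t : ℕ))
    (fun a b hab => Subtype.ext (by
      have : WW X * (X / WW X + 1) + ν + (a : ℕ) = WW X * (X / WW X + 1) + ν + (b : ℕ) := hab
      omega))
    (W := WW X) (D := dD 33 X) (z := dz X n e) (K := dK n e) (h := ⌈Real.log X⌉₊) (η := dε e / 10)
    Hc.K1 (by positivity) (by linarith) (Hc.hD (by norm_num)) (by have := Hc.Dz; omega)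
    (GPa_W h)
    (fun _ i _ j _ => by
      have := hT _ i.2
      omega)
    (fun i j => by
      have h2 := hT _ i.2
      have h3 : dD 33 X + 1 ≤ (dD 33 X + 1) ^ ⌈Real.log X⌉₊ := Nat.le_self_pow (by omega) _
      omega) () ()
  have h2 := h1.comp (fun t : T => (⟨t, by simp⟩ : {i // i ∈ (univ : Finset T) ∪ univ}))
    (fun a b hab => by simpa using hab)
  rw [hA]
  exact h2

private theorem GPa_Q (h : GF Cr X n e) : 1 ≤ (2 : ℝ) ^ dR 33 X n C3 * (dY X : ℝ) ^ 2 *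
      ((dz X n e : ℝ) ^ 248) ^ (dK n e + 1) ∧
    Nm (dR 33 X n C3) (dY X) (dK n e) ((dz X n e : ℝ) ^ 248) ^ 2 ≤
      (2 ^ dR 33 X n C3 * (dY X : ℝ) ^ 2 * ((dz X n e : ℝ) ^ 248) ^ (dK n e + 1)) ^ 4 ∧
    Nm (dR 33 X n C3) (dY X) (dK n e + 1) ((dz X n e : ℝ) ^ 248) ^ 2 ≤
      (2 ^ dR 33 X n C3 * (dY X : ℝ) ^ 2 * ((dz X n e : ℝ) ^ 248) ^ (dK n e + 1)) ^ 4 := by
  obtain ⟨h', H⟩ := h.ctx
  have hz : (1 : ℝ) ≤ (dz X n e : ℝ) ^ 248 := by
    have : (1 : ℝ) ≤ dz X n e := by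
      have := H.z3
      exact_mod_cast (by omega : 1 ≤ dz X n e)
    exact one_le_pow₀ this
  have hY : (1 : ℝ) ≤ (dY X : ℝ) ^ 2 := by
    have : (1 : ℝ) ≤ dY X := by
      have := H.Y.2.2.2.2
      exact_mod_cast (by omega : 1 ≤ dY X)
    exact one_le_pow₀ this
  have h2 : (1 : ℝ) ≤ 2 ^ dR 33 X n C3 := one_le_pow₀ (by norm_num)
  obtain ⟨a, ha⟩ : ∃ a : ℝ, a = 2 ^ dR 33 X n C3 * (dY X : ℝ) ^ 2 := ⟨_, rfl⟩
  have ha1 : 1 ≤ a := by
    rw [ha]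
    exact one_le_mul_of_one_le_of_one_le h2 hY
  have hzK : (1 : ℝ) ≤ ((dz X n e : ℝ) ^ 248) ^ (dK n e + 1) := one_le_pow₀ hz
  have hQ : 1 ≤ a * ((dz X n e : ℝ) ^ 248) ^ (dK n e + 1) :=
    one_le_mul_of_one_le_of_one_le ha1 hzK
  have h24 : (a * ((dz X n e : ℝ) ^ 248) ^ (dK n e + 1)) ^ 2 ≤
      (a * ((dz X n e : ℝ) ^ 248) ^ (dK n e + 1)) ^ 4 := pow_le_pow_right₀ hQ (by norm_num)
  unfold Nm
  rw [← ha]
  refine ⟨hQ, le_trans ?_ h24, h24⟩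
  have h3 : ((dz X n e : ℝ) ^ 248) ^ dK n e ≤ ((dz X n e : ℝ) ^ 248) ^ (dK n e + 1) :=
    pow_le_pow_right₀ hz (by omega)
  have ha0 : 0 ≤ a := by linarith
  gcongr

private theorem GPa_small (h : GF Cr X n e) :
    (dK n e : ℝ) * (2 * (dR 33 X n C3 : ℝ) / (dz X n e : ℝ)) ≤ 1 := by
  obtain ⟨h', H⟩ := h.ctx
  have h1 := H.hg GPa_C3
  have h2 := H.ε1
  have h3 : (0 : ℝ) ≤ (dK n e : ℝ) * dR 33 X n C3 / dz X n e := by positivity
  have h4 : 16 * (dK n e : ℝ) * dR 33 X n C3 / dz X n e =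
      16 * ((dK n e : ℝ) * dR 33 X n C3 / dz X n e) := by ring
  have h5 : (dK n e : ℝ) * (2 * (dR 33 X n C3 : ℝ) / (dz X n e : ℝ)) =
      2 * ((dK n e : ℝ) * dR 33 X n C3 / dz X n e) := by ring
  rw [h4] at h1
  rw [h5]
  linarith

/-- The second moment: PROOF. `f1b`, `one_le_Mw`, `Ctx.hg`, `Ctx.hN`. -/
theorem low_g (h : GF Cr X n e) (ν H : ℕ) (hH : H < zz X) (T : Finset ℕ) (hT : ∀ t ∈ T, t ≤ H)
    (hR : T.card ≤ dR 33 X n C3) :
    (1 - dε e) * (NN X * Mw (Pbig (dz X n e) (dB X n e))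
      (∏ p ∈ (Ioc (dD 33 X) (dz X n e)).filter Nat.Prime, p)
      (fun i : T => LamF (dD 33 X) (dz X n e) (hit X ν T) i) (cg X n e) (dB X n e) (dY X)) ≤
      S2 X (FG X n e ν T) ∧ (NN X : ℝ) / 2 ≤ S2 X (FG X n e ν T) := by
  obtain ⟨h', Hc⟩ := h.ctx
  have hS := small_T h ν H hH T hT
  have hB := big_g h
  have hc : Fintype.card T ≤ dR 33 X n C3 := by
    rw [Fintype.card_coe]
    exact hR
  have h1 := f1b (GPa_forms h ν H hH T hT) hS Pbig_not_dvd hB (dR 33 X n C3) hc (GPa_small h) (NN X)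
  obtain ⟨hQ1, hQ2, -⟩ := GPa_Q h
  have hN := Hc.hN GPa_C3 h.Nbig
  have hM := one_le_Mw hS hB
  have hε := dε_pos e
  have hε1 := Hc.ε1
  have hg := Hc.hg GPa_C3
  obtain ⟨M, hMd⟩ : ∃ M : ℝ, M = Mw (Pbig (dz X n e) (dB X n e))
      (∏ p ∈ (Ioc (dD 33 X) (dz X n e)).filter Nat.Prime, p)
      (fun i : T => LamF (dD 33 X) (dz X n e) (hit X ν T) i) (cg X n e) (dB X n e) (dY X) := ⟨_, rfl⟩
  have hS2 : S2 X (FG X n e ν T) = ∑ m ∈ range (NN X), Pw (Pbig (dz X n e) (dB X n e)) (hit X ν T)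
      (fun i : T => LamF (dD 33 X) (dz X n e) (hit X ν T) i) (cg X n e) (dB X n e) (dY X) m ^ 2 := rfl
  rw [← hMd] at h1 hM ⊢
  rw [← hS2] at h1
  have hN0 : (0 : ℝ) ≤ NN X := Nat.cast_nonneg _
  have hR0 : (0 : ℝ) ≤ dR 33 X n C3 := Nat.cast_nonneg _
  obtain ⟨Q, hQ⟩ : ∃ Q : ℝ, Q = (2 ^ dR 33 X n C3 * (dY X : ℝ) ^ 2 *
    ((dz X n e : ℝ) ^ 248) ^ (dK n e + 1)) ^ 4 := ⟨_, rfl⟩
  have hQ0 : 0 ≤ Q := by
    rw [hQ]
    positivity
  rw [← hQ] at hQ2 hN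
  have h5 : 100 * Q ≤ dε e * NN X := by
    have : 100 * ((dR 33 X n C3 : ℝ) + 1) * Q = 100 * Q + 100 * (dR 33 X n C3 : ℝ) * Q := by ring
    have h6 : 0 ≤ 100 * (dR 33 X n C3 : ℝ) * Q := by positivity
    linarith
  obtain ⟨g, hgd⟩ : ∃ g : ℝ, g = 4 * (dK n e : ℝ) * dR 33 X n C3 / dz X n e := ⟨_, rfl⟩
  have hg1 : 4 * g ≤ dε e / 10 := by
    rw [hgd]
    refine le_trans (le_of_eq ?_) hg
    ring
  rw [← hgd] at h1
  have hNM : (NN X : ℝ) ≤ NN X * M := le_mul_of_one_le_right hN0 hM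
  have hNM0 : 0 ≤ (NN X : ℝ) * M := by positivity
  have h7 : g * ((NN X : ℝ) * M) ≤ dε e / 40 * (NN X * M) :=
    mul_le_mul_of_nonneg_right (by linarith) hNM0
  have h8 : dε e * (NN X : ℝ) ≤ dε e * (NN X * M) := mul_le_mul_of_nonneg_left hNM hε.le
  have h9 : (NN X : ℝ) * ((1 - g) * M) = NN X * M - g * (NN X * M) := by ring
  rw [h9] at h1
  have h10 : 0 ≤ dε e * (NN X * M) := by positivity
  have key : (1 - dε e) * (NN X * M) ≤ S2 X (FG X n e ν T) := by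
    have : (1 - dε e) * ((NN X : ℝ) * M) = NN X * M - dε e * (NN X * M) := by ring
    linarith
  refine ⟨key, ?_⟩
  have h11 : dε e * ((NN X : ℝ) * M) ≤ 1 / 100 * (NN X * M) :=
    mul_le_mul_of_nonneg_right hε1 hNM0
  have : (1 - dε e) * ((NN X : ℝ) * M) = NN X * M - dε e * (NN X * M) := by ring
  linarith

/-- PROOF. `f2b` with `s = 1 / log B` and `Ctx.hθ`, `Ctx.hN`, then `low_g`; if no prime in `(log X, YY X]` divides `n + t` then no prime of `(D, z]` or `(z, B]` does (`LamF_eq_one`). -/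
theorem bad_g (h : GF Cr X n e) (ν H : ℕ) (hH : H < zz X) (T : Finset ℕ) (hT : ∀ t ∈ T, t ≤ H)
    (hR : T.card ≤ dR 33 X n C3) (S : Finset ℕ) (hS : S ⊆ range (NN X))
    (hbad : ∀ m ∈ S, ∃ t ∈ T, ∀ p : ℕ, p.Prime → Real.log X < p → p ≤ YY X →
      ¬ p ∣ nn X ν m + t) :
    ∑ m ∈ S, FG X n e ν T m ^ 2 ≤ Real.exp (-e) * S2 X (FG X n e ν T) := by
  obtain ⟨h', Hc⟩ := h.ctx
  have hSm := small_T h ν H hH T hT
  have hB := big_g h
  have hc : Fintype.card T ≤ dR 33 X n C3 := by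
    rw [Fintype.card_coe]
    exact hR
  have hDL : Real.log X < dD 33 X := by
    have h1 := Hc.D_ge
    have h2 := Hc.ev.L1
    have h3 : Real.log X ^ 3 ≤ Real.log X ^ 33 := pow_le_pow_right₀ Hc.L1 (by norm_num)
    have h4 : Real.log X * 4 ≤ Real.log X ^ 3 := by
      have : Real.log X ^ 3 = Real.log X * (Real.log X * Real.log X) := by ring
      rw [this]
      exact mul_le_mul_of_nonneg_left (by nlinarith) Hc.L0.le
    have h5 := Hc.L0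
    linarith
  have hD1 : 1 ≤ dD 33 X := by
    have h1 : (0 : ℝ) < dD 33 X := Hc.L0.trans hDL
    exact_mod_cast h1
  have hzB := Hc.zB
  have hBP := h.BP
  have hDz := Hc.Dz
  have hBlog := Hc.lB.2
  have h1 := f2b (GPa_forms h ν H hH T hT) hSm Pbig_not_dvd hB (dR 33 X n C3) hc (GPa_small h)
    (1 / Real.log (dB X n e)) (one_div_nonneg.2 hBlog.le) (by rw [one_div_mul_cancel hBlog.ne'])
    (NN X) S hS (by
      intro m hm
      obtain ⟨t, ht, h2⟩ := hbad m hm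
      refine ⟨⟨t, ht⟩, fun p hp => ?_, LamF_eq_one hD1 fun p hp => ?_⟩
      · have h3 := mem_Pbig.1 hp
        refine h2 p h3.2.2 (hDL.trans ?_) (by omega)
        exact_mod_cast (by omega : dD 33 X < p)
      · rw [mem_filter, mem_Ioc] at hp
        refine h2 p hp.2 (hDL.trans ?_) (by omega)
        exact_mod_cast hp.1.1)
  obtain ⟨hlow, -⟩ := low_g h ν H hH T hT hR
  have hθ := Hc.hθ GPa_C3 (cg_le h).1 (cg_le h).2
  obtain ⟨hQ1, -, hQ2⟩ := GPa_Q h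
  have hN := Hc.hN GPa_C3 h.Nbig
  have hM := one_le_Mw hSm hB
  have hε := dε_pos e
  have hε1 := Hc.ε1
  obtain ⟨M, hMd⟩ : ∃ M : ℝ, M = Mw (Pbig (dz X n e) (dB X n e))
      (∏ p ∈ (Ioc (dD 33 X) (dz X n e)).filter Nat.Prime, p)
      (fun i : T => LamF (dD 33 X) (dz X n e) (hit X ν T) i) (cg X n e) (dB X n e) (dY X) := ⟨_, rfl⟩
  have hS2 : ∀ S : Finset ℕ, ∑ m ∈ S, FG X n e ν T m ^ 2 =
      ∑ m ∈ S, Pw (Pbig (dz X n e) (dB X n e)) (hit X ν T)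
      (fun i : T => LamF (dD 33 X) (dz X n e) (hit X ν T) i) (cg X n e) (dB X n e) (dY X) m ^ 2 :=
    fun _ => rfl
  rw [← hMd] at h1 hM hlow
  rw [← hS2] at h1
  have hN0 : (0 : ℝ) ≤ NN X := Nat.cast_nonneg _
  have hR0 : (0 : ℝ) ≤ dR 33 X n C3 := Nat.cast_nonneg _
  obtain ⟨Q, hQ⟩ : ∃ Q : ℝ, Q = (2 ^ dR 33 X n C3 * (dY X : ℝ) ^ 2 *
    ((dz X n e : ℝ) ^ 248) ^ (dK n e + 1)) ^ 4 := ⟨_, rfl⟩
  have hQ0 : 0 ≤ Q := by
    rw [hQ]
    positivity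
  rw [← hQ] at hQ2 hN
  have h5 : 100 * ((dR 33 X n C3 : ℝ) * Q) ≤ dε e * NN X := by
    have : 100 * ((dR 33 X n C3 : ℝ) + 1) * Q = 100 * Q + 100 * ((dR 33 X n C3 : ℝ) * Q) := by ring
    linarith
  have hNM : (NN X : ℝ) ≤ NN X * M := le_mul_of_one_le_right hN0 hM
  have hNM0 : 0 ≤ (NN X : ℝ) * M := by positivity
  have h6 : (dR 33 X n C3 : ℝ) * Nm (dR 33 X n C3) (dY X) (dK n e + 1)
      ((dz X n e : ℝ) ^ 248) ^ 2 ≤ (dR 33 X n C3 : ℝ) * Q := mul_le_mul_of_nonneg_left hQ2 hR0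
  have h8 : dε e * (NN X : ℝ) ≤ dε e * (NN X * M) := mul_le_mul_of_nonneg_left hNM hε.le
  have hM0 : 0 ≤ M := zero_le_one.trans hM
  have h9 := mul_le_mul_of_nonneg_left (mul_le_mul_of_nonneg_right hθ hM0) hN0
  have h10 : (NN X : ℝ) * (dε e / 2 * M) = dε e / 2 * (NN X * M) := by ring
  rw [h10] at h9
  have h11 : ∑ m ∈ S, FG X n e ν T m ^ 2 ≤ dε e / 2 * (NN X * M) + 1 / 100 * (dε e * (NN X * M)) := by
    refine h1.trans ?_
    linarith
  have h12 : dε e * ((NN X : ℝ) * M) ≤ 1 / 100 * (NN X * M) :=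
    mul_le_mul_of_nonneg_right hε1 hNM0
  have h13 : (1 - dε e) * ((NN X : ℝ) * M) = NN X * M - dε e * (NN X * M) := by ring
  rw [h13] at hlow
  have h14 : (NN X : ℝ) * M ≤ 100 / 99 * S2 X (FG X n e ν T) := by linarith
  have h15 : dε e * ((NN X : ℝ) * M) ≤ dε e * (100 / 99 * S2 X (FG X n e ν T)) :=
    mul_le_mul_of_nonneg_left h14 hε.le
  have h16 : Real.exp (-e) = 100 * dε e := by
    unfold dε
    ring
  have h17 : 0 ≤ dε e * S2 X (FG X n e ν T) := by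
    have : 0 ≤ S2 X (FG X n e ν T) := sum_nonneg fun m _ => sq_nonneg _
    positivity
  rw [h16]
  linarith

/-- PROOF. `f3b` with `Om = dO n e` (`Ctx.X2`, `Pbig_hits`: `n + t ≤ 2 X ≤ X^2`), `Ctx.h16`, `Ctx.hC4`. -/
theorem four_g (h : GF Cr X n e) (ν H : ℕ) (hν : ν < WW X) (hH : H < zz X) (T : Finset ℕ)
    (hT : ∀ t ∈ T, t ≤ H) (hR : T.card ≤ dR 33 X n C3) :
    ∑ m ∈ range (NN X), FG X n e ν T m ^ 4 ≤ dC4 n e C3 * NN X := by
  obtain ⟨h', Hc⟩ := h.ctx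
  have hSm := small_T h ν H hH T hT
  have hB := big_g h
  have hc : Fintype.card T ≤ dR 33 X n C3 := by
    rw [Fintype.card_coe]
    exact hR
  have hX3 := h.xf.X3
  have hzW := h.xf.zW
  have h1 := f3b hSm hB (hit X ν T) (dO n e) (dR 33 X n C3) hc (NN X) (by
    intro m hm i
    have hi := hT _ i.2
    refine Pbig_hits (L := X ^ 2) ?_ ?_ Hc.X2
    · have hW : 0 < WW X := by omega
      have : 0 < nn X ν m := by
        unfold nn
        positivity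
      omega
    · have hm2 : m + 4 ≤ X / WW X := by
        unfold NN at hm
        omega
      have h2 : WW X * (X / WW X) ≤ X := Nat.mul_div_le X (WW X)
      have h3 : WW X * (X / WW X + 1 + m) + 3 * WW X ≤ 2 * (WW X * (X / WW X)) := by
        have h4 : WW X * (m + 4) ≤ WW X * (X / WW X) := Nat.mul_le_mul_left _ hm2
        nlinarith
      have h5 : nn X ν m + (i : ℕ) ≤ 2 * X := by
        unfold nn
        omega
      have h6 : 2 * X ≤ X ^ 2 := by nlinarith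
      omega)
  have h2 : ∑ m ∈ range (NN X), FG X n e ν T m ^ 4 ≤ (16 * 2 ^ (dO n e + 1)) ^ (4 * dK n e) *
      (NN X * Real.exp (dR 33 X n C3 * (12 * (Real.log (dD 33 X) / Real.log (dz X n e)))) +
        2 ^ dR 33 X n C3 * ((dz X n e : ℝ) ^ 248) ^ (16 * dK n e)) := h1
  refine h2.trans ?_
  have h3 := Hc.h16 GPa_C3 h.Nbig
  have h4 := Hc.hC4 GPa_C3
  have h5 : 1 ≤ Real.exp (dR 33 X n C3 * (12 * (Real.log (dD 33 X) / Real.log (dz X n e)))) :=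
    Real.one_le_exp Hc.Rv0
  have hN0 : (0 : ℝ) ≤ NN X := Nat.cast_nonneg _
  obtain ⟨E, hE⟩ : ∃ E : ℝ, E = Real.exp (dR 33 X n C3 *
    (12 * (Real.log (dD 33 X) / Real.log (dz X n e)))) := ⟨_, rfl⟩
  obtain ⟨G, hG⟩ : ∃ G : ℝ, G = (16 * 2 ^ (dO n e + 1)) ^ (4 * dK n e) := ⟨_, rfl⟩
  have hG0 : 0 ≤ G := by
    rw [hG]
    positivity
  rw [← hE, ← hG]
  rw [← hE, ← hG] at h4
  rw [← hE] at h5
  have h6 : (NN X : ℝ) ≤ NN X * E := le_mul_of_one_le_right hN0 h5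
  calc G * (NN X * E + 2 ^ dR 33 X n C3 * ((dz X n e : ℝ) ^ 248) ^ (16 * dK n e))
      ≤ G * (NN X * E + NN X * E) := mul_le_mul_of_nonneg_left (by linarith) hG0
    _ = 2 * G * E * NN X := by ring
    _ ≤ dC4 n e C3 * NN X := mul_le_mul_of_nonneg_right h4 hN0

end Pool.Agent.H.MP_711652_nt.CG
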