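import Pool.Agent.H.MP_711652_nt.CG.GPa

/-! # MP_711652, CG: the coefficients of the sifting function -/

set_option autoImplicit false

namespace Pool.Agent.H.MP_711652_nt.CG

open Finset Pool.Agent.H.MP_711652_nt.LG Pool.Agent.H.MP_711652_nt.G2 Pool.Agent.H.MP_711652_nt.CH

variable {Cr : ℝ} {X n : ℕ} {e : ℝ}

private theorem GPb_YY (h : GF Cr X n e) : 3 ≤ YY X := by
  obtain ⟨h', H⟩ := h.ctx
  have h1 := H.z3
  have h2 := H.zB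
  have h3 := h.BP
  omega

private theorem GPb_D (h : GF Cr X n e) : Real.exp 40 ≤ dD 33 X := by
  obtain ⟨h', H⟩ := h.ctx
  have h1 := h.sm
  have hL := H.ev.L1
  have hL0 := H.L0
  have h2 : (0 : ℝ) ≤ Real.log X * dR 33 X n C3 * kk X := by positivity
  have h3 : (0 : ℝ) ≤ Real.log X ^ 2 * (dR 33 X n C3 : ℝ) ^ 2 := by positivity
  have h4 : Real.log X ^ 4 * 1 ≤ Real.log X ^ 4 * ((dK n e : ℝ) ^ 2 + 1) := by
    refine mul_le_mul_of_nonneg_left ?_ (by positivity)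
    have := sq_nonneg (dK n e : ℝ)
    linarith
  have h5 : (10000000000000000 : ℝ) ^ 4 ≤ Real.log X ^ 4 :=
    pow_le_pow_left₀ (by norm_num) hL 4
  have h6 : Real.exp 40 ≤ 3 ^ 40 := by
    have h7 : Real.exp 40 = Real.exp 1 ^ 40 := by
      rw [← Real.exp_nat_mul]
      norm_num
    rw [h7]
    refine pow_le_pow_left₀ (Real.exp_pos 1).le ?_ 40
    have := Real.exp_one_lt_d9
    linarith
  have h7 : (3 : ℝ) ^ 40 ≤ 1000000 * (10000000000000000 : ℝ) ^ 4 := by norm_num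
  linarith

/-- PROOF. `vt2` with `P = CH.PP X`, `D = dD 33 X`, `K = dK n e`, `Ks = kk X`, `Λ = log X` (`big_g`, `forms_T`, `h.small`, `h.lamK`, `h.lamR`, `h.sm`, `card T ≤ dR 33 X n C3`); total: `h.tota`. -/
theorem coef_g (h : GF Cr X n e) (ν H : ℕ) (hH : H < zz X) (T : Finset ℕ) (hT : ∀ t ∈ T, t ≤ H)
    (hR : T.card ≤ dR 33 X n C3) :
    ∃ v a : (CH.PP X → Option T) → ℝ,
      (∀ m, FG X n e ν T m = ∑ ρ : CH.PP X → Option T, v ρ * Phi (CH.PP X) (hit X ν T) ρ m) ∧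
      CoefK (4 * Real.log X) (CH.PP X) a (Yt X n e) ∧ (∀ ρ, |v ρ| ≤ a ρ) ∧
      mass (CH.PP X) a ≤ 2 * mass (CH.PP X) v ∧
      tot (CH.PP X) a ≤ (X : ℝ) ^ (1 / 1000 : ℝ) := by
  obtain ⟨h', Hc⟩ := h.ctx
  have hDz := Hc.Dz
  have hL0 := Hc.L0
  have hz3 := Hc.z3
  have hc : (Fintype.card T : ℝ) ≤ dR 33 X n C3 := by
    rw [Fintype.card_coe]
    exact_mod_cast hR
  have hc0 : (0 : ℝ) ≤ Fintype.card T := Nat.cast_nonneg _
  have hPs : Psm (dD 33 X) (dz X n e) ⊆ CH.PP X := by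
    intro p hp
    unfold Psm at hp
    rw [mem_filter, mem_Ioc] at hp
    have h1 := h.DP
    have h2 := Hc.zB
    have h3 := h.BP
    exact mem_Pbig.2 ⟨by omega, by omega, hp.2⟩
  have hlz : 0 ≤ Real.log (dz X n e) := Real.log_natCast_nonneg _
  obtain ⟨v, a, h1, h2, h3, h4, h5⟩ := vt2 (forms_T h ν H hH T hT) (big_g h) hPs (GPa_sub h)
    (GPb_D h) (by omega) h.small h.xf.L1 h.lamK (by
      have := h.lamR
      linarith) (by
      refine le_trans ?_ h.sm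
      gcongr)
  refine ⟨v, a, h1, h2, h3, h4, h5.trans (le_trans ?_ h.tota)⟩
  gcongr

/-- PROOF. `upK1`, `lowK1` for the coefficients of `coef_g` with `Y = Yt * (YY * YY)` (`h.num`), `h.nrm` and `S2 ≥ N/2` (`low_g`): the error is at most `N / 60000`,
the mass of `v` is at least `1/3`. -/
theorem mass_g (h : GF Cr X n e) (ν H : ℕ) (hH : H < zz X) (T : Finset ℕ) (hT : ∀ t ∈ T, t ≤ H)
    (hR : T.card ≤ dR 33 X n C3) (v a : (CH.PP X → Option T) → ℝ)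
    (h1 : ∀ m, FG X n e ν T m = ∑ ρ : CH.PP X → Option T, v ρ * Phi (CH.PP X) (hit X ν T) ρ m)
    (h2 : CoefK (4 * Real.log X) (CH.PP X) a (Yt X n e)) (h3 : ∀ ρ, |v ρ| ≤ a ρ)
    (h4 : mass (CH.PP X) a ≤ 2 * mass (CH.PP X) v)
    (h5 : tot (CH.PP X) a ≤ (X : ℝ) ^ (1 / 1000 : ℝ)) :
    1 / 3 ≤ mass (CH.PP X) v ∧
      1 / 20000 * mass (CH.PP X) a ≤ 1 / 1000 * mass (CH.PP X) v ∧
      S2 X (FG X n e ν T) ≤ (1 + 1 / 400) * (NN X * mass (CH.PP X) v) ∧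
      (1 - 1 / 400) * (NN X * mass (CH.PP X) v) ≤ S2 X (FG X n e ν T) := by
  have hY3 := GPb_YY h
  have hYle : Yt X n e ≤ Yt X n e * (YY X * YY X) :=
    Nat.le_mul_of_pos_right _ (Nat.mul_pos (by omega) (by omega))
  have hC : CoefK (4 * Real.log X) (CH.PP X) a (Yt X n e * (YY X * YY X)) :=
    ⟨h2.prime, h2.nonneg, h2.sub, fun σ hσ => (h2.level σ hσ).trans hYle⟩
  have hF := forms_T h ν H hH T hT
  have hc : Fintype.card T ≤ dR 33 X n C3 + 2 := by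
    rw [Fintype.card_coe]
    omega
  have hup := upK1 hF hC h.num hc v h3 (NN X)
  have hlo := lowK1 hF hC h.num hc v h3 (NN X)
  obtain ⟨-, hN2⟩ := low_g h ν H hH T hT hR
  have hS : S2 X (FG X n e ν T) =
      ∑ m ∈ range (NN X), (∑ ρ : CH.PP X → Option T, v ρ * Phi (CH.PP X) (hit X ν T) ρ m) ^ 2 := by
    unfold S2
    exact sum_congr rfl fun m _ => by rw [h1 m]
  rw [← hS] at hup hlo
  have hN0 : (1 : ℝ) ≤ NN X := by exact_mod_cast h.xf.N0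
  have ht0 : 0 ≤ tot (CH.PP X) a := Finset.sum_nonneg fun ρ _ => h2.nonneg ρ
  obtain ⟨Q, hQ⟩ : ∃ Q : ℝ, Q = (((Yt X n e * (YY X * YY X) : ℕ) : ℝ)) ^ 2 := ⟨_, rfl⟩
  have hQ0 : 0 ≤ Q := by
    rw [hQ]
    positivity
  obtain ⟨x, hx⟩ : ∃ x : ℝ, x = (X : ℝ) ^ (1 / 1000 : ℝ) := ⟨_, rfl⟩
  have hx0 : 0 ≤ x := by
    rw [hx]
    positivity
  have hnrm := h.nrm
  rw [← hQ, ← hx] at hnrm
  rw [← hx] at h5
  rw [← hQ] at hup hlo
  have hE : (tot (CH.PP X) a * Q) ^ 2 ≤ (x * Q) ^ 2 :=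
    pow_le_pow_left₀ (mul_nonneg ht0 hQ0) (mul_le_mul_of_nonneg_right h5 hQ0) 2
  have hY9 : (9 : ℝ) ≤ (YY X : ℝ) ^ 2 := by
    have : (3 : ℝ) ≤ YY X := by exact_mod_cast hY3
    nlinarith
  have hE2 : 144000 * (x * Q) ^ 2 ≤ NN X := by
    have h6 : 1000 * (4 * x * Q) ^ 2 * (YY X : ℝ) ^ 2 = 16000 * (x * Q) ^ 2 * (YY X : ℝ) ^ 2 := by
      ring
    rw [h6] at hnrm
    have h7 : 16000 * (x * Q) ^ 2 * 9 ≤ 16000 * (x * Q) ^ 2 * (YY X : ℝ) ^ 2 :=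
      mul_le_mul_of_nonneg_left hY9 (by positivity)
    linarith
  obtain ⟨E, hEd⟩ : ∃ E : ℝ, E = (tot (CH.PP X) a * Q) ^ 2 := ⟨_, rfl⟩
  rw [← hEd] at hup hlo hE
  obtain ⟨N, hN⟩ : ∃ N : ℝ, N = (NN X : ℝ) := ⟨_, rfl⟩
  obtain ⟨Mv, hMv⟩ : ∃ M : ℝ, M = mass (CH.PP X) v := ⟨_, rfl⟩
  obtain ⟨Ma, hMa⟩ : ∃ M : ℝ, M = mass (CH.PP X) a := ⟨_, rfl⟩
  obtain ⟨S, hSd⟩ : ∃ S : ℝ, S = S2 X (FG X n e ν T) := ⟨_, rfl⟩
  rw [← hN] at hup hlo hN2 hN0 hE2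
  rw [← hMv, ← hMa] at hup hlo h4
  rw [← hSd] at hup hlo hN2
  rw [← hMv, ← hMa, ← hSd, ← hN]
  have hEN : 144000 * E ≤ N := by linarith
  have hNp : 0 < N := by linarith
  have hup2 : N * (Mv + 1 / 20000 * Ma) ≤ N * (Mv + 1 / 20000 * (2 * Mv)) := by
    refine mul_le_mul_of_nonneg_left ?_ hNp.le
    linarith
  have hlo2 : N * (Mv - 1 / 20000 * (2 * Mv)) ≤ N * (Mv - 1 / 20000 * Ma) := by
    refine mul_le_mul_of_nonneg_left ?_ hNp.le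
    linarith
  have hM : 1 / 3 ≤ Mv := by
    by_contra hcon
    rw [not_le] at hcon
    have h6 : N * (Mv + 1 / 20000 * (2 * Mv)) ≤ N * (1 / 3 + 1 / 20000 * (2 * (1 / 3))) := by
      refine mul_le_mul_of_nonneg_left ?_ hNp.le
      linarith
    linarith
  have hNM : N * (1 / 3) ≤ N * Mv := mul_le_mul_of_nonneg_left hM hNp.le
  refine ⟨hM, by linarith, ?_, ?_⟩
  · have h6 : N * (Mv + 1 / 20000 * (2 * Mv)) = N * Mv + 1 / 10000 * (N * Mv) := by ring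
    linarith
  · have h6 : N * (Mv - 1 / 20000 * (2 * Mv)) = N * Mv - 1 / 10000 * (N * Mv) := by ring
    linarith

end Pool.Agent.H.MP_711652_nt.CG
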