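import Pool.Agent.H.MP_711652_nt.CG.GPb
import Pool.Agent.H.MP_711652_nt.CH.PsiOne

/-! # MP_711652, CG: upper bounds at the primes -/

set_option autoImplicit false

namespace Pool.Agent.H.MP_711652_nt.CG

open Finset Pool.Agent.H.MP_711652_nt.LG Pool.Agent.H.MP_711652_nt.G2 Pool.Agent.H.MP_711652_nt.CH

variable {Cr : ℝ} {X n : ℕ} {e : ℝ}

private theorem GPc_card {T : Finset ℕ} {R : ℕ} (hR : T.card ≤ R) : Fintype.card T ≤ R := by
  rw [Fintype.card_coe]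
  exact hR

/-- The numbers: main terms and error. -/
private theorem GPc_num {J Y N S mv ma ε E k : ℝ} (hJ1 : 1 ≤ J) (hJY : J ≤ Y) (hN : 0 ≤ N)
    (hε : ε ≤ 1) (hmv : 1 / 3 ≤ mv) (hma : ε * ma ≤ 1 / 1000 * mv)
    (hS : (1 - 1 / 400) * (N * mv) ≤ S) (hE : 1000 * E * Y ^ 2 ≤ N) (hE0 : 0 ≤ E) (hk : 1 ≤ k)
    (hkJ : k ≤ J ^ 2) :
    N * ((1 + ε) * (mv * (1 / k)) + ε * (ma * (1 / k))) + E ≤ 3 / k * S := by
  have hk0 : 0 < k := by linarith
  have h1 : N * ((1 + ε) * (mv * (1 / k)) + ε * (ma * (1 / k))) =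
      N * ((1 + ε) * mv + ε * ma) / k := by
    field_simp
  have h2 : N * ((1 + ε) * mv + ε * ma) ≤ N * ((2 + 1 / 1000) * mv) := by
    refine mul_le_mul_of_nonneg_left ?_ hN
    nlinarith
  have h3 : E * k ≤ N / 1000 := by
    have h4 : J ^ 2 ≤ Y ^ 2 := by gcongr
    have h5 : E * k ≤ E * Y ^ 2 := mul_le_mul_of_nonneg_left (hkJ.trans h4) hE0
    linarith
  have h6 : N / 3 ≤ N * mv := by
    have := mul_le_mul_of_nonneg_left hmv hN
    linarith
  have h7 : E = E * k / k := by field_simp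
  rw [h1, h7, ← add_div, div_mul_eq_mul_div]
  refine div_le_div_of_nonneg_right ?_ hk0.le
  nlinarith

/-- PROOF. As `CH.psi_one`: `upK2` with `bS` (mass and majorant mass `1 / JX`, total 1), `mass_g`, `h.nrm`, `JX_le`. -/
theorem one_g (h : GF Cr X n e) (ν H : ℕ) (hH : H < zz X) (T : Finset ℕ) (hT : ∀ t ∈ T, t ≤ H)
    (hR : T.card ≤ dR 33 X n C3) (t : ℕ) (ht : t ≤ H) (htT : t ∉ T) :
    ∑ m ∈ range (NN X), FG X n e ν T m ^ 2 * ip (nn X ν m + t) ≤
      3 / JX X * S2 X (FG X n e ν T) := by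
  have hP := h.xf.big.prime
  have hY1 := h.xf.big.hY
  have hYr : (1 : ℝ) ≤ YY X := by exact_mod_cast hY1
  have hJ1 : 1 ≤ JX X := one_le_JJ hP hY1
  have hJ0 : 0 < JX X := by linarith
  have hJY := JX_le h.xf
  obtain ⟨v, a, hv, ha, hva, hm1, ht1⟩ := coef_g h ν H hH T hT hR
  obtain ⟨hg1, hg2, hg3, hg4⟩ := mass_g h ν H hH T hT hR v a hv ha hva hm1 ht1
  obtain ⟨o, ho⟩ : ∃ o : T ⊕ Unit → ℕ, o = Sum.elim (fun i : T => (i : ℕ)) (fun _ => t) :=
    ⟨_, rfl⟩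
  have hinj : Function.Injective o := by
    rw [ho]
    refine Function.Injective.sumElim Subtype.coe_injective (fun _ _ _ => rfl) ?_
    rintro ⟨a, ha⟩ b hab
    simp only at hab
    exact htT (hab ▸ ha)
  have hoH : ∀ i, o i ≤ H := by
    rw [ho]
    rintro (i | i)
    · exact hT i i.2
    · exact ht
  have hF := forms_gen h.xf ν H hH o hinj hoH
  have hc2 := bS_coef hP hY1
  have hYY : Yt X n e * YY X ≤ Yt X n e * (YY X * YY X) :=
    Nat.mul_le_mul_left _ (Nat.le_mul_of_pos_left _ hY1)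
  have hcard : Fintype.card T + Fintype.card Unit ≤ dR 33 X n C3 + 2 := by
    have := GPc_card hR
    rw [Fintype.card_unit]
    omega
  have key := upK2 (A := fun p i m => p ∣ nn X ν m + o i) hF ha (CoefK.of_coef hc2 h.num.κ1) hYY
    h.num hcard v (bS (CH.PP X) (YY X)) hva
    (fun σ => (abs_of_nonneg (hc2.nonneg σ)).le) (NN X)
  have hmass : mass (CH.PP X) (bS (CH.PP X) (YY X)) = 1 / JX X := bS_mass hP hY1
  have htot : tot (CH.PP X) (bS (CH.PP X) (YY X)) = 1 := bS_tot hP hY1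
  have htot0 : 0 ≤ tot (CH.PP X) a := sum_nonneg fun σ _ => ha.nonneg σ
  rw [hmass, htot] at key
  have hlhs : ∑ m ∈ range (NN X), FG X n e ν T m ^ 2 * ip (nn X ν m + t) ≤
      ∑ m ∈ range (NN X), ((∑ σ : CH.PP X → Option T, v σ *
        Phi (CH.PP X) (fun p i => (fun p i m => p ∣ nn X ν m + o i) p (Sum.inl i)) σ m) *
        (∑ τ : CH.PP X → Option Unit, bS (CH.PP X) (YY X) τ *
        Phi (CH.PP X) (fun p i => (fun p i m => p ∣ nn X ν m + o i) p (Sum.inr i)) τ m)) ^ 2 := by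
    refine sum_le_sum fun m _ => ?_
    have e1 : (∑ σ : CH.PP X → Option T, v σ *
        Phi (CH.PP X) (fun p i => (fun p i m => p ∣ nn X ν m + o i) p (Sum.inl i)) σ m) =
        FG X n e ν T m := by
      rw [hv m, ho]
      rfl
    rw [e1]
    unfold ip
    split_ifs with hpr
    · have e2 : (∑ τ : CH.PP X → Option Unit, bS (CH.PP X) (YY X) τ *
          Phi (CH.PP X) (fun p i => (fun p i m => p ∣ nn X ν m + o i) p (Sum.inr i)) τ m) = 1 := by
        rw [ho]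
        exact sel_one h.xf ν m t hpr
      rw [e2, mul_one, mul_one]
    · rw [mul_zero]
      exact sq_nonneg _
  refine hlhs.trans (key.trans ?_)
  have hN0 : (0 : ℝ) ≤ NN X := Nat.cast_nonneg _
  obtain ⟨E, hE⟩ : ∃ E : ℝ, E = (4 * (X : ℝ) ^ (1 / 1000 : ℝ) *
    ((Yt X n e * (YY X * YY X) : ℕ) : ℝ) ^ 2) ^ 2 := ⟨_, rfl⟩
  have hE0 : 0 ≤ E := by rw [hE]; positivity
  have hX0 : (0 : ℝ) ≤ (X : ℝ) ^ (1 / 1000 : ℝ) := by positivity
  have herr : (2 * (tot (CH.PP X) a * 1) * ((Yt X n e * (YY X * YY X) : ℕ) : ℝ) ^ 2) ^ 2 ≤ E := by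
    rw [hE]
    have h1 : 2 * (tot (CH.PP X) a * 1) ≤ 4 * (X : ℝ) ^ (1 / 1000 : ℝ) := by linarith
    gcongr
  have hnrm : 1000 * E * (YY X : ℝ) ^ 2 ≤ NN X := by
    rw [hE]
    exact h.nrm
  have hfin := GPc_num hJ1 hJY hN0 h.num.ε1 hg1 hg2 hg4 hnrm hE0 hJ1
    (by nlinarith : JX X ≤ JX X ^ 2)
  linarith

/-- PROOF. As `CH.psi_two`, with `upK3`. -/
theorem two_g (h : GF Cr X n e) (ν H : ℕ) (hH : H < zz X) (T : Finset ℕ) (hT : ∀ t ∈ T, t ≤ H)
    (hR : T.card ≤ dR 33 X n C3) (t t' : ℕ) (ht : t ≤ H) (ht' : t' ≤ H) (htT : t ∉ T)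
    (htT' : t' ∉ T) (hne : t ≠ t') :
    ∑ m ∈ range (NN X), FG X n e ν T m ^ 2 * (ip (nn X ν m + t) * ip (nn X ν m + t')) ≤
      3 / JX X ^ 2 * S2 X (FG X n e ν T) := by
  have hP := h.xf.big.prime
  have hY1 := h.xf.big.hY
  have hYr : (1 : ℝ) ≤ YY X := by exact_mod_cast hY1
  have hJ1 : 1 ≤ JX X := one_le_JJ hP hY1
  have hJ0 : 0 < JX X := by linarith
  have hJY := JX_le h.xf
  obtain ⟨v, a, hv, ha, hva, hm1, ht1⟩ := coef_g h ν H hH T hT hR
  obtain ⟨hg1, hg2, hg3, hg4⟩ := mass_g h ν H hH T hT hR v a hv ha hva hm1 ht1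
  obtain ⟨o, ho⟩ : ∃ o : T ⊕ (Unit ⊕ Unit) → ℕ,
      o = Sum.elim (fun i : T => (i : ℕ)) (Sum.elim (fun _ => t) (fun _ => t')) := ⟨_, rfl⟩
  have hinj : Function.Injective o := by
    rw [ho]
    refine Function.Injective.sumElim Subtype.coe_injective
      (Function.Injective.sumElim (fun _ _ _ => rfl) (fun _ _ _ => rfl) fun _ _ => hne) ?_
    rintro ⟨a, ha⟩ (b | b) hab
    · simp only [Sum.elim_inl] at hab
      exact htT (hab ▸ ha)
    · simp only [Sum.elim_inr] at hab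
      exact htT' (hab ▸ ha)
  have hoH : ∀ i, o i ≤ H := by
    rw [ho]
    rintro (i | i | i)
    · exact hT i i.2
    · exact ht
    · exact ht'
  have hF := forms_gen h.xf ν H hH o hinj hoH
  have hc2 := bS_coef hP hY1
  have hcard : Fintype.card T + (Fintype.card Unit + Fintype.card Unit) ≤ dR 33 X n C3 + 2 := by
    have := GPc_card hR
    rw [Fintype.card_unit]
    omega
  have hcK := CoefK.of_coef hc2 h.num.κ1
  have key := upK3 (A := fun p i m => p ∣ nn X ν m + o i) hF ha hcK hcK (le_refl _)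
    h.num hcard v (bS (CH.PP X) (YY X)) (bS (CH.PP X) (YY X)) hva
    (fun σ => (abs_of_nonneg (hc2.nonneg σ)).le)
    (fun σ => (abs_of_nonneg (hc2.nonneg σ)).le) (NN X)
  have hmass : mass (CH.PP X) (bS (CH.PP X) (YY X)) = 1 / JX X := bS_mass hP hY1
  have htot : tot (CH.PP X) (bS (CH.PP X) (YY X)) = 1 := bS_tot hP hY1
  have htot0 : 0 ≤ tot (CH.PP X) a := sum_nonneg fun σ _ => ha.nonneg σ
  rw [hmass, htot] at key
  have hlhs : ∑ m ∈ range (NN X), FG X n e ν T m ^ 2 * (ip (nn X ν m + t) * ip (nn X ν m + t')) ≤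
      ∑ m ∈ range (NN X), ((∑ σ : CH.PP X → Option T, v σ *
        Phi (CH.PP X) (fun p i => (fun p i m => p ∣ nn X ν m + o i) p (Sum.inl i)) σ m) *
        ((∑ τ : CH.PP X → Option Unit, bS (CH.PP X) (YY X) τ *
        Phi (CH.PP X) (fun p i => (fun p i m => p ∣ nn X ν m + o i) p (Sum.inr (Sum.inl i))) τ m) *
        (∑ τ : CH.PP X → Option Unit, bS (CH.PP X) (YY X) τ *
        Phi (CH.PP X) (fun p i => (fun p i m => p ∣ nn X ν m + o i) p (Sum.inr (Sum.inr i))) τ m))) ^ 2 := by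
    refine sum_le_sum fun m _ => ?_
    have e1 : (∑ σ : CH.PP X → Option T, v σ *
        Phi (CH.PP X) (fun p i => (fun p i m => p ∣ nn X ν m + o i) p (Sum.inl i)) σ m) =
        FG X n e ν T m := by
      rw [hv m, ho]
      rfl
    rw [e1]
    by_cases hpr : (nn X ν m + t).Prime ∧ (nn X ν m + t').Prime
    · have e2 : (∑ τ : CH.PP X → Option Unit, bS (CH.PP X) (YY X) τ *
          Phi (CH.PP X) (fun p i => (fun p i m => p ∣ nn X ν m + o i) p (Sum.inr (Sum.inl i))) τ m) = 1 := by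
        rw [ho]
        exact sel_one h.xf ν m t hpr.1
      have e3 : (∑ τ : CH.PP X → Option Unit, bS (CH.PP X) (YY X) τ *
          Phi (CH.PP X) (fun p i => (fun p i m => p ∣ nn X ν m + o i) p (Sum.inr (Sum.inr i))) τ m) = 1 := by
        rw [ho]
        exact sel_one h.xf ν m t' hpr.2
      rw [e2, e3, ip, ip, if_pos hpr.1, if_pos hpr.2]
      apply le_of_eq
      ring
    · have e4 : ip (nn X ν m + t) * ip (nn X ν m + t') = 0 := by
        unfold ip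
        by_cases h1 : (nn X ν m + t).Prime
        · have h2 : ¬ (nn X ν m + t').Prime := fun h2 => hpr ⟨h1, h2⟩
          rw [if_neg h2, mul_zero]
        · rw [if_neg h1, zero_mul]
      rw [e4, mul_zero]
      exact sq_nonneg _
  refine hlhs.trans (key.trans ?_)
  have hN0 : (0 : ℝ) ≤ NN X := Nat.cast_nonneg _
  obtain ⟨E, hE⟩ : ∃ E : ℝ, E = (4 * (X : ℝ) ^ (1 / 1000 : ℝ) *
    ((Yt X n e * (YY X * YY X) : ℕ) : ℝ) ^ 2) ^ 2 := ⟨_, rfl⟩
  have hE0 : 0 ≤ E := by rw [hE]; positivity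
  have hX0 : (0 : ℝ) ≤ (X : ℝ) ^ (1 / 1000 : ℝ) := by positivity
  have herr : (4 * (tot (CH.PP X) a * (1 * 1)) * ((Yt X n e * (YY X * YY X) : ℕ) : ℝ) ^ 2) ^ 2 ≤
      E := by
    rw [hE]
    have h1 : 4 * (tot (CH.PP X) a * (1 * 1)) ≤ 4 * (X : ℝ) ^ (1 / 1000 : ℝ) := by linarith
    gcongr
  have hnrm : 1000 * E * (YY X : ℝ) ^ 2 ≤ NN X := by
    rw [hE]
    exact h.nrm
  have hfin := GPc_num hJ1 hJY hN0 h.num.ε1 hg1 hg2 hg4 hnrm hE0
    (by nlinarith : 1 ≤ JX X ^ 2) le_rfl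
  have e5 : 1 / JX X * (1 / JX X) = 1 / JX X ^ 2 := by
    field_simp
  rw [e5]
  linarith

end Pool.Agent.H.MP_711652_nt.CG
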