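import Pool.Agent.H.MP_711652_nt.CH.ExpDefs

/-!
# MP_711652, CG (positive proportion of chains): majorants with a constant

`CoefK κ`: a further prime `p` costs a factor `(p - 1) / κ`.  The functions have exact coefficients `v` and a majorant `a`, `|v| ≤ a`; main terms use `v`, error terms `a`.
-/

set_option autoImplicit false

namespace Pool.Agent.H.MP_711652_nt.CG

open Finset Pool.Agent.H.MP_711652_nt.LG Pool.Agent.H.MP_711652_nt.CH

variable {ι : Type*}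

structure CoefK [DecidableEq ι] (κ : ℝ) (P : Finset ℕ) (a : (P → Option ι) → ℝ) (Y : ℕ) : Prop where
  prime : ∀ p ∈ P, p.Prime
  nonneg : ∀ σ, 0 ≤ a σ
  sub : ∀ (σ : P → Option ι) (p : P) (i : ι), σ p = none →
    a (Function.update σ p (some i)) ≤ a σ * (κ / (((p : ℕ) : ℝ) - 1))
  level : ∀ σ, a σ ≠ 0 → DD P σ ≤ Y

/-- the cost of shared primes -/
noncomputable def gamK {ι₁ ι₂ : Type*} (κ R₁ R₂ : ℝ) (p : ℕ) (t : Option (ι₁ ⊕ ι₂)) : ℝ :=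
  match t with
  | none => 1 + κ ^ 2 * (R₁ * R₂) / ((p : ℝ) - 1) ^ 2
  | some (Sum.inl _) => 1 + κ * R₂ / ((p : ℝ) - 1)
  | some (Sum.inr _) => 1 + κ * R₁ / ((p : ℝ) - 1)

/-- The numerical hypotheses: all primes are `≥ D`, a product `≤ Y` has at most `K` of them, at most `R` positions, constant `κ`. -/
structure NumK (κ : ℝ) (P : Finset ℕ) (Y K R : ℕ) (D ε : ℝ) : Prop where
  hD : 100 ≤ D
  ge : ∀ p ∈ P, D ≤ (p : ℝ)
  level : ∀ T ⊆ P, ∏ p ∈ T, p ≤ Y → T.card ≤ K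
  R1 : 1 ≤ R
  κ1 : 1 ≤ κ
  ε0 : 0 < ε
  ε1 : ε ≤ 1
  small : 10000 * κ ^ 2 * ((K + 1 : ℝ) * R + (R : ℝ) ^ 2) / D ≤ ε ^ 2

theorem CoefK.of_coef [DecidableEq ι] {P : Finset ℕ} {a : (P → Option ι) → ℝ} {Y : ℕ}
    (h : Coef P a Y) {κ : ℝ} (hκ : 1 ≤ κ) : CoefK κ P a Y := by
  refine ⟨h.prime, h.nonneg, fun σ p i hp => (h.sub σ p i hp).trans ?_, h.level⟩
  have hp1 : (0 : ℝ) < ((p : ℕ) : ℝ) - 1 := by
    have h2 : (1 : ℝ) < ((p : ℕ) : ℝ) := by exact_mod_cast (h.prime p p.2).one_lt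
    linarith
  rw [div_eq_mul_one_div]
  exact mul_le_mul_of_nonneg_left ((div_le_div_iff_of_pos_right hp1).2 hκ) (h.nonneg σ)

end Pool.Agent.H.MP_711652_nt.CG
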