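import Pool.Agent.H.MP_711652_nt.CG.KDefs

/-! # MP_711652, CG: products on different positions, two-level form

This is `CH/MulS.lean` with the constant `κ`, and with the deviation of the coefficients from the product of the coefficients. -/

set_option autoImplicit false

namespace Pool.Agent.H.MP_711652_nt.CG

open Finset Pool.Agent.H.MP_711652_nt.LG Pool.Agent.H.MP_711652_nt.CH

variable {ι₁ ι₂ : Type*} [Fintype ι₁] [DecidableEq ι₁] [Fintype ι₂] [DecidableEq ι₂]

/-- Iterated `CoefK.sub`. -/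
theorem CoefK.sub_many {ι : Type*} [DecidableEq ι] {κ : ℝ} {P : Finset ℕ}
    {a : (P → Option ι) → ℝ} {Y : ℕ} (hκ : 0 ≤ κ)
    (h : CoefK κ P a Y) (σ₀ σ : P → Option ι) (hσ : ∀ p, σ₀ p ≠ none → σ p = σ₀ p) :
    a σ ≤ a σ₀ * ∏ p : P, (if σ₀ p = none ∧ σ p ≠ none then κ / (((p : ℕ) : ℝ) - 1) else 1) := by
  have key : ∀ T : Finset P, a (fun p => if p ∈ T then σ p else σ₀ p) ≤
      a σ₀ * ∏ p ∈ T, (if σ₀ p = none ∧ σ p ≠ none then κ / (((p : ℕ) : ℝ) - 1) else 1) := by
    intro T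
    induction T using Finset.induction_on with
    | empty => simp
    | insert q T hq ih =>
      have hf : (fun p => if p ∈ insert q T then σ p else σ₀ p) =
          Function.update (fun p => if p ∈ T then σ p else σ₀ p) q (σ q) := by
        funext p
        by_cases hp : p = q
        · subst hp
          rw [Function.update_self, if_pos (Finset.mem_insert_self _ _)]
        · rw [Function.update_of_ne hp]
          have : p ∈ insert q T ↔ p ∈ T := by
            rw [Finset.mem_insert]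
            exact ⟨fun h => h.resolve_left hp, Or.inr⟩
          simp only [this]
      have hfq : (fun p => if p ∈ T then σ p else σ₀ p) q = σ₀ q := by
        show (if q ∈ T then σ q else σ₀ q) = σ₀ q
        rw [if_neg hq]
      rw [Finset.prod_insert hq, hf]
      by_cases hc : σ₀ q = none ∧ σ q ≠ none
      · rw [if_pos hc]
        obtain ⟨i, hi⟩ := Option.ne_none_iff_exists'.mp hc.2
        rw [hi]
        refine (h.sub _ q i (hfq.trans hc.1)).trans ?_
        have hp1 : (0 : ℝ) < ((q : ℕ) : ℝ) - 1 := by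
          have := (h.prime q q.2).one_lt
          have h2 : (1 : ℝ) < ((q : ℕ) : ℝ) := by exact_mod_cast this
          linarith
        refine (mul_le_mul_of_nonneg_right ih (div_nonneg hκ hp1.le)).trans (le_of_eq ?_)
        ring
      · rw [if_neg hc, one_mul]
        have hs : σ q = σ₀ q := by
          by_cases h0 : σ₀ q = none
          · rw [h0]
            by_contra h1
            exact hc ⟨h0, h1⟩
          · exact hσ q h0
        rw [hs, ← hfq, Function.update_eq_self]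
        exact ih
  have h1 := key Finset.univ
  simpa using h1

/-- Expansion of a product of sums. -/
private theorem prodsum {α β : Type*} [Fintype α] [DecidableEq α] [Fintype β] [DecidableEq β]
    (f : α → β → ℝ) : ∏ p, ∑ k, f p k = ∑ x : α → β, ∏ p, f p (x p) := by
  rw [Finset.prod_univ_sum, Fintype.piFinset_univ]

/-- The local coefficients of a product. -/
private noncomputable def eps (s : Option ι₁) (t : Option ι₂) (u : Option (ι₁ ⊕ ι₂)) : ℝ :=
  match s, t with
  | none, none => if u = none then 1 else 0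
  | some i, none => if u = some (Sum.inl i) then 1 else 0
  | none, some j => if u = some (Sum.inr j) then 1 else 0
  | some i, some j => (if u = some (Sum.inl i) then 1 else 0) +
      (if u = some (Sum.inr j) then 1 else 0) - (if u = none then 1 else 0)

private theorem eps_local {P : Finset ℕ} {A : ℕ → ι₁ ⊕ ι₂ → ℕ → Prop} (hF : Forms P A) {p : ℕ}
    (hp : p ∈ P) (s : Option ι₁) (t : Option ι₂) (m : ℕ) :
    Ef (fun p i => A p (Sum.inl i)) p s m * Ef (fun p i => A p (Sum.inr i)) p t m =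
      ∑ u : Option (ι₁ ⊕ ι₂), eps s t u * Ef A p u m := by
  classical
  rcases s with _ | i <;> rcases t with _ | j
  · simp [eps, Ef]
  · simp [eps, Ef]
  · simp [eps, Ef]
  · have hd : ¬ (A p (Sum.inl i) m ∧ A p (Sum.inr j) m) := by
      rintro ⟨h1, h2⟩
      exact hF.disj p hp (Sum.inl i) (Sum.inr j) m (by simp) h1 h2
    have e : ∑ u : Option (ι₁ ⊕ ι₂), eps (some i) (some j) u * Ef A p u m =
        Ef A p (some (Sum.inl i)) m + Ef A p (some (Sum.inr j)) m - Ef A p none m := by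
      simp only [eps, add_mul, sub_mul, ite_mul, one_mul, zero_mul, Finset.sum_add_distrib,
        Finset.sum_sub_distrib, Finset.sum_ite_eq', Finset.mem_univ, if_true]
    rw [e]
    unfold Ef
    by_cases h1 : A p (Sum.inl i) m
    · have h2 : ¬ A p (Sum.inr j) m := fun h2 => hd ⟨h1, h2⟩
      simp only [if_pos h1, if_neg h2]
      ring
    · simp only [if_neg h1]
      ring

/-- The local costs. -/
private noncomputable def cst {ι : Type*} [DecidableEq ι] (κ : ℝ) (p : ℕ) (l s : Option ι) : ℝ :=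
  if l = none ∧ s ≠ none then κ / ((p : ℝ) - 1) else 1

private theorem cst_nonneg {ι : Type*} [DecidableEq ι] {κ : ℝ} (hκ : 0 ≤ κ) {p : ℕ} (hp : p.Prime)
    (l s : Option ι) : 0 ≤ cst κ p l s := by
  unfold cst
  have h2 : (1 : ℝ) < (p : ℝ) := by exact_mod_cast hp.one_lt
  split_ifs
  · exact div_nonneg hκ (by linarith)
  · exact zero_le_one

private theorem abs_ind {ι : Type*} [DecidableEq ι] (i x : ι) :
    |(if i = x then (1 : ℝ) else 0)| = if i = x then 1 else 0 := by
  split_ifs <;> simp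

private theorem loc_sum (κ : ℝ) (p : ℕ) (u : Option (ι₁ ⊕ ι₂)) :
    ∑ s : Option ι₁, ∑ t : Option ι₂, |eps s t u| * (cst κ p (u.bind Sum.getLeft?) s *
      cst κ p (u.bind Sum.getRight?) t) =
      gamK κ (Fintype.card ι₁ : ℝ) (Fintype.card ι₂ : ℝ) p u := by
  rcases u with _ | (i | j)
  · rw [Fintype.sum_option]
    simp only [Fintype.sum_option]
    simp [eps, cst, gamK]
    rw [div_eq_mul_inv, div_eq_mul_inv, ← inv_pow]
    ring
  · rw [Fintype.sum_option]
    simp only [Fintype.sum_option]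
    simp [eps, cst, gamK]
    simp only [abs_ind, Finset.sum_add_distrib, ← Finset.mul_sum, ← Finset.sum_mul,
      Finset.sum_ite_eq, Finset.mem_univ, if_true]
    rw [div_eq_mul_inv]
    ring
  · rw [Fintype.sum_option]
    simp only [Fintype.sum_option]
    simp [eps, cst, gamK]
    simp only [abs_ind, Finset.sum_add_distrib, ← Finset.mul_sum, ← Finset.sum_mul,
      Finset.sum_ite_eq, Finset.mem_univ, if_true]
    rw [div_eq_mul_inv]
    ring

private theorem eps_left {s : Option ι₁} {t : Option ι₂} {u : Option (ι₁ ⊕ ι₂)}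
    (h : eps s t u ≠ 0) (hu : u.bind Sum.getLeft? ≠ none) : s = u.bind Sum.getLeft? := by
  rcases u with _ | (i | j)
  · simp at hu
  · rcases s with _ | i' <;> rcases t with _ | j'
    · simp [eps] at h
    · simp [eps] at h
    · simp [eps] at h
      simp [h]
    · simp [eps] at h
      simp [h]
  · simp at hu

private theorem eps_right {s : Option ι₁} {t : Option ι₂} {u : Option (ι₁ ⊕ ι₂)}
    (h : eps s t u ≠ 0) (hu : u.bind Sum.getRight? ≠ none) : t = u.bind Sum.getRight? := by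
  rcases u with _ | (i | j)
  · simp at hu
  · simp at hu
  · rcases s with _ | i' <;> rcases t with _ | j'
    · simp [eps] at h
    · simp [eps] at h
      simp [h]
    · simp [eps] at h
    · simp [eps] at h
      simp [h]

private theorem eps_diag {P : Finset ℕ} (ρ : P → Option (ι₁ ⊕ ι₂)) (p : P) :
    eps (lft ρ p) (rgt ρ p) (ρ p) = 1 := by
  unfold lft rgt
  rcases ρ p with _ | (i | j) <;> simp [eps]

private theorem cst_diag {ι : Type*} [DecidableEq ι] (κ : ℝ) (p : ℕ) (s : Option ι) :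
    cst κ p s s = 1 := by
  unfold cst
  rw [if_neg]
  exact fun h => h.2 h.1

private theorem one_pt {α β : Type*} [Fintype α] [DecidableEq α] [Fintype β] [DecidableEq β]
    (l : α) (r : β) (c : ℝ) :
    ∑ σ : α, ∑ τ : β, (if σ = l ∧ τ = r then c else 0) = c := by
  rw [Finset.sum_eq_single l (fun σ _ h => Finset.sum_eq_zero fun τ _ => if_neg fun h' => h h'.1)
    (fun h => absurd (Finset.mem_univ _) h),
    Finset.sum_eq_single r (fun τ _ h => if_neg fun h' => h h'.2)
    (fun h => absurd (Finset.mem_univ _) h), if_pos ⟨rfl, rfl⟩]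

/-- PROOF. As `CH.mul_sum` (same coefficients `v ρ = ∑ v₁ σ v₂ τ ∏ ε`).  The term `σ = lft ρ`, `τ = rgt ρ` has `∏ ε = 1` and is `v₁ (lft ρ) v₂ (rgt ρ)`; the sum of the bounds
of all terms is `a₁ a₂ ∏ gamK`, the bound of this term is `a₁ a₂`, so the other terms are at most `a₁ a₂ (∏ gamK - 1)`. -/
theorem mul_sumK {κ : ℝ} (hκ : 0 ≤ κ) {P : Finset ℕ} {A : ℕ → ι₁ ⊕ ι₂ → ℕ → Prop}
    (hF : Forms P A)
    {a₁ : (P → Option ι₁) → ℝ} {a₂ : (P → Option ι₂) → ℝ} {Y₁ Y₂ : ℕ} (h₁ : CoefK κ P a₁ Y₁)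
    (h₂ : CoefK κ P a₂ Y₂) (v₁ : (P → Option ι₁) → ℝ) (v₂ : (P → Option ι₂) → ℝ)
    (hv₁ : ∀ σ, |v₁ σ| ≤ a₁ σ) (hv₂ : ∀ σ, |v₂ σ| ≤ a₂ σ) :
    ∃ v : (P → Option (ι₁ ⊕ ι₂)) → ℝ,
      (∀ m, (∑ σ : P → Option ι₁, v₁ σ * Phi P (fun p i => A p (Sum.inl i)) σ m) *
        (∑ τ : P → Option ι₂, v₂ τ * Phi P (fun p i => A p (Sum.inr i)) τ m) =
        ∑ ρ : P → Option (ι₁ ⊕ ι₂), v ρ * Phi P A ρ m) ∧
      ∀ ρ, |v ρ - v₁ (lft ρ) * v₂ (rgt ρ)| ≤ a₁ (lft ρ) * a₂ (rgt ρ) *
        (∏ p : P, gamK κ (Fintype.card ι₁ : ℝ) (Fintype.card ι₂ : ℝ) (p : ℕ) (ρ p) - 1) := by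
  refine ⟨fun ρ => ∑ σ : P → Option ι₁, ∑ τ : P → Option ι₂,
    v₁ σ * v₂ τ * ∏ p : P, eps (σ p) (τ p) (ρ p), fun m => ?_, fun ρ => ?_⟩
  · have hPhi : ∀ (σ : P → Option ι₁) (τ : P → Option ι₂),
        Phi P (fun p i => A p (Sum.inl i)) σ m * Phi P (fun p i => A p (Sum.inr i)) τ m =
        ∑ ρ : P → Option (ι₁ ⊕ ι₂), (∏ p : P, eps (σ p) (τ p) (ρ p)) * Phi P A ρ m := by
      intro σ τ
      unfold Phi
      rw [← Finset.prod_mul_distrib, Finset.prod_congr rfl fun p _ => eps_local hF p.2 (σ p) (τ p) m,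
        prodsum]
      exact Finset.sum_congr rfl fun ρ _ => Finset.prod_mul_distrib
    rw [Finset.sum_mul_sum]
    calc ∑ σ : P → Option ι₁, ∑ τ : P → Option ι₂,
          v₁ σ * Phi P (fun p i => A p (Sum.inl i)) σ m *
            (v₂ τ * Phi P (fun p i => A p (Sum.inr i)) τ m)
        = ∑ σ : P → Option ι₁, ∑ τ : P → Option ι₂, ∑ ρ : P → Option (ι₁ ⊕ ι₂),
          v₁ σ * v₂ τ * (∏ p : P, eps (σ p) (τ p) (ρ p)) * Phi P A ρ m := by
          refine Finset.sum_congr rfl fun σ _ => Finset.sum_congr rfl fun τ _ => ?_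
          rw [mul_mul_mul_comm, hPhi, Finset.mul_sum]
          exact Finset.sum_congr rfl fun ρ _ => (mul_assoc _ _ _).symm
      _ = ∑ σ : P → Option ι₁, ∑ ρ : P → Option (ι₁ ⊕ ι₂), ∑ τ : P → Option ι₂,
          v₁ σ * v₂ τ * (∏ p : P, eps (σ p) (τ p) (ρ p)) * Phi P A ρ m :=
          Finset.sum_congr rfl fun σ _ => Finset.sum_comm
      _ = ∑ ρ : P → Option (ι₁ ⊕ ι₂), ∑ σ : P → Option ι₁, ∑ τ : P → Option ι₂,
          v₁ σ * v₂ τ * (∏ p : P, eps (σ p) (τ p) (ρ p)) * Phi P A ρ m := Finset.sum_comm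
      _ = _ := by
          refine Finset.sum_congr rfl fun ρ _ => ?_
          rw [Finset.sum_mul]
          refine Finset.sum_congr rfl fun σ _ => ?_
          rw [Finset.sum_mul]
  · have hP : ∀ p : P, (p : ℕ).Prime := fun p => h₁.prime p p.2
    have ht : ∀ (σ : P → Option ι₁) (τ : P → Option ι₂),
        |v₁ σ * v₂ τ * ∏ p : P, eps (σ p) (τ p) (ρ p)| ≤ a₁ (lft ρ) * a₂ (rgt ρ) *
          ∏ p : P, (|eps (σ p) (τ p) (ρ p)| * (cst κ (p : ℕ) ((ρ p).bind Sum.getLeft?) (σ p) *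
            cst κ (p : ℕ) ((ρ p).bind Sum.getRight?) (τ p))) := by
      intro σ τ
      by_cases h0 : ∏ p : P, eps (σ p) (τ p) (ρ p) = 0
      · rw [h0, mul_zero, abs_zero]
        refine mul_nonneg (mul_nonneg (h₁.nonneg _) (h₂.nonneg _)) (Finset.prod_nonneg fun p _ => ?_)
        exact mul_nonneg (abs_nonneg _) (mul_nonneg (cst_nonneg hκ (hP p) _ _) (cst_nonneg hκ (hP p) _ _))
      · have h0' : ∀ p : P, eps (σ p) (τ p) (ρ p) ≠ 0 := fun p hp =>
          h0 (Finset.prod_eq_zero (Finset.mem_univ p) hp)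
        have b₁ : a₁ σ ≤ a₁ (lft ρ) * ∏ p : P, cst κ (p : ℕ) ((ρ p).bind Sum.getLeft?) (σ p) :=
          CoefK.sub_many hκ h₁ (lft ρ) σ fun p hp => eps_left (h0' p) hp
        have b₂ : a₂ τ ≤ a₂ (rgt ρ) * ∏ p : P, cst κ (p : ℕ) ((ρ p).bind Sum.getRight?) (τ p) :=
          CoefK.sub_many hκ h₂ (rgt ρ) τ fun p hp => eps_right (h0' p) hp
        rw [abs_mul, abs_mul, Finset.abs_prod, Finset.prod_mul_distrib, Finset.prod_mul_distrib]
        have c₁ : |v₁ σ| * |v₂ τ| ≤
            (a₁ (lft ρ) * ∏ p : P, cst κ (p : ℕ) ((ρ p).bind Sum.getLeft?) (σ p)) *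
            (a₂ (rgt ρ) * ∏ p : P, cst κ (p : ℕ) ((ρ p).bind Sum.getRight?) (τ p)) :=
          mul_le_mul ((hv₁ σ).trans b₁) ((hv₂ τ).trans b₂) (abs_nonneg _)
            (mul_nonneg (h₁.nonneg _) (Finset.prod_nonneg fun p _ => cst_nonneg hκ (hP p) _ _))
        calc |v₁ σ| * |v₂ τ| * ∏ p : P, |eps (σ p) (τ p) (ρ p)| ≤
            ((a₁ (lft ρ) * ∏ p : P, cst κ (p : ℕ) ((ρ p).bind Sum.getLeft?) (σ p)) *
            (a₂ (rgt ρ) * ∏ p : P, cst κ (p : ℕ) ((ρ p).bind Sum.getRight?) (τ p))) *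
              ∏ p : P, |eps (σ p) (τ p) (ρ p)| :=
              mul_le_mul_of_nonneg_right c₁ (Finset.prod_nonneg fun p _ => abs_nonneg _)
          _ = _ := by ring
    have hsum : ∑ σ : P → Option ι₁, ∑ τ : P → Option ι₂, (a₁ (lft ρ) * a₂ (rgt ρ) *
          ∏ p : P, (|eps (σ p) (τ p) (ρ p)| * (cst κ (p : ℕ) ((ρ p).bind Sum.getLeft?) (σ p) *
            cst κ (p : ℕ) ((ρ p).bind Sum.getRight?) (τ p)))) =
        a₁ (lft ρ) * a₂ (rgt ρ) *
          ∏ p : P, gamK κ (Fintype.card ι₁ : ℝ) (Fintype.card ι₂ : ℝ) (p : ℕ) (ρ p) := by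
      rw [Finset.prod_congr rfl fun (p : P) _ => (loc_sum κ (p : ℕ) (ρ p)).symm, prodsum,
        Finset.mul_sum]
      refine Finset.sum_congr rfl fun σ _ => ?_
      rw [prodsum, Finset.mul_sum]
    have e1 : (∑ σ : P → Option ι₁, ∑ τ : P → Option ι₂,
        v₁ σ * v₂ τ * ∏ p : P, eps (σ p) (τ p) (ρ p)) - v₁ (lft ρ) * v₂ (rgt ρ) =
        ∑ σ : P → Option ι₁, ∑ τ : P → Option ι₂,
          (v₁ σ * v₂ τ * ∏ p : P, eps (σ p) (τ p) (ρ p) -
            if σ = lft ρ ∧ τ = rgt ρ then v₁ (lft ρ) * v₂ (rgt ρ) else 0) := by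
      simp only [Finset.sum_sub_distrib]
      rw [one_pt]
    have e2 : a₁ (lft ρ) * a₂ (rgt ρ) *
        (∏ p : P, gamK κ (Fintype.card ι₁ : ℝ) (Fintype.card ι₂ : ℝ) (p : ℕ) (ρ p) - 1) =
        ∑ σ : P → Option ι₁, ∑ τ : P → Option ι₂, (a₁ (lft ρ) * a₂ (rgt ρ) *
          ∏ p : P, (|eps (σ p) (τ p) (ρ p)| * (cst κ (p : ℕ) ((ρ p).bind Sum.getLeft?) (σ p) *
            cst κ (p : ℕ) ((ρ p).bind Sum.getRight?) (τ p))) -
            if σ = lft ρ ∧ τ = rgt ρ then a₁ (lft ρ) * a₂ (rgt ρ) else 0) := by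
      simp only [Finset.sum_sub_distrib]
      rw [one_pt, hsum, mul_sub, mul_one]
    rw [e1, e2]
    refine (Finset.abs_sum_le_sum_abs _ _).trans (Finset.sum_le_sum fun σ _ =>
      (Finset.abs_sum_le_sum_abs _ _).trans (Finset.sum_le_sum fun τ _ => ?_))
    by_cases hc : σ = lft ρ ∧ τ = rgt ρ
    · rw [if_pos hc, if_pos hc, hc.1, hc.2]
      have d1 : ∏ p : P, eps (lft ρ p) (rgt ρ p) (ρ p) = 1 :=
        Finset.prod_eq_one fun p _ => eps_diag ρ p
      have d2 : ∏ p : P, (|eps (lft ρ p) (rgt ρ p) (ρ p)| *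
          (cst κ (p : ℕ) ((ρ p).bind Sum.getLeft?) (lft ρ p) *
            cst κ (p : ℕ) ((ρ p).bind Sum.getRight?) (rgt ρ p))) = 1 := by
        refine Finset.prod_eq_one fun p _ => ?_
        rw [eps_diag ρ p, abs_one, one_mul]
        show cst κ (p : ℕ) (lft ρ p) (lft ρ p) * cst κ (p : ℕ) (rgt ρ p) (rgt ρ p) = 1
        rw [cst_diag, cst_diag, one_mul]
      rw [d1, d2, mul_one, mul_one, sub_self, sub_self, abs_zero]
    · rw [if_neg hc, if_neg hc, sub_zero, sub_zero]
      exact ht σ τ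

private theorem opt_cases {M : Type*} [MulOneClass M] (x : M) (u : Option (ι₁ ⊕ ι₂)) :
    (if u = none then 1 else x) = (if u.bind Sum.getLeft? = none then 1 else x) *
      (if u.bind Sum.getRight? = none then 1 else x) := by
  rcases u with _ | (i | j) <;> simp

private theorem DD_sum {P : Finset ℕ} (ρ : P → Option (ι₁ ⊕ ι₂)) :
    DD P ρ = DD P (lft ρ) * DD P (rgt ρ) := by
  unfold DD
  rw [← Finset.prod_mul_distrib]
  exact Finset.prod_congr rfl fun p _ => opt_cases _ _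

theorem CoefK.sum {κ : ℝ} {P : Finset ℕ} {a₁ : (P → Option ι₁) → ℝ}
    {a₂ : (P → Option ι₂) → ℝ} {Y₁ Y₂ : ℕ}
    (h₁ : CoefK κ P a₁ Y₁) (h₂ : CoefK κ P a₂ Y₂) :
    CoefK κ P (fun ρ : P → Option (ι₁ ⊕ ι₂) => a₁ (lft ρ) * a₂ (rgt ρ)) (Y₁ * Y₂) := by
  refine ⟨h₁.prime, fun ρ => mul_nonneg (h₁.nonneg _) (h₂.nonneg _), fun ρ p u hp => ?_,
    fun ρ hρ => ?_⟩
  · have hl : lft ρ p = none := by simp [lft, hp]
    have hr : rgt ρ p = none := by simp [rgt, hp]
    rcases u with i | j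
    · have e1 : lft (Function.update ρ p (some (Sum.inl i))) =
          Function.update (lft ρ) p (some i) := by
        funext q
        by_cases hq : q = p
        · subst hq
          simp [lft]
        · simp [lft, Function.update_of_ne hq]
      have e2 : rgt (Function.update ρ p (some (Sum.inl i))) = rgt ρ := by
        funext q
        by_cases hq : q = p
        · subst hq
          rw [hr]
          simp [rgt]
        · simp [rgt, Function.update_of_ne hq]
      simp only [e1, e2]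
      refine (mul_le_mul_of_nonneg_right (h₁.sub (lft ρ) p i hl) (h₂.nonneg _)).trans
        (le_of_eq ?_)
      ring
    · have e1 : rgt (Function.update ρ p (some (Sum.inr j))) =
          Function.update (rgt ρ) p (some j) := by
        funext q
        by_cases hq : q = p
        · subst hq
          simp [rgt]
        · simp [rgt, Function.update_of_ne hq]
      have e2 : lft (Function.update ρ p (some (Sum.inr j))) = lft ρ := by
        funext q
        by_cases hq : q = p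
        · subst hq
          rw [hl]
          simp [lft]
        · simp [lft, Function.update_of_ne hq]
      simp only [e1, e2]
      refine (mul_le_mul_of_nonneg_left (h₂.sub (rgt ρ) p j hr) (h₁.nonneg _)).trans
        (le_of_eq ?_)
      ring
  · rw [DD_sum]
    exact Nat.mul_le_mul (h₁.level _ (left_ne_zero_of_mul hρ)) (h₂.level _ (right_ne_zero_of_mul hρ))

theorem CoefK.smul {ι : Type*} [DecidableEq ι] {κ : ℝ} {P : Finset ℕ}
    {a : (P → Option ι) → ℝ} {Y : ℕ} (h : CoefK κ P a Y) {G : ℝ} (hG : 0 ≤ G) :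
    CoefK κ P (fun σ => G * a σ) Y := by
  refine ⟨h.prime, fun σ => mul_nonneg hG (h.nonneg σ), fun σ p i hp => ?_,
    fun σ hσ => h.level σ (right_ne_zero_of_mul hσ)⟩
  show G * a (Function.update σ p (some i)) ≤ G * a σ * (κ / (((p : ℕ) : ℝ) - 1))
  rw [mul_assoc]
  exact mul_le_mul_of_nonneg_left (h.sub σ p i hp) hG

end Pool.Agent.H.MP_711652_nt.CG
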