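import Pool.Agent.H.MP_711652_nt.CG.KDefs

/-! # MP_711652, CG: the product over the positions of combinations of local factors -/

set_option autoImplicit false

namespace Pool.Agent.H.MP_711652_nt.CG

open Finset Pool.Agent.H.MP_711652_nt.LG Pool.Agent.H.MP_711652_nt.CH

variable {ι : Type*} [Fintype ι] [DecidableEq ι]

/-- the primes at the position `i` -/
def pts (P : Finset ℕ) (τ : P → Option ι) (i : ι) : Finset ℕ :=
  ((univ : Finset P).filter (fun p => τ p = some i)).image (fun p : P => (p : ℕ))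

/-- The local coefficients. -/
private noncomputable def Mlt_ep (I : Finset ι) (t : Option ι) : ℝ :=
  match t with
  | none => 1 - (I.card : ℝ)
  | some i => if i ∈ I then 1 else 0

/-- The primes at the position `i`. -/
private def Mlt_U {P : Finset ℕ} (W : P → Finset ι) (i : ι) : Finset ℕ :=
  ((univ : Finset P).filter (fun p => i ∈ W p)).image (fun p : P => (p : ℕ))

private theorem Mlt_memU {P : Finset ℕ} {W : P → Finset ι} {i : ι} {q : ℕ} :
    q ∈ Mlt_U W i ↔ ∃ h : q ∈ P, i ∈ W ⟨q, h⟩ := by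
  unfold Mlt_U
  rw [mem_image]
  constructor
  · rintro ⟨p, hp, rfl⟩
    exact ⟨p.2, (mem_filter.1 hp).2⟩
  · rintro ⟨h, h1⟩
    exact ⟨⟨q, h⟩, mem_filter.2 ⟨mem_univ _, h1⟩, rfl⟩

private theorem Mlt_mempts {P : Finset ℕ} {τ : P → Option ι} {i : ι} {q : ℕ} :
    q ∈ pts P τ i ↔ ∃ h : q ∈ P, τ ⟨q, h⟩ = some i := by
  unfold pts
  rw [mem_image]
  constructor
  · rintro ⟨p, hp, rfl⟩
    exact ⟨p.2, (mem_filter.1 hp).2⟩
  · rintro ⟨h, h1⟩
    exact ⟨⟨q, h⟩, mem_filter.2 ⟨mem_univ _, h1⟩, rfl⟩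

private theorem Mlt_local {P : Finset ℕ} {A : ℕ → ι → ℕ → Prop} (hF : Forms P A) {p : ℕ}
    (hp : p ∈ P) (I : Finset ι) (m : ℕ) :
    ∏ i ∈ I, Ef A p (some i) m = ∑ t : Option ι, Mlt_ep I t * Ef A p t m := by
  classical
  rw [Fintype.sum_option]
  simp only [Mlt_ep, ite_mul, one_mul, zero_mul, Finset.sum_ite_mem, univ_inter]
  have h0 : Ef A p none m = 1 := rfl
  rw [h0, mul_one]
  induction I using Finset.induction_on with
  | empty => simp
  | insert i I hi ih =>
    rw [prod_insert hi, sum_insert hi, card_insert_of_notMem hi]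
    by_cases h : A p i m
    · have h1 : ∀ j ∈ I, Ef A p (some j) m = 1 := by
        intro j hj
        have hij : i ≠ j := fun e => hi (e ▸ hj)
        have := hF.disj p hp i j m hij h
        simp [Ef, this]
      rw [prod_congr rfl h1, sum_congr rfl h1]
      simp
    · have h1 : Ef A p (some i) m = 1 := by simp [Ef, h]
      rw [h1, one_mul, ih]
      push_cast
      ring

private theorem Mlt_prodU {P : Finset ℕ} (W : P → Finset ι) (i : ι) (g : ℕ → ℝ) :
    ∏ p ∈ Mlt_U W i, g p = ∏ p : P, if i ∈ W p then g p else 1 := by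
  unfold Mlt_U
  rw [prod_image (by intro a _ b _ h; exact Subtype.ext h), prod_filter]

private theorem Mlt_prodsum {α κ : Type*} [Fintype α] [DecidableEq α] [Fintype κ]
    (f : α → κ → ℝ) : ∏ p, ∑ k, f p k = ∑ x : α → κ, ∏ p, f p (x p) := by
  classical
  rw [Finset.prod_univ_sum, Fintype.piFinset_univ]

/-- Reindexing: families of subsets of `P` and families of sets of positions. -/
private theorem Mlt_expand (P : Finset ℕ) (f : ι → Finset ℕ → ℝ) :
    ∏ i, ∑ U ∈ P.powerset, f i U = ∑ W : P → Finset ι, ∏ i, f i (Mlt_U W i) := by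
  rw [Finset.prod_univ_sum]
  refine Finset.sum_nbij' (fun V p => univ.filter (fun i => (p : ℕ) ∈ V i)) (fun W i => Mlt_U W i)
    ?_ ?_ ?_ ?_ ?_
  · intro V _
    exact mem_univ _
  · intro W _
    rw [Fintype.mem_piFinset]
    intro i
    rw [mem_powerset]
    intro q hq
    exact (Mlt_memU.1 hq).1
  · intro V hV
    rw [Fintype.mem_piFinset] at hV
    funext i
    ext q
    have hVi := mem_powerset.1 (hV i)
    rw [Mlt_memU]
    constructor
    · rintro ⟨h, h1⟩
      exact (mem_filter.1 h1).2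
    · intro h
      exact ⟨hVi h, mem_filter.2 ⟨mem_univ _, h⟩⟩
  · intro W _
    funext p
    ext i
    rw [mem_filter, Mlt_memU]
    constructor
    · rintro ⟨_, _, h⟩
      exact h
    · intro h
      exact ⟨mem_univ _, p.2, h⟩
  · intro V hV
    rw [Fintype.mem_piFinset] at hV
    apply prod_congr rfl
    intro i _
    congr 1
    ext q
    have hVi := mem_powerset.1 (hV i)
    rw [Mlt_memU]
    constructor
    · intro h
      exact ⟨hVi h, mem_filter.2 ⟨mem_univ _, h⟩⟩
    · rintro ⟨h, h1⟩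
      exact (mem_filter.1 h1).2

/-! Local sums -/

private theorem Mlt_sumA (i : ι) (x : ℝ) :
    ∑ I : Finset ι, (if i ∈ I then x ^ (I.erase i).card else 0) = (1 + x) ^ (Fintype.card ι - 1) := by
  have h1 : ∏ j : ι, ((if j = i then (1 : ℝ) else x) + (if j = i then 0 else 1)) =
      (1 + x) ^ (Fintype.card ι - 1) := by
    have h2 : ∀ j : ι, ((if j = i then (1 : ℝ) else x) + (if j = i then 0 else 1)) =
        if j = i then 1 else 1 + x := by
      intro j
      split_ifs <;> ring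
    rw [prod_congr rfl fun j _ => h2 j, Finset.prod_ite, prod_const_one, one_mul, prod_const]
    congr 1
    rw [filter_ne' univ i, card_erase_of_mem (mem_univ i), card_univ]
  rw [← h1, Finset.prod_add, powerset_univ]
  apply sum_congr rfl
  intro I _
  by_cases hi : i ∈ I
  · rw [if_pos hi]
    have h3 : ∏ j ∈ univ \ I, (if j = i then (0 : ℝ) else 1) = 1 := by
      apply prod_eq_one
      intro j hj
      have : j ≠ i := by
        rintro rfl
        exact (mem_sdiff.1 hj).2 hi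
      rw [if_neg this]
    rw [h3, mul_one, ← mul_prod_erase I _ hi, if_pos rfl, one_mul]
    rw [prod_congr rfl fun j hj => if_neg (ne_of_mem_erase hj), prod_const]
  · rw [if_neg hi]
    have h3 : ∏ j ∈ univ \ I, (if j = i then (0 : ℝ) else 1) = 0 :=
      prod_eq_zero (mem_sdiff.2 ⟨mem_univ i, hi⟩) (if_pos rfl)
    rw [h3, mul_zero]

private theorem Mlt_sumB (x : ℝ) : ∑ I : Finset ι, x ^ I.card = (1 + x) ^ Fintype.card ι := by
  have h := Fintype.sum_pow_mul_eq_add_pow ι x 1
  simp only [one_pow, mul_one] at h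
  rw [h, add_comm]

private theorem Mlt_sumC (x : ℝ) : ∑ I : Finset ι, (I.card : ℝ) * x ^ I.card =
    (Fintype.card ι : ℝ) * x * (1 + x) ^ (Fintype.card ι - 1) := by
  have h1 : ∀ I : Finset ι, (I.card : ℝ) * x ^ I.card =
      ∑ i : ι, x * (if i ∈ I then x ^ (I.erase i).card else 0) := by
    intro I
    have h2 : ∀ i : ι, x * (if i ∈ I then x ^ (I.erase i).card else 0) =
        if i ∈ I then x ^ I.card else 0 := by
      intro i
      split_ifs with hi
      · rw [← card_erase_add_one hi, pow_succ]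
        ring
      · ring
    rw [sum_congr rfl fun i _ => h2 i, Finset.sum_ite_mem, univ_inter, sum_const, nsmul_eq_mul]
  rw [sum_congr rfl fun I _ => h1 I, sum_comm]
  rw [sum_congr rfl fun i _ => (by rw [← mul_sum, Mlt_sumA] :
    ∑ I : Finset ι, x * (if i ∈ I then x ^ (I.erase i).card else 0) =
      x * (1 + x) ^ (Fintype.card ι - 1)), sum_const, nsmul_eq_mul, card_univ]
  ring

private theorem Mlt_pow {x : ℝ} (hx : 0 ≤ x) (n : ℕ) (h : x * n ≤ 1) :
    (1 + x) ^ n ≤ 1 + 2 * (x * n) := by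
  have hn : (0 : ℝ) ≤ n := Nat.cast_nonneg n
  have h1 : (1 + x) ^ n ≤ Real.exp (x * n) := by
    rw [mul_comm, Real.exp_nat_mul]
    apply pow_le_pow_left₀ (by linarith)
    rw [add_comm]
    exact Real.add_one_le_exp x
  have h2 : Real.exp (x * n) ≤ 1 + 2 * (x * n) := by
    have h3 := Real.exp_bound' (x := x * n) (by positivity) h (n := 2) (by norm_num)
    simp only [sum_range_succ, range_zero, sum_empty, Nat.factorial] at h3
    norm_num at h3
    nlinarith [mul_nonneg hx hn]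
  exact h1.trans h2

/-- The local costs. -/
private noncomputable def Mlt_cost (x : ℝ) (I : Finset ι) (t : Option ι) : ℝ :=
  ∏ i : ι, if i ∈ I ∧ t ≠ some i then x else 1

private theorem Mlt_cost_none (x : ℝ) (I : Finset ι) : Mlt_cost x I none = x ^ I.card := by
  unfold Mlt_cost
  have h1 : ∀ i : ι, (if i ∈ I ∧ (none : Option ι) ≠ some i then x else 1) =
      if i ∈ I then x else 1 := by
    intro i
    simp
  rw [prod_congr rfl fun i _ => h1 i, Finset.prod_ite_mem, univ_inter, prod_const]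

private theorem Mlt_cost_some (x : ℝ) (I : Finset ι) (i : ι) :
    Mlt_cost x I (some i) = x ^ (I.erase i).card := by
  unfold Mlt_cost
  have h1 : ∀ j : ι, (if j ∈ I ∧ (some i : Option ι) ≠ some j then x else 1) =
      if j ∈ I.erase i then x else 1 := by
    intro j
    have h2 : (j ∈ I ∧ (some i : Option ι) ≠ some j) ↔ j ∈ I.erase i := by
      rw [mem_erase, Ne, Option.some_inj]
      constructor
      · rintro ⟨h3, h4⟩
        exact ⟨fun e => h4 e.symm, h3⟩
      · rintro ⟨h3, h4⟩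
        exact ⟨h4, fun e => h3 e.symm⟩
    simp only [h2]
  rw [prod_congr rfl fun i _ => h1 i, Finset.prod_ite_mem, univ_inter, prod_const]

private theorem Mlt_cost_nonneg {x : ℝ} (hx : 0 ≤ x) (I : Finset ι) (t : Option ι) :
    0 ≤ Mlt_cost x I t := by
  unfold Mlt_cost
  apply prod_nonneg
  intro i _
  split_ifs
  · exact hx
  · exact zero_le_one

private theorem Mlt_loc {x : ℝ} (hx : 0 ≤ x) (h : x * Fintype.card ι ≤ 1) (t : Option ι) :
    ∑ I : Finset ι, |Mlt_ep I t| * Mlt_cost x I t ≤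
      if t = none then 1 + 3 * (x * Fintype.card ι) ^ 2 else 1 + 2 * (x * Fintype.card ι) := by
  have hR : (0 : ℝ) ≤ Fintype.card ι := Nat.cast_nonneg _
  have hsub : x * ((Fintype.card ι - 1 : ℕ) : ℝ) ≤ x * Fintype.card ι := by
    apply mul_le_mul_of_nonneg_left _ hx
    exact_mod_cast Nat.sub_le _ _
  have hpw : (1 + x) ^ (Fintype.card ι - 1) ≤ 1 + 2 * (x * Fintype.card ι) :=
    (Mlt_pow hx _ (hsub.trans h)).trans (by linarith)
  rcases t with _ | i
  · rw [if_pos rfl]
    have h1 : ∀ I : Finset ι, |Mlt_ep I none| * Mlt_cost x I none =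
        ((I.card : ℝ) * x ^ I.card - x ^ I.card) + if I = ∅ then 2 else 0 := by
      intro I
      rw [Mlt_cost_none]
      simp only [Mlt_ep]
      by_cases hI : I = ∅
      · subst hI
        norm_num
      · rw [if_neg hI]
        have h2 : 1 ≤ I.card := card_pos.2 (nonempty_iff_ne_empty.2 hI)
        have h3 : (1 : ℝ) ≤ I.card := by exact_mod_cast h2
        rw [abs_of_nonpos (by linarith)]
        ring
    rw [sum_congr rfl fun I _ => h1 I, sum_add_distrib, sum_sub_distrib, Mlt_sumB, Mlt_sumC,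
      sum_ite_eq' univ ∅, if_pos (mem_univ _)]
    have hB := one_add_mul_le_pow (a := x) (by linarith) (Fintype.card ι)
    have h4 : (Fintype.card ι : ℝ) * x * (1 + x) ^ (Fintype.card ι - 1) ≤
        (Fintype.card ι : ℝ) * x * (1 + 2 * (x * Fintype.card ι)) :=
      mul_le_mul_of_nonneg_left hpw (mul_nonneg hR hx)
    nlinarith [sq_nonneg (x * Fintype.card ι)]
  · rw [if_neg (by simp)]
    have h1 : ∀ I : Finset ι, |Mlt_ep I (some i)| * Mlt_cost x I (some i) =
        if i ∈ I then x ^ (I.erase i).card else 0 := by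
      intro I
      rw [Mlt_cost_some]
      simp only [Mlt_ep]
      split_ifs
      · rw [abs_one, one_mul]
      · rw [abs_zero, zero_mul]
    rw [sum_congr rfl fun I _ => h1 I, Mlt_sumA]
    exact hpw

private theorem Mlt_iter {P : Finset ℕ} {h : Finset ℕ → ℝ} {x : ℕ → ℝ} (hx : ∀ q ∈ P, 0 ≤ x q)
    (hs : ∀ U q, q ∈ P → q ∉ U → h (insert q U) ≤ h U * x q) (A T : Finset ℕ) (hT : T ⊆ P)
    (hd : Disjoint A T) : h (A ∪ T) ≤ h A * ∏ q ∈ T, x q := by
  induction T using Finset.induction_on with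
  | empty => simp
  | insert q T hq ih =>
    have hqP := hT (mem_insert_self q T)
    rw [disjoint_insert_right] at hd
    have h2 := hs (A ∪ T) q hqP (by
      rw [mem_union]
      rintro (h3 | h3)
      · exact hd.1 h3
      · exact hq h3)
    have h3 := ih (fun y hy => hT (mem_insert_of_mem hy)) hd.2
    rw [union_insert, prod_insert hq]
    refine h2.trans ((mul_le_mul_of_nonneg_right h3 (hx q hqP)).trans (le_of_eq ?_))
    ring

private theorem Mlt_main {P : Finset ℕ} {x : ℕ → ℝ} (hx : ∀ q ∈ P, 0 ≤ x q) {h : ι → Finset ℕ → ℝ}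
    (hh : ∀ i U, 0 ≤ h i U)
    (hs : ∀ i U q, q ∈ P → q ∉ U → h i (insert q U) ≤ h i U * x q) (W : P → Finset ι)
    (τ : P → Option ι) (h0 : ∀ p, Mlt_ep (W p) (τ p) ≠ 0) :
    ∏ i, h i (Mlt_U W i) ≤ (∏ i, h i (pts P τ i)) * ∏ p : P, Mlt_cost (x p) (W p) (τ p) := by
  have h1 : ∀ i, h i (Mlt_U W i) ≤ h i (pts P τ i) *
      ∏ p : P, (if i ∈ W p ∧ τ p ≠ some i then x p else 1) := by
    intro i
    have hsub : pts P τ i ⊆ Mlt_U W i := by
      intro q hq
      obtain ⟨hqP, hτ⟩ := Mlt_mempts.1 hq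
      rw [Mlt_memU]
      refine ⟨hqP, ?_⟩
      by_contra hni
      apply h0 ⟨q, hqP⟩
      rw [hτ]
      simp only [Mlt_ep]
      rw [if_neg hni]
    have h2 : ∏ q ∈ Mlt_U W i \ pts P τ i, x q =
        ∏ p : P, (if i ∈ W p ∧ τ p ≠ some i then x p else 1) := by
      have h3 : Mlt_U W i \ pts P τ i =
          Mlt_U (fun p => (W p).filter (fun j => τ p ≠ some j)) i := by
        ext q
        rw [mem_sdiff, Mlt_memU, Mlt_memU, Mlt_mempts]
        constructor
        · rintro ⟨⟨h4, h5⟩, h6⟩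
          exact ⟨h4, mem_filter.2 ⟨h5, fun e => h6 ⟨h4, e⟩⟩⟩
        · rintro ⟨h4, h5⟩
          rw [mem_filter] at h5
          exact ⟨⟨h4, h5.1⟩, fun ⟨_, e⟩ => h5.2 e⟩
      rw [h3, Mlt_prodU]
      apply prod_congr rfl
      intro p _
      simp only [mem_filter]
    rw [← h2]
    have h3 := Mlt_iter hx (hs i) (pts P τ i) (Mlt_U W i \ pts P τ i)
      (fun q hq => (Mlt_memU.1 (mem_sdiff.1 hq).1).1) disjoint_sdiff
    rwa [union_sdiff_of_subset hsub] at h3
  refine (prod_le_prod (fun i _ => hh _ _) fun i _ => h1 i).trans (le_of_eq ?_)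
  rw [prod_mul_distrib, prod_comm]
  rfl

/-- PROOF. Expand the product over `i`: a sum over families `U : ι → P.powerset` of `∏ b i (U i) * ∏_p ∏_{i : p ∈ U i} Ef A p (some i) m`.  For a set `I` of positions
`∏_{i ∈ I} Ef A p (some i) m = (1 - |I|) + ∑_{i ∈ I} Ef A p (some i) m` (at most one position is hit, `Forms.disj`).  So the coefficient of `Phi P A τ` is
`γ τ = ∑_U ∏ b i (U i) ∏_p ε(I_p, τ p)`, `I_p = {i : p ∈ U i}`, `ε(I, none) = 1 - |I|`, `ε(I, some i) = [i ∈ I]`.  If `∏ ε ≠ 0` then `pts P τ i ⊆ U i`, and removing the other primes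
one by one costs `κ/(p-1)` each; summing the costs over all `I_p` gives for `τ p = none` at most `∑_I |1 - |I|| x^|I| ≤ 1 + (R x)^2 exp(R x) / 2`, and for `τ p = some i`
at most `(1 + x)^(R-1) ≤ exp (R x)`, `x = κ/(p-1)`, `R x ≤ 1`. -/
theorem multi {P : Finset ℕ} {A : ℕ → ι → ℕ → Prop} (hF : Forms P A) {κ : ℝ} (hκ : 0 ≤ κ)
    (hx : ∀ p ∈ P, κ * Fintype.card ι ≤ (p : ℝ) - 1) (b h : ι → Finset ℕ → ℝ)
    (hb : ∀ i U, |b i U| ≤ h i U)
    (hs : ∀ i U q, q ∈ P → q ∉ U → h i (insert q U) ≤ h i U * (κ / ((q : ℝ) - 1))) :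
    ∃ γ : (P → Option ι) → ℝ,
      (∀ m, ∏ i, ∑ U ∈ P.powerset, b i U * ∏ p ∈ U, Ef A p (some i) m =
        ∑ τ : P → Option ι, γ τ * Phi P A τ m) ∧
      ∀ τ, |γ τ| ≤ (∏ i, h i (pts P τ i)) * ∏ p : P, (if τ p = none then
        1 + 3 * (κ * Fintype.card ι / (((p : ℕ) : ℝ) - 1)) ^ 2
        else 1 + 2 * (κ * Fintype.card ι / (((p : ℕ) : ℝ) - 1))) := by
  have hp1 : ∀ p ∈ P, (0 : ℝ) < (p : ℝ) - 1 := by
    intro p hp
    have h1 : (1 : ℝ) < (p : ℝ) := by exact_mod_cast (hF.prime p hp).one_lt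
    linarith
  have hx0 : ∀ q ∈ P, 0 ≤ κ / ((q : ℝ) - 1) := fun q hq => div_nonneg hκ (hp1 q hq).le
  have hh : ∀ i U, 0 ≤ h i U := fun i U => (abs_nonneg _).trans (hb i U)
  refine ⟨fun τ => ∑ W : P → Finset ι, (∏ i, b i (Mlt_U W i)) * ∏ p : P, Mlt_ep (W p) (τ p),
    fun m => ?_, fun τ => ?_⟩
  · rw [Mlt_expand]
    have h1 : ∀ W : P → Finset ι, ∏ i, (b i (Mlt_U W i) * ∏ p ∈ Mlt_U W i, Ef A p (some i) m) =
        ∑ τ : P → Option ι, (∏ i, b i (Mlt_U W i)) * (∏ p : P, Mlt_ep (W p) (τ p)) *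
          Phi P A τ m := by
      intro W
      rw [prod_mul_distrib, prod_congr rfl fun i _ => Mlt_prodU W i fun p => Ef A p (some i) m,
        prod_comm]
      have h2 : ∀ p : P, ∏ i : ι, (if i ∈ W p then Ef A (p : ℕ) (some i) m else 1) =
          ∑ t : Option ι, Mlt_ep (W p) t * Ef A p t m := by
        intro p
        rw [Finset.prod_ite_mem, univ_inter, Mlt_local hF p.2]
      rw [prod_congr rfl fun p _ => h2 p, Mlt_prodsum, mul_sum]
      apply sum_congr rfl
      intro τ _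
      rw [prod_mul_distrib]
      unfold Phi
      ring
    rw [sum_congr rfl fun W _ => h1 W, sum_comm]
    apply sum_congr rfl
    intro τ _
    rw [sum_mul]
  · have ht : ∀ W : P → Finset ι, |(∏ i, b i (Mlt_U W i)) * ∏ p : P, Mlt_ep (W p) (τ p)| ≤
        (∏ i, h i (pts P τ i)) * ∏ p : P, (|Mlt_ep (W p) (τ p)| *
          Mlt_cost (κ / (((p : ℕ) : ℝ) - 1)) (W p) (τ p)) := by
      intro W
      by_cases h0 : ∏ p : P, Mlt_ep (W p) (τ p) = 0
      · rw [h0, mul_zero, abs_zero]
        exact mul_nonneg (prod_nonneg fun i _ => hh _ _) (prod_nonneg fun p _ =>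
          mul_nonneg (abs_nonneg _) (Mlt_cost_nonneg (hx0 p p.2) _ _))
      · have h0' : ∀ p : P, Mlt_ep (W p) (τ p) ≠ 0 := fun p hp =>
          h0 (prod_eq_zero (mem_univ p) hp)
        rw [abs_mul, abs_prod, abs_prod, prod_mul_distrib]
        have h1 : ∏ i, |b i (Mlt_U W i)| ≤ ∏ i, h i (Mlt_U W i) :=
          prod_le_prod (fun i _ => abs_nonneg _) fun i _ => hb i _
        have h2 := h1.trans (Mlt_main (x := fun q => κ / ((q : ℝ) - 1)) hx0 hh hs W τ h0')
        refine (mul_le_mul_of_nonneg_right h2 (prod_nonneg fun p _ => abs_nonneg _)).trans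
          (le_of_eq ?_)
        ring
    refine (abs_sum_le_sum_abs _ _).trans ((sum_le_sum fun W _ => ht W).trans ?_)
    rw [← mul_sum, ← Mlt_prodsum fun (p : P) (I : Finset ι) => |Mlt_ep I (τ p)| *
      Mlt_cost (κ / (((p : ℕ) : ℝ) - 1)) I (τ p)]
    apply mul_le_mul_of_nonneg_left _ (prod_nonneg fun i _ => hh _ _)
    apply prod_le_prod
    · intro p _
      exact sum_nonneg fun I _ => mul_nonneg (abs_nonneg _) (Mlt_cost_nonneg (hx0 p p.2) _ _)
    · intro p _
      have h1 : κ * Fintype.card ι / (((p : ℕ) : ℝ) - 1) =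
          κ / (((p : ℕ) : ℝ) - 1) * Fintype.card ι := by ring
      rw [h1]
      apply Mlt_loc (hx0 p p.2)
      rw [← h1, div_le_one (hp1 p p.2)]
      exact hx p p.2

end Pool.Agent.H.MP_711652_nt.CG
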