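import Pool.Agent.H.MP_711652_nt.CG.Mlt2a

/-! # MP_711652, CG: the product over the positions, two-level form -/

set_option autoImplicit false

namespace Pool.Agent.H.MP_711652_nt.CG

open Finset Pool.Agent.H.MP_711652_nt.LG Pool.Agent.H.MP_711652_nt.CH

variable {ι : Type*} [Fintype ι] [DecidableEq ι]

/-- The proof of `multi` gives this: the family `U i = pts P τ i` contributes `∏ b i (pts P τ i)`, all the others at most `∏ h i (pts P τ i) (∏_p (..) - 1)`. -/
theorem multi2 {P : Finset ℕ} {A : ℕ → ι → ℕ → Prop} (hF : Forms P A) {κ : ℝ} (hκ : 0 ≤ κ)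
    (hx : ∀ p ∈ P, κ * Fintype.card ι ≤ (p : ℝ) - 1) (b h : ι → Finset ℕ → ℝ)
    (hb : ∀ i U, |b i U| ≤ h i U)
    (hs : ∀ i U q, q ∈ P → q ∉ U → h i (insert q U) ≤ h i U * (κ / ((q : ℝ) - 1))) :
    ∃ γ : (P → Option ι) → ℝ,
      (∀ m, ∏ i, ∑ U ∈ P.powerset, b i U * ∏ p ∈ U, Ef A p (some i) m =
        ∑ τ : P → Option ι, γ τ * Phi P A τ m) ∧
      ∀ τ, |γ τ - ∏ i, b i (pts P τ i)| ≤ (∏ i, h i (pts P τ i)) *
        ((∏ p : P, (if τ p = none then
          1 + 3 * (κ * Fintype.card ι / (((p : ℕ) : ℝ) - 1)) ^ 2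
          else 1 + 2 * (κ * Fintype.card ι / (((p : ℕ) : ℝ) - 1)))) - 1) := by
  have hp1 : ∀ p ∈ P, (0 : ℝ) < (p : ℝ) - 1 := by
    intro p hp
    have h1 : (1 : ℝ) < (p : ℝ) := by exact_mod_cast (hF.prime p hp).one_lt
    linarith
  have hx0 : ∀ q ∈ P, 0 ≤ κ / ((q : ℝ) - 1) := fun q hq => div_nonneg hκ (hp1 q hq).le
  have hh : ∀ i U, 0 ≤ h i U := fun i U => (abs_nonneg _).trans (hb i U)
  refine ⟨fun τ => ∑ W : P → Finset ι, (∏ i, b i (Mlt2_U W i)) * ∏ p : P, Mlt2_ep (W p) (τ p),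
    fun m => ?_, fun τ => ?_⟩
  · rw [Mlt2_expand]
    have h1 : ∀ W : P → Finset ι, ∏ i, (b i (Mlt2_U W i) * ∏ p ∈ Mlt2_U W i, Ef A p (some i) m) =
        ∑ τ : P → Option ι, (∏ i, b i (Mlt2_U W i)) * (∏ p : P, Mlt2_ep (W p) (τ p)) *
          Phi P A τ m := by
      intro W
      rw [prod_mul_distrib, prod_congr rfl fun i _ => Mlt2_prodU W i fun p => Ef A p (some i) m,
        prod_comm]
      have h2 : ∀ p : P, ∏ i : ι, (if i ∈ W p then Ef A (p : ℕ) (some i) m else 1) =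
          ∑ t : Option ι, Mlt2_ep (W p) t * Ef A p t m := by
        intro p
        rw [Finset.prod_ite_mem, univ_inter, Mlt2_local hF p.2]
      rw [prod_congr rfl fun p _ => h2 p, Mlt2_prodsum, mul_sum]
      apply sum_congr rfl
      intro τ _
      rw [prod_mul_distrib]
      unfold Phi
      ring
    rw [sum_congr rfl fun W _ => h1 W, sum_comm]
    apply sum_congr rfl
    intro τ _
    rw [sum_mul]
  · have ht : ∀ W : P → Finset ι, |(∏ i, b i (Mlt2_U W i)) * ∏ p : P, Mlt2_ep (W p) (τ p)| ≤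
        (∏ i, h i (pts P τ i)) * ∏ p : P, (|Mlt2_ep (W p) (τ p)| *
          Mlt2_cost (κ / (((p : ℕ) : ℝ) - 1)) (W p) (τ p)) := by
      intro W
      by_cases h0 : ∏ p : P, Mlt2_ep (W p) (τ p) = 0
      · rw [h0, mul_zero, abs_zero]
        exact mul_nonneg (prod_nonneg fun i _ => hh _ _) (prod_nonneg fun p _ =>
          mul_nonneg (abs_nonneg _) (Mlt2_cost_nonneg (hx0 p p.2) _ _))
      · have h0' : ∀ p : P, Mlt2_ep (W p) (τ p) ≠ 0 := fun p hp =>
          h0 (prod_eq_zero (mem_univ p) hp)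
        rw [abs_mul, abs_prod, abs_prod, prod_mul_distrib]
        have h1 : ∏ i, |b i (Mlt2_U W i)| ≤ ∏ i, h i (Mlt2_U W i) :=
          prod_le_prod (fun i _ => abs_nonneg _) fun i _ => hb i _
        have h2 := h1.trans (Mlt2_main (x := fun q => κ / ((q : ℝ) - 1)) hx0 hh hs W τ h0')
        refine (mul_le_mul_of_nonneg_right h2 (prod_nonneg fun p _ => abs_nonneg _)).trans
          (le_of_eq ?_)
        ring
    obtain ⟨W0, hW0⟩ : ∃ W0 : P → Finset ι, W0 = fun p => (τ p).toFinset := ⟨_, rfl⟩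
    have hU0 : ∀ i, Mlt2_U W0 i = pts P τ i := by
      intro i
      ext q
      rw [Mlt2_memU, Mlt2_mempts, hW0]
      simp only [Option.mem_toFinset, Option.mem_def]
    have hep0 : ∀ p, Mlt2_ep (W0 p) (τ p) = 1 := by
      intro p
      rw [hW0]
      simp only
      rcases τ p with _ | i
      · simp [Mlt2_ep]
      · simp [Mlt2_ep]
    have hc0 : ∀ p : P, Mlt2_cost (κ / (((p : ℕ) : ℝ) - 1)) (W0 p) (τ p) = 1 := by
      intro p
      rw [hW0]
      simp only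
      rcases τ p with _ | i
      · rw [Mlt2_cost_none]
        simp
      · rw [Mlt2_cost_some]
        simp
    have hT0 : (∏ i, b i (Mlt2_U W0 i)) * ∏ p : P, Mlt2_ep (W0 p) (τ p) =
        ∏ i, b i (pts P τ i) := by
      rw [prod_congr rfl fun p _ => hep0 p, prod_const_one, mul_one]
      exact prod_congr rfl fun i _ => by rw [hU0]
    have hS0 : ∏ p : P, (|Mlt2_ep (W0 p) (τ p)| *
        Mlt2_cost (κ / (((p : ℕ) : ℝ) - 1)) (W0 p) (τ p)) = 1 := by
      apply prod_eq_one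
      intro p _
      rw [hep0, hc0, abs_one, one_mul]
    have hsum : (∑ W : P → Finset ι, (∏ i, b i (Mlt2_U W i)) * ∏ p : P, Mlt2_ep (W p) (τ p)) -
        ∏ i, b i (pts P τ i) = ∑ W ∈ univ.erase W0, (∏ i, b i (Mlt2_U W i)) *
          ∏ p : P, Mlt2_ep (W p) (τ p) := by
      rw [← add_sum_erase univ _ (mem_univ W0), hT0]
      ring
    have hsum2 : (∑ W : P → Finset ι, ∏ p : P, (|Mlt2_ep (W p) (τ p)| *
          Mlt2_cost (κ / (((p : ℕ) : ℝ) - 1)) (W p) (τ p))) - 1 =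
        ∑ W ∈ univ.erase W0, ∏ p : P, (|Mlt2_ep (W p) (τ p)| *
          Mlt2_cost (κ / (((p : ℕ) : ℝ) - 1)) (W p) (τ p)) := by
      rw [← add_sum_erase univ _ (mem_univ W0), hS0]
      ring
    rw [hsum]
    refine (abs_sum_le_sum_abs _ _).trans ((sum_le_sum fun W _ => ht W).trans ?_)
    rw [← mul_sum, ← hsum2, ← Mlt2_prodsum fun (p : P) (I : Finset ι) => |Mlt2_ep I (τ p)| *
      Mlt2_cost (κ / (((p : ℕ) : ℝ) - 1)) I (τ p)]
    apply mul_le_mul_of_nonneg_left _ (prod_nonneg fun i _ => hh _ _)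
    apply sub_le_sub_right
    apply prod_le_prod
    · intro p _
      exact sum_nonneg fun I _ => mul_nonneg (abs_nonneg _) (Mlt2_cost_nonneg (hx0 p p.2) _ _)
    · intro p _
      have h1 : κ * Fintype.card ι / (((p : ℕ) : ℝ) - 1) =
          κ / (((p : ℕ) : ℝ) - 1) * Fintype.card ι := by ring
      rw [h1]
      apply Mlt2_loc (hx0 p p.2)
      rw [← h1, div_le_one (hp1 p p.2)]
      exact hx p p.2

end Pool.Agent.H.MP_711652_nt.CG
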