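import Pool.Agent.H.MP_711652_nt.CG.VAa

/-! # MP_711652, CG: the majorant: a further prime, level -/

set_option autoImplicit false

namespace Pool.Agent.H.MP_711652_nt.CG

open Finset Pool.Agent.H.MP_711652_nt.LG Pool.Agent.H.MP_711652_nt.G2 Pool.Agent.H.MP_711652_nt.CH

variable {ι : Type*} [Fintype ι] [DecidableEq ι] {D z B Y K Ks : ℕ} {c Λ : ℝ}

/-- PROOF. `pts` at `i` becomes `insert q (pts i)`, the others stay; `used` of the small primes grows.  Used or nonempty: `bT_sub`.  Unused and empty: from `1` to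
`(θ/Λ) bT {q} ≤ (θ/Λ) * 4 * (4 Λ / (q-1)) ≤ 4 Λ / (q - 1)` (`bT_empty`, `θ = c / log z ≤ 1`, `Λ ≥ 4` from `h.hΛ2`). -/
theorem av_sub1 (h : VH D z B Y K Ks (Fintype.card ι) c Λ) (σ : Pbig z B → Option ι)
    (τ : Psm D z → Option ι) (q : Psm D z) (i : ι) (hq : τ q = none) :
    av D z B Y K c Λ σ (Function.update τ q (some i)) ≤
      av D z B Y K c Λ σ τ * (4 * Λ / (((q : ℕ) : ℝ) - 1)) := by
  have hΛ1 := h.hΛ
  have hqp : (q : ℕ).Prime := (mem_filter.1 q.2).2
  have hq2 : (2 : ℝ) ≤ ((q : ℕ) : ℝ) := by exact_mod_cast hqp.two_le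
  have hx : 0 ≤ 4 * Λ / (((q : ℕ) : ℝ) - 1) := div_nonneg (by linarith) (by linarith)
  by_cases hK : (used (Pbig z B) σ ∪ used (Psm D z) (Function.update τ q (some i))).card ≤ K
  · have hK2 : (used (Pbig z B) σ ∪ used (Psm D z) τ).card ≤ K := by
      refine le_trans (card_le_card ?_) hK
      rw [VA_used_upd τ q i hq]
      exact union_subset_union (Subset.refl _) (subset_insert _ _)
    unfold av
    rw [if_pos hK, if_pos hK2, mul_assoc]
    refine mul_le_mul_of_nonneg_left ?_ (abs_nonneg _)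
    rw [← mul_prod_erase univ _ (mem_univ i), ← mul_prod_erase univ (fun j =>
      wg D z Λ (c / Real.log z) (used (Pbig z B) σ) j (pts (Psm D z) τ j)) (mem_univ i)]
    have e1 : ∀ j ∈ univ.erase i, wg D z Λ (c / Real.log z) (used (Pbig z B) σ) j
        (pts (Psm D z) (Function.update τ q (some i)) j) =
        wg D z Λ (c / Real.log z) (used (Pbig z B) σ) j (pts (Psm D z) τ j) := by
      intro j hj
      rw [VA_pts_ne τ q i j (ne_of_mem_erase hj) hq]
    rw [prod_congr rfl e1, VA_pts_same τ q i hq]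
    have hqU : (q : ℕ) ∉ pts (Psm D z) τ i := by
      intro hm
      obtain ⟨h1, h2⟩ := Mlt2_mempts.1 hm
      have h3 : (⟨(q : ℕ), h1⟩ : Psm D z) = q := rfl
      rw [h3, hq] at h2
      exact absurd h2 (by simp)
    have h5 := VA_wg_ins h (used (Pbig z B) σ) i (pts (Psm D z) τ i) q q.2 hqU
    have h6 : 0 ≤ ∏ j ∈ univ.erase i,
        wg D z Λ (c / Real.log z) (used (Pbig z B) σ) j (pts (Psm D z) τ j) :=
      prod_nonneg fun j _ => VA_wg_nonneg h _ _ _
    calc _ ≤ (wg D z Λ (c / Real.log z) (used (Pbig z B) σ) i (pts (Psm D z) τ i) *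
          (4 * Λ / (((q : ℕ) : ℝ) - 1))) * ∏ j ∈ univ.erase i,
          wg D z Λ (c / Real.log z) (used (Pbig z B) σ) j (pts (Psm D z) τ j) :=
          mul_le_mul_of_nonneg_right h5 h6
      _ = _ := by ring
  · have e0 : av D z B Y K c Λ σ (Function.update τ q (some i)) = 0 := by
      unfold av
      rw [if_neg hK]
    rw [e0]
    exact mul_nonneg (av_nonneg h σ τ) hx

/-- PROOF. See `CH/CfSub.lean` (`cfs_chg`, `cf_coef`).  Used position: `|cf|` costs `1 / (p - 1)`.  Unused: `|cf|` costs at most `gw c p ≤ θ / (p - 1)`, `θ = c / log z ≤ 1`, and the weight goes from `1` to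
`bT ∅ ≤ 4`, or from `(θ/Λ) bT U` to `bT U`. -/
theorem av_sub2 (h : VH D z B Y K Ks (Fintype.card ι) c Λ) (σ : Pbig z B → Option ι)
    (τ : Psm D z → Option ι) (p : Pbig z B) (i : ι) (hp : σ p = none) :
    av D z B Y K c Λ (Function.update σ p (some i)) τ ≤
      av D z B Y K c Λ σ τ * (4 * Λ / (((p : ℕ) : ℝ) - 1)) := by
  obtain ⟨hc, hlz, hθ1, hΛ4⟩ := VA_num h
  have hΛ0 : 0 < Λ := by linarith
  have hpp := h.big.prime p p.2
  have hp2 : (2 : ℝ) ≤ ((p : ℕ) : ℝ) := by exact_mod_cast hpp.two_le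
  have hp1 : (0 : ℝ) < ((p : ℕ) : ℝ) - 1 := by linarith
  have hx : 0 ≤ 4 * Λ / (((p : ℕ) : ℝ) - 1) := div_nonneg (by linarith) (by linarith)
  by_cases hK : (used (Pbig z B) (Function.update σ p (some i)) ∪ used (Psm D z) τ).card ≤ K
  · have hK2 : (used (Pbig z B) σ ∪ used (Psm D z) τ).card ≤ K := by
      refine le_trans (card_le_card ?_) hK
      rw [VA_used_upd σ p i hp]
      exact union_subset_union (subset_insert _ _) (Subset.refl _)
    unfold av
    rw [if_pos hK, if_pos hK2]
    rw [← mul_prod_erase univ _ (mem_univ i), ← mul_prod_erase univ (fun j =>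
      wg D z Λ (c / Real.log z) (used (Pbig z B) σ) j (pts (Psm D z) τ j)) (mem_univ i)]
    have e1 : ∀ j ∈ univ.erase i, wg D z Λ (c / Real.log z)
        (used (Pbig z B) (Function.update σ p (some i))) j (pts (Psm D z) τ j) =
        wg D z Λ (c / Real.log z) (used (Pbig z B) σ) j (pts (Psm D z) τ j) := by
      intro j hj
      have hji := ne_of_mem_erase hj
      unfold wg
      have e2 : j ∈ used (Pbig z B) (Function.update σ p (some i)) ↔ j ∈ used (Pbig z B) σ := by
        rw [VA_used_upd σ p i hp, mem_insert]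
        exact ⟨fun hh => hh.resolve_left hji, Or.inr⟩
      simp only [e2]
    rw [prod_congr rfl e1]
    have h6 : 0 ≤ ∏ j ∈ univ.erase i,
        wg D z Λ (c / Real.log z) (used (Pbig z B) σ) j (pts (Psm D z) τ j) :=
      prod_nonneg fun j _ => VA_wg_nonneg h _ _ _
    have hi' : i ∈ used (Pbig z B) (Function.update σ p (some i)) := by
      rw [VA_used_upd σ p i hp]
      exact mem_insert_self _ _
    have e3 : wg D z Λ (c / Real.log z) (used (Pbig z B) (Function.update σ p (some i))) i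
        (pts (Psm D z) τ i) = bT D z Λ (pts (Psm D z) τ i) := by
      unfold wg
      rw [if_pos hi']
    rw [e3]
    obtain ⟨f, hf, h7, h8⟩ : ∃ f : ℝ, 0 ≤ f ∧
        |cf (Pbig z B) (chi (fun _ : ι => gw c) B) Y (Function.update σ p (some i))| ≤
        |cf (Pbig z B) (chi (fun _ : ι => gw c) B) Y σ| * (f * (1 / (((p : ℕ) : ℝ) - 1))) ∧
        f * bT D z Λ (pts (Psm D z) τ i) ≤
          4 * Λ * wg D z Λ (c / Real.log z) (used (Pbig z B) σ) i (pts (Psm D z) τ i) := by
      have hb0 : 0 ≤ bT D z Λ (pts (Psm D z) τ i) := bT_nonneg h.hΛ _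
      by_cases hi : i ∈ used (Pbig z B) σ
      · refine ⟨1, zero_le_one, ?_, ?_⟩
        · have h9 := (cf_coef (ι := ι) h.big).sub σ p i hp
          rw [one_mul, mul_one_div]
          exact h9
        · unfold wg
          rw [if_pos hi]
          exact mul_le_mul_of_nonneg_right (by linarith) hb0
      · refine ⟨c / Real.log z, by positivity, VA_cf_new h.big σ p i hp hi, ?_⟩
        unfold wg
        rw [if_neg hi]
        by_cases hU : pts (Psm D z) τ i = ∅
        · rw [if_pos hU, hU, mul_one]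
          have h9 : bT D z Λ ∅ ≤ 4 := bT_empty h.hΛ h.hD h.hz
          calc c / Real.log z * bT D z Λ ∅ ≤ 1 * 4 :=
                mul_le_mul hθ1 h9 (bT_nonneg h.hΛ _) zero_le_one
            _ ≤ 4 * Λ := by linarith
        · rw [if_neg hU]
          have e4 : 4 * Λ * (c / Real.log z / Λ * bT D z Λ (pts (Psm D z) τ i)) =
              4 * (c / Real.log z * bT D z Λ (pts (Psm D z) τ i)) := by
            field_simp
          rw [e4]
          have h9 : 0 ≤ c / Real.log z * bT D z Λ (pts (Psm D z) τ i) :=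
            mul_nonneg (by positivity) hb0
          linarith
    have hb0 : 0 ≤ bT D z Λ (pts (Psm D z) τ i) := bT_nonneg h.hΛ _
    have hcf0 := abs_nonneg (cf (Pbig z B) (chi (fun _ : ι => gw c) B) Y σ)
    obtain ⟨X, hX⟩ : ∃ X, X = ∏ j ∈ univ.erase i,
      wg D z Λ (c / Real.log z) (used (Pbig z B) σ) j (pts (Psm D z) τ j) := ⟨_, rfl⟩
    obtain ⟨C, hC⟩ : ∃ C, C = |cf (Pbig z B) (chi (fun _ : ι => gw c) B) Y σ| := ⟨_, rfl⟩
    rw [← hX] at h6 ⊢
    rw [← hC] at h7 hcf0 ⊢
    have hg0 : 0 ≤ 1 / (((p : ℕ) : ℝ) - 1) := by positivity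
    calc _ ≤ C * (f * (1 / (((p : ℕ) : ℝ) - 1))) * (bT D z Λ (pts (Psm D z) τ i) * X) :=
          mul_le_mul_of_nonneg_right h7 (mul_nonneg hb0 h6)
      _ = C * (1 / (((p : ℕ) : ℝ) - 1)) * X * (f * bT D z Λ (pts (Psm D z) τ i)) := by ring
      _ ≤ C * (1 / (((p : ℕ) : ℝ) - 1)) * X * (4 * Λ *
          wg D z Λ (c / Real.log z) (used (Pbig z B) σ) i (pts (Psm D z) τ i)) :=
          mul_le_mul_of_nonneg_left h8 (mul_nonneg (mul_nonneg hcf0 hg0) h6)
      _ = _ := by ring
  · have e0 : av D z B Y K c Λ (Function.update σ p (some i)) τ = 0 := by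
      unfold av
      rw [if_neg hK]
    rw [e0]
    exact mul_nonneg (av_nonneg h σ τ) hx

/-- PROOF. `cf ≠ 0`; every occupied position has `bT (pts i) ≠ 0`, so product at most `z^248` (`bT_level`); at most `K` positions. -/
theorem av_level (h : VH D z B Y K Ks (Fintype.card ι) c Λ) (σ : Pbig z B → Option ι)
    (τ : Psm D z → Option ι) (h0 : av D z B Y K c Λ σ τ ≠ 0) :
    LG.DD (Pbig z B) σ ≤ Y ∧ LG.DD (Psm D z) τ ≤ (z ^ 248) ^ K := by
  have hz1 : 1 ≤ z := by
    have h1 := h.big.hD
    by_contra hh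
    have h2 : z = 0 := by omega
    rw [h2] at h1
    norm_num at h1
  unfold av at h0
  by_cases hK : (used (Pbig z B) σ ∪ used (Psm D z) τ).card ≤ K
  · rw [if_pos hK] at h0
    have h1 := left_ne_zero_of_mul h0
    have h2 := right_ne_zero_of_mul h0
    constructor
    · by_contra hcon
      apply h1
      unfold cf
      rw [if_neg hcon, abs_zero]
    · rw [DD_eq_prod_rr]
      have h3 : ∏ i, rr (Psm D z) τ i = ∏ i ∈ used (Psm D z) τ, rr (Psm D z) τ i := by
        symm
        refine prod_subset (subset_univ _) fun i _ hi => ?_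
        by_contra hne
        exact hi (mem_used_of_rr _ τ i hne)
      rw [h3]
      calc ∏ i ∈ used (Psm D z) τ, rr (Psm D z) τ i
          ≤ ∏ _i ∈ used (Psm D z) τ, z ^ 248 := by
            refine prod_le_prod' fun i hi => ?_
            rw [← VA_pts_prod]
            have h4 : wg D z Λ (c / Real.log z) (used (Pbig z B) σ) i (pts (Psm D z) τ i) ≠ 0 :=
              prod_ne_zero_iff.1 h2 i (mem_univ i)
            have h5 : bT D z Λ (pts (Psm D z) τ i) ≠ 0 := by
              unfold wg at h4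
              by_cases h6 : i ∈ used (Pbig z B) σ
              · rwa [if_pos h6] at h4
              · rw [if_neg h6, if_neg ((VA_used_iff τ i).1 hi)] at h4
                exact right_ne_zero_of_mul h4
            exact bT_level h.hD h.hz _ (VA_pts_sub τ i) h5
        _ = (z ^ 248) ^ (used (Psm D z) τ).card := prod_const _
        _ ≤ (z ^ 248) ^ K := by
            refine Nat.pow_le_pow_right (Nat.pow_pos hz1) ?_
            exact (card_le_card subset_union_right).trans hK
  · rw [if_neg hK] at h0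
    exact absurd rfl h0

end Pool.Agent.H.MP_711652_nt.CG
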