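import Pool.Agent.H.MP_711652_nt.CG.VDf

/-! # MP_711652, CG: the majorant, auxiliary lemmas -/

set_option autoImplicit false

namespace Pool.Agent.H.MP_711652_nt.CG

open Finset Pool.Agent.H.MP_711652_nt.LG Pool.Agent.H.MP_711652_nt.G2 Pool.Agent.H.MP_711652_nt.CH

variable {ι : Type*} [Fintype ι] [DecidableEq ι] {D z B Y K Ks : ℕ} {c Λ : ℝ}

section aux

omit [Fintype ι]

theorem VA_rr_same {P : Finset ℕ} (σ : P → Option ι) (p : P) (i : ι) (h : σ p = none) :
    rr P (Function.update σ p (some i)) i = rr P σ i * (p : ℕ) := by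
  unfold rr
  have h1 : ∀ q : P, (if Function.update σ p (some i) q = some i then (q : ℕ) else 1) =
      (if σ q = some i then (q : ℕ) else 1) * (if q = p then (p : ℕ) else 1) := by
    intro q
    by_cases hq : q = p
    · subst hq
      simp [h]
    · rw [Function.update_of_ne hq, if_neg hq, mul_one]
  rw [prod_congr rfl (fun q _ => h1 q), prod_mul_distrib, prod_ite_eq' univ p, if_pos (mem_univ _)]

theorem VA_rr_ne {P : Finset ℕ} (σ : P → Option ι) (p : P) (i j : ι) (hj : j ≠ i)
    (h : σ p = none) : rr P (Function.update σ p (some i)) j = rr P σ j := by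
  unfold rr
  refine prod_congr rfl fun q _ => ?_
  by_cases hq : q = p
  · subst hq
    have h1 : ¬ (some i = some j) := fun hh => hj (Option.some.inj hh).symm
    rw [Function.update_self, if_neg h1, h, if_neg (by simp)]
  · rw [Function.update_of_ne hq]

theorem VA_DD {P : Finset ℕ} (σ : P → Option ι) (p : P) (i : ι) (h : σ p = none) :
    DD P (Function.update σ p (some i)) = DD P σ * (p : ℕ) := by
  unfold DD
  have h1 : ∀ q : P, (if Function.update σ p (some i) q = none then 1 else (q : ℕ)) =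
      (if σ q = none then 1 else (q : ℕ)) * (if q = p then (p : ℕ) else 1) := by
    intro q
    by_cases hq : q = p
    · subst hq
      simp [h]
    · rw [Function.update_of_ne hq, if_neg hq, mul_one]
  rw [prod_congr rfl (fun q _ => h1 q), prod_mul_distrib, prod_ite_eq' univ p, if_pos (mem_univ _)]

theorem VA_chg {B : ℕ} {c E : ℝ} (hc : 0 ≤ c) {p : ℕ} (hp : p.Prime) (hE : 3 ≤ E)
    (hEp : E ≤ p) : |chg (gw c) B p| ≤ c / Real.log E * (1 / ((p : ℝ) - 1)) := by
  have hp2 : (2 : ℝ) ≤ p := by exact_mod_cast hp.two_le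
  have hp1 : (0 : ℝ) < (p : ℝ) - 1 := by linarith
  have hlE : 0 < Real.log E := Real.log_pos (by linarith)
  have hll : Real.log E ≤ Real.log p := Real.log_le_log (by linarith) hEp
  have hR0 : 0 ≤ c / Real.log E * (1 / ((p : ℝ) - 1)) := by positivity
  unfold chg
  rw [if_neg hp.one_lt.ne']
  by_cases hB : p ≤ B
  · rw [if_pos hB, abs_neg, abs_of_nonneg (gw_nonneg hc _), gw_of_two_le c hp.two_le,
      Nat.totient_prime hp, Nat.cast_sub hp.one_le, Nat.cast_one]
    rw [show c / Real.log E * (1 / ((p : ℝ) - 1)) = c / (((p : ℝ) - 1) * Real.log E) by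
      field_simp]
    exact div_le_div_of_nonneg_left hc (by positivity)
      (mul_le_mul_of_nonneg_left hll hp1.le)
  · rw [if_neg hB, abs_zero]
    exact hR0

end aux

theorem VA_pts_same {P : Finset ℕ} (τ : P → Option ι) (q : P) (i : ι) (h : τ q = none) :
    pts P (Function.update τ q (some i)) i = insert (q : ℕ) (pts P τ i) := by
  ext x
  rw [Mlt2_mempts, mem_insert, Mlt2_mempts]
  constructor
  · rintro ⟨hx, h1⟩
    by_cases hq : (⟨x, hx⟩ : P) = q
    · left
      rw [← hq]
    · right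
      rw [Function.update_of_ne hq] at h1
      exact ⟨hx, h1⟩
  · rintro (rfl | ⟨hx, h1⟩)
    · exact ⟨q.2, by simp⟩
    · refine ⟨hx, ?_⟩
      have hq : (⟨x, hx⟩ : P) ≠ q := by
        rintro rfl
        rw [h] at h1
        exact absurd h1 (by simp)
      rw [Function.update_of_ne hq]
      exact h1

theorem VA_pts_ne {P : Finset ℕ} (τ : P → Option ι) (q : P) (i j : ι) (hj : j ≠ i)
    (h : τ q = none) : pts P (Function.update τ q (some i)) j = pts P τ j := by
  ext x
  rw [Mlt2_mempts, Mlt2_mempts]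
  constructor
  · rintro ⟨hx, h1⟩
    by_cases hq : (⟨x, hx⟩ : P) = q
    · rw [hq, Function.update_self] at h1
      exact absurd (Option.some.inj h1).symm hj
    · rw [Function.update_of_ne hq] at h1
      exact ⟨hx, h1⟩
  · rintro ⟨hx, h1⟩
    refine ⟨hx, ?_⟩
    have hq : (⟨x, hx⟩ : P) ≠ q := by
      rintro rfl
      rw [h] at h1
      exact absurd h1 (by simp)
    rw [Function.update_of_ne hq]
    exact h1

theorem VA_pts_sub {P : Finset ℕ} (τ : P → Option ι) (i : ι) : pts P τ i ⊆ P := by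
  intro x hx
  rw [Mlt2_mempts] at hx
  exact hx.1

theorem VA_pts_prod {P : Finset ℕ} (τ : P → Option ι) (i : ι) :
    ∏ p ∈ pts P τ i, p = rr P τ i := by
  unfold pts rr
  rw [prod_image (fun a _ b _ hab => Subtype.ext hab), prod_filter]

theorem VA_used_upd {P : Finset ℕ} (τ : P → Option ι) (q : P) (i : ι) (h : τ q = none) :
    used P (Function.update τ q (some i)) = insert i (used P τ) := by
  ext j
  rw [mem_used, mem_insert, mem_used]
  constructor
  · rintro ⟨p, h1⟩
    by_cases hp : p = q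
    · rw [hp, Function.update_self] at h1
      exact Or.inl (Option.some.inj h1).symm
    · rw [Function.update_of_ne hp] at h1
      exact Or.inr ⟨p, h1⟩
  · rintro (rfl | ⟨p, h1⟩)
    · exact ⟨q, by simp⟩
    · refine ⟨p, ?_⟩
      have hp : p ≠ q := by
        rintro rfl
        rw [h] at h1
        exact absurd h1 (by simp)
      rw [Function.update_of_ne hp]
      exact h1

theorem VA_used_iff {P : Finset ℕ} (τ : P → Option ι) (i : ι) :
    i ∈ used P τ ↔ pts P τ i ≠ ∅ := by
  rw [mem_used, ← nonempty_iff_ne_empty]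
  constructor
  · rintro ⟨p, hp⟩
    exact ⟨p, Mlt2_mempts.2 ⟨p.2, hp⟩⟩
  · rintro ⟨x, hx⟩
    obtain ⟨h, h1⟩ := Mlt2_mempts.1 hx
    exact ⟨_, h1⟩

theorem VA_cf_new {P : Finset ℕ} {B Y K : ℕ} {c E : ℝ} (hB : Big P B Y K c E)
    (σ : P → Option ι) (p : P) (i : ι) (hp : σ p = none) (hi : i ∉ used P σ) :
    |cf P (chi (fun _ : ι => gw c) B) Y (Function.update σ p (some i))| ≤
      |cf P (chi (fun _ : ι => gw c) B) Y σ| * (c / Real.log E * (1 / (((p : ℕ) : ℝ) - 1))) := by
  have hpp := hB.prime p p.2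
  have hp2 : (2 : ℝ) ≤ ((p : ℕ) : ℝ) := by exact_mod_cast hpp.two_le
  have hp1 : (0 : ℝ) < ((p : ℕ) : ℝ) - 1 := by linarith
  have hlE : 0 < Real.log E := Real.log_pos (by linarith [hB.hD])
  have hc := hB.hc
  have hR0 : 0 ≤ c / Real.log E * (1 / (((p : ℕ) : ℝ) - 1)) := by positivity
  by_cases hD : DD P (Function.update σ p (some i)) ≤ Y
  · have hD2 : DD P σ ≤ Y := by
      rw [VA_DD σ p i hp] at hD
      exact (Nat.le_mul_of_pos_right _ hpp.pos).trans hD
    have hr1 : rr P σ i = 1 := by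
      by_contra hne
      exact hi (mem_used_of_rr P σ i hne)
    unfold cf
    rw [if_pos hD, if_pos hD2, abs_prod, abs_prod]
    have h1 : ∀ j : ι, |chi (fun _ : ι => gw c) B j (rr P (Function.update σ p (some i)) j)| ≤
        |chi (fun _ : ι => gw c) B j (rr P σ j)| *
          (if j = i then c / Real.log E * (1 / (((p : ℕ) : ℝ) - 1)) else 1) := by
      intro j
      by_cases hj : j = i
      · subst hj
        rw [if_pos rfl, VA_rr_same σ p j hp, hr1, one_mul]
        have e1 : |chi (fun _ : ι => gw c) B j 1| = 1 := by simp [chi, chg]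
        rw [e1, one_mul]
        exact VA_chg hc hpp hB.hD (hB.ge p p.2)
      · rw [if_neg hj, mul_one, VA_rr_ne σ p i j hj hp]
    refine (prod_le_prod (fun j _ => abs_nonneg _) fun j _ => h1 j).trans ?_
    rw [prod_mul_distrib, prod_ite_eq' univ i, if_pos (mem_univ _)]
  · have h0 : cf P (chi (fun _ : ι => gw c) B) Y (Function.update σ p (some i)) = 0 := by
      unfold cf
      rw [if_neg hD]
    rw [h0, abs_zero]
    positivity

omit [Fintype ι] in
theorem VA_num {r : ℕ} (h : VH D z B Y K Ks r c Λ) :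
    0 ≤ c ∧ 0 < Real.log z ∧ c / Real.log z ≤ 1 ∧ 4 ≤ Λ := by
  have h1 : 0 < Real.log z := Real.log_pos (by linarith [h.big.hD])
  refine ⟨h.big.hc, h1, (div_le_one h1).2 h.big.clog, ?_⟩
  refine le_trans ?_ h.hΛ2
  have h2 : (40 : ℝ) ≤ Real.log D := by
    rw [← Real.log_exp 40]
    exact Real.log_le_log (Real.exp_pos _) h.hD
  have h3 : (1 : ℝ) ≤ Real.exp 21 := Real.one_le_exp (by norm_num)
  have h4 : (1 : ℝ) ≤ (K : ℝ) + 1 := by linarith [(Nat.cast_nonneg K : (0 : ℝ) ≤ K)]
  have h5 : (1 : ℝ) * 40 ≤ Real.exp 21 * Real.log D := mul_le_mul h3 h2 (by norm_num) (by positivity)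
  have h6 : (1 : ℝ) * 40 * 1 ≤ Real.exp 21 * Real.log D * ((K : ℝ) + 1) :=
    mul_le_mul h5 h4 (by norm_num) (by positivity)
  have e1 : 1000 * Real.exp 21 * Real.log D * ((K : ℝ) + 1) =
      1000 * (Real.exp 21 * Real.log D * ((K : ℝ) + 1)) := by ring
  rw [e1]
  linarith

omit [Fintype ι] in
theorem VA_wg_nonneg {r : ℕ} (h : VH D z B Y K Ks r c Λ) (S : Finset ι) (i : ι)
    (U : Finset ℕ) : 0 ≤ wg D z Λ (c / Real.log z) S i U := by
  obtain ⟨h1, h2, -, h3⟩ := VA_num h
  unfold wg
  split_ifs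
  · exact bT_nonneg h.hΛ _
  · exact zero_le_one
  · exact mul_nonneg (by positivity) (bT_nonneg h.hΛ _)

omit [Fintype ι] in
/-- the weight of a further small prime -/
theorem VA_wg_ins {r : ℕ} (h : VH D z B Y K Ks r c Λ) (S : Finset ι) (i : ι)
    (U : Finset ℕ) (q : ℕ) (hq : q ∈ Psm D z) (hqU : q ∉ U) :
    wg D z Λ (c / Real.log z) S i (insert q U) ≤
      wg D z Λ (c / Real.log z) S i U * (4 * Λ / ((q : ℝ) - 1)) := by
  obtain ⟨h1, h2, h3, h4⟩ := VA_num h
  have hΛ0 : 0 < Λ := by linarith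
  have hθ : 0 ≤ c / Real.log z := by positivity
  have hqp : q.Prime := (mem_filter.1 hq).2
  have hq2 : (2 : ℝ) ≤ q := by exact_mod_cast hqp.two_le
  have hx : 0 ≤ 4 * Λ / ((q : ℝ) - 1) := div_nonneg (by linarith) (by linarith)
  have hb := bT_sub h.hΛ h.hD h.hz U q hq hqU
  unfold wg
  rw [if_neg (insert_ne_empty q U)]
  by_cases hi : i ∈ S
  · rw [if_pos hi, if_pos hi]
    exact hb
  · rw [if_neg hi, if_neg hi]
    have h5 : c / Real.log z / Λ * bT D z Λ (insert q U) ≤
        c / Real.log z / Λ * (bT D z Λ U * (4 * Λ / ((q : ℝ) - 1))) :=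
      mul_le_mul_of_nonneg_left hb (by positivity)
    by_cases hU : U = ∅
    · rw [if_pos hU, one_mul]
      refine h5.trans ?_
      rw [← mul_assoc]
      refine mul_le_of_le_one_left hx ?_
      rw [hU]
      have h6 : bT D z Λ ∅ ≤ 4 := bT_empty h.hΛ h.hD h.hz
      have h7 : c / Real.log z / Λ ≤ 1 / 4 := div_le_div₀ zero_le_one h3 (by norm_num) h4
      have h8 : c / Real.log z / Λ * bT D z Λ ∅ ≤ 1 / 4 * 4 :=
        mul_le_mul h7 h6 (bT_nonneg h.hΛ _) (by norm_num)
      linarith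
    · rw [if_neg hU]
      linarith [mul_assoc (c / Real.log z / Λ) (bT D z Λ U) (4 * Λ / ((q : ℝ) - 1))]

end Pool.Agent.H.MP_711652_nt.CG
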