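import Pool.Agent.H.MP_711652_nt.CG.VDf

/-! # MP_711652, CG: the majorant: the total -/

set_option autoImplicit false

namespace Pool.Agent.H.MP_711652_nt.CG

open Finset Pool.Agent.H.MP_711652_nt.LG Pool.Agent.H.MP_711652_nt.G2 Pool.Agent.H.MP_711652_nt.CH

variable {ι : Type*} [Fintype ι] [DecidableEq ι] {D z B Y K Ks : ℕ} {c Λ : ℝ}

omit [Fintype ι] in
private theorem VB_mempts {P : Finset ℕ} {τ : P → Option ι} {i : ι} {q : ℕ} :
    q ∈ pts P τ i ↔ ∃ h : q ∈ P, τ ⟨q, h⟩ = some i := by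
  unfold pts
  rw [mem_image]
  constructor
  · rintro ⟨p, hp, rfl⟩
    exact ⟨p.2, (mem_filter.1 hp).2⟩
  · rintro ⟨h, h1⟩
    exact ⟨⟨q, h⟩, mem_filter.2 ⟨mem_univ _, h1⟩, rfl⟩

omit [Fintype ι] in
private theorem VB_inj {P : Finset ℕ} {τ τ' : P → Option ι} (h : ∀ i, pts P τ i = pts P τ' i) :
    τ = τ' := by
  have h1 : ∀ (p : P) (i : ι), τ p = some i ↔ τ' p = some i := by
    intro p i
    have h2 : pts P τ i = pts P τ' i := h i
    constructor
    · intro h3
      have h4 : (p : ℕ) ∈ pts P τ' i := h2 ▸ VB_mempts.2 ⟨p.2, h3⟩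
      exact (VB_mempts.1 h4).2
    · intro h3
      have h4 : (p : ℕ) ∈ pts P τ i := h2 ▸ VB_mempts.2 ⟨p.2, h3⟩
      exact (VB_mempts.1 h4).2
  funext p
  exact Option.ext (h1 p)

omit [Fintype ι] in
private theorem VB_sub {P : Finset ℕ} (τ : P → Option ι) (i : ι) : pts P τ i ⊆ P := by
  intro q hq
  exact (VB_mempts.1 hq).1

private theorem VB_used {P : Finset ℕ} (τ : P → Option ι) (i : ι) :
    i ∈ used P τ ↔ pts P τ i ≠ ∅ := by
  rw [mem_used, ← Finset.nonempty_iff_ne_empty]
  constructor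
  · rintro ⟨p, hp⟩
    exact ⟨p, VB_mempts.2 ⟨p.2, hp⟩⟩
  · rintro ⟨q, hq⟩
    obtain ⟨h, h1⟩ := VB_mempts.1 hq
    exact ⟨_, h1⟩

omit [Fintype ι] in
private theorem VB_rr {P : Finset ℕ} (τ : P → Option ι) (i : ι) :
    rr P τ i = ∏ p ∈ pts P τ i, p := by
  unfold rr pts
  rw [prod_image (by intro a _ b _ h; exact Subtype.ext h), prod_filter]

/-- families with few nontrivial entries -/
private theorem VB_few {α : Type*} [DecidableEq α] (A : Finset α) (o : α)
    (w : α → ℝ) (hw : ∀ x ∈ A, 0 ≤ w x) (hwo : w o = 1) {t : ℝ}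
    (ht : ∑ x ∈ A.erase o, w x ≤ t) (K : ℕ) :
    ∑ V ∈ (Fintype.piFinset fun _ : ι => A).filter
      (fun V => (univ.filter fun i => V i ≠ o).card ≤ K), ∏ i, w (V i) ≤
      (1 + Fintype.card ι * t) ^ K := by
  classical
  set T : ℝ := ∑ x ∈ A.erase o, w x with hT
  have hT0 : 0 ≤ T := Finset.sum_nonneg fun x hx => hw x (Finset.mem_of_mem_erase hx)
  have ht0 : 0 ≤ t := hT0.trans ht
  have hfib := Finset.sum_fiberwise_of_maps_to
    (s := (Fintype.piFinset fun _ : ι => A).filter
      (fun V => (univ.filter fun i => V i ≠ o).card ≤ K))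
    (t := (univ : Finset (Finset ι)).filter fun O => O.card ≤ K)
    (g := fun V => univ.filter fun i => V i ≠ o)
    (fun V hV => by
      rw [mem_filter] at hV ⊢
      exact ⟨mem_univ _, hV.2⟩) (fun V => ∏ i, w (V i))
  rw [← hfib]
  have h1 : ∀ O ∈ (univ : Finset (Finset ι)).filter fun O => O.card ≤ K,
      ∑ V ∈ ((Fintype.piFinset fun _ : ι => A).filter
        (fun V => (univ.filter fun i => V i ≠ o).card ≤ K)).filter
        (fun V => (univ.filter fun i => V i ≠ o) = O), ∏ i, w (V i) ≤ t ^ O.card := by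
    intro O _
    have h2 : ∑ V ∈ Fintype.piFinset (fun i : ι => if i ∈ O then A.erase o else {o}),
        ∏ i, w (V i) = T ^ O.card := by
      rw [← Finset.prod_univ_sum (fun i : ι => if i ∈ O then A.erase o else {o})
        (fun _ x => w x)]
      have h3 : ∀ i : ι, ∑ x ∈ (if i ∈ O then A.erase o else {o}), w x =
          if i ∈ O then T else 1 := by
        intro i
        split_ifs
        · rfl
        · rw [Finset.sum_singleton, hwo]
      rw [Finset.prod_congr rfl fun i _ => h3 i, Finset.prod_ite_mem, Finset.univ_inter,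
        Finset.prod_const]
    refine le_trans ?_ (h2.le.trans (pow_le_pow_left₀ hT0 ht _))
    apply Finset.sum_le_sum_of_subset_of_nonneg
    · intro V hV
      rw [mem_filter, mem_filter, Fintype.mem_piFinset] at hV
      obtain ⟨⟨hVA, -⟩, hO⟩ := hV
      rw [Fintype.mem_piFinset]
      intro i
      have h4 : i ∈ O ↔ V i ≠ o := by
        rw [← hO, mem_filter]
        exact ⟨fun h => h.2, fun h => ⟨mem_univ _, h⟩⟩
      by_cases hi : i ∈ O
      · rw [if_pos hi]
        exact Finset.mem_erase.2 ⟨h4.1 hi, hVA i⟩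
      · rw [if_neg hi, Finset.mem_singleton]
        by_contra hne
        exact hi (h4.2 hne)
    · intro V hV _
      rw [Fintype.mem_piFinset] at hV
      apply Finset.prod_nonneg
      intro i _
      have := hV i
      by_cases hi : i ∈ O
      · rw [if_pos hi] at this
        exact hw _ (Finset.mem_of_mem_erase this)
      · rw [if_neg hi, Finset.mem_singleton] at this
        rw [this, hwo]
        exact zero_le_one
  refine (Finset.sum_le_sum h1).trans ?_
  rw [Finset.sum_filter, ← Finset.powerset_univ]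
  rw [Finset.sum_powerset_apply_card (fun j => if j ≤ K then t ^ j else 0)]
  rw [Finset.card_univ, add_comm (1 : ℝ), add_pow]
  have h5 : ∀ j ∈ Finset.range (Fintype.card ι + 1),
      (Fintype.card ι).choose j • (if j ≤ K then t ^ j else (0 : ℝ)) =
        if j ∈ Finset.range (K + 1) then ((Fintype.card ι).choose j : ℝ) * t ^ j else 0 := by
    intro j _
    by_cases hj : j ≤ K
    · rw [if_pos hj, if_pos (Finset.mem_range.2 (by omega)), nsmul_eq_mul]
    · rw [if_neg hj, if_neg (fun h => hj (by rw [Finset.mem_range] at h; omega)), smul_zero]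
  rw [Finset.sum_congr rfl h5, Finset.sum_ite_mem]
  refine (Finset.sum_le_sum_of_subset_of_nonneg Finset.inter_subset_right fun j _ _ => by
    positivity).trans ?_
  apply Finset.sum_le_sum
  intro j hj
  have hjK : j ≤ K := by
    rw [Finset.mem_range] at hj
    omega
  rw [one_pow, mul_one, mul_pow]
  have h6 : ((Fintype.card ι).choose j : ℝ) ≤ (Fintype.card ι : ℝ) ^ j := by
    refine (Nat.choose_le_pow_div j (Fintype.card ι)).trans ?_
    apply div_le_self (by positivity)
    exact_mod_cast Nat.one_le_iff_ne_zero.2 (Nat.factorial_ne_zero j)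
  have h7 : (1 : ℝ) ≤ (K.choose j : ℝ) := by
    exact_mod_cast Nat.one_le_iff_ne_zero.2 (Nat.choose_pos hjK).ne'
  calc ((Fintype.card ι).choose j : ℝ) * t ^ j ≤ (Fintype.card ι : ℝ) ^ j * t ^ j :=
        mul_le_mul_of_nonneg_right h6 (by positivity)
    _ ≤ (Fintype.card ι : ℝ) ^ j * t ^ j * (K.choose j : ℝ) :=
        le_mul_of_one_le_right (by positivity) h7

/-- the weight of one position -/
private noncomputable def VB_w (D z B : ℕ) (c Λ : ℝ) (x : Finset ℕ × Finset ℕ) : ℝ :=
  if x.1 = ∅ then (if x.2 = ∅ then 1 else c / Real.log z / Λ * bT D z Λ x.2)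
  else (if ∏ p ∈ x.1, p ≤ B then gw c (∏ p ∈ x.1, p) else 0) * bT D z Λ x.2

private theorem VB_theta (h : VH D z B Y K Ks (Fintype.card ι) c Λ) :
    0 ≤ c / Real.log z / Λ ∧ c / Real.log z / Λ ≤ 1 := by
  have h1 : 0 ≤ c := h.big.hc
  have h2 : 0 ≤ Real.log z := Real.log_natCast_nonneg z
  have h3 : 0 < Λ := zero_lt_one.trans_le h.hΛ
  refine ⟨by positivity, ?_⟩
  have h4 : c / Real.log z ≤ 1 := div_le_one_of_le₀ h.big.clog h2
  rw [div_le_one h3]
  exact h4.trans h.hΛ

private theorem VB_w_nonneg (h : VH D z B Y K Ks (Fintype.card ι) c Λ)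
    (x : Finset ℕ × Finset ℕ) : 0 ≤ VB_w D z B c Λ x := by
  have h1 := bT_nonneg (D := D) (z := z) h.hΛ x.2
  have h2 := (VB_theta h).1
  have h3 := gw_nonneg h.big.hc (∏ p ∈ x.1, p)
  unfold VB_w
  split_ifs
  · exact zero_le_one
  · exact mul_nonneg h2 h1
  · exact mul_nonneg h3 h1
  · rw [zero_mul]

/-- the pointwise bound -/
private theorem VB_point (h : VH D z B Y K Ks (Fintype.card ι) c Λ)
    (σ : Pbig z B → Option ι) (τ : Psm D z → Option ι) :
    av D z B Y K c Λ σ τ ≤
      if (univ.filter fun i => ((pts (Pbig z B) σ i, pts (Psm D z) τ i) :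
        Finset ℕ × Finset ℕ) ≠ (∅, ∅)).card ≤ K then
        ∏ i, VB_w D z B c Λ (pts (Pbig z B) σ i, pts (Psm D z) τ i) else 0 := by
  have hO : used (Pbig z B) σ ∪ used (Psm D z) τ =
      univ.filter fun i => ((pts (Pbig z B) σ i, pts (Psm D z) τ i) :
        Finset ℕ × Finset ℕ) ≠ (∅, ∅) := by
    ext i
    rw [mem_union, VB_used, VB_used, mem_filter]
    constructor
    · intro h1
      refine ⟨mem_univ _, fun h2 => ?_⟩
      rw [Prod.mk.injEq] at h2
      rcases h1 with h1 | h1
      · exact h1 h2.1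
      · exact h1 h2.2
    · rintro ⟨-, h1⟩
      by_contra hcon
      push Not at hcon
      exact h1 (Prod.ext hcon.1 hcon.2)
  unfold av
  rw [hO]
  by_cases hK : (univ.filter fun i => ((pts (Pbig z B) σ i, pts (Psm D z) τ i) :
        Finset ℕ × Finset ℕ) ≠ (∅, ∅)).card ≤ K
  · rw [if_pos hK, if_pos hK]
    have hw0 : ∀ i, 0 ≤ wg D z Λ (c / Real.log z) (used (Pbig z B) σ) i
        (pts (Psm D z) τ i) := by
      intro i
      have h1 := bT_nonneg (D := D) (z := z) h.hΛ (pts (Psm D z) τ i)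
      unfold wg
      split_ifs
      · exact h1
      · exact zero_le_one
      · exact mul_nonneg (VB_theta h).1 h1
    have hcf : |cf (Pbig z B) (chi (fun _ : ι => gw c) B) Y σ| ≤
        ∏ i, |chi (fun _ : ι => gw c) B i (rr (Pbig z B) σ i)| := by
      unfold cf
      split_ifs
      · rw [Finset.abs_prod]
      · rw [abs_zero]
        exact Finset.prod_nonneg fun i _ => abs_nonneg _
    refine (mul_le_mul_of_nonneg_right hcf (Finset.prod_nonneg fun i _ => hw0 i)).trans ?_
    rw [← Finset.prod_mul_distrib]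
    apply le_of_eq
    apply Finset.prod_congr rfl
    intro i _
    unfold wg VB_w
    rw [VB_rr]
    by_cases hi : pts (Pbig z B) σ i = ∅
    · have hi' : i ∉ used (Pbig z B) σ := by
        rw [VB_used]
        exact fun h1 => h1 hi
      rw [if_neg hi', if_pos hi, hi, Finset.prod_empty]
      have : chi (fun _ : ι => gw c) B i 1 = 1 := by
        simp [chi, chg]
      rw [this, abs_one, one_mul]
    · have hi' : i ∈ used (Pbig z B) σ := (VB_used σ i).2 hi
      rw [if_pos hi', if_neg hi]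
      congr 1
      have h2 : 2 ≤ ∏ p ∈ pts (Pbig z B) σ i, p :=
        two_le_prod_of_QQ h.big.prime (VB_sub σ i) hi
      unfold chi chg
      rw [if_neg (by omega)]
      split_ifs
      · rw [abs_neg, abs_of_nonneg (gw_nonneg h.big.hc _)]
      · exact abs_zero
  · rw [if_neg hK, if_neg hK]

/-- the total of one position -/
private theorem VB_one (h : VH D z B Y K Ks (Fintype.card ι) c Λ) :
    ∑ x ∈ ((Pbig z B).powerset ×ˢ (Psm D z).powerset).erase (∅, ∅), VB_w D z B c Λ x ≤
      4 * (1 + 2 * Real.log z) ^ 3 := by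
  classical
  set u : Finset ℕ → ℝ := fun R => if R = ∅ then c / Real.log z / Λ else
    (if ∏ p ∈ R, p ≤ B then gw c (∏ p ∈ R, p) else 0) with hu
  have hu0 : ∀ R, 0 ≤ u R := by
    intro R
    rw [hu]
    dsimp only
    split_ifs
    · exact (VB_theta h).1
    · exact gw_nonneg h.big.hc _
    · exact le_rfl
  have hb0 : ∀ U, 0 ≤ bT D z Λ U := fun U => bT_nonneg h.hΛ U
  have h1 : ∑ x ∈ ((Pbig z B).powerset ×ˢ (Psm D z).powerset).erase (∅, ∅), VB_w D z B c Λ x ≤
      ∑ x ∈ (Pbig z B).powerset ×ˢ (Psm D z).powerset, u x.1 * bT D z Λ x.2 := by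
    calc _ = ∑ x ∈ ((Pbig z B).powerset ×ˢ (Psm D z).powerset).erase (∅, ∅),
          u x.1 * bT D z Λ x.2 := by
          apply Finset.sum_congr rfl
          intro x hx
          unfold VB_w
          rw [hu]
          dsimp only
          by_cases hx1 : x.1 = ∅
          · have hx2 : x.2 ≠ ∅ := fun hx2 =>
              (Finset.mem_erase.1 hx).1 (Prod.ext hx1 hx2)
            rw [if_pos hx1, if_neg hx2, if_pos hx1]
          · rw [if_neg hx1, if_neg hx1]
      _ ≤ _ := Finset.sum_le_sum_of_subset_of_nonneg (Finset.erase_subset _ _)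
          fun x _ _ => mul_nonneg (hu0 _) (hb0 _)
  refine h1.trans ?_
  rw [Finset.sum_product, ← Finset.sum_mul_sum]
  have h2 : ∑ R ∈ (Pbig z B).powerset, u R = c / Real.log z / Λ + 1 := by
    have e1 : u ∅ = c / Real.log z / Λ := by
      rw [hu]
      exact if_pos rfl
    have e2 : ∑ R ∈ (Pbig z B).powerset.erase ∅, u R = 1 := by
      rw [← h.big.sum]
      unfold QQ
      rw [Finset.sum_filter]
      apply Finset.sum_congr rfl
      intro R hR
      rw [hu]
      exact if_neg (Finset.mem_erase.1 hR).1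
    rw [← Finset.add_sum_erase _ _ (Finset.empty_mem_powerset (Pbig z B)), e1, e2]
  have h3 : ∑ U ∈ (Psm D z).powerset, bT D z Λ U ≤ 2 * (1 + 2 * Real.log z) ^ 3 :=
    bT_tot h.hΛ h.hD h.hz
  have h4 : 0 ≤ ∑ U ∈ (Psm D z).powerset, bT D z Λ U := Finset.sum_nonneg fun U _ => hb0 U
  rw [h2]
  have h5 := (VB_theta h).2
  nlinarith

/-- PROOF. Group by the set `O` of occupied positions (`card O ≤ K`); `(σ, τ) ↦ (pts σ i, pts τ i)_i` is injective; for `i ∈ O` the sum over the pairs `(R, U) ≠ (∅, ∅)` is at most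
`∑_R gw c (∏ R) ∑_U bT U + (θ/Λ) ∑_U bT U ≤ 4 (1 + 2 log z)^3 =: t` (`h.big.sum`, `bT_tot`, `θ ≤ 1`); `∑_{card O ≤ K} t^card O ≤ (1 + r t)^K`. -/
theorem av_tot (h : VH D z B Y K Ks (Fintype.card ι) c Λ) :
    ∑ σ : Pbig z B → Option ι, ∑ τ : Psm D z → Option ι, av D z B Y K c Λ σ τ ≤
      (1 + 4 * Fintype.card ι * (1 + 2 * Real.log z) ^ 3) ^ K := by
  classical
  have hfew := VB_few (ι := ι) ((Pbig z B).powerset ×ˢ (Psm D z).powerset) (∅, ∅)
    (VB_w D z B c Λ) (fun x _ => VB_w_nonneg h x) (by simp [VB_w]) (VB_one h) K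
  have heq : (1 + (Fintype.card ι : ℝ) * (4 * (1 + 2 * Real.log z) ^ 3)) ^ K =
      (1 + 4 * Fintype.card ι * (1 + 2 * Real.log z) ^ 3) ^ K := by
    congr 1
    ring
  rw [← heq]
  refine le_trans ?_ hfew
  calc ∑ σ : Pbig z B → Option ι, ∑ τ : Psm D z → Option ι, av D z B Y K c Λ σ τ
      ≤ ∑ σ : Pbig z B → Option ι, ∑ τ : Psm D z → Option ι,
        (if (univ.filter fun i => ((pts (Pbig z B) σ i, pts (Psm D z) τ i) :
          Finset ℕ × Finset ℕ) ≠ (∅, ∅)).card ≤ K then
          ∏ i, VB_w D z B c Λ (pts (Pbig z B) σ i, pts (Psm D z) τ i) else 0) :=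
        Finset.sum_le_sum fun σ _ => Finset.sum_le_sum fun τ _ => VB_point h σ τ
    _ = ∑ x : (Pbig z B → Option ι) × (Psm D z → Option ι),
        (if (univ.filter fun i => ((pts (Pbig z B) x.1 i, pts (Psm D z) x.2 i) :
          Finset ℕ × Finset ℕ) ≠ (∅, ∅)).card ≤ K then
          ∏ i, VB_w D z B c Λ (pts (Pbig z B) x.1 i, pts (Psm D z) x.2 i) else 0) := by
        rw [Fintype.sum_prod_type]
    _ = ∑ x ∈ (univ : Finset ((Pbig z B → Option ι) × (Psm D z → Option ι))).filter
          (fun x => (univ.filter fun i => ((pts (Pbig z B) x.1 i, pts (Psm D z) x.2 i) :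
            Finset ℕ × Finset ℕ) ≠ (∅, ∅)).card ≤ K),
          ∏ i, VB_w D z B c Λ (pts (Pbig z B) x.1 i, pts (Psm D z) x.2 i) := by
        rw [Finset.sum_filter]
    _ = ∑ V ∈ ((univ : Finset ((Pbig z B → Option ι) × (Psm D z → Option ι))).filter
          (fun x => (univ.filter fun i => ((pts (Pbig z B) x.1 i, pts (Psm D z) x.2 i) :
            Finset ℕ × Finset ℕ) ≠ (∅, ∅)).card ≤ K)).image
          (fun x (i : ι) => ((pts (Pbig z B) x.1 i, pts (Psm D z) x.2 i) :
            Finset ℕ × Finset ℕ)),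
          ∏ i, VB_w D z B c Λ (V i) := by
        rw [Finset.sum_image]
        rintro ⟨x1, x2⟩ _ ⟨y1, y2⟩ _ hxy
        refine Prod.ext (VB_inj fun i => ?_) (VB_inj fun i => ?_)
        · exact congrArg Prod.fst (congrFun hxy i)
        · exact congrArg Prod.snd (congrFun hxy i)
    _ ≤ _ := by
        apply Finset.sum_le_sum_of_subset_of_nonneg
        · intro V hV
          rw [mem_image] at hV
          obtain ⟨x, hx, rfl⟩ := hV
          rw [mem_filter] at hx ⊢
          refine ⟨?_, hx.2⟩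
          rw [Fintype.mem_piFinset]
          intro i
          exact Finset.mem_product.2 ⟨mem_powerset.2 (VB_sub _ _), mem_powerset.2 (VB_sub _ _)⟩
        · intro V _ _
          exact Finset.prod_nonneg fun i _ => VB_w_nonneg h _

end Pool.Agent.H.MP_711652_nt.CG
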