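import Pool.Agent.H.MP_711652_nt.CG.Mlt
import Pool.Agent.H.MP_711652_nt.CG.KDefs
import Pool.Agent.H.MP_711652_nt.G2.Defs

/-! # MP_711652, CG, VT: majorants which are products over the positions (combinatorial part) -/

set_option autoImplicit false

namespace Pool.Agent.H.MP_711652_nt.CG

open Finset Pool.Agent.H.MP_711652_nt.LG Pool.Agent.H.MP_711652_nt.G2 Pool.Agent.H.MP_711652_nt.CH

variable {ι : Type*} [Fintype ι] [DecidableEq ι]

omit [Fintype ι] in
theorem vt_mem_pts {P : Finset ℕ} (τ : P → Option ι) (i : ι) (n : ℕ) :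
    n ∈ pts P τ i ↔ ∃ h : n ∈ P, τ ⟨n, h⟩ = some i := by
  unfold pts
  simp only [mem_image, mem_filter, mem_univ, true_and]
  constructor
  · rintro ⟨p, hp, rfl⟩
    exact ⟨p.2, hp⟩
  · rintro ⟨h, hn⟩
    exact ⟨⟨n, h⟩, hn, rfl⟩

omit [Fintype ι] in
theorem vt_pts_sub {P : Finset ℕ} (τ : P → Option ι) (i : ι) : pts P τ i ⊆ P := by
  intro n hn
  rw [vt_mem_pts] at hn
  exact hn.1

theorem vt_prod_pts {M : Type*} [CommMonoid M] {P : Finset ℕ} (τ : P → Option ι) (g : ℕ → M) :
    ∏ i, ∏ p ∈ pts P τ i, g p = ∏ p : P, if τ p = none then 1 else g p := by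
  have h1 : ∀ i, ∏ p ∈ pts P τ i, g p = ∏ p : P, if τ p = some i then g p else 1 := by
    intro i
    rw [pts, prod_image (fun a _ b _ h => Subtype.ext h), prod_filter]
  simp_rw [h1]
  rw [prod_comm]
  exact prod_congr rfl fun p _ => diag1_prod_ite (τ p) (g p)

omit [Fintype ι] in
theorem vt_pts_inj {P : Finset ℕ} :
    Function.Injective (fun (τ : P → Option ι) => fun i => pts P τ i) := by
  intro τ τ' h
  have h1 : ∀ i n, n ∈ pts P τ i ↔ n ∈ pts P τ' i := fun i n => by
    rw [show pts P τ i = pts P τ' i from congrFun h i]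
  funext p
  rcases h2 : τ p with _ | i
  · rcases h3 : τ' p with _ | j
    · rfl
    · have h4 : (p : ℕ) ∈ pts P τ' j := (vt_mem_pts _ _ _).2 ⟨p.2, h3⟩
      rw [← h1, vt_mem_pts] at h4
      obtain ⟨h5, h6⟩ := h4
      have h7 : τ p = some j := h6
      rw [h2] at h7
      exact absurd h7 (by simp)
  · have h4 : (p : ℕ) ∈ pts P τ i := (vt_mem_pts _ _ _).2 ⟨p.2, h2⟩
    rw [h1, vt_mem_pts] at h4
    obtain ⟨h5, h6⟩ := h4
    exact (show τ' p = some i from h6).symm

/-- the sum over the assignments is at most the product over the positions -/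
theorem vt_fam {P : Finset ℕ} (F : ι → Finset ℕ → ℝ) (hF : ∀ i V, 0 ≤ F i V) :
    ∑ τ : P → Option ι, ∏ i, F i (pts P τ i) ≤ ∏ i, ∑ V ∈ P.powerset, F i V := by
  rw [prod_univ_sum]
  rw [← sum_image (f := fun u : ι → Finset ℕ => ∏ i, F i (u i))
    (s := (univ : Finset (P → Option ι))) (g := fun τ => fun i => pts P τ i)
    (vt_pts_inj.injOn)]
  refine sum_le_sum_of_subset_of_nonneg ?_ fun u _ _ => prod_nonneg fun i _ => hF i _
  intro u hu
  rw [mem_image] at hu
  obtain ⟨τ, -, rfl⟩ := hu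
  rw [Fintype.mem_piFinset]
  intro i
  rw [mem_powerset]
  exact vt_pts_sub τ i

omit [Fintype ι] in
theorem vt_update {P : Finset ℕ} (τ : P → Option ι) (p : P) (i : ι) (hp : τ p = none) (j : ι) :
    pts P (Function.update τ p (some i)) j =
      if j = i then insert (p : ℕ) (pts P τ i) else pts P τ j := by
  ext n
  rw [vt_mem_pts]
  by_cases hn : n = (p : ℕ)
  · subst hn
    have h1 : ∀ h : (p : ℕ) ∈ P, Function.update τ p (some i) ⟨(p : ℕ), h⟩ = some i := fun h => by
      have : (⟨(p : ℕ), h⟩ : P) = p := rfl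
      rw [this, Function.update_self]
    split_ifs with hj
    · subst hj
      simp only [mem_insert, true_or, iff_true]
      exact ⟨p.2, h1 p.2⟩
    · rw [vt_mem_pts]
      constructor
      · rintro ⟨h, h2⟩
        rw [h1 h] at h2
        exact absurd (Option.some.inj h2).symm hj
      · rintro ⟨h, h2⟩
        have h3 : τ p = some j := h2
        rw [hp] at h3
        exact absurd h3 (by simp)
  · have h1 : ∀ h : n ∈ P, Function.update τ p (some i) ⟨n, h⟩ = τ ⟨n, h⟩ := fun h =>
      Function.update_of_ne (fun h2 => hn (congrArg Subtype.val h2)) _ _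
    have h2 : (∃ h : n ∈ P, Function.update τ p (some i) ⟨n, h⟩ = some j) ↔ n ∈ pts P τ j := by
      rw [vt_mem_pts]
      constructor
      · rintro ⟨h, h3⟩
        exact ⟨h, by rw [← h1 h]; exact h3⟩
      · rintro ⟨h, h3⟩
        exact ⟨h, by rw [h1 h]; exact h3⟩
    rw [h2]
    split_ifs with hj
    · rw [hj, mem_insert]
      exact ⟨Or.inr, fun h => h.resolve_left hn⟩
    · rfl

theorem vt_used {P : Finset ℕ} (τ : P → Option ι) (i : ι) :
    i ∈ used P τ ↔ pts P τ i ≠ ∅ := by
  rw [mem_used, ← nonempty_iff_ne_empty]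
  constructor
  · rintro ⟨p, hp⟩
    exact ⟨p, (vt_mem_pts _ _ _).2 ⟨p.2, hp⟩⟩
  · rintro ⟨n, hn⟩
    rw [vt_mem_pts] at hn
    obtain ⟨h, hn⟩ := hn
    exact ⟨_, hn⟩

omit [Fintype ι] in
theorem vt_pts_disj {P : Finset ℕ} (τ : P → Option ι) (i j : ι) (hij : i ≠ j) :
    Disjoint (pts P τ i) (pts P τ j) := by
  rw [disjoint_left]
  intro n h1 h2
  rw [vt_mem_pts] at h1 h2
  obtain ⟨_, h1⟩ := h1
  obtain ⟨_, h2⟩ := h2
  rw [h1] at h2
  exact hij (Option.some.inj h2)

/-- the part of the modulus in `Q` -/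
def vtD (P Q : Finset ℕ) (τ : P → Option ι) : ℕ :=
  ∏ p : P, if τ p = none then 1 else if (p : ℕ) ∈ Q then (p : ℕ) else 1

/-- the majorant -/
noncomputable def vtM (P Q : Finset ℕ) (W : Finset ℕ → ℝ) (K Y : ℕ) (τ : P → Option ι) : ℝ :=
  if (used P τ).card ≤ K ∧ vtD P Q τ ≤ Y then 2 * ∏ i, W (pts P τ i) else 0

theorem vtM_nonneg {P Q : Finset ℕ} {W : Finset ℕ → ℝ} (hW : ∀ V, 0 ≤ W V) (K Y : ℕ)
    (τ : P → Option ι) : 0 ≤ vtM P Q W K Y τ := by
  unfold vtM
  split_ifs
  · exact mul_nonneg (by norm_num) (prod_nonneg fun i _ => hW _)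
  · exact le_rfl

theorem vtM_coef {P Q : Finset ℕ} {W : Finset ℕ → ℝ} {κ : ℝ} (hP : ∀ p ∈ P, p.Prime)
    (hW : ∀ V, 0 ≤ W V) (hκ : 0 ≤ κ)
    (hs : ∀ V, ∀ p ∈ P, p ∉ V → W (insert p V) ≤ W V * (κ / ((p : ℝ) - 1))) (K Y Z : ℕ)
    (hZ : 1 ≤ Z) (hV : ∀ V, W V ≠ 0 → ∏ p ∈ V, (if p ∈ Q then 1 else p) ≤ Z) :
    CoefK κ P (vtM (ι := ι) P Q W K Y) (Y * Z ^ K) where
  prime := hP
  nonneg := vtM_nonneg hW K Y
  sub := by
    intro σ p i hp
    have hp1 : (1 : ℝ) < (p : ℕ) := by exact_mod_cast (hP p p.2).one_lt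
    have hk0 : 0 ≤ κ / (((p : ℕ) : ℝ) - 1) := div_nonneg hκ (by linarith)
    by_cases hc : (used P (Function.update σ p (some i))).card ≤ K ∧
        vtD P Q (Function.update σ p (some i)) ≤ Y
    · have hc' : (used P σ).card ≤ K ∧ vtD P Q σ ≤ Y := by
        constructor
        · refine (card_le_card ?_).trans hc.1
          intro j hj
          rw [vt_used] at hj ⊢
          rw [vt_update σ p i hp]
          split_ifs
          · exact insert_ne_empty _ _
          · exact hj
        · refine le_trans ?_ hc.2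
          unfold vtD
          refine prod_le_prod' fun q _ => ?_
          by_cases hq : q = p
          · subst hq
            rw [if_pos hp, Function.update_self, if_neg (by simp)]
            split_ifs
            · exact (hP q q.2).one_le
            · exact le_rfl
          · rw [Function.update_of_ne hq]
      unfold vtM
      rw [if_pos hc, if_pos hc', ← mul_prod_erase univ _ (mem_univ i),
        ← mul_prod_erase univ (fun j => W (pts P σ j)) (mem_univ i)]
      have h1 : ∏ j ∈ univ.erase i, W (pts P (Function.update σ p (some i)) j) =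
          ∏ j ∈ univ.erase i, W (pts P σ j) := by
        refine prod_congr rfl fun j hj => ?_
        rw [vt_update σ p i hp, if_neg (mem_erase.1 hj).1]
      rw [h1, vt_update σ p i hp, if_pos rfl]
      have h2 : (p : ℕ) ∉ pts P σ i := by
        intro h
        rw [vt_mem_pts] at h
        obtain ⟨_, h⟩ := h
        have h3 : σ p = some i := h
        rw [hp] at h3
        exact absurd h3 (by simp)
      have h3 := hs (pts P σ i) p p.2 h2
      have h4 : 0 ≤ ∏ j ∈ univ.erase i, W (pts P σ j) := prod_nonneg fun j _ => hW _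
      calc 2 * (W (insert (p : ℕ) (pts P σ i)) * ∏ j ∈ univ.erase i, W (pts P σ j))
          ≤ 2 * (W (pts P σ i) * (κ / (((p : ℕ) : ℝ) - 1)) * ∏ j ∈ univ.erase i, W (pts P σ j)) := by
            gcongr
        _ = _ := by ring
    · have h1 : vtM P Q W K Y (Function.update σ p (some i)) = 0 := by
        unfold vtM
        rw [if_neg hc]
      rw [h1]
      exact mul_nonneg (vtM_nonneg hW K Y σ) hk0
  level := by
    intro σ hσ
    unfold vtM at hσ
    split_ifs at hσ with hc
    · have hne : ∀ i, W (pts P σ i) ≠ 0 := by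
        intro i h
        apply hσ
        rw [prod_eq_zero (mem_univ i) h, mul_zero]
      have h1 : DD P σ = vtD P Q σ * ∏ i, ∏ p ∈ pts P σ i, (if p ∈ Q then 1 else p) := by
        rw [vt_prod_pts]
        unfold DD vtD
        rw [← prod_mul_distrib]
        refine prod_congr rfl fun p _ => ?_
        split_ifs <;> simp
      rw [h1]
      refine Nat.mul_le_mul hc.2 ?_
      have h2 : ∏ i, ∏ p ∈ pts P σ i, (if p ∈ Q then 1 else p) ≤
          ∏ i, (if i ∈ used P σ then Z else 1) := by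
        refine prod_le_prod' fun i _ => ?_
        split_ifs with hi
        · exact hV _ (hne i)
        · rw [vt_used, not_not] at hi
          rw [hi, prod_empty]
      refine h2.trans ?_
      rw [prod_ite_mem, univ_inter, prod_const]
      exact Nat.pow_le_pow_right hZ hc.1
    · exact absurd rfl hσ

theorem vtM_mass {P Q : Finset ℕ} {W : Finset ℕ → ℝ} (hP : ∀ p ∈ P, p.Prime)
    (K Y : ℕ) (μ : ℝ)
    (hm : ∑ V ∈ P.powerset, W V ^ 2 * ∏ p ∈ V, ((p : ℝ) - 1) ≤ 1 + μ) :
    mass P (vtM (ι := ι) P Q W K Y) ≤ 4 * Real.exp (Fintype.card ι * μ) := by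
  have hp1 : ∀ p ∈ P, (0 : ℝ) ≤ (p : ℝ) - 1 := fun p hp => by
    have : (1 : ℝ) ≤ p := by exact_mod_cast (hP p hp).one_le
    linarith
  set F : ι → Finset ℕ → ℝ := fun _ V =>
    if V ⊆ P then W V ^ 2 * ∏ p ∈ V, ((p : ℝ) - 1) else 0 with hF
  have hF0 : ∀ i V, 0 ≤ F i V := by
    intro i V
    rw [hF]
    simp only
    split_ifs with h
    · exact mul_nonneg (sq_nonneg _) (prod_nonneg fun p hp => hp1 p (h hp))
    · exact le_rfl
  have h1 : ∀ τ : P → Option ι, vtM P Q W K Y τ ^ 2 * ph P τ ≤ 4 * ∏ i, F i (pts P τ i) := by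
    intro τ
    have h2 : ph P τ = ∏ i, ∏ p ∈ pts P τ i, ((p : ℝ) - 1) := by
      rw [vt_prod_pts τ (fun p => (p : ℝ) - 1)]
      rfl
    have h3 : ∏ i, F i (pts P τ i) = (∏ i, W (pts P τ i)) ^ 2 * ph P τ := by
      rw [h2, ← prod_pow, ← prod_mul_distrib]
      refine prod_congr rfl fun i _ => ?_
      rw [hF]
      simp only
      rw [if_pos (vt_pts_sub τ i)]
    rw [h3]
    have h4 : 0 ≤ ph P τ := by
      rw [h2]
      exact prod_nonneg fun i _ => prod_nonneg fun p hp => hp1 p (vt_pts_sub τ i hp)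
    unfold vtM
    split_ifs
    · apply le_of_eq
      ring
    · rw [zero_pow two_ne_zero, zero_mul]
      positivity
  have h5 : ∑ V ∈ P.powerset, W V ^ 2 * ∏ p ∈ V, ((p : ℝ) - 1) =
      ∑ V ∈ P.powerset, (if V ⊆ P then W V ^ 2 * ∏ p ∈ V, ((p : ℝ) - 1) else 0) := by
    refine sum_congr rfl fun V hV => ?_
    rw [if_pos (mem_powerset.1 hV)]
  unfold mass
  calc ∑ σ : P → Option ι, vtM P Q W K Y σ ^ 2 * ph P σ
      ≤ ∑ σ : P → Option ι, 4 * ∏ i, F i (pts P σ i) := sum_le_sum fun σ _ => h1 σ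
    _ = 4 * ∑ σ : P → Option ι, ∏ i, F i (pts P σ i) := by rw [mul_sum]
    _ ≤ 4 * ∏ i : ι, ∑ V ∈ P.powerset, F i V := by
        gcongr
        exact vt_fam F hF0
    _ ≤ 4 * ∏ _i : ι, Real.exp μ := by
        gcongr with i _
        · intro i _
          exact sum_nonneg fun V _ => hF0 i V
        · rw [hF]
          simp only
          rw [← h5]
          refine hm.trans ?_
          linarith [Real.add_one_le_exp μ]
    _ = 4 * Real.exp (Fintype.card ι * μ) := by
        rw [prod_const, card_univ, ← Real.exp_nat_mul]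

theorem vt_binom {x : ℝ} (hx : 0 ≤ x) (R K : ℕ) :
    ∑ k ∈ range (K + 1), (R.choose k : ℝ) * x ^ k ≤ (1 + R * x) ^ K := by
  rw [add_comm 1 ((R : ℝ) * x), add_pow]
  refine sum_le_sum fun k hk => ?_
  rw [one_pow, mul_one, mul_pow]
  have h1 : (R.choose k : ℝ) ≤ (R : ℝ) ^ k := by exact_mod_cast Nat.choose_le_pow R k
  have h2 : (1 : ℝ) ≤ (K.choose k : ℝ) := by
    exact_mod_cast Nat.choose_pos (Nat.lt_succ_iff.1 (mem_range.1 hk))
  have h3 : 0 ≤ x ^ k := pow_nonneg hx k
  have h4 : 0 ≤ (R : ℝ) ^ k * x ^ k := by positivity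
  calc (R.choose k : ℝ) * x ^ k ≤ (R : ℝ) ^ k * x ^ k := by gcongr
    _ ≤ (R : ℝ) ^ k * x ^ k * (K.choose k : ℝ) := le_mul_of_one_le_right h4 h2

theorem vtM_tot {P Q : Finset ℕ} {W : Finset ℕ → ℝ} (hW : ∀ V, 0 ≤ W V) (h1 : W ∅ = 1)
    (K Y : ℕ) (x : ℝ) (hx : ∑ V ∈ P.powerset.erase ∅, W V ≤ x) :
    tot P (vtM (ι := ι) P Q W K Y) ≤ 2 * (1 + Fintype.card ι * x) ^ K := by
  have hx0 : 0 ≤ x := (sum_nonneg fun V _ => hW V).trans hx
  set F : Finset ι → ι → Finset ℕ → ℝ := fun S i V =>
    if (i ∈ S ↔ V ≠ ∅) then W V else 0 with hF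
  have hF0 : ∀ S i V, 0 ≤ F S i V := by
    intro S i V
    rw [hF]
    simp only
    split_ifs
    · exact hW V
    · exact le_rfl
  have h2 : ∀ τ : P → Option ι, vtM P Q W K Y τ ≤
      2 * ∑ S ∈ (univ : Finset (Finset ι)).filter (fun S => S.card ≤ K),
        ∏ i, F S i (pts P τ i) := by
    intro τ
    have h3 : ∀ S ∈ (univ : Finset (Finset ι)).filter (fun S => S.card ≤ K),
        0 ≤ ∏ i, F S i (pts P τ i) := fun S _ => prod_nonneg fun i _ => hF0 S i _
    unfold vtM
    split_ifs with hc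
    · have h4 : ∏ i, W (pts P τ i) = ∏ i, F (used P τ) i (pts P τ i) := by
        refine prod_congr rfl fun i _ => ?_
        rw [hF]
        simp only
        rw [if_pos (vt_used τ i)]
      rw [h4]
      have h5 := single_le_sum h3 (mem_filter.2 ⟨mem_univ (used P τ), hc.1⟩)
      linarith
    · have := sum_nonneg h3
      linarith
  have h6 : ∀ S i, ∑ V ∈ P.powerset, F S i V ≤ if i ∈ S then x else 1 := by
    intro S i
    have h7 := sum_erase_add P.powerset (F S i) (empty_mem_powerset P)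
    rw [← h7]
    by_cases hi : i ∈ S
    · rw [if_pos hi]
      have h8 : F S i ∅ = 0 := by
        rw [hF]
        simp only
        rw [if_neg]
        intro h
        exact (h.1 hi) rfl
      rw [h8, add_zero]
      refine le_trans (le_of_eq (sum_congr rfl fun V hV => ?_)) hx
      rw [hF]
      simp only
      rw [if_pos]
      exact ⟨fun _ => (mem_erase.1 hV).1, fun _ => hi⟩
    · rw [if_neg hi]
      have h8 : F S i ∅ = 1 := by
        rw [hF]
        simp only
        rw [if_pos, h1]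
        exact ⟨fun h => absurd h hi, fun h => absurd rfl h⟩
      have h9 : ∑ V ∈ P.powerset.erase ∅, F S i V = 0 := by
        refine sum_eq_zero fun V hV => ?_
        rw [hF]
        simp only
        rw [if_neg]
        intro h
        exact hi (h.2 (mem_erase.1 hV).1)
      rw [h8, h9, zero_add]
  unfold tot
  calc ∑ σ : P → Option ι, vtM P Q W K Y σ
      ≤ ∑ σ : P → Option ι, 2 * ∑ S ∈ (univ : Finset (Finset ι)).filter (fun S => S.card ≤ K),
        ∏ i, F S i (pts P σ i) := sum_le_sum fun σ _ => h2 σ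
    _ = 2 * ∑ S ∈ (univ : Finset (Finset ι)).filter (fun S => S.card ≤ K),
        ∑ σ : P → Option ι, ∏ i, F S i (pts P σ i) := by rw [← mul_sum, sum_comm]
    _ ≤ 2 * ∑ S ∈ (univ : Finset (Finset ι)).filter (fun S => S.card ≤ K), x ^ S.card := by
        gcongr with S _
        refine (vt_fam (F S) (hF0 S)).trans ?_
        refine (prod_le_prod (fun i _ => sum_nonneg fun V _ => hF0 S i V)
          fun i _ => h6 S i).trans ?_
        rw [prod_ite_mem, univ_inter, prod_const]
    _ = 2 * ∑ k ∈ range (K + 1), ((Fintype.card ι).choose k : ℝ) * x ^ k := by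
        congr 1
        rw [← sum_fiberwise_of_maps_to (s := (univ : Finset (Finset ι)).filter
          (fun S => S.card ≤ K)) (t := range (K + 1)) (g := fun S => S.card)
          (fun S hS => mem_range.2 (Nat.lt_succ_iff.2 (mem_filter.1 hS).2))]
        refine sum_congr rfl fun k hk => ?_
        have h10 : ((univ : Finset (Finset ι)).filter (fun S => S.card ≤ K)).filter
            (fun S => S.card = k) = powersetCard k (univ : Finset ι) := by
          ext S
          simp only [mem_filter, mem_univ, true_and, mem_powersetCard, subset_univ]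
          constructor
          · rintro ⟨_, h⟩
            exact h
          · intro h
            exact ⟨h ▸ Nat.lt_succ_iff.1 (mem_range.1 hk), h⟩
        rw [h10, sum_congr rfl (fun S hS => by rw [(mem_powersetCard.1 hS).2]), sum_const,
          card_powersetCard, card_univ, nsmul_eq_mul]
    _ ≤ 2 * (1 + Fintype.card ι * x) ^ K := by
        gcongr
        exact vt_binom hx0 _ _

end Pool.Agent.H.MP_711652_nt.CG
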