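import Pool.Agent.H.MP_711652_nt.CG.VDf
import Pool.Agent.H.MP_711652_nt.CG.VTa

/-! # MP_711652, CG: the majorant: the mass -/

set_option autoImplicit false

namespace Pool.Agent.H.MP_711652_nt.CG

open Finset Pool.Agent.H.MP_711652_nt.LG Pool.Agent.H.MP_711652_nt.G2 Pool.Agent.H.MP_711652_nt.CH

variable {ι : Type*} [Fintype ι] [DecidableEq ι] {D z B Y K Ks : ℕ} {c Λ : ℝ}

/-- PROOF. `τ ↦ (pts P τ i)_i` is injective. -/
theorem djg_upper (P : Finset ℕ) (hP : ∀ p ∈ P, p.Prime) (w : ι → Finset ℕ → ℝ) :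
    ∑ τ : P → Option ι, (∏ i, w i (pts P τ i)) ^ 2 * LG.ph P τ ≤
      ∏ i, ∑ U ∈ P.powerset, w i U ^ 2 * ∏ p ∈ U, ((p : ℝ) - 1) := by
  have hp1 : ∀ p ∈ P, (0 : ℝ) ≤ (p : ℝ) - 1 := fun p hp => by
    have : (1 : ℝ) ≤ p := by exact_mod_cast (hP p hp).one_le
    linarith
  set F : ι → Finset ℕ → ℝ := fun i V =>
    if V ⊆ P then w i V ^ 2 * ∏ p ∈ V, ((p : ℝ) - 1) else 0 with hF
  have hF0 : ∀ i V, 0 ≤ F i V := by
    intro i V
    rw [hF]
    simp only
    split_ifs with h
    · exact mul_nonneg (sq_nonneg _) (prod_nonneg fun p hp => hp1 p (h hp))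
    · exact le_rfl
  have h1 : ∀ τ : P → Option ι, (∏ i, w i (pts P τ i)) ^ 2 * LG.ph P τ =
      ∏ i, F i (pts P τ i) := by
    intro τ
    have h2 : LG.ph P τ = ∏ i, ∏ p ∈ pts P τ i, ((p : ℝ) - 1) := by
      rw [vt_prod_pts τ (fun p => (p : ℝ) - 1)]
      rfl
    rw [h2, ← prod_pow, ← prod_mul_distrib]
    refine prod_congr rfl fun i _ => ?_
    rw [hF]
    simp only
    rw [if_pos (vt_pts_sub τ i)]
  have h5 : ∀ i, ∑ V ∈ P.powerset, w i V ^ 2 * ∏ p ∈ V, ((p : ℝ) - 1) =
      ∑ V ∈ P.powerset, F i V := by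
    intro i
    refine sum_congr rfl fun V hV => ?_
    rw [hF]
    simp only
    rw [if_pos (mem_powerset.1 hV)]
  rw [sum_congr rfl fun τ _ => h1 τ, prod_congr rfl fun i _ => h5 i]
  exact vt_fam F hF0

private theorem VC_phi_nonneg {P : Finset ℕ} (hP : ∀ p ∈ P, p.Prime) {U : Finset ℕ}
    (hU : U ⊆ P) : 0 ≤ ∏ p ∈ U, ((p : ℝ) - 1) := by
  apply Finset.prod_nonneg
  intro p hp
  have h : (1 : ℝ) < (p : ℝ) := by exact_mod_cast (hP p (hU hp)).one_lt
  linarith

private theorem VC_mb_nonneg {P : Finset ℕ} (hP : ∀ p ∈ P, p.Prime) (b : Finset ℕ → ℝ) :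
    0 ≤ mb P b := by
  unfold mb
  exact Finset.sum_nonneg fun t ht =>
    mul_nonneg (sq_nonneg _) (VC_phi_nonneg hP (mem_powerset.1 ht))

private theorem VC_prime (D z : ℕ) : ∀ p ∈ Psm D z, p.Prime := fun p hp =>
  (mem_filter.1 hp).2

/-- the masses of the weights of one position -/
private theorem VC_one (h : VH D z B Y K Ks (Fintype.card ι) c Λ) (S : Finset ι) (i : ι) :
    ∑ U ∈ (Psm D z).powerset, wg D z Λ (c / Real.log z) S i U ^ 2 * ∏ p ∈ U, ((p : ℝ) - 1) ≤
      (if i ∈ S then mb (Psm D z) (bT D z Λ) else 1) *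
        (1 + 1 / Λ ^ 2 * mb (Psm D z) (bT D z Λ)) := by
  classical
  have hΛ : 0 < Λ := zero_lt_one.trans_le h.hΛ
  have hmb := VC_mb_nonneg (VC_prime D z) (bT D z Λ)
  by_cases hi : i ∈ S
  · rw [if_pos hi]
    have h1 : ∑ U ∈ (Psm D z).powerset, wg D z Λ (c / Real.log z) S i U ^ 2 *
        ∏ p ∈ U, ((p : ℝ) - 1) = mb (Psm D z) (bT D z Λ) := by
      unfold mb
      apply sum_congr rfl
      intro U _
      unfold wg
      rw [if_pos hi]
    rw [h1]
    apply le_mul_of_one_le_right hmb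
    have : 0 ≤ 1 / Λ ^ 2 * mb (Psm D z) (bT D z Λ) := by positivity
    linarith
  · rw [if_neg hi, one_mul, ← Finset.add_sum_erase _ _ (Finset.empty_mem_powerset (Psm D z))]
    have h1 : wg D z Λ (c / Real.log z) S i ∅ ^ 2 * ∏ p ∈ (∅ : Finset ℕ), ((p : ℝ) - 1) = 1 := by
      unfold wg
      rw [if_neg hi, if_pos rfl]
      simp
    rw [h1]
    have hθ0 : 0 ≤ c / Real.log z := div_nonneg h.big.hc (Real.log_natCast_nonneg z)
    have hθ1 : c / Real.log z ≤ 1 :=
      div_le_one_of_le₀ h.big.clog (Real.log_natCast_nonneg z)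
    have h2 : ∑ U ∈ (Psm D z).powerset.erase ∅, wg D z Λ (c / Real.log z) S i U ^ 2 *
        ∏ p ∈ U, ((p : ℝ) - 1) ≤ 1 / Λ ^ 2 * mb (Psm D z) (bT D z Λ) := by
      unfold mb
      rw [mul_sum]
      calc ∑ U ∈ (Psm D z).powerset.erase ∅, wg D z Λ (c / Real.log z) S i U ^ 2 *
            ∏ p ∈ U, ((p : ℝ) - 1)
          ≤ ∑ U ∈ (Psm D z).powerset.erase ∅,
            1 / Λ ^ 2 * (bT D z Λ U ^ 2 * ∏ p ∈ U, ((p : ℝ) - 1)) := by
            apply sum_le_sum
            intro U hU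
            obtain ⟨hU1, hU2⟩ := mem_erase.1 hU
            unfold wg
            rw [if_neg hi, if_neg hU1, mul_pow, div_pow, mul_assoc]
            apply mul_le_mul_of_nonneg_right
            · apply div_le_div_of_nonneg_right _ (by positivity)
              exact pow_le_one₀ hθ0 hθ1
            · exact mul_nonneg (sq_nonneg _)
                (VC_phi_nonneg (VC_prime D z) (mem_powerset.1 hU2))
        _ ≤ _ := by
            apply Finset.sum_le_sum_of_subset_of_nonneg (Finset.erase_subset _ _)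
            intro U hU _
            have := VC_phi_nonneg (VC_prime D z) (mem_powerset.1 hU)
            positivity
    linarith

/-- PROOF. For `cf σ ≠ 0` at most `K` positions are used (`h.big.level`).  `djg_upper` with `wg`; used positions give `mb bT`, unused ones `1 + (θ/Λ)^2 mb bT` (at most).
`mb bT ≤ (1 + 1 / (20 (K + 1))) mb bF` (`mT_le`, `h.hΛ2`), so `(mb bT)^j ≤ exp(1/20) (mb bF)^j` for `j ≤ K`; `mb bT ≤ 48` (`mF_le`), so the unused ones give at most `exp (48 r / Λ^2) ≤ exp (48/1000)`. -/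
theorem av_mass (h : VH D z B Y K Ks (Fintype.card ι) c Λ) :
    ∑ σ : Pbig z B → Option ι, ∑ τ : Psm D z → Option ι, av D z B Y K c Λ σ τ ^ 2 *
        (LG.ph (Pbig z B) σ * LG.ph (Psm D z) τ) ≤
      6 / 5 * ∑ σ : Pbig z B → Option ι, cf (Pbig z B) (chi (fun _ : ι => gw c) B) Y σ ^ 2 *
        LG.ph (Pbig z B) σ * mb (Psm D z) (bF D z) ^ (used (Pbig z B) σ).card := by
  classical
  have hΛ : 0 < Λ := zero_lt_one.trans_le h.hΛ
  set mT : ℝ := mb (Psm D z) (bT D z Λ) with hmT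
  set mF : ℝ := mb (Psm D z) (bF D z) with hmF
  have hmT0 : 0 ≤ mT := VC_mb_nonneg (VC_prime D z) _
  have hmF0 : 0 ≤ mF := VC_mb_nonneg (VC_prime D z) _
  have hK1 : (0 : ℝ) < (K : ℝ) + 1 := by positivity
  -- the comparison of the masses
  have hD1 : (1 : ℝ) < D := by
    have h1 := h.hD
    have h2 : (1 : ℝ) < Real.exp 40 := Real.one_lt_exp_iff.2 (by norm_num)
    linarith
  have hlD : 0 < Real.log D := Real.log_pos hD1
  have hDz : (D : ℝ) ≤ z := by exact_mod_cast h.hz
  have hlz : Real.log D ≤ Real.log z := Real.log_le_log (by linarith) hDz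
  have hTF : mT ≤ (1 + 1 / (20 * ((K : ℝ) + 1))) * mF := by
    refine (mT_le h.hΛ h.hD h.hz).trans ?_
    apply mul_le_mul_of_nonneg_right _ hmF0
    have h1 : 50 * Real.exp 21 * Real.log D / Λ ≤ 1 / (20 * ((K : ℝ) + 1)) := by
      rw [div_le_div_iff₀ hΛ (by positivity)]
      have := h.hΛ2
      nlinarith
    linarith
  have hF24 : mF ≤ 24 := by
    refine (mF_le h.hD h.hz).trans ?_
    have h1 : Real.log D / Real.log z ≤ 1 := div_le_one_of_le₀ hlz (by linarith)
    linarith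
  have hT48 : mT ≤ 48 := by
    have h1 : 1 / (20 * ((K : ℝ) + 1)) ≤ 1 := by
      rw [div_le_one (by positivity)]
      have : (0 : ℝ) ≤ K := Nat.cast_nonneg K
      linarith
    have h2 : (1 + 1 / (20 * ((K : ℝ) + 1))) * mF ≤ 2 * 24 := by
      apply mul_le_mul _ hF24 hmF0 (by norm_num)
      linarith
    linarith
  have hpow : ∀ j ≤ K, mT ^ j ≤ Real.exp (1 / 20) * mF ^ j := by
    intro j hj
    calc mT ^ j ≤ ((1 + 1 / (20 * ((K : ℝ) + 1))) * mF) ^ j := pow_le_pow_left₀ hmT0 hTF j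
      _ = (1 + 1 / (20 * ((K : ℝ) + 1))) ^ j * mF ^ j := mul_pow _ _ _
      _ ≤ Real.exp (1 / 20) * mF ^ j := by
          apply mul_le_mul_of_nonneg_right _ (pow_nonneg hmF0 j)
          have h1 : 1 + 1 / (20 * ((K : ℝ) + 1)) ≤ Real.exp (1 / (20 * ((K : ℝ) + 1))) := by
            have := Real.add_one_le_exp (1 / (20 * ((K : ℝ) + 1)))
            linarith
          calc (1 + 1 / (20 * ((K : ℝ) + 1))) ^ j
              ≤ Real.exp (1 / (20 * ((K : ℝ) + 1))) ^ j :=
                pow_le_pow_left₀ (by positivity) h1 j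
            _ = Real.exp (j * (1 / (20 * ((K : ℝ) + 1)))) := by rw [Real.exp_nat_mul]
            _ ≤ Real.exp (1 / 20) := by
                apply Real.exp_le_exp.2
                have hjK : (j : ℝ) ≤ K := by exact_mod_cast hj
                rw [mul_one_div, div_le_div_iff₀ (by positivity) (by norm_num)]
                linarith
  have hrest : (1 + 1 / Λ ^ 2 * mT) ^ (Fintype.card ι) ≤ Real.exp (48 / 1000) := by
    have h1 : 1 + 1 / Λ ^ 2 * mT ≤ Real.exp (1 / Λ ^ 2 * mT) := by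
      have := Real.add_one_le_exp (1 / Λ ^ 2 * mT)
      linarith
    calc (1 + 1 / Λ ^ 2 * mT) ^ (Fintype.card ι) ≤ Real.exp (1 / Λ ^ 2 * mT) ^ (Fintype.card ι) :=
          pow_le_pow_left₀ (by positivity) h1 _
      _ = Real.exp (Fintype.card ι * (1 / Λ ^ 2 * mT)) := by rw [Real.exp_nat_mul]
      _ ≤ Real.exp (48 / 1000) := by
          apply Real.exp_le_exp.2
          have h2 := h.hR
          have h3 : (0 : ℝ) ≤ Fintype.card ι := Nat.cast_nonneg _
          have hΛ2 : 0 < Λ ^ 2 := by positivity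
          have h4 : (Fintype.card ι : ℝ) * (1 / Λ ^ 2) ≤ 1 / 1000 := by
            rw [mul_one_div, div_le_div_iff₀ hΛ2 (by norm_num)]
            linarith
          calc (Fintype.card ι : ℝ) * (1 / Λ ^ 2 * mT) = (Fintype.card ι : ℝ) * (1 / Λ ^ 2) * mT := by
                ring
            _ ≤ 1 / 1000 * 48 := mul_le_mul h4 hT48 hmT0 (by norm_num)
            _ = 48 / 1000 := by norm_num
  have hexp : Real.exp (1 / 20) * Real.exp (48 / 1000) ≤ 6 / 5 := by
    rw [← Real.exp_add]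
    have h1 : 1 - (1 / 20 + 48 / 1000) ≤ Real.exp (-(1 / 20 + 48 / 1000) : ℝ) := by
      have := Real.add_one_le_exp (-(1 / 20 + 48 / 1000) : ℝ)
      linarith
    rw [Real.exp_neg] at h1
    have h2 : 0 < Real.exp (1 / 20 + 48 / 1000 : ℝ) := Real.exp_pos _
    have h3 := mul_le_mul_of_nonneg_right h1 h2.le
    rw [inv_mul_cancel₀ h2.ne'] at h3
    linarith
  rw [mul_sum]
  apply sum_le_sum
  intro σ _
  have hphσ : 0 ≤ LG.ph (Pbig z B) σ := LG.ph_nonneg _ h.big.prime σ
  have hphτ : ∀ τ : Psm D z → Option ι, 0 ≤ LG.ph (Psm D z) τ := fun τ =>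
    LG.ph_nonneg _ (VC_prime D z) τ
  set cc : ℝ := cf (Pbig z B) (chi (fun _ : ι => gw c) B) Y σ with hcc
  set S : Finset ι := used (Pbig z B) σ with hS
  by_cases h0 : cc = 0
  · have h1 : ∀ τ : Psm D z → Option ι, av D z B Y K c Λ σ τ = 0 := by
      intro τ
      unfold av
      rw [← hcc, h0, abs_zero, zero_mul, ite_self]
    have h2 : ∑ τ : Psm D z → Option ι, av D z B Y K c Λ σ τ ^ 2 *
        (LG.ph (Pbig z B) σ * LG.ph (Psm D z) τ) = 0 := by
      apply sum_eq_zero
      intro τ _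
      rw [h1 τ]
      ring
    rw [h2, h0]
    simp
  · have hDD : DD (Pbig z B) σ ≤ Y := by
      by_contra hY
      apply h0
      rw [hcc]
      unfold cf
      rw [if_neg hY]
    have hSK : S.card ≤ K := used_card_le h.big σ hDD
    have hstep : ∀ τ : Psm D z → Option ι, av D z B Y K c Λ σ τ ^ 2 *
        (LG.ph (Pbig z B) σ * LG.ph (Psm D z) τ) ≤
        cc ^ 2 * LG.ph (Pbig z B) σ *
          ((∏ i, wg D z Λ (c / Real.log z) S i (pts (Psm D z) τ i)) ^ 2 *
            LG.ph (Psm D z) τ) := by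
      intro τ
      have h1 := hphτ τ
      unfold av
      split_ifs
      · rw [← hcc, ← hS, mul_pow, sq_abs]
        apply le_of_eq
        ring
      · rw [zero_pow two_ne_zero, zero_mul]
        positivity
    calc ∑ τ : Psm D z → Option ι, av D z B Y K c Λ σ τ ^ 2 *
          (LG.ph (Pbig z B) σ * LG.ph (Psm D z) τ)
        ≤ ∑ τ : Psm D z → Option ι, cc ^ 2 * LG.ph (Pbig z B) σ *
          ((∏ i, wg D z Λ (c / Real.log z) S i (pts (Psm D z) τ i)) ^ 2 *
            LG.ph (Psm D z) τ) := sum_le_sum fun τ _ => hstep τ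
      _ = cc ^ 2 * LG.ph (Pbig z B) σ * ∑ τ : Psm D z → Option ι,
          ((∏ i, wg D z Λ (c / Real.log z) S i (pts (Psm D z) τ i)) ^ 2 *
            LG.ph (Psm D z) τ) := by rw [mul_sum]
      _ ≤ cc ^ 2 * LG.ph (Pbig z B) σ * ∏ i, ∑ U ∈ (Psm D z).powerset,
          wg D z Λ (c / Real.log z) S i U ^ 2 * ∏ p ∈ U, ((p : ℝ) - 1) := by
          apply mul_le_mul_of_nonneg_left _ (by positivity)
          exact djg_upper (Psm D z) (VC_prime D z)
            (fun i U => wg D z Λ (c / Real.log z) S i U)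
      _ ≤ cc ^ 2 * LG.ph (Pbig z B) σ * (mT ^ S.card * (1 + 1 / Λ ^ 2 * mT) ^ (Fintype.card ι)) := by
          apply mul_le_mul_of_nonneg_left _ (by positivity)
          calc ∏ i, ∑ U ∈ (Psm D z).powerset,
                wg D z Λ (c / Real.log z) S i U ^ 2 * ∏ p ∈ U, ((p : ℝ) - 1)
              ≤ ∏ i : ι, ((if i ∈ S then mT else 1) * (1 + 1 / Λ ^ 2 * mT)) := by
                apply prod_le_prod
                · intro i _
                  exact sum_nonneg fun U hU => mul_nonneg (sq_nonneg _)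
                    (VC_phi_nonneg (VC_prime D z) (mem_powerset.1 hU))
                · intro i _
                  exact VC_one h S i
            _ = mT ^ S.card * (1 + 1 / Λ ^ 2 * mT) ^ (Fintype.card ι) := by
                rw [prod_mul_distrib, prod_ite_mem, univ_inter, prod_const, prod_const,
                  card_univ]
      _ ≤ cc ^ 2 * LG.ph (Pbig z B) σ * (Real.exp (1 / 20) * mF ^ S.card *
            Real.exp (48 / 1000)) := by
          apply mul_le_mul_of_nonneg_left _ (by positivity)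
          exact mul_le_mul (hpow _ hSK) hrest (by positivity) (by positivity)
      _ = (Real.exp (1 / 20) * Real.exp (48 / 1000)) *
            (cc ^ 2 * LG.ph (Pbig z B) σ * mF ^ S.card) := by ring
      _ ≤ 6 / 5 * (cc ^ 2 * LG.ph (Pbig z B) σ * mF ^ S.card) := by
          apply mul_le_mul_of_nonneg_right hexp (by positivity)

end Pool.Agent.H.MP_711652_nt.CG
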