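import Pool.Agent.H.MP_711652_nt.CG.VTs
import Pool.Agent.H.MP_711652_nt.CG.BrC
import Pool.Agent.H.MP_711652_nt.CG.Mlt2
import Pool.Agent.H.MP_711652_nt.CH.CfSub

/-! # MP_711652, CG: the majorant of the coefficients -/

set_option autoImplicit false

namespace Pool.Agent.H.MP_711652_nt.CG

open Finset Pool.Agent.H.MP_711652_nt.LG Pool.Agent.H.MP_711652_nt.G2 Pool.Agent.H.MP_711652_nt.CH

variable {ι : Type*} [Fintype ι] [DecidableEq ι]

/-- the weight of the small primes `U` at the position `i`; `S` are the positions used by the big primes -/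
noncomputable def wg (D z : ℕ) (Λ θ : ℝ) (S : Finset ι) (i : ι) (U : Finset ℕ) : ℝ :=
  if i ∈ S then bT D z Λ U else if U = ∅ then 1 else θ / Λ * bT D z Λ U

/-- the majorant for the big primes `σ`, the small primes `τ` -/
noncomputable def av (D z B Y K : ℕ) (c Λ : ℝ) (σ : Pbig z B → Option ι) (τ : Psm D z → Option ι) :
    ℝ :=
  if (used (Pbig z B) σ ∪ used (Psm D z) τ).card ≤ K then
    |cf (Pbig z B) (chi (fun _ : ι => gw c) B) Y σ| *
      ∏ i, wg D z Λ (c / Real.log z) (used (Pbig z B) σ) i (pts (Psm D z) τ i)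
  else 0

/-- the hypotheses -/
structure VH (D z B Y K Ks r : ℕ) (c Λ : ℝ) : Prop where
  big : Big (Pbig z B) B Y K c z
  hD : Real.exp 40 ≤ D
  hz : D ≤ z
  hKs : ∀ T ⊆ Psm D z, ∏ p ∈ T, p ≤ (z ^ 248) ^ K → T.card ≤ Ks
  hΛ : 1 ≤ Λ
  hΛ2 : 1000 * Real.exp 21 * Real.log D * (K + 1) ≤ Λ
  hR : 1000 * (r : ℝ) ≤ Λ ^ 2
  hsm : 1000000 * (Λ * r * Ks + Λ ^ 2 * (r : ℝ) ^ 2 + Λ ^ 4 * ((K : ℝ) ^ 2 + 1)) ≤ D

variable {D z B Y K Ks : ℕ} {c Λ : ℝ}

theorem av_nonneg (h : VH D z B Y K Ks (Fintype.card ι) c Λ) (σ : Pbig z B → Option ι)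
    (τ : Psm D z → Option ι) : 0 ≤ av D z B Y K c Λ σ τ := by
  have h1 : 0 ≤ c := h.big.hc
  have h2 : 0 ≤ Real.log z := Real.log_natCast_nonneg z
  have h3 : 0 ≤ Λ := zero_le_one.trans h.hΛ
  unfold av
  split_ifs
  · refine mul_nonneg (abs_nonneg _) (prod_nonneg fun i _ => ?_)
    unfold wg
    split_ifs
    · exact bT_nonneg h.hΛ _
    · exact zero_le_one
    · exact mul_nonneg (by positivity) (bT_nonneg h.hΛ _)
  · exact le_rfl

end Pool.Agent.H.MP_711652_nt.CG
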