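import Pool.Agent.H.MP_711652_nt.CG.VDf

/-! # MP_711652, CG: the coefficients of the small primes for a set of used positions -/

set_option autoImplicit false

namespace Pool.Agent.H.MP_711652_nt.CG

open Finset Pool.Agent.H.MP_711652_nt.LG Pool.Agent.H.MP_711652_nt.G2 Pool.Agent.H.MP_711652_nt.CH

variable {ι : Type*} [Fintype ι] [DecidableEq ι] {D z B Y K Ks : ℕ} {c Λ : ℝ}

private theorem VE_tail {D : ℕ} (hD : 2 ≤ D) (z : ℕ) :
    ∑ n ∈ Ioc D z, 1 / ((n : ℝ) - 1) ^ 2 ≤ 2 / (D : ℝ) := by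
  have hD' : (2 : ℝ) ≤ D := by exact_mod_cast hD
  have h1 : ∀ N, D ≤ N → ∑ n ∈ Ioc D N, 1 / ((n : ℝ) - 1) ^ 2 ≤
      1 / ((D : ℝ) - 1) - 1 / ((N : ℝ) - 1) := by
    intro N hN
    induction N, hN using Nat.le_induction with
    | base => simp
    | succ N hN ih =>
      rw [sum_Ioc_succ_top hN]
      have hN' : (2 : ℝ) ≤ N := hD'.trans (by exact_mod_cast hN)
      push_cast
      have h2 : 1 / ((N : ℝ) + 1 - 1) ^ 2 ≤ 1 / ((N : ℝ) - 1) - 1 / ((N : ℝ) + 1 - 1) := by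
        rw [add_sub_cancel_right, div_sub_div _ _ (by linarith) (by linarith),
          div_le_div_iff₀ (by positivity) (mul_pos (by linarith) (by linarith))]
        nlinarith
      linarith
  rcases le_total D z with h | h
  · refine (h1 z h).trans ?_
    have hz' : (2 : ℝ) ≤ z := hD'.trans (by exact_mod_cast h)
    have h2 : 0 ≤ 1 / ((z : ℝ) - 1) := div_nonneg zero_le_one (by linarith)
    have h3 : 1 / ((D : ℝ) - 1) ≤ 2 / D := by
      rw [div_le_div_iff₀ (by linarith) (by linarith)]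
      linarith
    linarith
  · rw [Ioc_eq_empty (by omega), sum_empty]
    positivity

private theorem VE_D (h : VH D z B Y K Ks (Fintype.card ι) c Λ) : 41 ≤ D := by
  have h1 : (41 : ℝ) ≤ D := by
    have := Real.add_one_le_exp (40 : ℝ)
    linarith [h.hD]
  exact_mod_cast h1

private theorem VE_p {p : ℕ} (hp : p ∈ Psm D z) : (D : ℝ) ≤ (p : ℝ) - 1 := by
  unfold Psm at hp
  rw [mem_filter, mem_Ioc] at hp
  have h1 : D + 1 ≤ p := by omega
  have h2 : ((D + 1 : ℕ) : ℝ) ≤ p := by exact_mod_cast h1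
  push_cast at h2
  linarith

private theorem VE_sum (h : VH D z B Y K Ks (Fintype.card ι) c Λ) :
    ∑ p ∈ Psm D z, 1 / ((p : ℝ) - 1) ^ 2 ≤ 2 / (D : ℝ) := by
  refine le_trans (sum_le_sum_of_subset_of_nonneg (filter_subset _ _) fun n _ _ => ?_)
    (VE_tail (by have := VE_D h; omega) z)
  positivity

private theorem VE_mempts {P : Finset ℕ} {τ : P → Option ι} {i : ι} {q : ℕ} :
    q ∈ pts P τ i ↔ ∃ h : q ∈ P, τ ⟨q, h⟩ = some i := by
  unfold pts
  rw [mem_image]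
  constructor
  · rintro ⟨p, hp, rfl⟩
    exact ⟨p.2, (mem_filter.1 hp).2⟩
  · rintro ⟨h, h1⟩
    exact ⟨⟨q, h⟩, mem_filter.2 ⟨mem_univ _, h1⟩, rfl⟩

private theorem VE_wnn (h : VH D z B Y K Ks (Fintype.card ι) c Λ) (S : Finset ι) (i : ι)
    (U : Finset ℕ) : 0 ≤ wS S (bT D z Λ) i U := by
  unfold wS
  split_ifs
  · exact bT_nonneg h.hΛ _
  · exact zero_le_one
  · exact le_rfl

/-- the number of used primes -/
private theorem VE_card (h : VH D z B Y K Ks (Fintype.card ι) c Λ) (S : Finset ι)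
    (hS : S.card ≤ K) (τ : Psm D z → Option ι)
    (h0 : ∏ i, wS S (bT D z Λ) i (pts (Psm D z) τ i) ≠ 0) :
    ((univ : Finset (Psm D z)).filter (fun p => τ p ≠ none)).card ≤ Ks := by
  rw [prod_ne_zero_iff] at h0
  have h1 : ∀ i ∉ S, pts (Psm D z) τ i = ∅ := by
    intro i hi
    have h2 := h0 i (mem_univ i)
    unfold wS at h2
    rw [if_neg hi] at h2
    by_contra h3
    rw [if_neg h3] at h2
    exact h2 rfl
  have h2 : ∀ i ∈ S, ∏ p ∈ pts (Psm D z) τ i, p ≤ z ^ 248 := by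
    intro i hi
    have h3 := h0 i (mem_univ i)
    unfold wS at h3
    rw [if_pos hi] at h3
    refine bT_level h.hD h.hz _ ?_ h3
    intro q hq
    exact (VE_mempts.1 hq).1
  obtain ⟨T, hT⟩ : ∃ T : Finset ℕ, T = S.biUnion fun i => pts (Psm D z) τ i := ⟨_, rfl⟩
  have hTs : T ⊆ Psm D z := by
    intro q hq
    rw [hT, mem_biUnion] at hq
    obtain ⟨i, -, hq⟩ := hq
    exact (VE_mempts.1 hq).1
  have hd : (S : Set ι).PairwiseDisjoint fun i => pts (Psm D z) τ i := by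
    intro i _ j _ hij
    rw [Function.onFun, disjoint_left]
    intro q hq hq'
    obtain ⟨hq1, hq2⟩ := VE_mempts.1 hq
    obtain ⟨hq3, hq4⟩ := VE_mempts.1 hq'
    rw [hq2] at hq4
    exact hij (Option.some.inj hq4)
  have h3 : ∏ p ∈ T, p ≤ (z ^ 248) ^ K := by
    rw [hT, prod_biUnion hd]
    refine (prod_le_prod' h2).trans ?_
    rw [prod_const]
    have hz : 1 ≤ z := by
      have := VE_D h
      have := h.hz
      omega
    exact Nat.pow_le_pow_right (Nat.one_le_pow _ _ hz) hS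
  refine le_trans ?_ (h.hKs T hTs h3)
  rw [← card_image_of_injective (f := fun p : Psm D z => (p : ℕ)) _
    (fun a b h => Subtype.ext h)]
  apply card_le_card
  intro q hq
  rw [mem_image] at hq
  obtain ⟨p, hp, rfl⟩ := hq
  have h4 := (mem_filter.1 hp).2
  obtain ⟨i, hi⟩ := Option.ne_none_iff_exists'.1 h4
  rw [hT, mem_biUnion]
  have h5 : (p : ℕ) ∈ pts (Psm D z) τ i := VE_mempts.2 ⟨p.2, hi⟩
  refine ⟨i, ?_, h5⟩
  by_contra hiS
  rw [h1 i hiS] at h5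
  exact absurd h5 (notMem_empty _)

/-- PROOF. If the product of the `wS S bT` is not zero, only the positions of `S` carry primes, each with product at most `z^248` (`bT_level`), so at most `Ks` primes are somewhere (`h.hKs`); the product is at
most `exp (3 (4 Λ r)^2 ∑_{p > D} 1/(p-1)^2 + 2 Ks 4 Λ r / (D - 1))`, `∑_{p > D} 1/(p-1)^2 ≤ 2 / D`, and `h.hsm`. -/
theorem gdev (h : VH D z B Y K Ks (Fintype.card ι) c Λ) (S : Finset ι) (hS : S.card ≤ K)
    (τ : Psm D z → Option ι) :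
    (∏ i, wS S (bT D z Λ) i (pts (Psm D z) τ i)) *
        ((∏ p : Psm D z, (if τ p = none then
          1 + 3 * (4 * Λ * Fintype.card ι / (((p : ℕ) : ℝ) - 1)) ^ 2
          else 1 + 2 * (4 * Λ * Fintype.card ι / (((p : ℕ) : ℝ) - 1)))) - 1) ≤
      1 / 1000 * ∏ i, wS S (bT D z Λ) i (pts (Psm D z) τ i) := by
  have hW0 : 0 ≤ ∏ i, wS S (bT D z Λ) i (pts (Psm D z) τ i) :=
    prod_nonneg fun i _ => VE_wnn h S i _
  by_cases h0 : ∏ i, wS S (bT D z Λ) i (pts (Psm D z) τ i) = 0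
  · rw [h0, zero_mul, mul_zero]
  have hcard := VE_card h S hS τ h0
  rw [mul_comm]
  refine mul_le_mul_of_nonneg_right ?_ hW0
  have hD' : (41 : ℝ) ≤ D := by exact_mod_cast VE_D h
  have hΛ0 : 0 ≤ Λ := by linarith [h.hΛ]
  obtain ⟨R, hR⟩ : ∃ R : ℝ, R = 4 * Λ * Fintype.card ι := ⟨_, rfl⟩
  have hR0 : 0 ≤ R := by
    rw [hR]
    positivity
  rw [← hR]
  have h1 : ∀ p : Psm D z, (if τ p = none then
        1 + 3 * (R / (((p : ℕ) : ℝ) - 1)) ^ 2
        else 1 + 2 * (R / (((p : ℕ) : ℝ) - 1))) ≤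
      Real.exp (3 * R ^ 2 * (1 / (((p : ℕ) : ℝ) - 1) ^ 2) +
        (if τ p ≠ none then 2 * R / D else 0)) := by
    intro p
    have hp := VE_p p.2
    have hp0 : (0 : ℝ) < ((p : ℕ) : ℝ) - 1 := by linarith
    have h2 : 0 ≤ 3 * R ^ 2 * (1 / (((p : ℕ) : ℝ) - 1) ^ 2) := by positivity
    by_cases h : τ p = none
    · rw [if_pos h, if_neg (not_not.2 h)]
      refine le_trans ?_ (Real.add_one_le_exp _)
      rw [add_zero, div_pow]
      apply le_of_eq
      ring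
    · rw [if_neg h, if_pos h]
      refine le_trans ?_ (Real.add_one_le_exp _)
      have h4 : 2 * (R / (((p : ℕ) : ℝ) - 1)) ≤ 2 * R / D := by
        rw [← mul_div_assoc]
        exact div_le_div_of_nonneg_left (by positivity) (by linarith) hp
      linarith
  have hE : ∏ p : Psm D z, (if τ p = none then
        1 + 3 * (R / (((p : ℕ) : ℝ) - 1)) ^ 2
        else 1 + 2 * (R / (((p : ℕ) : ℝ) - 1))) ≤
      Real.exp (∑ p : Psm D z, (3 * R ^ 2 * (1 / (((p : ℕ) : ℝ) - 1) ^ 2) +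
        (if τ p ≠ none then 2 * R / D else 0))) := by
    rw [Real.exp_sum]
    refine prod_le_prod (fun p _ => ?_) fun p _ => h1 p
    have hp := VE_p p.2
    have hp0 : (0 : ℝ) < ((p : ℕ) : ℝ) - 1 := by linarith
    split_ifs <;> positivity
  rw [sum_add_distrib, ← mul_sum] at hE
  have h5 : ∑ p : Psm D z, 1 / ((((p : ℕ)) : ℝ) - 1) ^ 2 ≤ 2 / (D : ℝ) := by
    rw [sum_coe_sort (Psm D z) (fun p => 1 / ((p : ℝ) - 1) ^ 2)]
    exact VE_sum h
  have h6 : ∑ p : Psm D z, (if τ p ≠ none then 2 * R / D else 0) ≤ Ks * (2 * R / D) := by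
    rw [← sum_filter, sum_const, nsmul_eq_mul]
    have h8 : (((univ : Finset (Psm D z)).filter (fun p => τ p ≠ none)).card : ℝ) ≤ Ks := by
      exact_mod_cast hcard
    exact mul_le_mul_of_nonneg_right h8 (by positivity)
  have h9 : 3 * R ^ 2 * ∑ p : Psm D z, 1 / ((((p : ℕ)) : ℝ) - 1) ^ 2 ≤ 3 * R ^ 2 * (2 / D) :=
    mul_le_mul_of_nonneg_left h5 (by positivity)
  have h10 : 3 * R ^ 2 * (2 / D) + Ks * (2 * R / D) ≤ 1 / 10000 := by
    have h11 : 3 * R ^ 2 * (2 / D) + Ks * (2 * R / D) = (6 * R ^ 2 + 2 * (Ks * R)) / D := by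
      ring
    rw [h11, div_le_iff₀ (by linarith), hR]
    have h12 := h.hsm
    have h13 : 0 ≤ Λ ^ 4 * ((K : ℝ) ^ 2 + 1) := by positivity
    have h14 : 0 ≤ Λ ^ 2 * (Fintype.card ι : ℝ) ^ 2 := by positivity
    have h15 : 0 ≤ Λ * (Fintype.card ι : ℝ) * Ks := by positivity
    nlinarith
  obtain ⟨x, hx⟩ : ∃ x : ℝ, x = 3 * R ^ 2 * ∑ p : Psm D z, 1 / ((((p : ℕ)) : ℝ) - 1) ^ 2 +
    ∑ p : Psm D z, (if τ p ≠ none then 2 * R / D else 0) := ⟨_, rfl⟩
  rw [← hx] at hE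
  have hx2 : x ≤ 1 / 10000 := by
    rw [hx]
    linarith
  have h13 := Real.add_one_le_exp (-x)
  have h14 : Real.exp x * Real.exp (-x) = 1 := by
    rw [← Real.exp_add]
    simp
  have h15 := Real.exp_pos x
  have h16 : Real.exp x ≤ 1 + 1 / 1000 := by nlinarith
  linarith

/-- PROOF. `mT_le`, `h.hΛ2`: `mb bT ≤ (1 + 1 / (20 (K + 1))) mb bF`. -/
theorem mT_pow (h : VH D z B Y K Ks (Fintype.card ι) c Λ) (j : ℕ) (hj : j ≤ K) :
    mb (Psm D z) (bT D z Λ) ^ j ≤ Real.exp (1 / 20) * mb (Psm D z) (bF D z) ^ j := by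
  have hD' : (41 : ℝ) ≤ D := by exact_mod_cast VE_D h
  have hΛ0 : 0 < Λ := by linarith [h.hΛ]
  have hφ : ∀ U ∈ (Psm D z).powerset, 0 ≤ ∏ p ∈ U, ((p : ℝ) - 1) := fun U hU =>
    prod_nonneg fun p hp => by
      have := VE_p (mem_powerset.1 hU hp)
      linarith
  have hT0 : 0 ≤ mb (Psm D z) (bT D z Λ) :=
    sum_nonneg fun U hU => mul_nonneg (sq_nonneg _) (hφ U hU)
  have hF0 : 0 ≤ mb (Psm D z) (bF D z) :=
    sum_nonneg fun U hU => mul_nonneg (sq_nonneg _) (hφ U hU)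
  have h1 := mT_le h.hΛ h.hD h.hz
  have h2 := h.hΛ2
  have h3 : 50 * Real.exp 21 * Real.log D / Λ ≤ 1 / (20 * ((K : ℝ) + 1)) := by
    rw [div_le_div_iff₀ hΛ0 (by positivity)]
    nlinarith
  have h4 : mb (Psm D z) (bT D z Λ) ≤
      Real.exp (1 / (20 * ((K : ℝ) + 1))) * mb (Psm D z) (bF D z) := by
    refine h1.trans (mul_le_mul_of_nonneg_right ?_ hF0)
    have := Real.add_one_le_exp (1 / (20 * ((K : ℝ) + 1)))
    linarith
  refine (pow_le_pow_left₀ hT0 h4 j).trans ?_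
  rw [mul_pow, ← Real.exp_nat_mul]
  refine mul_le_mul_of_nonneg_right (Real.exp_le_exp.2 ?_) (pow_nonneg hF0 j)
  have h5 : (j : ℝ) ≤ K := by exact_mod_cast hj
  have h6 : (j : ℝ) * (1 / (20 * ((K : ℝ) + 1))) = (j / ((K : ℝ) + 1)) * (1 / 20) := by
    field_simp
  rw [h6]
  have h7 : (j : ℝ) / ((K : ℝ) + 1) ≤ 1 := by
    rw [div_le_one (by positivity)]
    linarith
  linarith

/-- PROOF. `γ^2 ≥ (19/20) (∏ wS S bF)^2 - 20 (γ - ∏ wS S bF)^2`; `dj_lower` (`κ = 4 Λ`, `b = bF`, `h = bT`, `K^2 (4 Λ)^4 ∑_{p > D} 1/(p-1)^2 ≤ 512 / 10^6` by `h.hsm`), `dj_upper` for `bT`, `mT_pow`. -/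
theorem gam_mass (h : VH D z B Y K Ks (Fintype.card ι) c Λ) (S : Finset ι) (hS : S.card ≤ K)
    (γ : (Psm D z → Option ι) → ℝ)
    (hγ : ∀ τ, |γ τ - ∏ i, wS S (bF D z) i (pts (Psm D z) τ i)| ≤
      1 / 1000 * ∏ i, wS S (bT D z Λ) i (pts (Psm D z) τ i)) :
    9 / 10 * mb (Psm D z) (bF D z) ^ S.card ≤
      ∑ τ : Psm D z → Option ι, γ τ ^ 2 * LG.ph (Psm D z) τ := by
  have hD' : (41 : ℝ) ≤ D := by exact_mod_cast VE_D h
  have hΛ1 := h.hΛ
  have hΛ0 : 0 < Λ := by linarith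
  have hP : ∀ p ∈ Psm D z, p.Prime := fun p hp => (mem_filter.1 hp).2
  have hbT : ∀ U, |bF D z U| ≤ bT D z Λ U := by
    intro U
    unfold bT
    have := div_nonneg (bH_nonneg (D := D) (z := z) U) hΛ0.le
    linarith
  have hph : ∀ τ : Psm D z → Option ι, 0 ≤ LG.ph (Psm D z) τ := by
    intro τ
    unfold LG.ph
    refine prod_nonneg fun p _ => ?_
    have := VE_p p.2
    split_ifs <;> linarith
  have h1 := dj_lower (Psm D z) hP (bF D z) (bT D z Λ) (κ := 4 * Λ) (by positivity) hbT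
    (fun U q hq hqU => bT_sub hΛ1 h.hD h.hz U q hq hqU) S
  have h2 := dj_upper (Psm D z) hP (bT D z Λ) S
  have h3 := mT_pow h S.card hS
  have hφ : ∀ U ∈ (Psm D z).powerset, 0 ≤ ∏ p ∈ U, ((p : ℝ) - 1) := fun U hU =>
    prod_nonneg fun p hp => by
      have := VE_p (mem_powerset.1 hU hp)
      linarith
  have hT0 : 0 ≤ mb (Psm D z) (bT D z Λ) ^ S.card :=
    pow_nonneg (sum_nonneg fun U hU => mul_nonneg (sq_nonneg _) (hφ U hU)) _
  have hF0 : 0 ≤ mb (Psm D z) (bF D z) ^ S.card :=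
    pow_nonneg (sum_nonneg fun U hU => mul_nonneg (sq_nonneg _) (hφ U hU)) _
  have h4 : ∀ τ : Psm D z → Option ι,
      19 / 20 * ((∏ i, wS S (bF D z) i (pts (Psm D z) τ i)) ^ 2 * LG.ph (Psm D z) τ) -
        20 / 1000000 * ((∏ i, wS S (bT D z Λ) i (pts (Psm D z) τ i)) ^ 2 * LG.ph (Psm D z) τ) ≤
      γ τ ^ 2 * LG.ph (Psm D z) τ := by
    intro τ
    obtain ⟨a, ha⟩ : ∃ a, a = ∏ i, wS S (bF D z) i (pts (Psm D z) τ i) := ⟨_, rfl⟩
    obtain ⟨b, hb⟩ : ∃ b, b = ∏ i, wS S (bT D z Λ) i (pts (Psm D z) τ i) := ⟨_, rfl⟩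
    have h5 := hγ τ
    rw [← ha, ← hb] at h5 ⊢
    have h6 : (γ τ - a) ^ 2 ≤ 1 / 1000000 * b ^ 2 := by
      have h7 := pow_le_pow_left₀ (abs_nonneg _) h5 2
      rw [sq_abs] at h7
      calc (γ τ - a) ^ 2 ≤ (1 / 1000 * b) ^ 2 := h7
        _ = 1 / 1000000 * b ^ 2 := by ring
    have h8 : 19 / 20 * a ^ 2 - 20 / 1000000 * b ^ 2 ≤ γ τ ^ 2 := by
      nlinarith [sq_nonneg (a + 20 * (γ τ - a))]
    have h9 := mul_le_mul_of_nonneg_right h8 (hph τ)
    linarith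
  have h5 := sum_le_sum fun τ (_ : τ ∈ (univ : Finset (Psm D z → Option ι))) => h4 τ
  rw [sum_sub_distrib, ← mul_sum, ← mul_sum] at h5
  have h6 : (S.card : ℝ) ^ 2 * (∑ p ∈ Psm D z, (4 * Λ) ^ 4 / ((p : ℝ) - 1) ^ 2) ≤
      512 / 1000000 := by
    have h7 : ∑ p ∈ Psm D z, (4 * Λ) ^ 4 / ((p : ℝ) - 1) ^ 2 =
        (4 * Λ) ^ 4 * ∑ p ∈ Psm D z, 1 / ((p : ℝ) - 1) ^ 2 := by
      rw [mul_sum]
      refine sum_congr rfl fun p _ => ?_
      ring
    have h8 := VE_sum h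
    have h9 : (S.card : ℝ) ^ 2 ≤ (K : ℝ) ^ 2 := by
      have : (S.card : ℝ) ≤ K := by exact_mod_cast hS
      exact pow_le_pow_left₀ (by positivity) this 2
    rw [h7]
    have h10 : 0 ≤ ∑ p ∈ Psm D z, 1 / ((p : ℝ) - 1) ^ 2 := by positivity
    calc (S.card : ℝ) ^ 2 * ((4 * Λ) ^ 4 * ∑ p ∈ Psm D z, 1 / ((p : ℝ) - 1) ^ 2)
        ≤ (K : ℝ) ^ 2 * ((4 * Λ) ^ 4 * (2 / D)) := by gcongr
      _ = 512 * (Λ ^ 4 * (K : ℝ) ^ 2) / D := by ring
      _ ≤ 512 / 1000000 := by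
        rw [div_le_div_iff₀ (by linarith) (by norm_num)]
        have h11 := h.hsm
        have h12 : 0 ≤ Λ ^ 4 := by positivity
        have h13 : 0 ≤ Λ ^ 2 * (Fintype.card ι : ℝ) ^ 2 := by positivity
        have h14 : 0 ≤ Λ * (Fintype.card ι : ℝ) * Ks := by positivity
        nlinarith
  have h7 := mul_le_mul_of_nonneg_right h6 hT0
  have h8 : Real.exp (1 / 20) ≤ 11 / 10 := by
    have h13 := Real.add_one_le_exp (-(1 / 20) : ℝ)
    have h14 : Real.exp (1 / 20) * Real.exp (-(1 / 20)) = 1 := by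
      rw [← Real.exp_add]
      simp
    have h15 := Real.exp_pos (1 / 20)
    nlinarith
  have h9 := mul_le_mul_of_nonneg_right h8 hF0
  linarith

/-- PROOF. `multi2` with `P = Psm D z`, `κ = 4 Λ`, `b = wS S bF`, `h = wS S bT` (`bT_sub`), and `gdev`; `∏_{i ∈ S} LamF i = ∏_i ∑_U wS S bF i U ∏ Ef` by `LamF_expand` (`hF` gives the forms for `Psm D z`). -/
theorem gam_ex (h : VH D z B Y K Ks (Fintype.card ι) c Λ) {A : ℕ → ι → ℕ → Prop}
    (hF : Forms (Psm D z) A) (S : Finset ι) (hS : S.card ≤ K) :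
    ∃ γ : (Psm D z → Option ι) → ℝ,
      (∀ m, LamS (LamF D z A) S m = ∑ τ : Psm D z → Option ι, γ τ * Phi (Psm D z) A τ m) ∧
      ∀ τ, |γ τ - ∏ i, wS S (bF D z) i (pts (Psm D z) τ i)| ≤
        1 / 1000 * ∏ i, wS S (bT D z Λ) i (pts (Psm D z) τ i) := by
  have hD41 := VE_D h
  have hD' : (41 : ℝ) ≤ D := by exact_mod_cast hD41
  have hΛ1 := h.hΛ
  have hΛ0 : 0 < Λ := by linarith
  have hx : ∀ p ∈ Psm D z, 4 * Λ * Fintype.card ι ≤ (p : ℝ) - 1 := by
    intro p hp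
    refine le_trans ?_ (VE_p hp)
    have h12 := h.hsm
    have h13 : 0 ≤ Λ ^ 4 * ((K : ℝ) ^ 2 + 1) := by positivity
    have h15 : 0 ≤ Λ * (Fintype.card ι : ℝ) * Ks := by positivity
    rcases Nat.eq_zero_or_pos (Fintype.card ι) with h0 | h0
    · rw [h0]
      simp
    · have h1 : (1 : ℝ) ≤ Fintype.card ι := by exact_mod_cast h0
      have h2 : Λ * Fintype.card ι ≤ Λ ^ 2 * (Fintype.card ι : ℝ) ^ 2 := by
        have h3 : 1 ≤ Λ * Fintype.card ι := by nlinarith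
        calc Λ * Fintype.card ι ≤ (Λ * Fintype.card ι) * (Λ * Fintype.card ι) := by nlinarith
          _ = Λ ^ 2 * (Fintype.card ι : ℝ) ^ 2 := by ring
      have h3 : 0 ≤ Λ * Fintype.card ι := by positivity
      nlinarith
  have hb : ∀ i U, |wS S (bF D z) i U| ≤ wS S (bT D z Λ) i U := by
    intro i U
    unfold wS
    split_ifs
    · unfold bT
      have := div_nonneg (bH_nonneg (D := D) (z := z) U) hΛ0.le
      linarith
    · simp
    · simp
  obtain ⟨γ, h1, h2⟩ := multi2 hF (κ := 4 * Λ) (by positivity) hx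
    (fun i U => wS S (bF D z) i U) (fun i U => wS S (bT D z Λ) i U) hb
    (fun i U q hq hqU => by
      show wS S (bT D z Λ) i (insert q U) ≤ wS S (bT D z Λ) i U * (4 * Λ / ((q : ℝ) - 1))
      by_cases hi : i ∈ S
      · unfold wS
        rw [if_pos hi, if_pos hi]
        exact bT_sub hΛ1 h.hD h.hz U q hq hqU
      · have h3 : wS S (bT D z Λ) i (insert q U) = 0 := by
          unfold wS
          rw [if_neg hi, if_neg (insert_ne_empty q U)]
        rw [h3]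
        have := VE_p hq
        exact mul_nonneg (VE_wnn h S i U) (div_nonneg (by positivity) (by linarith)))
  refine ⟨γ, fun m => ?_, fun τ => (h2 τ).trans (gdev h S hS τ)⟩
  rw [← h1 m]
  unfold LamS
  rw [← Finset.prod_subset (subset_univ S) (f := fun i =>
    ∑ U ∈ (Psm D z).powerset, wS S (bF D z) i U * ∏ p ∈ U, Ef A p (some i) m)]
  · refine prod_congr rfl fun i hi => ?_
    rw [LamF_expand A (by omega) h.hz i m]
    refine sum_congr rfl fun U _ => ?_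
    unfold wS
    rw [if_pos hi]
  · intro i _ hi
    rw [sum_eq_single ∅]
    · unfold wS
      rw [if_neg hi, if_pos rfl, prod_empty, mul_one]
    · intro U _ hU
      unfold wS
      rw [if_neg hi, if_neg hU, zero_mul]
    · intro h3
      exact absurd (empty_mem_powerset _) h3

end Pool.Agent.H.MP_711652_nt.CG
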