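import Pool.Agent.H.MP_711652_nt.CG.BrB
import Pool.Agent.H.MP_711652_nt.CG.Mlt
import Pool.Agent.H.MP_711652_nt.G2.Defs
import Pool.Agent.H.MP_711652_nt.G2.NumBig

/-! # MP_711652, CG: assignments on a disjoint union of sets of primes -/

set_option autoImplicit false

namespace Pool.Agent.H.MP_711652_nt.CG

open Finset Pool.Agent.H.MP_711652_nt.LG Pool.Agent.H.MP_711652_nt.G2 Pool.Agent.H.MP_711652_nt.CH

/-- restriction of an assignment -/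
def res {ι : Type*} {P Q : Finset ℕ} (h : Q ⊆ P) (ρ : P → Option ι) : Q → Option ι :=
  fun q => ρ ⟨q, h q.2⟩

/-- all primes outside `Q₁ ∪ Q₂` are nowhere -/
def gd {ι : Type*} {P : Finset ℕ} (Q₁ Q₂ : Finset ℕ) (ρ : P → Option ι) : Prop :=
  ∀ p : P, (p : ℕ) ∉ Q₁ → (p : ℕ) ∉ Q₂ → ρ p = none

/-- gluing of two assignments -/
def VTs_glue {ι : Type*} (P Q₁ Q₂ : Finset ℕ) (σ : Q₁ → Option ι) (τ : Q₂ → Option ι) :
    P → Option ι :=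
  fun p => if h : (p : ℕ) ∈ Q₁ then σ ⟨p, h⟩ else if h : (p : ℕ) ∈ Q₂ then τ ⟨p, h⟩ else none

open Classical in
theorem split_sum {ι : Type*} [Fintype ι] [DecidableEq ι] {P Q₁ Q₂ : Finset ℕ} (h₁ : Q₁ ⊆ P)
    (h₂ : Q₂ ⊆ P) (hd : Disjoint Q₁ Q₂) (F : (Q₁ → Option ι) → (Q₂ → Option ι) → ℝ) :
    ∑ ρ : P → Option ι, (if gd Q₁ Q₂ ρ then F (res h₁ ρ) (res h₂ ρ) else 0) =
      ∑ σ : Q₁ → Option ι, ∑ τ : Q₂ → Option ι, F σ τ := by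
  rw [← Finset.sum_filter, ← Fintype.sum_prod_type']
  refine Finset.sum_nbij' (fun ρ => (res h₁ ρ, res h₂ ρ)) (fun x => VTs_glue P Q₁ Q₂ x.1 x.2)
    (fun _ _ => Finset.mem_univ _) ?_ ?_ ?_ (fun _ _ => rfl)
  · intro x _
    rw [Finset.mem_filter]
    refine ⟨Finset.mem_univ _, fun p hp1 hp2 => ?_⟩
    unfold VTs_glue
    rw [dif_neg hp1, dif_neg hp2]
  · intro ρ hρ
    rw [Finset.mem_filter] at hρ
    funext p
    unfold VTs_glue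
    by_cases hp1 : (p : ℕ) ∈ Q₁
    · rw [dif_pos hp1]
      rfl
    · rw [dif_neg hp1]
      by_cases hp2 : (p : ℕ) ∈ Q₂
      · rw [dif_pos hp2]
        rfl
      · rw [dif_neg hp2]
        exact (hρ.2 p hp1 hp2).symm
  · rintro ⟨σ, τ⟩ _
    refine Prod.ext ?_ ?_
    · funext q
      show VTs_glue P Q₁ Q₂ σ τ ⟨q, h₁ q.2⟩ = σ q
      unfold VTs_glue
      rw [dif_pos q.2]
    · funext q
      show VTs_glue P Q₁ Q₂ σ τ ⟨q, h₂ q.2⟩ = τ q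
      unfold VTs_glue
      have h3 : (q : ℕ) ∉ Q₁ := fun h => Finset.disjoint_left.1 hd h q.2
      rw [dif_neg h3, dif_pos q.2]

/-- products over the primes -/
theorem VTs_prod {ι M : Type*} [CommMonoid M] {P Q₁ Q₂ : Finset ℕ} (h₁ : Q₁ ⊆ P)
    (h₂ : Q₂ ⊆ P) (hd : Disjoint Q₁ Q₂) (g : ℕ → Option ι → M) (hg : ∀ p, g p none = 1)
    (ρ : P → Option ι) (hρ : gd Q₁ Q₂ ρ) :
    ∏ p : P, g p (ρ p) = (∏ p : Q₁, g p (res h₁ ρ p)) * ∏ p : Q₂, g p (res h₂ ρ p) := by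
  classical
  let ρ' : ℕ → Option ι := fun n => if h : n ∈ P then ρ ⟨n, h⟩ else none
  have h3 : ∀ p : P, ρ p = ρ' p := by
    intro p
    show ρ p = if h : (p : ℕ) ∈ P then ρ ⟨p, h⟩ else none
    rw [dif_pos p.2]
  have h4 : ∏ p : P, g p (ρ p) = ∏ p ∈ P, g p (ρ' p) :=
    (Finset.prod_congr rfl fun (p : P) _ => congrArg (g p) (h3 p)).trans
      (Finset.prod_coe_sort P fun p => g p (ρ' p))
  have h5 : ∏ p : Q₁, g p (res h₁ ρ p) = ∏ p ∈ Q₁, g p (ρ' p) :=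
    (Finset.prod_congr rfl fun (p : Q₁) _ => congrArg (g p) (h3 ⟨p, h₁ p.2⟩)).trans
      (Finset.prod_coe_sort Q₁ fun p => g p (ρ' p))
  have h6 : ∏ p : Q₂, g p (res h₂ ρ p) = ∏ p ∈ Q₂, g p (ρ' p) :=
    (Finset.prod_congr rfl fun (p : Q₂) _ => congrArg (g p) (h3 ⟨p, h₂ p.2⟩)).trans
      (Finset.prod_coe_sort Q₂ fun p => g p (ρ' p))
  rw [h4, h5, h6, ← Finset.prod_union hd]
  symm
  refine Finset.prod_subset (Finset.union_subset h₁ h₂) fun p hp hp' => ?_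
  rw [Finset.mem_union, not_or] at hp'
  have h7 : ρ' p = none := by
    show (if h : p ∈ P then ρ ⟨p, h⟩ else none) = none
    rw [dif_pos hp]
    exact hρ ⟨p, hp⟩ hp'.1 hp'.2
  rw [h7, hg]

theorem gd_Phi {ι : Type*} {P Q₁ Q₂ : Finset ℕ} (h₁ : Q₁ ⊆ P)
    (h₂ : Q₂ ⊆ P) (hd : Disjoint Q₁ Q₂) (A : ℕ → ι → ℕ → Prop) (ρ : P → Option ι)
    (hρ : gd Q₁ Q₂ ρ) (m : ℕ) :
    Phi P A ρ m = Phi Q₁ A (res h₁ ρ) m * Phi Q₂ A (res h₂ ρ) m :=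
  VTs_prod h₁ h₂ hd (fun p s => Ef A p s m) (fun _ => rfl) ρ hρ

theorem gd_ph {ι : Type*} [DecidableEq ι] {P Q₁ Q₂ : Finset ℕ} (h₁ : Q₁ ⊆ P)
    (h₂ : Q₂ ⊆ P) (hd : Disjoint Q₁ Q₂) (ρ : P → Option ι) (hρ : gd Q₁ Q₂ ρ) :
    LG.ph P ρ = LG.ph Q₁ (res h₁ ρ) * LG.ph Q₂ (res h₂ ρ) :=
  VTs_prod h₁ h₂ hd (fun p s => if s = none then (1 : ℝ) else (p : ℝ) - 1)
    (fun _ => if_pos rfl) ρ hρ

theorem gd_DD {ι : Type*} [DecidableEq ι] {P Q₁ Q₂ : Finset ℕ} (h₁ : Q₁ ⊆ P)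
    (h₂ : Q₂ ⊆ P) (hd : Disjoint Q₁ Q₂) (ρ : P → Option ι) (hρ : gd Q₁ Q₂ ρ) :
    LG.DD P ρ = LG.DD Q₁ (res h₁ ρ) * LG.DD Q₂ (res h₂ ρ) :=
  VTs_prod h₁ h₂ hd (fun p s => if s = none then 1 else p) (fun _ => if_pos rfl) ρ hρ

end Pool.Agent.H.MP_711652_nt.CG
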