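import Pool.Agent.H.MP_711652_nt.CG.VTa
import Pool.Agent.H.MP_711652_nt.CG.VTs

/-! # MP_711652, CG, VT: the weight of one position -/

set_option autoImplicit false

namespace Pool.Agent.H.MP_711652_nt.CG

open Finset Pool.Agent.H.MP_711652_nt.LG Pool.Agent.H.MP_711652_nt.G2 Pool.Agent.H.MP_711652_nt.CH

/-- the weight of the big primes at one position -/
noncomputable def vtX (c : ℝ) (B : ℕ) (T : Finset ℕ) : ℝ := |chg (gw c) B (∏ p ∈ T, p)|

/-- the weight of the small primes at one position -/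
noncomputable def vtZ (D z : ℕ) (θ : ℝ) (T U : Finset ℕ) : ℝ :=
  if T ≠ ∅ then bH D z U else if U = ∅ then 1 else θ * bH D z U

/-- the weight of one position -/
noncomputable def vtW (D z B : ℕ) (c θ : ℝ) (V : Finset ℕ) : ℝ :=
  if V ⊆ Pbig z B ∪ Psm D z then
    vtX c B (V ∩ Pbig z B) * vtZ D z θ (V ∩ Pbig z B) (V ∩ Psm D z) else 0

theorem vt_prod_ge {T : Finset ℕ} (hT : ∀ p ∈ T, p.Prime) (hne : T ≠ ∅) : 2 ≤ ∏ p ∈ T, p :=
  two_le_prod_of_QQ (P := T) hT (Subset.refl T) hne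

theorem vt_totient {T : Finset ℕ} (hT : ∀ p ∈ T, p.Prime) :
    (Nat.totient (∏ p ∈ T, p) : ℝ) = ∏ p ∈ T, ((p : ℝ) - 1) := by
  induction T using Finset.induction_on with
  | empty => simp
  | insert q T hq ih =>
    have hqp := hT q (mem_insert_self q T)
    have hcop : q.Coprime (∏ p ∈ T, p) := by
      refine Nat.Coprime.prod_right fun p hp => ?_
      refine (Nat.coprime_primes hqp (hT p (mem_insert_of_mem hp))).2 ?_
      rintro rfl
      exact hq hp
    rw [prod_insert hq, prod_insert hq, Nat.totient_mul hcop, Nat.cast_mul,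
      ih fun p hp => hT p (mem_insert_of_mem hp), Nat.totient_prime hqp,
      Nat.cast_sub hqp.one_le, Nat.cast_one]

theorem vt_gw_mul {c : ℝ} (hc : 0 ≤ c) {q r : ℕ} (hq : q.Prime) (hr : 2 ≤ r)
    (hcop : q.Coprime r) : gw c (q * r) ≤ gw c r * (1 / ((q : ℝ) - 1)) := by
  have hq1 : (1 : ℝ) < q := by exact_mod_cast hq.one_lt
  have h3 : 2 ≤ q * r := hr.trans (Nat.le_mul_of_pos_left _ hq.pos)
  have hr1 : (1 : ℝ) < r := by exact_mod_cast hr
  have hln' : 0 < Real.log r := Real.log_pos hr1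
  have hle : Real.log r ≤ Real.log ((q * r : ℕ) : ℝ) := by
    refine Real.log_le_log (by linarith) ?_
    push_cast
    nlinarith
  have htot : 0 < ((Nat.totient r : ℕ) : ℝ) := by
    exact_mod_cast Nat.totient_pos.2 (by omega)
  rw [gw_of_two_le _ h3, gw_of_two_le _ hr, Nat.totient_mul hcop, Nat.cast_mul,
    Nat.totient_prime hq, Nat.cast_sub hq.one_le, Nat.cast_one, div_mul_div_comm, mul_one]
  have h6 : (0 : ℝ) < q - 1 := by linarith
  refine div_le_div_of_nonneg_left hc (by positivity) ?_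
  have h5 : (r.totient : ℝ) * Real.log r ≤ r.totient * Real.log ((q * r : ℕ) : ℝ) :=
    mul_le_mul_of_nonneg_left hle htot.le
  calc (r.totient : ℝ) * Real.log r * ((q : ℝ) - 1)
      ≤ (r.totient * Real.log ((q * r : ℕ) : ℝ)) * ((q : ℝ) - 1) :=
        mul_le_mul_of_nonneg_right h5 h6.le
    _ = ((q : ℝ) - 1) * r.totient * Real.log ((q * r : ℕ) : ℝ) := by ring

theorem vtX_nonneg (c : ℝ) (B : ℕ) (T : Finset ℕ) : 0 ≤ vtX c B T := abs_nonneg _

theorem vtX_empty (c : ℝ) (B : ℕ) : vtX c B ∅ = 1 := by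
  unfold vtX chg
  rw [prod_empty, if_pos rfl, abs_one]

theorem vtX_ne {c : ℝ} (hc : 0 ≤ c) (B : ℕ) {T : Finset ℕ} (hT : ∀ p ∈ T, p.Prime) (hne : T ≠ ∅) :
    vtX c B T = if ∏ p ∈ T, p ≤ B then gw c (∏ p ∈ T, p) else 0 := by
  have h2 := vt_prod_ge hT hne
  unfold vtX chg
  rw [if_neg (by omega)]
  split_ifs
  · rw [abs_neg, abs_of_nonneg (gw_nonneg hc _)]
  · exact abs_zero

theorem vtX_insert {c : ℝ} (hc : 0 ≤ c) (B : ℕ) {T : Finset ℕ} (hT : ∀ p ∈ T, p.Prime)
    (hne : T ≠ ∅) {q : ℕ} (hq : q.Prime) (hqT : q ∉ T) :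
    vtX c B (insert q T) ≤ vtX c B T * (1 / ((q : ℝ) - 1)) := by
  have hq1 : (1 : ℝ) < q := by exact_mod_cast hq.one_lt
  have h6 : (0 : ℝ) < q - 1 := by linarith
  have hT' : ∀ p ∈ insert q T, p.Prime := by
    intro p hp
    rw [mem_insert] at hp
    rcases hp with rfl | hp
    · exact hq
    · exact hT p hp
  rw [vtX_ne hc B hT' (insert_ne_empty _ _), vtX_ne hc B hT hne, prod_insert hqT]
  have hr := vt_prod_ge hT hne
  have hcop : q.Coprime (∏ p ∈ T, p) := by
    refine Nat.Coprime.prod_right fun p hp => ?_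
    refine (Nat.coprime_primes hq (hT p hp)).2 ?_
    rintro rfl
    exact hqT hp
  by_cases h : q * ∏ p ∈ T, p ≤ B
  · rw [if_pos h, if_pos ((Nat.le_mul_of_pos_left _ hq.pos).trans h)]
    exact vt_gw_mul hc hq hr hcop
  · rw [if_neg h]
    have h1 := gw_nonneg hc (∏ p ∈ T, p)
    split_ifs <;> positivity

theorem vtX_single {c : ℝ} (hc : 0 ≤ c) (B : ℕ) {q z : ℕ} (hq : q.Prime) (hz : 2 ≤ z)
    (hzq : (z : ℝ) ≤ q) : vtX c B (insert q ∅) ≤ c / Real.log z * (1 / ((q : ℝ) - 1)) := by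
  have hq1 : (1 : ℝ) < q := by exact_mod_cast hq.one_lt
  have hz1 : (1 : ℝ) < z := by exact_mod_cast hz
  have h6 : (0 : ℝ) < q - 1 := by linarith
  have hlz : 0 < Real.log z := Real.log_pos hz1
  have hlq : Real.log z ≤ Real.log q := Real.log_le_log (by linarith) hzq
  have hT' : ∀ p ∈ insert q (∅ : Finset ℕ), p.Prime := by
    intro p hp
    rw [mem_insert] at hp
    rcases hp with rfl | hp
    · exact hq
    · exact absurd hp (notMem_empty p)
  rw [vtX_ne hc B hT' (insert_ne_empty _ _), prod_insert (notMem_empty q), prod_empty, mul_one]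
  split_ifs
  · rw [gw_of_two_le _ hq.two_le, Nat.totient_prime hq, Nat.cast_sub hq.one_le, Nat.cast_one,
      div_mul_div_comm, mul_one]
    refine div_le_div_of_nonneg_left hc (by positivity) ?_
    rw [mul_comm]
    exact mul_le_mul_of_nonneg_left hlq h6.le
  · positivity

theorem vtZ_nonneg {D z : ℕ} {θ : ℝ} (hθ : 0 ≤ θ) (T U : Finset ℕ) : 0 ≤ vtZ D z θ T U := by
  unfold vtZ
  have h1 := bH_nonneg (D := D) (z := z) U
  split_ifs
  · exact h1
  · exact zero_le_one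
  · positivity

theorem vtW_nonneg {D z B : ℕ} {c θ : ℝ} (hθ : 0 ≤ θ) (V : Finset ℕ) : 0 ≤ vtW D z B c θ V := by
  unfold vtW
  split_ifs
  · exact mul_nonneg (vtX_nonneg _ _ _) (vtZ_nonneg hθ _ _)
  · exact le_rfl

theorem vtW_empty {D z B : ℕ} {c θ : ℝ} : vtW D z B c θ ∅ = 1 := by
  unfold vtW vtZ
  rw [if_pos (empty_subset _), empty_inter, empty_inter, vtX_empty]
  simp

theorem vt_disj (D z B : ℕ) : Disjoint (Pbig z B) (Psm D z) := by
  rw [disjoint_left]
  intro p h1 h2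
  unfold Pbig at h1
  unfold Psm at h2
  rw [mem_filter, mem_Ioc] at h1 h2
  omega

theorem vtW_sub {D z B Y K : ℕ} {c : ℝ} (hB : Big (Pbig z B) B Y K c z) (hD : 2 ≤ D)
    (hz : D ≤ z) (V : Finset ℕ) (p : ℕ) (hp : p.Prime) (hpV : p ∉ V) :
    vtW D z B c (c / Real.log z) (insert p V) ≤
      vtW D z B c (c / Real.log z) V * (4 / ((p : ℝ) - 1)) := by
  have hc := hB.hc
  have hz3 : (3 : ℝ) ≤ z := hB.hD
  have hz2 : 2 ≤ z := by
    have : (2 : ℝ) ≤ z := by linarith
    exact_mod_cast this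
  have hlz : 0 < Real.log z := Real.log_pos (by linarith)
  have hp1 : (1 : ℝ) < p := by exact_mod_cast hp.one_lt
  have h6 : (0 : ℝ) < p - 1 := by linarith
  obtain ⟨θ, hθ⟩ : ∃ θ : ℝ, θ = c / Real.log z := ⟨_, rfl⟩
  have hθ0 : 0 ≤ θ := by
    rw [hθ]
    positivity
  have hθ1 : θ ≤ 1 := by
    rw [hθ, div_le_one hlz]
    exact hB.clog
  rw [← hθ]
  by_cases hV : insert p V ⊆ Pbig z B ∪ Psm D z
  · have hV' : V ⊆ Pbig z B ∪ Psm D z := (subset_insert p V).trans hV
    have hpm : p ∈ Pbig z B ∪ Psm D z := hV (mem_insert_self p V)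
    unfold vtW
    rw [if_pos hV, if_pos hV']
    set T := V ∩ Pbig z B with hT
    set U := V ∩ Psm D z with hU
    have hTp : ∀ q ∈ T, q.Prime := fun q hq => hB.prime q (mem_inter.1 hq).2
    have hpT : p ∉ T := fun h => hpV (mem_inter.1 h).1
    have hpU : p ∉ U := fun h => hpV (mem_inter.1 h).1
    have hb0 : 0 ≤ bH D z U := bH_nonneg U
    by_cases hpb : p ∈ Pbig z B
    · have hps : p ∉ Psm D z := disjoint_left.1 (vt_disj D z B) hpb
      rw [insert_inter_of_mem hpb, insert_inter_of_notMem hps, ← hT, ← hU]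
      by_cases hTe : T = ∅
      · rw [hTe, vtX_empty, one_mul]
        have h1 := vtX_single hc B hp hz2 (hB.ge p hpb)
        rw [← hθ] at h1
        have h2 : vtZ D z θ (insert p ∅) U = bH D z U := by
          unfold vtZ
          rw [if_pos (insert_ne_empty _ _)]
        rw [h2]
        have h3 : vtX c B (insert p ∅) * bH D z U ≤ θ * (1 / ((p : ℝ) - 1)) * bH D z U :=
          mul_le_mul_of_nonneg_right h1 hb0
        refine h3.trans ?_
        unfold vtZ
        rw [if_neg (by simp)]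
        split_ifs with hUe
        · have h4 : bH D z U ≤ 2 := by
            rw [hUe]
            exact bH_empty
          calc θ * (1 / ((p : ℝ) - 1)) * bH D z U ≤ 1 * (1 / ((p : ℝ) - 1)) * 2 := by gcongr
            _ ≤ 1 * (4 / ((p : ℝ) - 1)) := by
                rw [one_mul, one_mul, one_div, div_eq_mul_inv, mul_comm]
                gcongr
                norm_num
        · calc θ * (1 / ((p : ℝ) - 1)) * bH D z U = θ * bH D z U * (1 / ((p : ℝ) - 1)) := by ring
            _ ≤ θ * bH D z U * (4 / ((p : ℝ) - 1)) := by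
                gcongr
                norm_num
      · have h1 := vtX_insert hc B hTp hTe hp hpT
        have h2 : vtZ D z θ (insert p T) U = bH D z U := by
          unfold vtZ
          rw [if_pos (insert_ne_empty _ _)]
        have h3 : vtZ D z θ T U = bH D z U := by
          unfold vtZ
          rw [if_pos hTe]
        rw [h2, h3]
        have h4 := vtX_nonneg c B T
        calc vtX c B (insert p T) * bH D z U ≤ vtX c B T * (1 / ((p : ℝ) - 1)) * bH D z U := by
              gcongr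
          _ = vtX c B T * bH D z U * (1 / ((p : ℝ) - 1)) := by ring
          _ ≤ vtX c B T * bH D z U * (4 / ((p : ℝ) - 1)) := by
                gcongr
                norm_num
    · have hps : p ∈ Psm D z := (mem_union.1 hpm).resolve_left hpb
      rw [insert_inter_of_mem hps, insert_inter_of_notMem hpb, ← hT, ← hU]
      have h1 := bH_sub hD hz U p hps hpU
      have h4 := vtX_nonneg c B T
      have h24 : bH D z U * (2 / ((p : ℝ) - 1)) ≤ bH D z U * (4 / ((p : ℝ) - 1)) := by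
        gcongr
        norm_num
      rw [mul_assoc]
      refine mul_le_mul_of_nonneg_left ?_ h4
      unfold vtZ
      by_cases hTe : T = ∅
      · rw [if_neg (by simpa using hTe), if_neg (insert_ne_empty _ _), if_neg (by simpa using hTe)]
        split_ifs with hUe
        · have h5 : bH D z U ≤ 2 := by
            rw [hUe]
            exact bH_empty
          calc θ * bH D z (insert p U) ≤ 1 * (bH D z U * (2 / ((p : ℝ) - 1))) := by
                have := bH_nonneg (D := D) (z := z) (insert p U)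
                gcongr
            _ ≤ 1 * (2 * (2 / ((p : ℝ) - 1))) := by gcongr
            _ = 1 * (4 / ((p : ℝ) - 1)) := by ring
        · calc θ * bH D z (insert p U) ≤ θ * (bH D z U * (4 / ((p : ℝ) - 1))) := by
                gcongr
                exact h1.trans h24
            _ = θ * bH D z U * (4 / ((p : ℝ) - 1)) := by ring
      · rw [if_pos hTe, if_pos hTe]
        exact h1.trans h24
  · have h1 : vtW D z B c θ (insert p V) = 0 := by
      unfold vtW
      rw [if_neg hV]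
    rw [h1]
    have := vtW_nonneg (D := D) (z := z) (B := B) (c := c) hθ0 V
    positivity

theorem vtW_level {D z B : ℕ} {c θ : ℝ} (hD : 2 ≤ D) (hz : D ≤ z) (V : Finset ℕ)
    (h : vtW D z B c θ V ≠ 0) :
    ∏ p ∈ V, (if p ∈ Pbig z B then 1 else p) ≤ z ^ 248 := by
  unfold vtW at h
  split_ifs at h with hV
  · have h1 : ∏ p ∈ V, (if p ∈ Pbig z B then 1 else p) = ∏ p ∈ V ∩ Psm D z, p := by
      rw [← prod_filter_mul_prod_filter_not V (fun p => p ∈ Psm D z)]
      have h2 : V.filter (fun p => p ∈ Psm D z) = V ∩ Psm D z := by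
        ext p
        simp [mem_inter]
      rw [h2]
      have h3 : ∏ p ∈ V.filter (fun p => ¬ p ∈ Psm D z), (if p ∈ Pbig z B then 1 else p) = 1 := by
        refine prod_eq_one fun p hp => ?_
        rw [mem_filter] at hp
        exact if_pos ((mem_union.1 (hV hp.1)).resolve_right hp.2)
      rw [h3, mul_one]
      refine prod_congr rfl fun p hp => if_neg ?_
      exact disjoint_right.1 (vt_disj D z B) (mem_inter.1 hp).2
    rw [h1]
    have hz1 : 1 ≤ z ^ 248 := Nat.one_le_pow _ _ (by omega)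
    by_cases hU : V ∩ Psm D z = ∅
    · rw [hU, prod_empty]
      exact hz1
    · refine bH_level hD hz _ inter_subset_right fun hb => h ?_
      unfold vtZ
      rw [hb, if_neg hU]
      split_ifs <;> simp
  · exact absurd rfl h

/-- sums over the subsets of a disjoint union -/
theorem vt_two {P Q₁ Q₂ : Finset ℕ} (g : Finset ℕ → Finset ℕ → ℝ)
    (hg : ∀ T ⊆ Q₁, ∀ U ⊆ Q₂, 0 ≤ g T U) :
    ∑ V ∈ P.powerset, (if V ⊆ Q₁ ∪ Q₂ then g (V ∩ Q₁) (V ∩ Q₂) else 0) ≤
      ∑ T ∈ Q₁.powerset, ∑ U ∈ Q₂.powerset, g T U := by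
  rw [← sum_filter, ← sum_product']
  have hinj : Set.InjOn (fun V : Finset ℕ => (V ∩ Q₁, V ∩ Q₂))
      (P.powerset.filter (fun V => V ⊆ Q₁ ∪ Q₂) : Finset (Finset ℕ)) := by
    intro V hV V' hV' h
    rw [mem_coe, mem_filter] at hV hV'
    rw [Prod.mk.injEq] at h
    have h1 : V = V ∩ Q₁ ∪ V ∩ Q₂ := by
      rw [← inter_union_distrib_left, inter_eq_left.2 hV.2]
    have h2 : V' = V' ∩ Q₁ ∪ V' ∩ Q₂ := by
      rw [← inter_union_distrib_left, inter_eq_left.2 hV'.2]
    rw [h1, h2, h.1, h.2]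
  rw [← sum_image (f := fun x : Finset ℕ × Finset ℕ => g x.1 x.2) hinj]
  refine sum_le_sum_of_subset_of_nonneg ?_ ?_
  · intro x hx
    rw [mem_image] at hx
    obtain ⟨V, -, rfl⟩ := hx
    rw [mem_product, mem_powerset, mem_powerset]
    exact ⟨inter_subset_right, inter_subset_right⟩
  · intro x hx _
    rw [mem_product, mem_powerset, mem_powerset] at hx
    exact hg _ hx.1 _ hx.2

theorem vt_prod_split {Q₁ Q₂ V : Finset ℕ} (hd : Disjoint Q₁ Q₂) (hV : V ⊆ Q₁ ∪ Q₂) (f : ℕ → ℝ) :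
    ∏ p ∈ V, f p = (∏ p ∈ V ∩ Q₁, f p) * ∏ p ∈ V ∩ Q₂, f p := by
  have h1 : V = V ∩ Q₁ ∪ V ∩ Q₂ := by
    rw [← inter_union_distrib_left, inter_eq_left.2 hV]
  have h2 : Disjoint (V ∩ Q₁) (V ∩ Q₂) :=
    hd.mono inter_subset_right inter_subset_right
  conv_lhs => rw [h1]
  rw [prod_union h2]

theorem vt_sumX {z B Y K : ℕ} {c : ℝ} (hB : Big (Pbig z B) B Y K c z) :
    ∑ T ∈ (Pbig z B).powerset.erase ∅, vtX c B T = 1 := by
  rw [← hB.sum]
  unfold QQ
  rw [sum_filter]
  refine sum_congr rfl fun T hT => ?_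
  rw [mem_erase, mem_powerset] at hT
  exact vtX_ne hB.hc B (fun p hp => hB.prime p (hT.2 hp)) hT.1

theorem vt_sumX2 {z B Y K : ℕ} {c : ℝ} (hB : Big (Pbig z B) B Y K c z) :
    ∑ T ∈ (Pbig z B).powerset.erase ∅, vtX c B T ^ 2 * ∏ p ∈ T, ((p : ℝ) - 1) ≤
      c / Real.log z := by
  have hc := hB.hc
  have hz3 : (3 : ℝ) ≤ z := hB.hD
  have hlz : 0 < Real.log z := Real.log_pos (by linarith)
  have h0 : c / Real.log z = ∑ T ∈ (Pbig z B).powerset.erase ∅, c / Real.log z * vtX c B T := by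
    rw [← mul_sum, vt_sumX hB, mul_one]
  rw [h0]
  refine sum_le_sum fun T hT => ?_
  rw [mem_erase, mem_powerset] at hT
  have hTp : ∀ p ∈ T, p.Prime := fun p hp => hB.prime p (hT.2 hp)
  have h2 := vt_prod_ge hTp hT.1
  rw [← vt_totient hTp, vtX_ne hc B hTp hT.1]
  split_ifs
  · have h3 : gw c (∏ p ∈ T, p) * (Nat.totient (∏ p ∈ T, p) : ℝ) ≤ c / Real.log z := by
      rw [gw_of_two_le _ h2]
      have htot : 0 < ((Nat.totient (∏ p ∈ T, p) : ℕ) : ℝ) := by
        exact_mod_cast Nat.totient_pos.2 (by omega)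
      have h4 : c / ((Nat.totient (∏ p ∈ T, p) : ℝ) * Real.log ((∏ p ∈ T, p : ℕ) : ℝ)) *
          (Nat.totient (∏ p ∈ T, p) : ℝ) = c / Real.log ((∏ p ∈ T, p : ℕ) : ℝ) := by
        have h5 : 0 < Real.log ((∏ p ∈ T, p : ℕ) : ℝ) := Real.log_pos (by exact_mod_cast h2)
        field_simp
      rw [h4]
      refine div_le_div_of_nonneg_left hc hlz ?_
      refine Real.log_le_log (by linarith) ?_
      obtain ⟨q, hq⟩ := nonempty_iff_ne_empty.2 hT.1
      refine (hB.ge q (hT.2 hq)).trans ?_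
      exact_mod_cast Nat.le_of_dvd (by omega) (dvd_prod_of_mem (fun p => p) hq)
    calc gw c (∏ p ∈ T, p) ^ 2 * (Nat.totient (∏ p ∈ T, p) : ℝ)
        = gw c (∏ p ∈ T, p) * (Nat.totient (∏ p ∈ T, p) : ℝ) * gw c (∏ p ∈ T, p) := by ring
      _ ≤ c / Real.log z * gw c (∏ p ∈ T, p) :=
          mul_le_mul_of_nonneg_right h3 (gw_nonneg hc _)
  · simp

theorem vtW_mass {P : Finset ℕ} {D z B Y K : ℕ} {c : ℝ} (hB : Big (Pbig z B) B Y K c z)
    (hD : Real.exp 40 ≤ D) (hz : D ≤ z) :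
    ∑ V ∈ P.powerset, vtW D z B c (c / Real.log z) V ^ 2 * ∏ p ∈ V, ((p : ℝ) - 1) ≤
      1 + (c / Real.log z + (c / Real.log z) ^ 2) * (24 * (Real.log D / Real.log z)) := by
  have hc := hB.hc
  have hz3 : (3 : ℝ) ≤ z := hB.hD
  have hlz : 0 < Real.log z := Real.log_pos (by linarith)
  obtain ⟨θ, hθ⟩ : ∃ θ : ℝ, θ = c / Real.log z := ⟨_, rfl⟩
  have hθ0 : 0 ≤ θ := by
    rw [hθ]
    positivity
  have hX2 := vt_sumX2 hB
  rw [← hθ] at hX2 ⊢
  have hm := bH_mass hD hz
  obtain ⟨m, hm'⟩ : ∃ m : ℝ, m = 24 * (Real.log D / Real.log z) := ⟨_, rfl⟩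
  rw [← hm'] at hm ⊢
  have hQ1 : ∀ T ⊆ Pbig z B, 0 ≤ ∏ p ∈ T, ((p : ℝ) - 1) := fun T hT =>
    prod_nonneg fun p hp => by
      have : (1 : ℝ) ≤ p := by exact_mod_cast (hB.prime p (hT hp)).one_le
      linarith
  have hQ2 : ∀ U ⊆ Psm D z, 0 ≤ ∏ p ∈ U, ((p : ℝ) - 1) := fun U hU =>
    prod_nonneg fun p hp => by
      have h1 := hU hp
      unfold Psm at h1
      rw [mem_filter] at h1
      have : (1 : ℝ) ≤ p := by exact_mod_cast h1.2.one_le
      linarith
  have hm0 : 0 ≤ m := (sum_nonneg fun U hU =>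
    mul_nonneg (sq_nonneg _) (hQ2 U (mem_powerset.1 hU))).trans hm
  set g : Finset ℕ → Finset ℕ → ℝ := fun T U =>
    (vtX c B T ^ 2 * ∏ p ∈ T, ((p : ℝ) - 1)) * (vtZ D z θ T U ^ 2 * ∏ p ∈ U, ((p : ℝ) - 1)) with hg
  have h1 : ∀ V ∈ P.powerset, vtW D z B c θ V ^ 2 * ∏ p ∈ V, ((p : ℝ) - 1) =
      if V ⊆ Pbig z B ∪ Psm D z then g (V ∩ Pbig z B) (V ∩ Psm D z) else 0 := by
    intro V _
    unfold vtW
    split_ifs with hV
    · rw [vt_prod_split (vt_disj D z B) hV, hg]
      ring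
    · rw [zero_pow two_ne_zero, zero_mul]
  rw [sum_congr rfl h1]
  refine (vt_two g ?_).trans ?_
  · intro T hT U hU
    exact mul_nonneg (mul_nonneg (sq_nonneg _) (hQ1 T hT)) (mul_nonneg (sq_nonneg _) (hQ2 U hU))
  rw [← sum_erase_add _ _ (empty_mem_powerset (Pbig z B))]
  have h2 : ∑ U ∈ (Psm D z).powerset, g ∅ U ≤ 1 + θ ^ 2 * m := by
    rw [← sum_erase_add _ _ (empty_mem_powerset (Psm D z))]
    have h3 : g ∅ ∅ = 1 := by
      rw [hg]
      simp [vtX_empty, vtZ]
    have h4 : ∑ U ∈ (Psm D z).powerset.erase ∅, g ∅ U ≤ θ ^ 2 * m := by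
      refine le_trans ?_ (mul_le_mul_of_nonneg_left hm (sq_nonneg θ))
      rw [mul_sum]
      refine le_trans (le_of_eq (sum_congr rfl fun U hU => ?_))
        (sum_le_sum_of_subset_of_nonneg (erase_subset ∅ (Psm D z).powerset) fun U hU _ =>
          mul_nonneg (sq_nonneg θ) (mul_nonneg (sq_nonneg _) (hQ2 U (mem_powerset.1 hU))))
      rw [hg]
      simp only [vtX_empty, prod_empty, one_pow, one_mul, vtZ, ne_eq, not_true_eq_false, if_false]
      rw [if_neg (mem_erase.1 hU).1]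
      ring
    rw [h3]
    linarith
  have h5 : ∑ T ∈ (Pbig z B).powerset.erase ∅, ∑ U ∈ (Psm D z).powerset, g T U ≤ θ * m := by
    have h6 : ∀ T ∈ (Pbig z B).powerset.erase ∅, ∑ U ∈ (Psm D z).powerset, g T U ≤
        (vtX c B T ^ 2 * ∏ p ∈ T, ((p : ℝ) - 1)) * m := by
      intro T hT
      rw [mem_erase, mem_powerset] at hT
      rw [hg]
      simp only
      rw [← mul_sum]
      refine mul_le_mul_of_nonneg_left ?_ (mul_nonneg (sq_nonneg _) (hQ1 T hT.2))
      refine le_trans (le_of_eq (sum_congr rfl fun U hU => ?_)) hm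
      unfold vtZ
      rw [if_pos hT.1]
    refine (sum_le_sum h6).trans ?_
    rw [← sum_mul]
    exact mul_le_mul_of_nonneg_right hX2 hm0
  linarith

theorem vtW_tot {P : Finset ℕ} {D z B Y K : ℕ} {c : ℝ} (hB : Big (Pbig z B) B Y K c z)
    (hD : 3 ≤ D) (hz : D ≤ z) :
    ∑ V ∈ P.powerset.erase ∅, vtW D z B c (c / Real.log z) V ≤
      2 * (1 + 2 * Real.log z) ^ 3 := by
  have hc := hB.hc
  have hz3 : (3 : ℝ) ≤ z := hB.hD
  have hlz : 0 < Real.log z := Real.log_pos (by linarith)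
  obtain ⟨θ, hθ⟩ : ∃ θ : ℝ, θ = c / Real.log z := ⟨_, rfl⟩
  have hθ0 : 0 ≤ θ := by
    rw [hθ]
    positivity
  have hθ1 : θ ≤ 1 := by
    rw [hθ, div_le_one hlz]
    exact hB.clog
  rw [← hθ]
  have ht := bH_tot hD hz
  obtain ⟨t, ht'⟩ : ∃ t : ℝ, t = (1 + 2 * Real.log z) ^ 3 := ⟨_, rfl⟩
  rw [← ht'] at ht ⊢
  have hb0 : ∀ U, 0 ≤ bH D z U := fun U => bH_nonneg U
  have ht0 : 0 ≤ t := (sum_nonneg fun U _ => hb0 U).trans ht
  set g : Finset ℕ → Finset ℕ → ℝ := fun T U =>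
    if T = ∅ ∧ U = ∅ then 0 else vtX c B T * vtZ D z θ T U with hg
  have h1 : ∑ V ∈ P.powerset.erase ∅, vtW D z B c θ V ≤ ∑ V ∈ P.powerset,
      (if V ⊆ Pbig z B ∪ Psm D z then g (V ∩ Pbig z B) (V ∩ Psm D z) else 0) := by
    rw [← sum_erase_add (f := fun V =>
      (if V ⊆ Pbig z B ∪ Psm D z then g (V ∩ Pbig z B) (V ∩ Psm D z) else 0)) _
      (empty_mem_powerset P)]
    have h2 : (if (∅ : Finset ℕ) ⊆ Pbig z B ∪ Psm D z then
        g (∅ ∩ Pbig z B) (∅ ∩ Psm D z) else 0) = 0 := by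
      rw [if_pos (empty_subset _), hg]
      simp
    rw [h2, add_zero]
    refine le_of_eq (sum_congr rfl fun V hV => ?_)
    unfold vtW
    split_ifs with hV'
    · rw [hg]
      simp only
      rw [if_neg]
      rintro ⟨h3, h4⟩
      apply (mem_erase.1 hV).1
      rw [← inter_eq_left.2 hV', inter_union_distrib_left, h3, h4, union_empty]
    · rfl
  refine h1.trans ((vt_two g ?_).trans ?_)
  · intro T _ U _
    rw [hg]
    simp only
    split_ifs
    · exact le_rfl
    · exact mul_nonneg (vtX_nonneg _ _ _) (vtZ_nonneg hθ0 _ _)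
  rw [← sum_erase_add _ _ (empty_mem_powerset (Pbig z B))]
  have h2 : ∑ U ∈ (Psm D z).powerset, g ∅ U ≤ t := by
    refine le_trans (sum_le_sum fun U _ => ?_) ht
    rw [hg]
    simp only
    split_ifs with h3
    · exact hb0 U
    · have h4 : U ≠ ∅ := fun h => h3 ⟨trivial, h⟩
      rw [vtX_empty, one_mul]
      unfold vtZ
      rw [if_neg (by simp), if_neg h4]
      exact mul_le_of_le_one_left (hb0 U) hθ1
  have h5 : ∑ T ∈ (Pbig z B).powerset.erase ∅, ∑ U ∈ (Psm D z).powerset, g T U ≤ t := by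
    have h6 : ∀ T ∈ (Pbig z B).powerset.erase ∅, ∑ U ∈ (Psm D z).powerset, g T U ≤
        vtX c B T * t := by
      intro T hT
      rw [mem_erase, mem_powerset] at hT
      refine le_trans ?_ (mul_le_mul_of_nonneg_left ht (vtX_nonneg c B T))
      rw [mul_sum]
      refine le_of_eq (sum_congr rfl fun U _ => ?_)
      rw [hg]
      simp only
      rw [if_neg fun h => hT.1 h.1]
      unfold vtZ
      rw [if_pos hT.1]
    refine (sum_le_sum h6).trans ?_
    rw [← sum_mul, vt_sumX hB, one_mul]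
  linarith

end Pool.Agent.H.MP_711652_nt.CG
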