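import Pool.Agent.H.MP_711652_nt.CG.VTs
import Pool.Agent.H.MP_711652_nt.CG.VTb

/-! # MP_711652, CG: the coefficients of `Pw` with the weight `LamF` for the small primes -/

set_option autoImplicit false

namespace Pool.Agent.H.MP_711652_nt.CG

open Finset Pool.Agent.H.MP_711652_nt.LG Pool.Agent.H.MP_711652_nt.G2 Pool.Agent.H.MP_711652_nt.CH

theorem vt_tail {D : ℕ} (hD : 2 ≤ D) (z : ℕ) :
    ∑ n ∈ Ioc D z, 1 / ((n : ℝ) - 1) ^ 2 ≤ 2 / (D : ℝ) := by
  have hD' : (2 : ℝ) ≤ D := by exact_mod_cast hD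
  have h1 : ∀ N, D ≤ N → ∑ n ∈ Ioc D N, 1 / ((n : ℝ) - 1) ^ 2 ≤
      1 / ((D : ℝ) - 1) - 1 / ((N : ℝ) - 1) := by
    intro N hN
    induction N, hN using Nat.le_induction with
    | base => simp
    | succ N hN ih =>
      rw [sum_Ioc_succ_top hN]
      have hN' : (2 : ℝ) ≤ N := hD'.trans (by exact_mod_cast hN)
      push_cast
      have h2 : 1 / ((N : ℝ) + 1 - 1) ^ 2 ≤ 1 / ((N : ℝ) - 1) - 1 / ((N : ℝ) + 1 - 1) := by
        rw [add_sub_cancel_right, div_sub_div _ _ (by linarith) (by linarith),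
          div_le_div_iff₀ (by positivity) (mul_pos (by linarith) (by linarith))]
        nlinarith
      linarith
  rcases le_total D z with h | h
  · refine (h1 z h).trans ?_
    have hz' : (2 : ℝ) ≤ z := hD'.trans (by exact_mod_cast h)
    have h2 : 0 ≤ 1 / ((z : ℝ) - 1) := div_nonneg zero_le_one (by linarith)
    have h3 : 1 / ((D : ℝ) - 1) ≤ 2 / D := by
      rw [div_le_div_iff₀ (by linarith) (by linarith)]
      linarith
    linarith
  · rw [Ioc_eq_empty (by omega), sum_empty]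
    positivity

theorem vt_E {ι : Type*} [Fintype ι] [DecidableEq ι] {D z Ks : ℕ} (hD : 2 ≤ D)
    (τ : Psm D z → Option ι) (hc : (abs_supp (Psm D z) τ).card ≤ Ks)
    (hsm : 100 * ((Ks : ℝ) * Fintype.card ι + (Fintype.card ι : ℝ) ^ 2) ≤ D) :
    ∏ p : Psm D z, (if τ p = none then
        1 + 3 * (2 * (Fintype.card ι : ℝ) / (((p : ℕ) : ℝ) - 1)) ^ 2
        else 1 + 2 * (2 * (Fintype.card ι : ℝ) / (((p : ℕ) : ℝ) - 1))) ≤ 2 := by
  have hD' : (2 : ℝ) ≤ D := by exact_mod_cast hD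
  obtain ⟨R, hR⟩ : ∃ R : ℝ, R = Fintype.card ι := ⟨_, rfl⟩
  have hR0 : 0 ≤ R := by
    rw [hR]
    positivity
  rw [← hR] at hsm ⊢
  have hpD : ∀ p ∈ Psm D z, (D : ℝ) ≤ (p : ℝ) - 1 := by
    intro p hp
    unfold Psm at hp
    rw [mem_filter, mem_Ioc] at hp
    have h1 : D + 1 ≤ p := by omega
    have h2 : ((D + 1 : ℕ) : ℝ) ≤ p := by exact_mod_cast h1
    push_cast at h2
    linarith
  have h1 : ∀ p : Psm D z, (if τ p = none then
        1 + 3 * (2 * R / (((p : ℕ) : ℝ) - 1)) ^ 2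
        else 1 + 2 * (2 * R / (((p : ℕ) : ℝ) - 1))) ≤
      Real.exp (12 * R ^ 2 * (1 / (((p : ℕ) : ℝ) - 1) ^ 2) +
        (if τ p ≠ none then 4 * R / D else 0)) := by
    intro p
    have hp := hpD p p.2
    have hp0 : (0 : ℝ) < ((p : ℕ) : ℝ) - 1 := by linarith
    have h2 : 0 ≤ 12 * R ^ 2 * (1 / (((p : ℕ) : ℝ) - 1) ^ 2) := by positivity
    by_cases h : τ p = none
    · rw [if_pos h, if_neg (not_not.2 h)]
      refine le_trans ?_ (Real.add_one_le_exp _)
      rw [add_zero, div_pow]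
      apply le_of_eq
      ring
    · rw [if_neg h, if_pos h]
      refine le_trans ?_ (Real.add_one_le_exp _)
      have h4 : 2 * (2 * R / (((p : ℕ) : ℝ) - 1)) ≤ 4 * R / D := by
        rw [← mul_div_assoc, ← mul_assoc]
        norm_num
        exact div_le_div_of_nonneg_left (by positivity) (by linarith) hp
      linarith
  refine (prod_le_prod (fun p _ => ?_) fun p _ => h1 p).trans ?_
  · have hp := hpD p p.2
    have hp0 : (0 : ℝ) < ((p : ℕ) : ℝ) - 1 := by linarith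
    split_ifs <;> positivity
  rw [← Real.exp_sum, sum_add_distrib, ← mul_sum]
  have h5 : ∑ p : Psm D z, 1 / ((((p : ℕ)) : ℝ) - 1) ^ 2 ≤ 2 / (D : ℝ) := by
    rw [sum_coe_sort (Psm D z) (fun p => 1 / ((p : ℝ) - 1) ^ 2)]
    refine le_trans (sum_le_sum_of_subset_of_nonneg (filter_subset _ _) fun n _ _ => ?_)
      (vt_tail hD z)
    positivity
  have h6 : ∑ p : Psm D z, (if τ p ≠ none then 4 * R / D else 0) ≤ Ks * (4 * R / D) := by
    rw [← sum_filter, sum_const, nsmul_eq_mul]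
    have h7 : ((univ : Finset (Psm D z)).filter (fun p => τ p ≠ none)).card =
        (abs_supp (Psm D z) τ).card := by
      unfold abs_supp
      rw [card_map]
    rw [h7]
    have h8 : ((abs_supp (Psm D z) τ).card : ℝ) ≤ Ks := by exact_mod_cast hc
    exact mul_le_mul_of_nonneg_right h8 (by positivity)
  have h9 : 12 * R ^ 2 * ∑ p : Psm D z, 1 / ((((p : ℕ)) : ℝ) - 1) ^ 2 ≤ 12 * R ^ 2 * (2 / D) :=
    mul_le_mul_of_nonneg_left h5 (by positivity)
  have h10 : 12 * R ^ 2 * (2 / D) + Ks * (4 * R / D) ≤ 1 / 2 := by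
    have h11 : 12 * R ^ 2 * (2 / D) + Ks * (4 * R / D) = (24 * R ^ 2 + 4 * (Ks * R)) / D := by
      ring
    rw [h11, div_le_iff₀ (by linarith)]
    have h12 : 0 ≤ (Ks : ℝ) * R := by positivity
    nlinarith [sq_nonneg R]
  obtain ⟨x, hx⟩ : ∃ x : ℝ, x = 12 * R ^ 2 * ∑ p : Psm D z, 1 / ((((p : ℕ)) : ℝ) - 1) ^ 2 +
    ∑ p : Psm D z, (if τ p ≠ none then 4 * R / D else 0) := ⟨_, rfl⟩
  rw [← hx]
  have hx2 : x ≤ 1 / 2 := by
    rw [hx]
    linarith
  have h13 := Real.add_one_le_exp (-x)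
  have h14 : Real.exp x * Real.exp (-x) = 1 := by
    rw [← Real.exp_add]
    simp
  have h15 := Real.exp_pos x
  nlinarith

theorem vt_pts_res {ι : Type*} [DecidableEq ι] {P Q : Finset ℕ} (h : Q ⊆ P) (ρ : P → Option ι)
    (i : ι) : pts Q (res h ρ) i = pts P ρ i ∩ Q := by
  ext n
  rw [mem_inter, vt_mem_pts, vt_mem_pts]
  constructor
  · rintro ⟨h1, h2⟩
    exact ⟨⟨h h1, h2⟩, h1⟩
  · rintro ⟨⟨h1, h2⟩, h3⟩
    exact ⟨h3, h2⟩

theorem vt_rr {ι : Type*} [DecidableEq ι] {P : Finset ℕ} (ρ : P → Option ι) (i : ι) :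
    rr P ρ i = ∏ p ∈ pts P ρ i, p := by
  rw [pts, prod_image (fun a _ b _ h => Subtype.ext h), prod_filter]
  rfl

theorem vt_bound {ι : Type*} [Fintype ι] [DecidableEq ι] {P : Finset ℕ}
    {D z B Y K Ks : ℕ} {c : ℝ} (hB : Big (Pbig z B) B Y K c z)
    (hPs : Psm D z ⊆ P) (hPb : Pbig z B ⊆ P) (hD : 2 ≤ D) (hz : D ≤ z)
    (hKs : ∀ T ⊆ Psm D z, ∏ p ∈ T, p ≤ (z ^ 248) ^ K → T.card ≤ Ks)
    (hsm : 100 * ((Ks : ℝ) * Fintype.card ι + (Fintype.card ι : ℝ) ^ 2) ≤ D)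
    (ρ : P → Option ι) (hg : gd (Pbig z B) (Psm D z) ρ) (γ : ℝ)
    (hγ : |γ| ≤ (∏ i, if i ∈ used (Pbig z B) (res hPb ρ) then bH D z (pts (Psm D z) (res hPs ρ) i)
        else if pts (Psm D z) (res hPs ρ) i = ∅ then 1 else 0) *
      ∏ p : Psm D z, (if res hPs ρ p = none then
        1 + 3 * (2 * (Fintype.card ι : ℝ) / (((p : ℕ) : ℝ) - 1)) ^ 2
        else 1 + 2 * (2 * (Fintype.card ι : ℝ) / (((p : ℕ) : ℝ) - 1)))) :
    |cf (Pbig z B) (chi (fun _ : ι => gw c) B) Y (res hPb ρ) * γ| ≤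
      vtM P (Pbig z B) (vtW D z B c (c / Real.log z)) K Y ρ := by
  have hc := hB.hc
  have hz3 : (3 : ℝ) ≤ z := hB.hD
  have hlz : 0 < Real.log z := Real.log_pos (by linarith)
  have hθ0 : 0 ≤ c / Real.log z := by positivity
  have hM0 := vtM_nonneg (P := P) (Q := Pbig z B) (ι := ι)
    (vtW_nonneg (D := D) (z := z) (B := B) (c := c) hθ0) K Y ρ
  by_cases hcf : cf (Pbig z B) (chi (fun _ : ι => gw c) B) Y (res hPb ρ) = 0
  · rw [hcf, zero_mul, abs_zero]
    exact hM0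
  have hDD : DD (Pbig z B) (res hPb ρ) ≤ Y := abs_cf_DD _ _ _ _ hcf
  have hcard : (used (Pbig z B) (res hPb ρ)).card ≤ K := used_card_le hB _ hDD
  obtain ⟨S, hS⟩ : ∃ S, S = used (Pbig z B) (res hPb ρ) := ⟨_, rfl⟩
  have hSi : ∀ i, i ∈ S ↔ pts P ρ i ∩ Pbig z B ≠ ∅ := by
    intro i
    rw [hS, vt_used, vt_pts_res]
  rw [← hS] at hγ hcard
  simp_rw [vt_pts_res hPs ρ] at hγ
  by_cases h0 : (∏ i, if i ∈ S then bH D z (pts P ρ i ∩ Psm D z)
        else if pts P ρ i ∩ Psm D z = ∅ then 1 else 0) = 0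
  · rw [h0, zero_mul] at hγ
    rw [abs_nonpos_iff.1 hγ, mul_zero, abs_zero]
    exact hM0
  have hne : ∀ i, (if i ∈ S then bH D z (pts P ρ i ∩ Psm D z)
        else if pts P ρ i ∩ Psm D z = ∅ then (1 : ℝ) else 0) ≠ 0 := fun i =>
    (prod_ne_zero_iff.1 h0) i (mem_univ i)
  have hU : ∀ i, i ∉ S → pts P ρ i ∩ Psm D z = ∅ := by
    intro i hi
    by_contra h1
    apply hne i
    rw [if_neg hi, if_neg h1]
  have hz1 : 1 ≤ z ^ 248 := Nat.one_le_pow _ _ (by omega)
  -- the factor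
  have hE : ∏ p : Psm D z, (if res hPs ρ p = none then
        1 + 3 * (2 * (Fintype.card ι : ℝ) / (((p : ℕ) : ℝ) - 1)) ^ 2
        else 1 + 2 * (2 * (Fintype.card ι : ℝ) / (((p : ℕ) : ℝ) - 1))) ≤ 2 := by
    refine vt_E hD _ (hKs _ (abs_supp_sub _ _) ?_) hsm
    rw [abs_DD_supp, DD_eq_prod_rr]
    have h1 : ∏ i, rr (Psm D z) (res hPs ρ) i ≤ ∏ i, (if i ∈ S then z ^ 248 else 1) := by
      refine prod_le_prod' fun i _ => ?_
      rw [vt_rr, vt_pts_res]
      split_ifs with hi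
      · refine bH_level hD hz _ inter_subset_right fun h1 => hne i ?_
        rw [if_pos hi, h1]
      · rw [hU i hi, prod_empty]
    refine h1.trans ?_
    rw [prod_ite_mem, univ_inter, prod_const]
    exact Nat.pow_le_pow_right hz1 hcard
  have hsub : ∀ i, pts P ρ i ⊆ Pbig z B ∪ Psm D z := by
    intro i n hn
    rw [vt_mem_pts] at hn
    obtain ⟨h1, h2⟩ := hn
    by_contra h3
    rw [mem_union, not_or] at h3
    rw [hg ⟨n, h1⟩ h3.1 h3.2] at h2
    exact absurd h2 (by simp)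
  have hcond : (used P ρ).card ≤ K ∧ vtD P (Pbig z B) ρ ≤ Y := by
    constructor
    · refine (card_le_card ?_).trans hcard
      intro i hi
      by_contra hiS
      rw [vt_used] at hi
      apply hi
      have h1 := hU i hiS
      have h2 : pts P ρ i ∩ Pbig z B = ∅ := by
        by_contra h3
        exact hiS ((hSi i).2 h3)
      rw [← inter_eq_left.2 (hsub i), inter_union_distrib_left, h1, h2, union_empty]
    · refine le_trans (le_of_eq ?_) hDD
      unfold vtD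
      rw [← vt_prod_pts ρ (fun p => if p ∈ Pbig z B then p else 1), DD_eq_prod_rr]
      refine prod_congr rfl fun i _ => ?_
      rw [vt_rr, vt_pts_res, prod_ite_mem]
  have hcf2 : |cf (Pbig z B) (chi (fun _ : ι => gw c) B) Y (res hPb ρ)| =
      ∏ i, vtX c B (pts P ρ i ∩ Pbig z B) := by
    unfold cf
    rw [if_pos hDD, abs_prod]
    refine prod_congr rfl fun i _ => ?_
    rw [vt_rr, vt_pts_res]
    rfl
  have hW : ∀ i, vtX c B (pts P ρ i ∩ Pbig z B) * (if i ∈ S then bH D z (pts P ρ i ∩ Psm D z)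
        else if pts P ρ i ∩ Psm D z = ∅ then 1 else 0) =
      vtW D z B c (c / Real.log z) (pts P ρ i) := by
    intro i
    unfold vtW
    rw [if_pos (hsub i)]
    congr 1
    unfold vtZ
    by_cases hi : i ∈ S
    · rw [if_pos hi, if_pos ((hSi i).1 hi)]
    · rw [if_neg hi, if_neg fun h => hi ((hSi i).2 h), if_pos (hU i hi), if_pos (hU i hi)]
  have hh0 : 0 ≤ ∏ i, (if i ∈ S then bH D z (pts P ρ i ∩ Psm D z)
        else if pts P ρ i ∩ Psm D z = ∅ then 1 else 0) := by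
    refine prod_nonneg fun i _ => ?_
    split_ifs
    · exact bH_nonneg _
    · exact zero_le_one
    · exact le_rfl
  rw [abs_mul, hcf2]
  unfold vtM
  rw [if_pos hcond]
  have hX0 : 0 ≤ ∏ i, vtX c B (pts P ρ i ∩ Pbig z B) := prod_nonneg fun i _ => vtX_nonneg _ _ _
  calc (∏ i, vtX c B (pts P ρ i ∩ Pbig z B)) * |γ|
      ≤ (∏ i, vtX c B (pts P ρ i ∩ Pbig z B)) *
        ((∏ i, (if i ∈ S then bH D z (pts P ρ i ∩ Psm D z)
        else if pts P ρ i ∩ Psm D z = ∅ then 1 else 0)) * 2) :=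
        mul_le_mul_of_nonneg_left (hγ.trans (mul_le_mul_of_nonneg_left hE hh0)) hX0
    _ = 2 * ((∏ i, vtX c B (pts P ρ i ∩ Pbig z B)) *
        (∏ i, (if i ∈ S then bH D z (pts P ρ i ∩ Psm D z)
        else if pts P ρ i ∩ Psm D z = ∅ then 1 else 0))) := by ring
    _ = 2 * ∏ i, vtW D z B c (c / Real.log z) (pts P ρ i) := by
        rw [← prod_mul_distrib, prod_congr rfl fun i _ => hW i]

/-- PROOF. `Q₁ = Pbig z B`, `Q₂ = Psm D z`.  For a set `S` of positions `multi` (`P = Q₂`, `κ = 2`, `b i = bF`, `h i = bH` for `i ∈ S`, the indicator of `∅` for `i ∉ S`) gives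
`γ_S`; `v ρ = [gd] cf (ρ|Q₁) γ_{used (ρ|Q₁)} (ρ|Q₂)`.  Majorant: `a ρ = 2 [gd] [at most K positions are occupied] |cf (ρ|Q₁)| ∏_i w_i` with `U_i = pts Q₂ (ρ|Q₂) i`,
`w_i = bH U_i` if `i` is used by `ρ|Q₁`, else `1` if `U_i = ∅` and `θ bH U_i` if `U_i ≠ ∅`, `θ = c / log z ≤ 1`.
`CoefK 4`: a small prime at a used position costs `2/(p-1)` (`bH_sub`), at an unused one `2/(p-1)` or `θ bH {p} ≤ 4/(p-1)`; a big prime at a used position: `gw c (r p) ≤ gw c r/(p-1)`;
at an unused position: `gw c p ≤ θ/(p-1)` and `bH U_i` replaces `θ bH U_i` or `1` (`bH_empty`); products over the occupied positions of `bH_level` give the level.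
`mass`: `4 ∏_i (1 + θ^2 m + θ m)`, `m = 24 log D / log z` (`bH_mass`), as `∑_r g(r)^2 φ(r) ≤ θ ∑ g = θ`.  `tot`: at most `K` occupied positions, each costs at most `2 (1 + 2 log z)^3`.
The factor 2: `∏_p (..) ≤ exp ((8 R Ks + 24 R^2) / D) ≤ 2`. -/
theorem vt {ι : Type*} [Fintype ι] [DecidableEq ι] {P : Finset ℕ} {A : ℕ → ι → ℕ → Prop}
    (hF : Forms P A) {D z B Y K Ks : ℕ} {c : ℝ} (hB : Big (Pbig z B) B Y K c z)
    (hPs : Psm D z ⊆ P) (hPb : Pbig z B ⊆ P) (hD : Real.exp 40 ≤ D) (hz : D ≤ z)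
    (hKs : ∀ T ⊆ Psm D z, ∏ p ∈ T, p ≤ (z ^ 248) ^ K → T.card ≤ Ks)
    (hsm : 100 * ((Ks : ℝ) * Fintype.card ι + (Fintype.card ι : ℝ) ^ 2) ≤ D) :
    ∃ v a : (P → Option ι) → ℝ,
      (∀ m, Pw (Pbig z B) A (LamF D z A) c B Y m = ∑ ρ : P → Option ι, v ρ * Phi P A ρ m) ∧
      CoefK 4 P a (Y * (z ^ 248) ^ K) ∧ (∀ ρ, |v ρ| ≤ a ρ) ∧
      mass P a ≤ 4 * Real.exp (Fintype.card ι * (c / Real.log z + (c / Real.log z) ^ 2) *
        (24 * (Real.log D / Real.log z))) ∧
      tot P a ≤ 2 * (1 + 2 * Fintype.card ι * (1 + 2 * Real.log z) ^ 3) ^ K := by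
  classical
  have hc := hB.hc
  have hz3 : (3 : ℝ) ≤ z := hB.hD
  have hlz : 0 < Real.log z := Real.log_pos (by linarith)
  have hθ0 : 0 ≤ c / Real.log z := by positivity
  have hD3 : 3 ≤ D := by
    have h1 := Real.add_one_le_exp (40 : ℝ)
    have h2 : (3 : ℝ) ≤ D := by linarith
    exact_mod_cast h2
  have hD2 : 2 ≤ D := by omega
  have hF2 : Forms (Psm D z) A := ⟨fun p hp => hF.prime p (hPs hp), fun p hp => hF.per p (hPs hp),
    fun p hp => hF.one p (hPs hp), fun p hp => hF.disj p (hPs hp)⟩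
  have hx : ∀ p ∈ Psm D z, (2 : ℝ) * Fintype.card ι ≤ (p : ℝ) - 1 := by
    intro p hp
    unfold Psm at hp
    rw [mem_filter, mem_Ioc] at hp
    have h1 : D + 1 ≤ p := by omega
    have h2 : ((D + 1 : ℕ) : ℝ) ≤ p := by exact_mod_cast h1
    push_cast at h2
    have h3 : (Fintype.card ι : ℝ) ≤ (Fintype.card ι : ℝ) ^ 2 := by
      exact_mod_cast Nat.le_self_pow two_ne_zero (Fintype.card ι)
    have h4 : 0 ≤ (Ks : ℝ) * Fintype.card ι := by positivity
    have h5 : (0 : ℝ) ≤ Fintype.card ι := by positivity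
    linarith
  set b : Finset ι → ι → Finset ℕ → ℝ := fun S i U =>
    if i ∈ S then bF D z U else if U = ∅ then 1 else 0 with hb
  set h' : Finset ι → ι → Finset ℕ → ℝ := fun S i U =>
    if i ∈ S then bH D z U else if U = ∅ then 1 else 0 with hh'
  have hbh : ∀ S i U, |b S i U| ≤ h' S i U := by
    intro S i U
    rw [hb, hh']
    simp only
    split_ifs
    · exact abs_bF_le hD hz U
    · rw [abs_one]
    · rw [abs_zero]
  have hs : ∀ S i U q, q ∈ Psm D z → q ∉ U →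
      h' S i (insert q U) ≤ h' S i U * (2 / ((q : ℝ) - 1)) := by
    intro S i U q hq hqU
    have hq1 : (0 : ℝ) ≤ (q : ℝ) - 1 := by
      have := hx q hq
      have h5 : (0 : ℝ) ≤ Fintype.card ι := by positivity
      linarith
    rw [hh']
    simp only
    by_cases hi : i ∈ S
    · rw [if_pos hi, if_pos hi]
      exact bH_sub hD2 hz U q hq hqU
    · rw [if_neg hi, if_neg hi, if_neg (insert_ne_empty _ _)]
      split_ifs <;> positivity
  have hmul := fun S => multi hF2 (κ := 2) (by norm_num) hx (b S) (h' S) (hbh S) (hs S)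
  choose γ hγ1 hγ2 using hmul
  refine ⟨fun ρ => if gd (Pbig z B) (Psm D z) ρ then
      cf (Pbig z B) (chi (fun _ : ι => gw c) B) Y (res hPb ρ) *
        γ (used (Pbig z B) (res hPb ρ)) (res hPs ρ) else 0,
    vtM P (Pbig z B) (vtW D z B c (c / Real.log z)) K Y, ?_, ?_, ?_, ?_, ?_⟩
  · intro m
    rw [Pw_eq]
    have e1 : ∀ σ : Pbig z B → Option ι, ∏ i ∈ used (Pbig z B) σ, LamF D z A i m =
        ∑ τ : Psm D z → Option ι, γ (used (Pbig z B) σ) τ * Phi (Psm D z) A τ m := by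
      intro σ
      rw [← hγ1]
      have e2 : ∏ i ∈ used (Pbig z B) σ, LamF D z A i m =
          ∏ i, (if i ∈ used (Pbig z B) σ then LamF D z A i m else 1) := by
        rw [prod_ite_mem, univ_inter]
      rw [e2]
      refine prod_congr rfl fun i _ => ?_
      rw [hb]
      simp only
      by_cases hi : i ∈ used (Pbig z B) σ
      · simp only [if_pos hi]
        exact LamF_expand A hD2 hz i m
      · simp only [if_neg hi]
        rw [sum_eq_single ∅]
        · simp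
        · intro U _ hU
          rw [if_neg hU, zero_mul]
        · intro h
          exact absurd (empty_mem_powerset _) h
    set F : (Pbig z B → Option ι) → (Psm D z → Option ι) → ℝ := fun σ τ =>
      (cf (Pbig z B) (chi (fun _ : ι => gw c) B) Y σ * γ (used (Pbig z B) σ) τ) *
        (Phi (Pbig z B) A σ m * Phi (Psm D z) A τ m) with hFdef
    have e3 := split_sum hPb hPs (vt_disj D z B) F
    calc ∑ σ : Pbig z B → Option ι, cf (Pbig z B) (chi (fun _ : ι => gw c) B) Y σ *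
          Phi (Pbig z B) A σ m * ∏ i ∈ used (Pbig z B) σ, LamF D z A i m
        = ∑ σ : Pbig z B → Option ι, ∑ τ : Psm D z → Option ι, F σ τ := by
          refine sum_congr rfl fun σ _ => ?_
          rw [e1, mul_sum]
          refine sum_congr rfl fun τ _ => ?_
          rw [hFdef]
          ring
      _ = _ := by
          rw [← e3]
          refine sum_congr rfl fun ρ _ => ?_
          by_cases hg : gd (Pbig z B) (Psm D z) ρ
          · simp only [if_pos hg, hFdef]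
            rw [gd_Phi hPb hPs (vt_disj D z B) A ρ hg m]
          · simp only [if_neg hg, zero_mul]
  · exact vtM_coef hF.prime (vtW_nonneg hθ0) (by norm_num)
      (fun V p hp hpV => vtW_sub hB hD2 hz V p (hF.prime p hp) hpV) K Y (z ^ 248)
      (Nat.one_le_pow _ _ (by omega)) fun V hV => vtW_level hD2 hz V hV
  · intro ρ
    simp only
    split_ifs with hg
    · exact vt_bound hB hPs hPb hD2 hz hKs hsm ρ hg _ (hγ2 _ _)
    · rw [abs_zero]
      exact vtM_nonneg (vtW_nonneg hθ0) K Y ρ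
  · have h1 := vtM_mass (ι := ι) (Q := Pbig z B) hF.prime K Y _ (vtW_mass (P := P) hB hD hz)
    rw [mul_assoc (Fintype.card ι : ℝ)]
    exact h1
  · have h1 := vtM_tot (ι := ι) (Q := Pbig z B) (vtW_nonneg hθ0) vtW_empty K Y _
      (vtW_tot (P := P) hB hD3 hz)
    have h2 : (Fintype.card ι : ℝ) * (2 * (1 + 2 * Real.log z) ^ 3) =
        2 * Fintype.card ι * (1 + 2 * Real.log z) ^ 3 := by ring
    rw [h2] at h1
    exact h1

end Pool.Agent.H.MP_711652_nt.CG
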