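import Pool.Agent.H.MP_711652_nt.CG.VA
import Pool.Agent.H.MP_711652_nt.CG.VB
import Pool.Agent.H.MP_711652_nt.CG.VC
import Pool.Agent.H.MP_711652_nt.CG.VE

/-! # MP_711652, CG: the coefficients of `Pw` with the weight `LamF` for the small primes -/

set_option autoImplicit false

namespace Pool.Agent.H.MP_711652_nt.CG

open Finset Pool.Agent.H.MP_711652_nt.LG Pool.Agent.H.MP_711652_nt.G2 Pool.Agent.H.MP_711652_nt.CH

private theorem vt2_mem_pts {ι : Type*} [DecidableEq ι] {P : Finset ℕ} (τ : P → Option ι) (i : ι)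
    (n : ℕ) : n ∈ pts P τ i ↔ ∃ h : n ∈ P, τ ⟨n, h⟩ = some i := by
  unfold pts
  rw [mem_image]
  constructor
  · rintro ⟨p, hp, rfl⟩
    exact ⟨p.2, (mem_filter.1 hp).2⟩
  · rintro ⟨h, h1⟩
    exact ⟨⟨n, h⟩, mem_filter.2 ⟨mem_univ _, h1⟩, rfl⟩

private theorem vt2_disj (D z B : ℕ) : Disjoint (Pbig z B) (Psm D z) := by
  rw [disjoint_left]
  intro p h1 h2
  have h3 := mem_Pbig.1 h1
  unfold Psm at h2
  rw [mem_filter, mem_Ioc] at h2
  omega

private theorem vt2_ph {ι : Type*} [DecidableEq ι] {P : Finset ℕ} (hP : ∀ p ∈ P, p.Prime)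
    (σ : P → Option ι) : 0 ≤ LG.ph P σ := by
  unfold LG.ph
  refine prod_nonneg fun p _ => ?_
  split_ifs
  · exact zero_le_one
  · have h2 : (1 : ℝ) < ((p : ℕ) : ℝ) := by exact_mod_cast (hP p p.2).one_lt
    linarith

/-- Change at a prime of `Q`. -/
private theorem vt2_res_self {ι : Type*} {P Q : Finset ℕ} (h : Q ⊆ P) (ρ : P → Option ι) (p : P)
    (hp : (p : ℕ) ∈ Q) (t : Option ι) :
    res h (Function.update ρ p t) = Function.update (res h ρ) ⟨p, hp⟩ t := by
  funext q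
  unfold res
  by_cases hq : q = ⟨(p : ℕ), hp⟩
  · subst hq
    have h1 : Function.update ρ p t ⟨(p : ℕ), h hp⟩ = t := Function.update_self p t ρ
    have h2 : Function.update (fun q : Q => ρ ⟨(q : ℕ), h q.2⟩) ⟨(p : ℕ), hp⟩ t ⟨(p : ℕ), hp⟩ = t :=
      Function.update_self _ _ _
    exact h1.trans h2.symm
  · rw [Function.update_of_ne hq, Function.update_of_ne]
    intro h1
    apply hq
    have h2 : ((⟨(q : ℕ), h q.2⟩ : P) : ℕ) = (p : ℕ) := congrArg Subtype.val h1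
    exact Subtype.ext h2

/-- Change at a prime outside `Q`. -/
private theorem vt2_res_ne {ι : Type*} {P Q : Finset ℕ} (h : Q ⊆ P) (ρ : P → Option ι) (p : P)
    (hp : (p : ℕ) ∉ Q) (t : Option ι) : res h (Function.update ρ p t) = res h ρ := by
  funext q
  unfold res
  rw [Function.update_of_ne]
  intro h1
  apply hp
  have h2 : ((⟨(q : ℕ), h q.2⟩ : P) : ℕ) = (p : ℕ) := congrArg Subtype.val h1
  rw [← h2]
  exact q.2

private theorem vt2_gd {ι : Type*} {P Q₁ Q₂ : Finset ℕ} (ρ : P → Option ι) (p : P)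
    (h0 : ρ p = none) (t : Option ι) (h : gd Q₁ Q₂ (Function.update ρ p t)) : gd Q₁ Q₂ ρ := by
  intro q hq1 hq2
  by_cases hqp : q = p
  · rw [hqp, h0]
  · have h1 := h q hq1 hq2
    rwa [Function.update_of_ne hqp] at h1

/-- The coefficient of the small primes against the majorant. -/
private theorem vt2_abs {ι : Type*} [Fintype ι] [DecidableEq ι] {D z B Y K Ks : ℕ} {c Λ : ℝ}
    (h : VH D z B Y K Ks (Fintype.card ι) c Λ) (σ : Pbig z B → Option ι)
    (τ : Psm D z → Option ι) (x : ℝ)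
    (hx : (used (Pbig z B) σ).card ≤ K →
      |x - ∏ i, wS (used (Pbig z B) σ) (bF D z) i (pts (Psm D z) τ i)| ≤
        1 / 1000 * ∏ i, wS (used (Pbig z B) σ) (bT D z Λ) i (pts (Psm D z) τ i)) :
    |cf (Pbig z B) (chi (fun _ : ι => gw c) B) Y σ * x| ≤ 1001 / 1000 * av D z B Y K c Λ σ τ := by
  have ha := av_nonneg h σ τ
  by_cases hcf : cf (Pbig z B) (chi (fun _ : ι => gw c) B) Y σ = 0
  · rw [hcf, zero_mul, abs_zero]
    positivity
  have hDD : DD (Pbig z B) σ ≤ Y := abs_cf_DD _ _ _ _ hcf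
  have hcard : (used (Pbig z B) σ).card ≤ K := used_card_le h.big _ hDD
  have hx := hx hcard
  obtain ⟨S, hS⟩ : ∃ S, S = used (Pbig z B) σ := ⟨_, rfl⟩
  rw [← hS] at hx hcard
  have hΛ0 : 0 < Λ := lt_of_lt_of_le one_pos h.hΛ
  have hbT : ∀ U, |bF D z U| ≤ bT D z Λ U := by
    intro U
    unfold bT
    have h1 : 0 ≤ bH D z U / Λ := div_nonneg (bH_nonneg U) hΛ0.le
    linarith
  have hw : ∀ i U, |wS S (bF D z) i U| ≤ wS S (bT D z Λ) i U := by
    intro i U
    unfold wS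
    split_ifs
    · exact hbT U
    · rw [abs_one]
    · rw [abs_zero]
  have hw0 : ∀ i U, 0 ≤ wS S (bT D z Λ) i U := fun i U => (abs_nonneg _).trans (hw i U)
  have h1 : |∏ i, wS S (bF D z) i (pts (Psm D z) τ i)| ≤
      ∏ i, wS S (bT D z Λ) i (pts (Psm D z) τ i) := by
    rw [abs_prod]
    exact prod_le_prod (fun i _ => abs_nonneg _) fun i _ => hw i _
  have h2 : |x| ≤ 1001 / 1000 * ∏ i, wS S (bT D z Λ) i (pts (Psm D z) τ i) := by
    have h3 : |x| ≤ |x - ∏ i, wS S (bF D z) i (pts (Psm D z) τ i)| +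
        |∏ i, wS S (bF D z) i (pts (Psm D z) τ i)| := by
      have h4 := abs_add_le (x - ∏ i, wS S (bF D z) i (pts (Psm D z) τ i))
        (∏ i, wS S (bF D z) i (pts (Psm D z) τ i))
      rwa [sub_add_cancel] at h4
    linarith
  by_cases h0 : ∏ i, wS S (bT D z Λ) i (pts (Psm D z) τ i) = 0
  · rw [h0, mul_zero] at h2
    rw [abs_nonpos_iff.1 h2, mul_zero, abs_zero]
    positivity
  have hne : ∀ i, wS S (bT D z Λ) i (pts (Psm D z) τ i) ≠ 0 := fun i =>
    (prod_ne_zero_iff.1 h0) i (mem_univ i)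
  have hU : ∀ i, i ∉ S → pts (Psm D z) τ i = ∅ := by
    intro i hi
    by_contra h4
    apply hne i
    unfold wS
    rw [if_neg hi, if_neg h4]
  have hused : used (Psm D z) τ ⊆ S := by
    intro i hi
    by_contra hiS
    rw [mem_used] at hi
    obtain ⟨p, hp⟩ := hi
    have h4 : (p : ℕ) ∈ pts (Psm D z) τ i := (vt2_mem_pts τ i p).2 ⟨p.2, hp⟩
    rw [hU i hiS] at h4
    exact notMem_empty _ h4
  have hav : av D z B Y K c Λ σ τ = |cf (Pbig z B) (chi (fun _ : ι => gw c) B) Y σ| *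
      ∏ i, wS S (bT D z Λ) i (pts (Psm D z) τ i) := by
    unfold av
    rw [← hS, union_eq_left.2 hused, if_pos hcard]
    congr 1
    refine prod_congr rfl fun i _ => ?_
    unfold wg wS
    by_cases hi : i ∈ S
    · rw [if_pos hi, if_pos hi]
    · rw [if_neg hi, if_neg hi, if_pos (hU i hi), if_pos (hU i hi)]
  rw [hav, abs_mul]
  calc |cf (Pbig z B) (chi (fun _ : ι => gw c) B) Y σ| * |x|
      ≤ |cf (Pbig z B) (chi (fun _ : ι => gw c) B) Y σ| *
        (1001 / 1000 * ∏ i, wS S (bT D z Λ) i (pts (Psm D z) τ i)) :=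
        mul_le_mul_of_nonneg_left h2 (abs_nonneg _)
    _ = _ := by ring

/-- PROOF. `VH` holds with `r = card ι`.  `Q₁ = Pbig z B`, `Q₂ = Psm D z` are disjoint subsets of `P`.  For a set `S` of at most `K` positions `gam_ex` gives `γ_S`.
`v ρ = [gd Q₁ Q₂ ρ] cf (res ρ) γ_{used (res ρ)} (res ρ)`, `a ρ = [gd Q₁ Q₂ ρ] (1 + 1/1000) av (res ρ) (res ρ)` (first `res` to `Q₁`, second to `Q₂`).
Expansion: `Pw = PsiL`, `split_sum`, `gd_Phi`.  `|v| ≤ a`: `cf ≠ 0` implies that at most `K` positions are used (`h.big.level`); `∏ wS S bT = ∏ wg` if `γ ≠ 0`-terms live on `S`, in general `∏ wS S bT (pts i) ≤ ∏ wg`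
(equal if only positions of `S` carry small primes, otherwise the left side is `0`).
`CoefK`: `av_sub1`, `av_sub2`, outside `Q₁ ∪ Q₂` the left side is `0`; level: `av_level`, `gd_DD`.  Mass: `split_sum`, `gd_ph`, `av_mass`, `gam_mass`: `(1001/1000)^2 (6/5) / (9/10) ≤ 2`.  Total: `av_tot`. -/
theorem vt2 {ι : Type*} [Fintype ι] [DecidableEq ι] {P : Finset ℕ} {A : ℕ → ι → ℕ → Prop}
    (hF : Forms P A) {D z B Y K Ks : ℕ} {c Λ : ℝ} (hB : Big (Pbig z B) B Y K c z)
    (hPs : Psm D z ⊆ P) (hPb : Pbig z B ⊆ P) (hD : Real.exp 40 ≤ D) (hz : D ≤ z)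
    (hKs : ∀ T ⊆ Psm D z, ∏ p ∈ T, p ≤ (z ^ 248) ^ K → T.card ≤ Ks) (hΛ : 1 ≤ Λ)
    (hΛ2 : 1000 * Real.exp 21 * Real.log D * (K + 1) ≤ Λ)
    (hR : 1000 * (Fintype.card ι : ℝ) ≤ Λ ^ 2)
    (hsm : 1000000 * (Λ * Fintype.card ι * Ks + Λ ^ 2 * (Fintype.card ι : ℝ) ^ 2 +
      Λ ^ 4 * ((K : ℝ) ^ 2 + 1)) ≤ D) :
    ∃ v a : (P → Option ι) → ℝ,
      (∀ m, Pw (Pbig z B) A (LamF D z A) c B Y m = ∑ ρ : P → Option ι, v ρ * Phi P A ρ m) ∧
      CoefK (4 * Λ) P a (Y * (z ^ 248) ^ K) ∧ (∀ ρ, |v ρ| ≤ a ρ) ∧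
      mass P a ≤ 2 * mass P v ∧
      tot P a ≤ 2 * (1 + 4 * Fintype.card ι * (1 + 2 * Real.log z) ^ 3) ^ K := by
  classical
  have hV : VH D z B Y K Ks (Fintype.card ι) c Λ := ⟨hB, hD, hz, hKs, hΛ, hΛ2, hR, hsm⟩
  have hd := vt2_disj D z B
  have hF2 : Forms (Psm D z) A := ⟨fun p hp => hF.prime p (hPs hp), fun p hp => hF.per p (hPs hp),
    fun p hp => hF.one p (hPs hp), fun p hp => hF.disj p (hPs hp)⟩
  have hΛ0 : 0 < Λ := lt_of_lt_of_le one_pos hΛ
  have hlz : 0 ≤ Real.log z := Real.log_natCast_nonneg z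
  have hex : ∀ S : Finset ι, ∃ γ : (Psm D z → Option ι) → ℝ, S.card ≤ K →
      (∀ m, LamS (LamF D z A) S m = ∑ τ : Psm D z → Option ι, γ τ * Phi (Psm D z) A τ m) ∧
      ∀ τ, |γ τ - ∏ i, wS S (bF D z) i (pts (Psm D z) τ i)| ≤
        1 / 1000 * ∏ i, wS S (bT D z Λ) i (pts (Psm D z) τ i) := by
    intro S
    by_cases hS : S.card ≤ K
    · obtain ⟨γ, h1, h2⟩ := gam_ex hV hF2 S hS
      exact ⟨γ, fun _ => ⟨h1, h2⟩⟩
    · exact ⟨0, fun h => absurd h hS⟩
  choose γ hγ using hex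
  have hcK : ∀ σ : Pbig z B → Option ι, cf (Pbig z B) (chi (fun _ : ι => gw c) B) Y σ ≠ 0 →
      (used (Pbig z B) σ).card ≤ K := fun σ h => used_card_le hB _ (abs_cf_DD _ _ _ _ h)
  have hph1 : ∀ σ : Pbig z B → Option ι, 0 ≤ LG.ph (Pbig z B) σ := vt2_ph hB.prime
  have hph2 : ∀ τ : Psm D z → Option ι, 0 ≤ LG.ph (Psm D z) τ := vt2_ph hF2.prime
  have hval : ∀ ρ : P → Option ι, |if gd (Pbig z B) (Psm D z) ρ then
      cf (Pbig z B) (chi (fun _ : ι => gw c) B) Y (res hPb ρ) *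
        γ (used (Pbig z B) (res hPb ρ)) (res hPs ρ) else 0| ≤
      (if gd (Pbig z B) (Psm D z) ρ then
      1001 / 1000 * av D z B Y K c Λ (res hPb ρ) (res hPs ρ) else 0) := by
    intro ρ
    by_cases hg : gd (Pbig z B) (Psm D z) ρ
    · simp only [if_pos hg]
      exact vt2_abs hV _ _ _ fun h => (hγ _ h).2 _
    · simp only [if_neg hg, abs_zero]
      exact le_rfl
  have ha0 : ∀ ρ : P → Option ι, 0 ≤ (if gd (Pbig z B) (Psm D z) ρ then
      1001 / 1000 * av D z B Y K c Λ (res hPb ρ) (res hPs ρ) else 0) := fun ρ =>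
    (abs_nonneg _).trans (hval ρ)
  refine ⟨fun ρ => if gd (Pbig z B) (Psm D z) ρ then
      cf (Pbig z B) (chi (fun _ : ι => gw c) B) Y (res hPb ρ) *
        γ (used (Pbig z B) (res hPb ρ)) (res hPs ρ) else 0,
    fun ρ => if gd (Pbig z B) (Psm D z) ρ then
      1001 / 1000 * av D z B Y K c Λ (res hPb ρ) (res hPs ρ) else 0, ?_, ⟨hF.prime, ha0, ?_, ?_⟩,
    hval, ?_, ?_⟩
  · -- expansion
    intro m
    rw [Pw_eq]
    set F : (Pbig z B → Option ι) → (Psm D z → Option ι) → ℝ := fun σ τ =>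
      (cf (Pbig z B) (chi (fun _ : ι => gw c) B) Y σ * γ (used (Pbig z B) σ) τ) *
        (Phi (Pbig z B) A σ m * Phi (Psm D z) A τ m) with hFdef
    have e3 := split_sum hPb hPs hd F
    calc ∑ σ : Pbig z B → Option ι, cf (Pbig z B) (chi (fun _ : ι => gw c) B) Y σ *
          Phi (Pbig z B) A σ m * ∏ i ∈ used (Pbig z B) σ, LamF D z A i m
        = ∑ σ : Pbig z B → Option ι, ∑ τ : Psm D z → Option ι, F σ τ := by
          refine sum_congr rfl fun σ _ => ?_
          by_cases hcf : cf (Pbig z B) (chi (fun _ : ι => gw c) B) Y σ = 0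
          · rw [hcf, zero_mul, zero_mul]
            symm
            refine sum_eq_zero fun τ _ => ?_
            rw [hFdef]
            simp only
            rw [hcf, zero_mul, zero_mul]
          · have e1 := (hγ _ (hcK σ hcf)).1 m
            unfold LamS at e1
            rw [e1, mul_sum]
            refine sum_congr rfl fun τ _ => ?_
            rw [hFdef]
            ring
      _ = _ := by
          rw [← e3]
          refine sum_congr rfl fun ρ _ => ?_
          by_cases hg : gd (Pbig z B) (Psm D z) ρ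
          · simp only [if_pos hg, hFdef]
            rw [gd_Phi hPb hPs hd A ρ hg m]
          · simp only [if_neg hg, zero_mul]
  · -- a further prime
    intro ρ p i hp
    have hp1 : (0 : ℝ) < ((p : ℕ) : ℝ) - 1 := by
      have h2 : (1 : ℝ) < ((p : ℕ) : ℝ) := by exact_mod_cast (hF.prime p p.2).one_lt
      linarith
    have hx0 : 0 ≤ 4 * Λ / (((p : ℕ) : ℝ) - 1) := by positivity
    by_cases hg : gd (Pbig z B) (Psm D z) (Function.update ρ p (some i))
    swap
    · simp only [if_neg hg]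
      exact mul_nonneg (ha0 ρ) hx0
    have hg' := vt2_gd ρ p hp _ hg
    simp only [if_pos hg, if_pos hg']
    by_cases h1 : (p : ℕ) ∈ Pbig z B
    · have h2 : (p : ℕ) ∉ Psm D z := fun h => disjoint_left.1 hd h1 h
      rw [vt2_res_self hPb ρ p h1, vt2_res_ne hPs ρ p h2]
      have h3 := av_sub2 hV (res hPb ρ) (res hPs ρ) ⟨p, h1⟩ i hp
      rw [mul_assoc]
      exact mul_le_mul_of_nonneg_left h3 (by norm_num)
    · by_cases h2 : (p : ℕ) ∈ Psm D z
      · rw [vt2_res_self hPs ρ p h2, vt2_res_ne hPb ρ p h1]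
        have h3 := av_sub1 hV (res hPb ρ) (res hPs ρ) ⟨p, h2⟩ i hp
        rw [mul_assoc]
        exact mul_le_mul_of_nonneg_left h3 (by norm_num)
      · have h3 := hg p h1 h2
        rw [Function.update_self] at h3
        exact absurd h3 (by simp)
  · -- level
    intro ρ h0
    by_cases hg : gd (Pbig z B) (Psm D z) ρ
    swap
    · simp only [if_neg hg] at h0
      exact absurd rfl h0
    simp only [if_pos hg] at h0
    have h1 : av D z B Y K c Λ (res hPb ρ) (res hPs ρ) ≠ 0 := fun h => h0 (by rw [h, mul_zero])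
    obtain ⟨h2, h3⟩ := av_level hV _ _ h1
    rw [gd_DD hPb hPs hd ρ hg]
    exact Nat.mul_le_mul h2 h3
  · -- mass
    have e1 : mass P (fun ρ : P → Option ι => if gd (Pbig z B) (Psm D z) ρ then
        1001 / 1000 * av D z B Y K c Λ (res hPb ρ) (res hPs ρ) else 0) =
        (1001 / 1000) ^ 2 * ∑ σ : Pbig z B → Option ι, ∑ τ : Psm D z → Option ι,
          av D z B Y K c Λ σ τ ^ 2 * (LG.ph (Pbig z B) σ * LG.ph (Psm D z) τ) := by
      rw [← split_sum hPb hPs hd (fun σ τ => av D z B Y K c Λ σ τ ^ 2 *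
        (LG.ph (Pbig z B) σ * LG.ph (Psm D z) τ)), mul_sum]
      unfold mass
      refine sum_congr rfl fun ρ _ => ?_
      by_cases hg : gd (Pbig z B) (Psm D z) ρ
      · simp only [if_pos hg]
        rw [gd_ph hPb hPs hd ρ hg]
        ring
      · simp only [if_neg hg]
        ring
    have e2 : mass P (fun ρ : P → Option ι => if gd (Pbig z B) (Psm D z) ρ then
        cf (Pbig z B) (chi (fun _ : ι => gw c) B) Y (res hPb ρ) *
        γ (used (Pbig z B) (res hPb ρ)) (res hPs ρ) else 0) =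
        ∑ σ : Pbig z B → Option ι, ∑ τ : Psm D z → Option ι,
          (cf (Pbig z B) (chi (fun _ : ι => gw c) B) Y σ * γ (used (Pbig z B) σ) τ) ^ 2 *
            (LG.ph (Pbig z B) σ * LG.ph (Psm D z) τ) := by
      rw [← split_sum hPb hPs hd (fun σ τ => (cf (Pbig z B) (chi (fun _ : ι => gw c) B) Y σ *
        γ (used (Pbig z B) σ) τ) ^ 2 * (LG.ph (Pbig z B) σ * LG.ph (Psm D z) τ))]
      unfold mass
      refine sum_congr rfl fun ρ _ => ?_
      by_cases hg : gd (Pbig z B) (Psm D z) ρ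
      · simp only [if_pos hg]
        rw [gd_ph hPb hPs hd ρ hg]
      · simp only [if_neg hg]
        ring
    rw [e1, e2]
    have e3 := av_mass (ι := ι) hV
    have e4 : 9 / 10 * ∑ σ : Pbig z B → Option ι,
        cf (Pbig z B) (chi (fun _ : ι => gw c) B) Y σ ^ 2 * LG.ph (Pbig z B) σ *
          mb (Psm D z) (bF D z) ^ (used (Pbig z B) σ).card ≤
        ∑ σ : Pbig z B → Option ι, ∑ τ : Psm D z → Option ι,
          (cf (Pbig z B) (chi (fun _ : ι => gw c) B) Y σ * γ (used (Pbig z B) σ) τ) ^ 2 *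
            (LG.ph (Pbig z B) σ * LG.ph (Psm D z) τ) := by
      rw [mul_sum]
      refine sum_le_sum fun σ _ => ?_
      have e5 : ∑ τ : Psm D z → Option ι,
          (cf (Pbig z B) (chi (fun _ : ι => gw c) B) Y σ * γ (used (Pbig z B) σ) τ) ^ 2 *
            (LG.ph (Pbig z B) σ * LG.ph (Psm D z) τ) =
          cf (Pbig z B) (chi (fun _ : ι => gw c) B) Y σ ^ 2 * LG.ph (Pbig z B) σ *
            ∑ τ : Psm D z → Option ι, γ (used (Pbig z B) σ) τ ^ 2 * LG.ph (Psm D z) τ := by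
        rw [mul_sum]
        refine sum_congr rfl fun τ _ => ?_
        ring
      rw [e5]
      by_cases hcf : cf (Pbig z B) (chi (fun _ : ι => gw c) B) Y σ = 0
      · rw [hcf]
        simp
      · have hK := hcK σ hcf
        have e6 := gam_mass hV (used (Pbig z B) σ) hK (γ (used (Pbig z B) σ)) (hγ _ hK).2
        have e7 : 0 ≤ cf (Pbig z B) (chi (fun _ : ι => gw c) B) Y σ ^ 2 * LG.ph (Pbig z B) σ :=
          mul_nonneg (sq_nonneg _) (hph1 σ)
        have e8 := mul_le_mul_of_nonneg_left e6 e7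
        refine le_trans (le_of_eq ?_) e8
        ring
    obtain ⟨x, hx⟩ : ∃ x, x = ∑ σ : Pbig z B → Option ι,
        cf (Pbig z B) (chi (fun _ : ι => gw c) B) Y σ ^ 2 * LG.ph (Pbig z B) σ *
          mb (Psm D z) (bF D z) ^ (used (Pbig z B) σ).card := ⟨_, rfl⟩
    have hx0 : 0 ≤ x := by
      rw [hx]
      refine sum_nonneg fun σ _ => mul_nonneg (mul_nonneg (sq_nonneg _) (hph1 σ)) (pow_nonneg ?_ _)
      unfold mb
      refine sum_nonneg fun U hU => mul_nonneg (sq_nonneg _) (prod_nonneg fun p hp => ?_)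
      have h2 : (1 : ℝ) < (p : ℝ) := by
        exact_mod_cast (hF2.prime p (mem_powerset.1 hU hp)).one_lt
      linarith
    rw [← hx] at e3 e4
    have e9 : (1001 / 1000 : ℝ) ^ 2 * ∑ σ : Pbig z B → Option ι, ∑ τ : Psm D z → Option ι,
          av D z B Y K c Λ σ τ ^ 2 * (LG.ph (Pbig z B) σ * LG.ph (Psm D z) τ) ≤
        (1001 / 1000 : ℝ) ^ 2 * (6 / 5 * x) :=
      mul_le_mul_of_nonneg_left e3 (by norm_num)
    linarith
  · -- total
    have e1 : tot P (fun ρ : P → Option ι => if gd (Pbig z B) (Psm D z) ρ then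
        1001 / 1000 * av D z B Y K c Λ (res hPb ρ) (res hPs ρ) else 0) =
        1001 / 1000 * ∑ σ : Pbig z B → Option ι, ∑ τ : Psm D z → Option ι,
          av D z B Y K c Λ σ τ := by
      rw [← split_sum hPb hPs hd (fun σ τ => av D z B Y K c Λ σ τ), mul_sum]
      unfold tot
      refine sum_congr rfl fun ρ _ => ?_
      by_cases hg : gd (Pbig z B) (Psm D z) ρ
      · simp only [if_pos hg]
      · simp only [if_neg hg, mul_zero]
    rw [e1]
    have e2 := av_tot (ι := ι) hV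
    have e3 : 0 ≤ (1 + 4 * (Fintype.card ι : ℝ) * (1 + 2 * Real.log z) ^ 3) ^ K := by positivity
    linarith

end Pool.Agent.H.MP_711652_nt.CG
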